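import Pool.Agent.Lib.MP_b685ef_ag.AS.Spec2

/-!
# MP_b685ef_ag, theorem AS, module DIAG: (S) for diagonal leading forms
-/

set_option linter.all false

namespace ASur

open Finset

namespace DIAGM

/-- The coefficients of a power of `α x^a + β y^b`. -/
theorem term {k : Type} [Field k] (a b n : ℕ) (α β : k) (w : Fin 2 → ℕ) :
    cf ((MvPolynomial.monomial (Finsupp.single 0 a) α +
      MvPolynomial.monomial (Finsupp.single 1 b) β : MvPolynomial (Fin 2) k) ^ n) w =
    ∑ i ∈ range (n + 1), (if w 0 = a * i ∧ w 1 = b * (n - i) then α ^ i * β ^ (n - i) else 0) *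
      ((n.choose i : ℕ) : k) := by
  classical
  unfold cf
  rw [add_pow, MvPolynomial.coeff_sum]
  refine Finset.sum_congr rfl fun i _ => ?_
  have h4 : ((n.choose i : ℕ) : MvPolynomial (Fin 2) k) =
      MvPolynomial.C ((n.choose i : ℕ) : k) := (map_natCast MvPolynomial.C _).symm
  rw [h4, mul_comm _ (MvPolynomial.C ((n.choose i : ℕ) : k)), MvPolynomial.coeff_C_mul,
    mul_comm ((n.choose i : ℕ) : k), MvPolynomial.monomial_pow, MvPolynomial.monomial_pow,
    MvPolynomial.monomial_mul, MvPolynomial.coeff_monomial]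
  congr 1
  have hiff : (i • Finsupp.single (0 : Fin 2) a + (n - i) • Finsupp.single (1 : Fin 2) b =
      Finsupp.equivFunOnFinite.symm w) ↔ (w 0 = a * i ∧ w 1 = b * (n - i)) := by
    have h5 : (Finsupp.single (1 : Fin 2) b) 0 = 0 := by simp
    have h6 : (Finsupp.single (0 : Fin 2) a) 1 = 0 := by simp
    constructor
    · intro h
      have e0 := DFunLike.congr_fun h 0
      have e1 := DFunLike.congr_fun h 1
      simp only [Finsupp.coe_add, Finsupp.coe_smul, Pi.add_apply, Pi.smul_apply, smul_eq_mul,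
        Finsupp.single_eq_same, Finsupp.equivFunOnFinite_symm_apply_apply] at e0 e1
      rw [h5, mul_zero, add_zero] at e0
      rw [h6, mul_zero, zero_add] at e1
      exact ⟨by rw [← e0, mul_comm], by rw [← e1, mul_comm]⟩
    · rintro ⟨e0, e1⟩
      ext s
      rw [Finsupp.equivFunOnFinite_symm_apply_apply]
      fin_cases s
      · show (i • Finsupp.single (0 : Fin 2) a + (n - i) • Finsupp.single (1 : Fin 2) b) 0 = w 0
        simp only [Finsupp.coe_add, Finsupp.coe_smul, Pi.add_apply, Pi.smul_apply, smul_eq_mul,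
          Finsupp.single_eq_same]
        rw [h5, mul_zero, add_zero, e0, mul_comm]
      · show (i • Finsupp.single (0 : Fin 2) a + (n - i) • Finsupp.single (1 : Fin 2) b) 1 = w 1
        simp only [Finsupp.coe_add, Finsupp.coe_smul, Pi.add_apply, Pi.smul_apply, smul_eq_mul,
          Finsupp.single_eq_same]
        rw [h6, mul_zero, zero_add, e1, mul_comm]
  by_cases hc : w 0 = a * i ∧ w 1 = b * (n - i)
  · rw [if_pos (hiff.2 hc), if_pos hc]
  · rw [if_neg fun h => hc (hiff.1 h), if_neg hc]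

theorem cf_eq {k : Type} [Field k] {a b n j : ℕ} (ha : 0 < a) (hj : j ≤ n) (α β : k)
    (w : Fin 2 → ℕ) (h0 : w 0 = a * j) (h1 : w 1 = b * (n - j)) :
    cf ((MvPolynomial.monomial (Finsupp.single 0 a) α +
      MvPolynomial.monomial (Finsupp.single 1 b) β : MvPolynomial (Fin 2) k) ^ n) w =
    α ^ j * β ^ (n - j) * ((n.choose j : ℕ) : k) := by
  rw [term, Finset.sum_eq_single j]
  · rw [if_pos ⟨h0, h1⟩]
  · intro i _ hij
    rw [if_neg, zero_mul]
    rintro ⟨h2, -⟩
    rw [h0] at h2
    exact hij (Nat.eq_of_mul_eq_mul_left ha h2).symm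
  · intro h
    exfalso
    apply h
    rw [mem_range]
    omega

theorem cf_ne {k : Type} [Field k] {a b n : ℕ} (α β : k) (w : Fin 2 → ℕ)
    (h : cf ((MvPolynomial.monomial (Finsupp.single 0 a) α +
      MvPolynomial.monomial (Finsupp.single 1 b) β : MvPolynomial (Fin 2) k) ^ n) w ≠ 0) :
    ∃ i, w 0 = a * i := by
  rw [term] at h
  obtain ⟨i, -, hi⟩ := Finset.exists_ne_zero_of_sum_ne_zero h
  by_contra hc
  apply hi
  rw [if_neg, zero_mul]
  rintro ⟨h2, -⟩
  exact hc ⟨i, h2⟩

/-- Arithmetic of the parameters. -/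
theorem arith {p a b : ℕ} (hp : 1 < p) (ha : 2 ≤ a) (hb : 2 ≤ b) (hdvd : Nat.lcm a b ∣ p - 1) :
    ∃ A B c : ℕ, 0 < A ∧ 0 < B ∧ 0 < c ∧ Nat.lcm a b = a * A ∧ Nat.lcm a b = b * B ∧
      Nat.lcm a b / a = A ∧ Nat.lcm a b / b = B ∧ (p - 1) / Nat.lcm a b = c ∧
      p - 1 = Nat.lcm a b * c ∧ (p - 1) / a = A * c ∧ (p - 1) / b = B * c := by
  obtain ⟨A, hA⟩ := Nat.dvd_lcm_left a b
  obtain ⟨B, hB⟩ := Nat.dvd_lcm_right a b
  obtain ⟨c, hc⟩ := hdvd
  have hD : 0 < Nat.lcm a b := Nat.lcm_pos (by omega) (by omega)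
  have hA0 : 0 < A := by
    rcases Nat.eq_zero_or_pos A with h | h
    · rw [h, mul_zero] at hA
      omega
    · exact h
  have hB0 : 0 < B := by
    rcases Nat.eq_zero_or_pos B with h | h
    · rw [h, mul_zero] at hB
      omega
    · exact h
  have hc0 : 0 < c := by
    rcases Nat.eq_zero_or_pos c with h | h
    · rw [h, mul_zero] at hc
      omega
    · exact h
  refine ⟨A, B, c, hA0, hB0, hc0, hA, hB, ?_, ?_, ?_, hc, ?_, ?_⟩
  · rw [hA, Nat.mul_div_cancel_left _ (by omega)]
  · rw [hB, Nat.mul_div_cancel_left _ (by omega)]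
  · rw [hc, Nat.mul_div_cancel_left _ hD]
  · rw [hc, hA, mul_assoc, Nat.mul_div_cancel_left _ (by omega)]
  · rw [hc, hB, mul_assoc, Nat.mul_div_cancel_left _ (by omega)]

theorem geom (p h : ℕ) (hp : 1 ≤ p) : p ^ h - 1 = (p - 1) * ∑ i ∈ range h, p ^ i := by
  have h1 : (p - 1) * (∑ i ∈ range h, p ^ i) + 1 = p ^ h := by
    induction h with
    | zero => simp
    | succ n ih =>
      rw [Finset.sum_range_succ, mul_add]
      obtain ⟨r, rfl⟩ : ∃ r, p = r + 1 := ⟨p - 1, by omega⟩
      rw [Nat.add_sub_cancel] at ih ⊢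
      rw [pow_succ]
      have h2 : (r + 1) ^ n * (r + 1) = r * (r + 1) ^ n + (r + 1) ^ n := by ring
      rw [h2]
      omega
  omega

theorem fprod_diagonal {p : ℕ} (hp : p ≠ 0) {ι k : Type} [Fintype ι] [DecidableEq ι] [Field k]
    (d : ι → k) (h : ℕ) :
    Fprod p (Matrix.diagonal d) h = Matrix.diagonal fun u => d u ^ ∑ i ∈ range h, p ^ i := by
  induction h with
  | zero =>
    show (1 : Matrix ι ι k) = _
    rw [← Matrix.diagonal_one]
    congr 1
    funext u
    simp
  | succ n ih =>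
    show ((Matrix.diagonal d).map fun x => x ^ (p ^ n)) * Fprod p (Matrix.diagonal d) n = _
    rw [ih]
    have hmap : ((Matrix.diagonal d).map fun x => x ^ (p ^ n)) =
        Matrix.diagonal fun u => d u ^ (p ^ n) := by
      rw [Matrix.diagonal_map]
      exact zero_pow (pow_ne_zero _ hp)
    rw [hmap, Matrix.diagonal_mul_diagonal]
    congr 1
    funext u
    rw [Finset.sum_range_succ, pow_add, mul_comm]

theorem sep_diagonal {ι k : Type} [Fintype ι] [DecidableEq ι] [Field k] (g : ι → k)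
    (h0 : ∀ u, g u ≠ 0) (hinj : ∀ u v, g u = g v → u = v) :
    (Polynomial.X * (Matrix.diagonal g).charpoly).Separable := by
  rw [Matrix.charpoly_diagonal]
  have h1 : (Polynomial.X * ∏ i, (Polynomial.X - Polynomial.C (g i)) : Polynomial k) =
      ∏ o : Option ι, (Polynomial.X - Polynomial.C (o.elim 0 g)) := by
    rw [Fintype.prod_option]
    simp
  rw [h1, Polynomial.separable_prod_X_sub_C_iff]
  intro o o' ho
  rcases o with _ | u <;> rcases o' with _ | v
  · rfl
  · exact absurd ho.symm (h0 v)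
  · exact absurd ho (h0 u)
  · rw [hinj u v ho]

theorem natCast_pow {p : ℕ} [Fact p.Prime] {k : Type} [Field k] [Algebra (ZMod p) k] (n i : ℕ) :
    ((n : k)) ^ (p ^ i) = n := by
  rw [← map_natCast (algebraMap (ZMod p) k) n, ← map_pow, ZMod.pow_card_pow]

theorem natCast_geom {p : ℕ} [Fact p.Prime] {k : Type} [Field k] [Algebra (ZMod p) k]
    (n h : ℕ) : ((n : k)) ^ (∑ i ∈ range h, p ^ i) = (n : k) ^ h := by
  rw [← Finset.prod_pow_eq_pow_sum, Finset.prod_congr rfl fun i _ => natCast_pow (p := p) n i,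
    Finset.prod_const, Finset.card_range]

end DIAGM

theorem diag_thm : StmtDIAG := by
  intro p hp a b ha hb hdvd k _ _ f α β hα hβ hlead h m hm1 hm2 hinj
  classical
  have hp1 : 1 < p := hp.out.one_lt
  have hchar : CharP k p := charP_of_injective_algebraMap (algebraMap (ZMod p) k).injective p
  obtain ⟨A, B, c, hA0, hB0, hc0, hA, hB, dA, dB, dc, hc, da, db⟩ :=
    DIAGM.arith hp1 ha hb hdvd
  have hew : ∀ w : Fin 2 → ℕ, ew a b w = A * w 0 + B * w 1 := by
    intro w
    unfold ew
    rw [dA, dB]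
  obtain ⟨S, hS⟩ : ∃ S, S = ∑ i ∈ range h, p ^ i := ⟨_, rfl⟩
  have hgS : p ^ h - 1 = (p - 1) * S := by
    rw [hS]
    exact DIAGM.geom p h hp1.le
  -- the diagonal entries
  obtain ⟨d, hd⟩ : ∃ d : Um a b (Nat.lcm a b) m → k, d = fun u =>
      α ^ (A * c * pt u.1 0) * β ^ (B * c * pt u.1 1) *
        (((c * m).choose (A * c * pt u.1 0) : ℕ) : k) := ⟨_, rfl⟩
  have hsum : ∀ u : Um a b (Nat.lcm a b) m,
      A * c * pt u.1 0 + B * c * pt u.1 1 = c * m := by
    intro u
    have h1 := u.2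
    rw [hew] at h1
    have h2 : c * (A * pt u.1 0 + B * pt u.1 1) = c * m := congrArg (fun x => c * x) h1
    rw [← h2]
    ring
  have hlt : ∀ u : Um a b (Nat.lcm a b) m, pt u.1 0 < a := by
    intro u
    have h1 := u.2
    rw [hew] at h1
    by_contra h2
    have h3 : A * a ≤ A * pt u.1 0 := Nat.mul_le_mul_left A (by omega)
    have h4 : 0 < B * pt u.1 1 := Nat.mul_pos hB0 (Nat.succ_pos _)
    have h5 : A * a = Nat.lcm a b := by rw [hA, mul_comm]
    omega
  have hpw : ∀ x : ℕ, p * x = Nat.lcm a b * c * x + x := by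
    intro x
    rw [← hc]
    obtain ⟨r, rfl⟩ : ∃ r, p = r + 1 := ⟨p - 1, by omega⟩
    rw [Nat.add_sub_cancel]
    ring
  have hpA : ∀ x : ℕ, p * x = a * (A * c * x) + x := by
    intro x
    rw [hpw, hA]
    ring
  have hpB : ∀ x : ℕ, p * x = b * (B * c * x) + x := by
    intro x
    rw [hpw, hB]
    ring
  have hcm : c * m < p := by
    have h2 : c * m ≤ c * Nat.lcm a b := Nat.mul_le_mul_left c hm2
    have h3 : c * Nat.lcm a b = p - 1 := by rw [hc, mul_comm]
    omega
  have hH : Hmat p a b (Nat.lcm a b) m f = Matrix.diagonal d := by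
    ext u v
    unfold Hmat
    rw [Matrix.of_apply, hlead, dc]
    by_cases huv : u = v
    · subst huv
      rw [Matrix.diagonal_apply_eq, hd]
      beta_reduce
      have e1 := hsum u
      have e2 : c * m - A * c * pt u.1 0 = B * c * pt u.1 1 := by omega
      rw [DIAGM.cf_eq (j := A * c * pt u.1 0) (by omega) (by omega), e2]
      · beta_reduce
        rw [hpA, Nat.add_sub_cancel]
      · beta_reduce
        rw [hpB, Nat.add_sub_cancel, e2]
    · rw [Matrix.diagonal_apply_ne _ huv]
      by_contra hne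
      obtain ⟨i, hi⟩ := DIAGM.cf_ne α β _ hne
      beta_reduce at hi
      apply huv
      have hv : pt v.1 0 ≤ p * pt u.1 0 := by
        have h1 : pt v.1 0 < a := hlt v
        have h2 : 1 ≤ pt u.1 0 := Nat.succ_pos _
        have h3 : a ≤ Nat.lcm a b := Nat.le_of_dvd (by rw [hA]; exact Nat.mul_pos (by omega) hA0)
          (Nat.dvd_lcm_left a b)
        have h4 : Nat.lcm a b ≤ p - 1 := Nat.le_of_dvd (by omega) hdvd
        have h5 : p * 1 ≤ p * pt u.1 0 := Nat.mul_le_mul_left p h2
        omega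
      have h1 : p * pt u.1 0 = a * i + pt v.1 0 := by omega
      rw [hpA] at h1
      have h2 : pt u.1 0 ≡ pt v.1 0 [MOD a] := by
        have h3 : a * (A * c * pt u.1 0) + pt u.1 0 ≡ a * i + pt v.1 0 [MOD a] := by rw [h1]
        rw [add_comm (a * (A * c * pt u.1 0)), add_comm (a * i)] at h3
        unfold Nat.ModEq at h3 ⊢
        rwa [Nat.add_mul_mod_self_left, Nat.add_mul_mod_self_left] at h3
      have e0 : pt u.1 0 = pt v.1 0 := Nat.ModEq.eq_of_lt_of_lt h2 (hlt u) (hlt v)
      have e1 : pt u.1 1 = pt v.1 1 := by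
        have h3 := u.2
        have h4 := v.2
        rw [hew] at h3 h4
        rw [e0] at h3
        have h5 : B * pt u.1 1 = B * pt v.1 1 := by omega
        exact Nat.eq_of_mul_eq_mul_left hB0 h5
      apply Subtype.ext
      funext s
      apply Fin.ext
      unfold pt at e0 e1
      fin_cases s
      · show (u.1 0 : ℕ) = v.1 0
        omega
      · show (u.1 1 : ℕ) = v.1 1
        omega
  have hg : ∀ u : Um a b (Nat.lcm a b) m, d u ^ S = gdiag p a b h α β u.1 := by
    intro u
    have hw : ew a b (pt u.1) = m := u.2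
    unfold gdiag
    rw [hd]
    beta_reduce
    rw [dc, hw, da, mul_pow, mul_pow]
    have e1 : (p ^ h - 1) / a = A * c * S := by
      rw [hgS, hc, hA]
      have : a * A * c * S = a * (A * c * S) := by ring
      rw [this, Nat.mul_div_cancel_left _ (by omega)]
    have e2 : (p ^ h - 1) / b = B * c * S := by
      rw [hgS, hc, hB]
      have : b * B * c * S = b * (B * c * S) := by ring
      rw [this, Nat.mul_div_cancel_left _ (by omega)]
    have e3 : (((c * m).choose (A * c * pt u.1 0) : ℕ) : k) ^ S =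
        (((c * m).choose (A * c * pt u.1 0) : ℕ) : k) ^ h := by
      rw [hS]
      exact DIAGM.natCast_geom (p := p) _ h
    rw [e1, e2, e3, ← pow_mul, ← pow_mul, ← pow_mul, ← pow_mul]
    have e4 : A * c * pt u.1 0 * S = A * c * S * pt u.1 0 := by ring
    have e5 : B * c * pt u.1 1 * S = B * c * S * pt u.1 1 := by ring
    rw [e4, e5]
    ring
  have hd0 : ∀ u : Um a b (Nat.lcm a b) m, d u ≠ 0 := by
    intro u
    rw [hd]
    beta_reduce
    refine mul_ne_zero (mul_ne_zero (pow_ne_zero _ hα) (pow_ne_zero _ hβ)) ?_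
    rw [Ne, CharP.cast_eq_zero_iff k p]
    intro hdv
    have e1 := hsum u
    have h4 : p ∣ (c * m).factorial := by
      rw [← Nat.choose_mul_factorial_mul_factorial (show A * c * pt u.1 0 ≤ c * m by omega),
        mul_assoc]
      exact Dvd.dvd.mul_right hdv _
    rw [hp.out.dvd_factorial] at h4
    omega
  rw [hH, DIAGM.fprod_diagonal (by omega), ← hS]
  refine DIAGM.sep_diagonal _ (fun u => pow_ne_zero _ (hd0 u)) fun u v huv => hinj u v ?_
  rw [← hg u, ← hg v]
  exact huv

end ASur
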