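import Mathlib

/-!
# MP_b685ef_ag, theorem AS (Artin-Schreier surfaces): definitions and basic lemmas

Paper: /team-store/b685_AS_paper.txt .  `D = lcm a b` divides `p - 1`.
-/

set_option linter.all false

namespace ASur

open scoped BigOperators
open Finset

/-! ## 1. Integral elements, residue field, total reduction -/

section basic
variable (C : Type) [NormedField C] [IsUltrametricDist C]

/-- The valuation ring `O = {‖x‖ ≤ 1}`. -/
noncomputable abbrev OO : ValuationSubring C := (NormedField.valuation (K := C)).valuationSubring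

/-- The residue field `κ`. -/
abbrev KK : Type := IsLocalRing.ResidueField (OO C)

variable {C}

theorem mem_OO {x : C} : x ∈ OO C ↔ ‖x‖ ≤ 1 := by
  rw [Valuation.mem_valuationSubring_iff]
  simp [NormedField.valuation_apply, ← NNReal.coe_le_coe]

open Classical in
/-- Total reduction `C → κ` (`0` outside `O`). -/
noncomputable def rd (x : C) : KK C :=
  if h : ‖x‖ ≤ 1 then IsLocalRing.residue (OO C) ⟨x, mem_OO.2 h⟩ else 0

theorem rd_of_le {x : C} (h : ‖x‖ ≤ 1) :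
    rd x = IsLocalRing.residue (OO C) ⟨x, mem_OO.2 h⟩ := by
  simp [rd, h]

theorem rd_coe (x : OO C) : rd (x : C) = IsLocalRing.residue (OO C) x := by
  rw [rd_of_le (mem_OO.1 x.2)]

theorem norm_coe_le (x : OO C) : ‖(x : C)‖ ≤ 1 := mem_OO.1 x.2

@[simp] theorem rd_zero : rd (0 : C) = 0 := by
  rw [rd_of_le (by simp)]
  exact map_zero (IsLocalRing.residue (OO C))

@[simp] theorem rd_one : rd (1 : C) = 1 := by
  rw [rd_of_le (by simp)]
  exact map_one (IsLocalRing.residue (OO C))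

theorem rd_add {x y : C} (hx : ‖x‖ ≤ 1) (hy : ‖y‖ ≤ 1) : rd (x + y) = rd x + rd y := by
  have h : ‖x + y‖ ≤ 1 := (IsUltrametricDist.norm_add_le_max x y).trans (max_le hx hy)
  rw [rd_of_le hx, rd_of_le hy, rd_of_le h, ← map_add]
  rfl

theorem rd_mul {x y : C} (hx : ‖x‖ ≤ 1) (hy : ‖y‖ ≤ 1) : rd (x * y) = rd x * rd y := by
  have h : ‖x * y‖ ≤ 1 := by
    rw [norm_mul]; exact mul_le_one₀ hx (norm_nonneg _) hy
  rw [rd_of_le hx, rd_of_le hy, rd_of_le h, ← map_mul]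
  rfl

theorem rd_neg (x : C) : rd (-x) = - rd x := by
  by_cases hx : ‖x‖ ≤ 1
  · have h : ‖-x‖ ≤ 1 := by simpa using hx
    rw [rd_of_le hx, rd_of_le h, ← map_neg]
    rfl
  · have h : ¬ ‖-x‖ ≤ 1 := by simpa using hx
    simp [rd, hx, h]

theorem rd_sub {x y : C} (hx : ‖x‖ ≤ 1) (hy : ‖y‖ ≤ 1) : rd (x - y) = rd x - rd y := by
  rw [sub_eq_add_neg, rd_add hx (by simpa using hy), rd_neg, sub_eq_add_neg]

theorem rd_pow {x : C} (hx : ‖x‖ ≤ 1) (n : ℕ) : rd (x ^ n) = rd x ^ n := by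
  induction n with
  | zero => simp
  | succ n ih =>
    rw [pow_succ, pow_succ, rd_mul _ hx, ih]
    rw [norm_pow]; exact pow_le_one₀ (norm_nonneg _) hx

theorem norm_sum_le_one {ι : Type*} (s : Finset ι) {g : ι → C} (hg : ∀ i ∈ s, ‖g i‖ ≤ 1) :
    ‖∑ i ∈ s, g i‖ ≤ 1 :=
  IsUltrametricDist.norm_sum_le_of_forall_le_of_nonneg zero_le_one hg

theorem norm_prod_le_one {ι : Type*} (s : Finset ι) {g : ι → C} (hg : ∀ i ∈ s, ‖g i‖ ≤ 1) :
    ‖∏ i ∈ s, g i‖ ≤ 1 := by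
  rw [norm_prod]
  exact Finset.prod_le_one (fun i _ => norm_nonneg _) hg

theorem rd_sum {ι : Type*} (s : Finset ι) {g : ι → C} (hg : ∀ i ∈ s, ‖g i‖ ≤ 1) :
    rd (∑ i ∈ s, g i) = ∑ i ∈ s, rd (g i) := by
  classical
  induction s using Finset.induction_on with
  | empty => simp
  | insert a s ha ih =>
    rw [Finset.sum_insert ha, Finset.sum_insert ha,
      rd_add (hg a (by simp)) (norm_sum_le_one s fun i hi => hg i (by simp [hi])),
      ih fun i hi => hg i (by simp [hi])]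

theorem rd_prod {ι : Type*} (s : Finset ι) {g : ι → C} (hg : ∀ i ∈ s, ‖g i‖ ≤ 1) :
    rd (∏ i ∈ s, g i) = ∏ i ∈ s, rd (g i) := by
  classical
  induction s using Finset.induction_on with
  | empty => simp
  | insert a s ha ih =>
    rw [Finset.prod_insert ha, Finset.prod_insert ha,
      rd_mul (hg a (by simp)) (norm_prod_le_one s fun i hi => hg i (by simp [hi])),
      ih fun i hi => hg i (by simp [hi])]

theorem norm_natCast_le (n : ℕ) : ‖(n : C)‖ ≤ 1 := IsUltrametricDist.norm_natCast_le_one C n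

@[simp] theorem rd_natCast (n : ℕ) : rd (n : C) = n := by
  induction n with
  | zero => simp
  | succ n ih =>
    push_cast
    rw [rd_add (norm_natCast_le n) (by simp), ih, rd_one]

theorem rd_eq_zero_iff {x : C} (hx : ‖x‖ ≤ 1) : rd x = 0 ↔ ‖x‖ < 1 := by
  rw [rd_of_le hx, IsLocalRing.residue_eq_zero_iff, IsLocalRing.mem_maximalIdeal, mem_nonunits_iff]
  constructor
  · intro h
    rcases lt_or_eq_of_le hx with h' | h'
    · exact h'
    · exfalso
      apply h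
      have h0 : x ≠ 0 := by
        rintro rfl
        simp at h'
      have hi : ‖x⁻¹‖ ≤ 1 := by rw [norm_inv, h']; simp
      refine IsUnit.of_mul_eq_one ⟨x⁻¹, mem_OO.2 hi⟩ ?_
      apply Subtype.ext
      exact mul_inv_cancel₀ h0
  · intro h hu
    obtain ⟨y, hy⟩ := hu.exists_right_inv
    have h1 : x * (y : C) = 1 := congrArg Subtype.val hy
    have h2 : ‖x‖ * ‖(y : C)‖ = 1 := by rw [← norm_mul, h1, norm_one]
    have h3 := norm_coe_le y
    nlinarith [norm_nonneg x, norm_nonneg (y : C)]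

theorem rd_of_lt {x : C} (hx : ‖x‖ < 1) : rd x = 0 := (rd_eq_zero_iff hx.le).2 hx

theorem rd_eq_iff {x y : C} (hx : ‖x‖ ≤ 1) (hy : ‖y‖ ≤ 1) : rd x = rd y ↔ ‖x - y‖ < 1 := by
  have h : ‖x - y‖ ≤ 1 := by
    rw [sub_eq_add_neg]
    exact (IsUltrametricDist.norm_add_le_max x (-y)).trans (max_le hx (by simpa using hy))
  rw [← rd_eq_zero_iff h, rd_sub hx hy, sub_eq_zero]

theorem rd_surj (y : KK C) : ∃ x : C, ‖x‖ ≤ 1 ∧ rd x = y := by
  obtain ⟨x, rfl⟩ := IsLocalRing.residue_surjective y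
  exact ⟨x, norm_coe_le x, rd_coe x⟩

theorem rd_inv {x : C} (hx : ‖x‖ = 1) : rd x⁻¹ = (rd x)⁻¹ := by
  have h0 : x ≠ 0 := by
    rintro rfl
    simp at hx
  have hi : ‖x⁻¹‖ ≤ 1 := by rw [norm_inv, hx]; simp
  refine eq_inv_of_mul_eq_one_left ?_
  rw [← rd_mul hi hx.le, inv_mul_cancel₀ h0, rd_one]

theorem charP_KK {p : ℕ} [Fact p.Prime] (hp : ‖(p : C)‖ < 1) : CharP (KK C) p := by
  have h : ((p : ℕ) : KK C) = 0 := by rw [← rd_natCast, rd_of_lt hp]
  exact (CharP.charP_iff_prime_eq_zero (Fact.out : p.Prime)).2 h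
end basic

/-! ## 2. Polynomial data over `k` -/

/-- The weight `e(w) = (D/a) w_0 + (D/b) w_1`, `D = lcm a b`. -/
def ew (a b : ℕ) (w : Fin 2 → ℕ) : ℕ :=
  (Nat.lcm a b / a) * w 0 + (Nat.lcm a b / b) * w 1

/-- A box index `u` stands for the point `u + 1` of `[1, L]^σ`. -/
def pt {σ : Type} {L : ℕ} (u : σ → Fin L) (s : σ) : ℕ := (u s : ℕ) + 1

/-- Coefficient of `x^w`. -/
noncomputable def cf {σ R : Type} [Finite σ] [CommSemiring R]
    (F : MvPolynomial σ R) (w : σ → ℕ) : R :=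
  F.coeff (Finsupp.equivFunOnFinite.symm w)

/-- `U_m`: the points `u` of `[1, L]^2` with `e(u) = m`. -/
abbrev Um (a b L m : ℕ) : Type := {u : Fin 2 → Fin L // ew a b (pt u) = m}

/-- The part of `f` of weight exactly `D`. -/
noncomputable def lead (a b : ℕ) {k : Type} [CommSemiring k] (f : MvPolynomial (Fin 2) k) :
    MvPolynomial (Fin 2) k :=
  MvPolynomial.weightedHomogeneousComponent ![Nat.lcm a b / a, Nat.lcm a b / b] (Nat.lcm a b) f

/-- `H_m = (coeff_{pu - v} f₁^{cm})_{u,v ∈ U_m}`, `c = (p-1)/D`. -/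
noncomputable def Hmat (p a b L m : ℕ) {k : Type} [CommSemiring k]
    (f : MvPolynomial (Fin 2) k) : Matrix (Um a b L m) (Um a b L m) k :=
  Matrix.of fun u v =>
    cf (lead a b f ^ ((p - 1) / Nat.lcm a b * m)) (fun s => p * pt u.1 s - pt v.1 s)

/-- `M^{(p^{n-1})} ⋯ M^{(p)} M` (entrywise powers). -/
def Fprod (p : ℕ) {ι k : Type} [Fintype ι] [DecidableEq ι] [CommSemiring k]
    (M : Matrix ι ι k) : ℕ → Matrix ι ι k
  | 0 => 1
  | n + 1 => (M.map fun x => x ^ (p ^ n)) * Fprod p M n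

/-- The exponential sum of `f` over the points of `E^2`. -/
noncomputable def Sf {p : ℕ} [Fact p.Prime] {k : Type} [Field k] {K : Type*} [Field K]
    (ψ : AddChar (ZMod p) K) (f : MvPolynomial (Fin 2) k)
    (E : Type) [Field E] [Fintype E] [Algebra (ZMod p) E] [Algebra k E] : K :=
  ∑ x : Fin 2 → E, ψ (Algebra.trace (ZMod p) E (MvPolynomial.aeval x f))

/-! ## 3. Objects over `C` -/

/-- Splitting polynomial: `(a), (b), (c)` of section 2 of the paper, with `ζ` and error `ε`. -/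
structure IsSplit {C : Type} [NormedField C] (p : ℕ) (ζ : C) (ε : ℝ)
    (Θ : Polynomial C) : Prop where
  zero : Θ.coeff 0 = 1
  bound : ∀ m, ‖Θ.coeff m‖ ≤ ‖ζ - 1‖ ^ m
  small : ∀ m, m < p → ‖Θ.coeff m - (ζ - 1) ^ m / (m.factorial : C)‖ ≤ ‖ζ - 1‖ ^ (m + 1)
  split : ∀ (n : ℕ) (t : C), t ^ (p ^ n) = t → ∃ c : ℕ, c < p ∧
    ‖∑ i ∈ range n, t ^ (p ^ i) - (c : C)‖ < 1 ∧
    ‖∏ i ∈ range n, Θ.eval (t ^ (p ^ i)) - ζ ^ c‖ ≤ ε

/-- `τ` is the Teichmüller lift of the embedding `ι` of the finite field `E` in `κ`. -/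
structure IsTeich {C : Type} [NormedField C] [IsUltrametricDist C] {E : Type} [Field E]
    (ι : E →+* KK C) (τ : E →*₀ C) : Prop where
  norm_le : ∀ x, ‖τ x‖ ≤ 1
  rd_eq : ∀ x, rd (τ x) = ι x

/-- `F_i = ∏_m Θ(τ(c_m)^{p^i} x^m)`. -/
noncomputable def Fpol (p : ℕ) {σ k C : Type} [CommSemiring k] [CommRing C] (τ : k → C)
    (Θ : Polynomial C) (f : MvPolynomial σ k) (i : ℕ) : MvPolynomial σ C :=
  ∏ m ∈ f.support, Polynomial.aeval (MvPolynomial.monomial m (τ (f.coeff m) ^ (p ^ i))) Θ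

/-- `G_n = ∏_{i<n} F_i(x^{p^i})`. -/
noncomputable def Gpol (p : ℕ) {σ C : Type} [CommRing C] (F : ℕ → MvPolynomial σ C) (n : ℕ) :
    MvPolynomial σ C :=
  ∏ i ∈ range n, MvPolynomial.expand (p ^ i) (F i)

/-- `A(F) = (coeff_{pu - v} F)_{u,v ∈ [1,L]^σ}`, `0` if `pu - v` is not `≥ 0`. -/
noncomputable def Amat (p L : ℕ) {σ C : Type} [Fintype σ] [CommRing C]
    (F : MvPolynomial σ C) : Matrix (σ → Fin L) (σ → Fin L) C :=
  Matrix.of fun u v => if ∀ s, pt v s ≤ p * pt u s then cf F (fun s => p * pt u s - pt v s) else 0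

/-- `A_{n-1} ⋯ A_0`. -/
def Pmat {ι C : Type} [Fintype ι] [DecidableEq ι] [CommSemiring C] (A : ℕ → Matrix ι ι C) :
    ℕ → Matrix ι ι C
  | 0 => 1
  | n + 1 => A n * Pmat A n

/-- `∑_{u ∈ [1,L]^σ} coeff_{m u} G`. -/
noncomputable def Tsum (m L : ℕ) {σ C : Type} [Fintype σ] [DecidableEq σ] [CommRing C]
    (G : MvPolynomial σ C) : C :=
  ∑ u : σ → Fin L, cf G (fun s => m * pt u s)

/-- Restriction to the axis `s`. -/
noncomputable def ax {C : Type} [CommRing C] (s : Fin 2) :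
    MvPolynomial (Fin 2) C →ₐ[C] MvPolynomial (Fin 1) C :=
  MvPolynomial.aeval (fun t => if t = s then MvPolynomial.X 0 else 0)

/-! ## 4. Newton's identities and edges -/

/-- `P` has power sums `s`: `P(0) = 1`, `m P_m = - ∑_{i=1}^m s_i P_{m-i}`. -/
def NR {C : Type*} [Field C] (s : ℕ → C) (P : PowerSeries C) : Prop :=
  PowerSeries.constantCoeff P = 1 ∧
  ∀ n : ℕ, ((n : C) + 1) * PowerSeries.coeff (n + 1) P =
    - ∑ i ∈ range (n + 1), s (i + 1) * PowerSeries.coeff (n - i) P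

/-- `∏_{β} (1 - β X)`. -/
noncomputable def revP {C : Type*} [Field C] (β : Multiset C) : Polynomial C :=
  (β.map fun x => 1 - Polynomial.C x * Polynomial.X).prod

/-- The reduction of `c P(X/ϖ)` is `X^M χ`, in degrees `≤ m0`. -/
def Edge {C : Type} [NormedField C] [IsUltrametricDist C] (P : PowerSeries C) (ϖ : C) (M : ℕ)
    (χ : Polynomial (KK C)) (m0 : ℕ) : Prop :=
  ∃ c : C, c ≠ 0 ∧ ‖c‖ ≤ 1 ∧ ∀ n, n ≤ m0 →
    ‖c * PowerSeries.coeff n P / ϖ ^ n‖ ≤ 1 ∧
    rd (c * PowerSeries.coeff n P / ϖ ^ n) = (Polynomial.X ^ M * χ).coeff n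

/-- `D(X/ϖ) ∈ 1 + X 𝔪[[X]]`. -/
def USmall {C : Type} [NormedField C] (D : PowerSeries C) (ϖ : C) : Prop :=
  PowerSeries.constantCoeff D = 1 ∧ ∀ n, 1 ≤ n → ‖PowerSeries.coeff n D / ϖ ^ n‖ < 1

/-- Block cyclic matrix: `S` on the diagonal, `-E_j` in row block `j+1 (mod h)`, column block `j`. -/
def cyc {ι R : Type} [Fintype ι] [DecidableEq ι] [CommRing R] (h : ℕ) (S : Matrix ι ι R)
    (E : ℕ → Matrix ι ι R) : Matrix (Fin h × ι) (Fin h × ι) R :=
  Matrix.of fun x y =>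
    (if x.1 = y.1 then S x.2 y.2 else 0) -
    (if (x.1 : ℕ) = ((y.1 : ℕ) + 1) % h then E y.1 x.2 y.2 else 0)

/-- The reduction of the block `{e = m}` of `M`. -/
noncomputable def blk {ι C : Type} [NormedField C] [IsUltrametricDist C] (e : ι → ℕ) (m : ℕ)
    (M : Matrix ι ι C) : Matrix {u : ι // e u = m} {u : ι // e u = m} (KK C) :=
  Matrix.of fun u v => rd (M u.1 v.1)

/-- The scaled matrix `C(F)_{u,v} = coeff_{pu-v} F / ρ^{e(pu-v)}`. -/
noncomputable def Cmat (p a b L : ℕ) {C : Type} [NormedField C] (ρ : C)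
    (F : MvPolynomial (Fin 2) C) : Matrix (Fin 2 → Fin L) (Fin 2 → Fin L) C :=
  Matrix.of fun u v => if ∀ s, pt v s ≤ p * pt u s then
    cf F (fun s => p * pt u s - pt v s) / ρ ^ ew a b (fun s => p * pt u s - pt v s) else 0

end ASur
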