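import Pool.Agent.Lib.MP_b685ef_ag.AS.Spec

section
/-!
# MP_b685ef_ag, theorem AS, module AXI: restriction to the axes
-/
set_option linter.all false

namespace ASur

open Finset

/-- restriction of a monomial -/
theorem AXI_monomial {C : Type} [Field C] (s : Fin 2) (m : Fin 2 →₀ ℕ) (c : C) :
    ax s (MvPolynomial.monomial m c) =
      if ∀ t, t ≠ s → m t = 0 then MvPolynomial.monomial (Finsupp.single 0 (m s)) c else 0 := by
  unfold ax
  rw [MvPolynomial.aeval_monomial, Finsupp.prod_fintype _ _ (fun i => by rw [pow_zero])]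
  rw [← Finset.mul_prod_erase Finset.univ _ (Finset.mem_univ s)]
  rw [if_pos rfl]
  split_ifs with h
  · rw [Finset.prod_eq_one, mul_one]
    · change MvPolynomial.C c * _ = _
      rw [MvPolynomial.X_pow_eq_monomial, MvPolynomial.C_mul_monomial, mul_one]
    · intro t ht
      rw [Finset.mem_erase] at ht
      rw [h t ht.1, pow_zero]
  · push Not at h
    obtain ⟨t, hts, ht⟩ := h
    rw [Finset.prod_eq_zero (Finset.mem_erase.2 ⟨hts, Finset.mem_univ t⟩), mul_zero, mul_zero]
    rw [if_neg hts, zero_pow ht]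

/-- the coefficients of the restriction -/
theorem AXI_coeff {C : Type} [Field C] (s : Fin 2) (G : MvPolynomial (Fin 2) C)
    (w : Fin 1 →₀ ℕ) : (ax s G).coeff w = cf G (fun t => if t = s then w 0 else 0) := by
  classical
  induction G using MvPolynomial.induction_on' with
  | monomial m c =>
    rw [AXI_monomial]
    unfold cf
    rw [MvPolynomial.coeff_monomial]
    by_cases h : ∀ t, t ≠ s → m t = 0
    · rw [if_pos h, MvPolynomial.coeff_monomial]
      have e : (Finsupp.single (0 : Fin 1) (m s) = w) ↔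
          (m = Finsupp.equivFunOnFinite.symm (fun t => if t = s then w 0 else 0)) := by
        constructor
        · rintro rfl
          ext t
          by_cases ht : t = s
          · subst ht
            simp
          · simp [ht, h t ht]
        · intro hm
          refine Finsupp.ext fun t => ?_
          have ht : t = 0 := Subsingleton.elim _ _
          subst ht
          rw [hm]
          simp
      by_cases h' : Finsupp.single (0 : Fin 1) (m s) = w
      · rw [if_pos h', if_pos (e.1 h')]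
      · rw [if_neg h', if_neg (fun h'' => h' (e.2 h''))]
    · rw [if_neg h, MvPolynomial.coeff_zero, if_neg]
      intro hm
      apply h
      intro t ht
      rw [hm]
      simp [ht]
  | add p q hp hq =>
    rw [map_add, MvPolynomial.coeff_add, hp, hq]
    unfold cf
    rw [MvPolynomial.coeff_add]

/-- restriction and substitution of powers commute -/
theorem AXI_expand {C : Type} [Field C] (s : Fin 2) (q : ℕ) (hq : q ≠ 0)
    (G : MvPolynomial (Fin 2) C) :
    ax s (MvPolynomial.expand q G) = MvPolynomial.expand q (ax s G) := by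
  have h : (ax s).comp (MvPolynomial.expand q : MvPolynomial (Fin 2) C →ₐ[C] _)
      = (MvPolynomial.expand q : MvPolynomial (Fin 1) C →ₐ[C] _).comp (ax s) := by
    apply MvPolynomial.algHom_ext
    intro t
    rw [AlgHom.comp_apply, AlgHom.comp_apply, MvPolynomial.expand_X, map_pow]
    unfold ax
    rw [MvPolynomial.aeval_X]
    split_ifs with ht
    · rw [MvPolynomial.expand_X]
    · rw [zero_pow hq, map_zero]
  exact DFunLike.congr_fun h G

theorem AXI_expand0 {C σ : Type} [Field C] (q : ℕ) (hq : q ≠ 0) (G : MvPolynomial σ C) :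
    MvPolynomial.coeff 0 (MvPolynomial.expand q G) = MvPolynomial.coeff 0 G := by
  exact MvPolynomial.coeff_expand_zero q hq G

/-- module AXI -/
theorem AXI_thm : StmtAXI := by
  intro p hp C _ F n s
  refine ⟨?_, ?_, ?_, ?_, fun i w => AXI_coeff s (F i) w⟩
  · unfold Gpol
    rw [map_prod]
    exact Finset.prod_congr rfl fun i _ => AXI_expand s _ (pow_ne_zero _ (by omega)) _
  · intro i
    rw [MvPolynomial.degreeOf_le_iff]
    intro w hw
    rw [MvPolynomial.mem_support_iff, AXI_coeff] at hw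
    have h1 := MvPolynomial.monomial_le_degreeOf s (MvPolynomial.mem_support_iff.2 hw)
    simpa using h1
  · intro i
    rw [AXI_coeff]
    unfold cf
    congr 1
    ext t
    simp
  · unfold Gpol
    rw [← MvPolynomial.constantCoeff_eq, map_prod]
    refine Finset.prod_congr rfl fun i _ => ?_
    rw [MvPolynomial.constantCoeff_eq]
    exact AXI_expand0 _ (pow_ne_zero _ (by omega)) _

end ASur
end

section
/-!
# MP_b685ef_ag, theorem AS, module AFAC: the matrices satisfy the hypotheses of EDGEM and SMALL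
-/
set_option linter.all false

namespace ASur

open Finset

private theorem AFAC_div {C : Type} [NormedField C] {ρ x : C} {n : ℕ} (h0 : ρ ≠ 0)
    (h : ‖x‖ ≤ ‖ρ‖ ^ n) : ‖x / ρ ^ n‖ ≤ 1 := by
  rw [norm_div, norm_pow]
  exact (div_le_one (pow_pos (norm_pos_iff.2 h0) n)).2 h

private theorem AFAC_id {C : Type} [NormedField C] {ρ x : C} {n v u : ℕ} (h0 : ρ ≠ 0)
    (h : n + v = u) : x * ρ ^ v = ρ ^ u * (x / ρ ^ n) := by
  rw [← h, pow_add]
  have := pow_ne_zero n h0
  field_simp

/-- module AFAC -/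
theorem AFAC_thm : StmtAFAC := by
  intro C _ _ p a b L ρ F hp ha hb h0 h1 hF
  have hle : ∀ w, ‖cf F w‖ ≤ 1 := fun w => (hF w).trans (pow_le_one₀ (norm_nonneg _) h1.le)
  refine ⟨⟨?_, ?_, ?_⟩, fun s => ⟨?_, ?_⟩⟩
  · intro u v
    unfold Cmat
    rw [Matrix.of_apply]
    split_ifs with h
    · exact AFAC_div h0 (hF _)
    · simp
  · intro u v
    unfold Cmat Amat
    rw [Matrix.of_apply, Matrix.of_apply]
    split_ifs with h
    · refine AFAC_id h0 ?_
      unfold ew
      have e0 := h 0
      have e1 := h 1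
      obtain ⟨x, hx⟩ := Nat.exists_eq_add_of_le e0
      obtain ⟨y, hy⟩ := Nat.exists_eq_add_of_le e1
      beta_reduce
      rw [hx, hy, Nat.add_sub_cancel_left, Nat.add_sub_cancel_left, mul_add p, mul_left_comm p,
        mul_left_comm p, hx, hy]
      ring
    · simp
  · intro u v
    unfold Amat
    rw [Matrix.of_apply]
    split_ifs with h
    · exact hle _
    · simp
  · intro u v
    unfold Amat
    rw [Matrix.of_apply]
    split_ifs with h
    · unfold cf
      rw [AXI_coeff]
      exact hle _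
    · simp
  · refine ⟨Matrix.of fun u v => if ∀ t, pt v t ≤ p * pt u t then
      cf F (fun t => if t = s then p * pt u 0 - pt v 0 else 0) /
        ρ ^ ew a b (fun t => if t = s then p * pt u 0 - pt v 0 else 0) else 0, ?_, ?_⟩
    · intro u v
      rw [Matrix.of_apply]
      split_ifs with h
      · exact AFAC_div h0 (hF _)
      · simp
    · intro u v
      unfold Amat
      rw [Matrix.of_apply, Matrix.of_apply]
      split_ifs with h
      · have e : cf (ax s F) (fun t => p * pt u t - pt v t)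
            = cf F (fun t => if t = s then p * pt u 0 - pt v 0 else 0) := by
          unfold cf
          rw [AXI_coeff]
          rfl
        rw [e]
        refine AFAC_id h0 ?_
        unfold ew
        have e0 := h 0
        obtain ⟨x, hx⟩ := Nat.exists_eq_add_of_le e0
        rw [hx, Nat.add_sub_cancel_left]
        have h2 : s = 0 ∨ s = 1 := by
          fin_cases s
          · exact Or.inl rfl
          · exact Or.inr rfl
        beta_reduce
        rcases h2 with rfl | rfl
        · rw [if_pos rfl, if_pos rfl, if_pos rfl, if_neg (by decide), if_neg (by decide),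
            if_neg (by decide), mul_add p, mul_left_comm p, hx]
          ring
        · rw [if_pos rfl, if_pos rfl, if_pos rfl, if_neg (by decide), if_neg (by decide),
            if_neg (by decide), mul_add p, mul_left_comm p, mul_left_comm p, hx]
          ring
      · simp

end ASur
end

section
/-!
# MP_b685ef_ag, theorem AS, module BIN: `b_s(Y^p) = b_s(Y)^p g_s(Y)`
-/
set_option linter.all false

namespace ASur

open Finset

/-- The binomial coefficient of index `n` as a polynomial. -/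
noncomputable def bin_P (C : Type) [Field C] [CharZero C] (n : ℕ) : Polynomial C :=
  Polynomial.C ((n.factorial : C)⁻¹) * descPochhammer C n

theorem bin_P_eval (C : Type) [Field C] [CharZero C] (n : ℕ) (s : C) :
    (bin_P C n).eval s = Ring.choose s n := by
  have h : (descPochhammer ℤ n).smeval s = (descPochhammer C n).eval s := by
    rw [← descPochhammer_map (Int.castRingHom C) n, Polynomial.eval_map,
      ← Polynomial.aeval_eq_smeval, Polynomial.aeval_def]
    rfl
  rw [bin_P, Polynomial.eval_mul, Polynomial.eval_C, Ring.choose_eq_smul, h, smul_eq_mul]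

theorem bin_map (C : Type) [Field C] [CharZero C] (s : C) :
    PowerSeries.map (Polynomial.evalRingHom s) (PowerSeries.mk (bin_P C)) =
      PowerSeries.binomialSeries C s := by
  ext n
  rw [PowerSeries.coeff_map, PowerSeries.coeff_mk, PowerSeries.binomialSeries_coeff,
    Polynomial.coe_evalRingHom, bin_P_eval, smul_eq_mul, mul_one]

theorem bin_ext (C : Type) [Field C] [CharZero C] (A B : PowerSeries (Polynomial C))
    (h : ∀ m : ℕ, PowerSeries.map (Polynomial.evalRingHom (m : C)) A =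
      PowerSeries.map (Polynomial.evalRingHom (m : C)) B) : A = B := by
  ext1 n
  apply Polynomial.eq_of_infinite_eval_eq
  refine Set.Infinite.mono (s := Set.range (fun m : ℕ => (m : C))) ?_
    (Set.infinite_range_of_injective Nat.cast_injective)
  rintro _ ⟨m, rfl⟩
  have h1 := congrArg (PowerSeries.coeff n) (h m)
  rw [PowerSeries.coeff_map, PowerSeries.coeff_map] at h1
  exact h1

theorem bin_thm : StmtBIN := by
  intro p hp g hg C _ _ j s
  have key : PowerSeries.expand p hp.out.ne_zero (PowerSeries.mk (bin_P C)) =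
      (PowerSeries.mk (bin_P C)) ^ p * PowerSeries.map (Polynomial.mapRingHom j) g := by
    apply bin_ext
    intro m
    have h1 := congrArg (PowerSeries.map j) (hg m)
    simp only [map_mul, map_pow, map_add, map_one, PowerSeries.map_X] at h1
    rw [PowerSeries.map_expand, map_mul, map_pow, bin_map, PowerSeries.binomialSeries_nat,
      map_pow, map_add, map_one, PowerSeries.expand_X, h1, ← pow_mul, mul_comm m p]
    congr 1
    ext n
    simp only [PowerSeries.coeff_map, Polynomial.coe_evalRingHom, Polynomial.coe_mapRingHom]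
    rw [Polynomial.eval_map, Polynomial.eval₂_at_natCast]
  have h2 := congrArg (PowerSeries.map (Polynomial.evalRingHom s)) key
  rw [PowerSeries.map_expand, map_mul, map_pow, bin_map] at h2
  rw [h2]
  congr 1
  ext n
  simp only [PowerSeries.coeff_map, Polynomial.coe_evalRingHom, Polynomial.coe_mapRingHom,
    Polynomial.coe_eval₂RingHom]
  rw [Polynomial.eval_map]

end ASur
end

section
set_option linter.all false

namespace ASur

theorem BLD_thm : StmtBLD := by
  intro ι κ _ _ _ e M hz hdet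
  have hM : M.BlockTriangular e := fun u v h => hz u v (ne_of_gt h)
  rw [hM.det, Finset.prod_ne_zero_iff]
  intro m _
  exact hdet m

end ASur
end

section
/-!
# Module CHI: the reduced blocks have separable reversed characteristic polynomial
-/
set_option linter.all false

namespace ASur

open Finset Polynomial

private theorem chi_rev_rev {K : Type} [Field K] {P : K[X]} (h0 : P.coeff 0 ≠ 0) :
    P.reverse.reverse = P := by
  have hP : P ≠ 0 := by
    rintro rfl
    simp at h0
  have h1 : P.natTrailingDegree = 0 := natTrailingDegree_eq_zero.2 (Or.inr h0)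
  have h2 : P.reverse.natDegree = P.natDegree := by
    rw [reverse_natDegree, h1, Nat.sub_zero]
  show reflect P.reverse.natDegree (reflect P.natDegree P) = P
  rw [h2, reflect_reflect]

private theorem chi_sqf {K : Type} [Field K] {Q : K[X]} (hs : Squarefree Q)
    (h0 : Q.coeff 0 ≠ 0) : Squarefree Q.reverse := by
  intro A hA
  obtain ⟨S, hS⟩ := hA
  have hQ : Q ≠ 0 := by
    rintro rfl
    simp at h0
  have h1 : Q = A.reverse * A.reverse * S.reverse := by
    rw [← chi_rev_rev h0, hS, reverse_mul_of_domain, reverse_mul_of_domain]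
  have h2 : IsUnit A.reverse := hs _ ⟨_, h1⟩
  have h3 : A.coeff 0 ≠ 0 := by
    intro h
    have h4 : Q.reverse.coeff 0 = 0 := by
      rw [hS, mul_assoc, mul_coeff_zero, h, zero_mul]
    rw [coeff_zero_reverse] at h4
    exact hQ (leadingCoeff_eq_zero.1 h4)
  have h5 : A.natTrailingDegree = 0 := natTrailingDegree_eq_zero.2 (Or.inr h3)
  have h6 : A.reverse.natDegree = A.natDegree := by
    rw [reverse_natDegree, h5, Nat.sub_zero]
  have h7 : A.natDegree = 0 := by rw [← h6]; exact natDegree_eq_zero_of_isUnit h2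
  rw [eq_C_of_natDegree_eq_zero h7]
  exact isUnit_C.2 (isUnit_iff_ne_zero.2 h3)

private theorem chi_sep_rev {K : Type} [Field K] {P : K[X]} (hs : P.Separable)
    (h0 : P.coeff 0 ≠ 0) : P.reverse.Separable := by
  let f := algebraMap K (AlgebraicClosure K)
  have h1 : (P.map f).Separable := hs.map
  have h2 : (P.map f).coeff 0 ≠ 0 := by
    rw [coeff_map]
    exact (map_ne_zero f).2 h0
  have h3 : (P.map f).reverse.Separable :=
    PerfectField.separable_iff_squarefree.2 (chi_sqf h1.squarefree h2)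
  have h4 : (P.map f).reverse = P.reverse.map f := by
    show reflect (P.map f).natDegree (P.map f) = (reflect P.natDegree P).map f
    rw [natDegree_map, reflect_map]
  rw [h4] at h3
  exact (separable_map f).1 h3

private theorem chi_comp {K : Type} [Field K] {P : K[X]} (hs : P.Separable) {r : K} (hr : r ≠ 0) :
    (P.comp (C r * X)).Separable := by
  have h1 : IsCoprime (P.comp (C r * X)) (P.derivative.comp (C r * X)) :=
    IsCoprime.map (f := compRingHom (C r * X)) hs
  show IsCoprime _ _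
  rw [derivative_comp]
  have h2 : derivative (C r * X : K[X]) = C r := by simp
  rw [h2]
  exact (isCoprime_mul_unit_left_right (isUnit_C.2 (isUnit_iff_ne_zero.2 hr)) _ _).2 h1

private theorem chi_rev_smul {K : Type} [Field K] {ι : Type} [Fintype ι] [DecidableEq ι]
    (M : Matrix ι ι K) (r : K) : (r • M).charpolyRev = M.charpolyRev.comp (C r * X) := by
  show (1 - (X : K[X]) • (r • M).map C).det = compRingHom (C r * X) (1 - (X : K[X]) • M.map C).det
  rw [RingHom.map_det]
  congr 1
  refine Matrix.ext fun i j => ?_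
  simp only [RingHom.mapMatrix_apply, Matrix.map_apply, Matrix.sub_apply, Matrix.smul_apply,
    smul_eq_mul, map_mul, map_sub, coe_compRingHom_apply, X_comp, C_comp]
  by_cases h : i = j
  · subst h
    simp only [Matrix.one_apply_eq, one_comp]
    ring
  · simp only [Matrix.one_apply_ne h, zero_comp]
    ring

private theorem chi_Pmat_smul {K : Type} [Field K] {ι : Type} [Fintype ι] [DecidableEq ι] (s : K)
    (B M : ℕ → Matrix ι ι K) (h : ∀ i, s • B i = M i) (n : ℕ) :
    s ^ n • Pmat B n = Pmat M n := by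
  induction n with
  | zero => simp [Pmat]
  | succ n ih =>
    show s ^ (n + 1) • (B n * Pmat B n) = M n * Pmat M n
    rw [← ih, ← h n, Matrix.smul_mul, Matrix.mul_smul, smul_smul, pow_succ, mul_comm]

private theorem chi_Pmat_frob {k K : Type} [Field k] [Field K] {ι : Type} [Fintype ι]
    [DecidableEq ι] (g : k →+* K) (p : ℕ) (H : Matrix ι ι k) (n : ℕ) :
    Pmat (fun i => H.map fun x => g x ^ (p ^ i)) n = (Fprod p H n).map g := by
  induction n with
  | zero =>
    show (1 : Matrix ι ι K) = (1 : Matrix ι ι k).map g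
    rw [Matrix.map_one g (map_zero g) (map_one g)]
  | succ n ih =>
    show (H.map fun x => g x ^ (p ^ n)) * Pmat _ n = ((H.map fun x => x ^ (p ^ n)) * Fprod p H n).map g
    rw [ih, Matrix.map_mul]
    congr 1
    ext i j
    simp

private theorem chi_det_Pmat {K : Type} [Field K] {ι : Type} [Fintype ι] [DecidableEq ι]
    (B : ℕ → Matrix ι ι K) (n : ℕ) : (Pmat B n).det = ∏ i ∈ range n, (B i).det := by
  induction n with
  | zero => simp [Pmat]
  | succ n ih =>
    show (B n * Pmat B n).det = _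
    rw [Matrix.det_mul, ih, prod_range_succ, mul_comm]

/-- **Module CHI.** -/
theorem CHI_thm (hL : StmtLEAD) (hR : StmtREIDX) : StmtCHI := by
  intro p hp a b ha hb hD C' _ _ _ hpC ζ ρ ε Θ hΘ hρ hρ0 hρ1 k _ ι τ hτ f hf h hh hsep L hL' m hm1 hm
  have hchar : CharP (KK C') p := charP_KK hpC
  have hp1 : 1 ≤ p := hp.out.one_lt.le
  let e : (Fin 2 → Fin L) → ℕ := fun u => ew a b (pt u)
  let B : ℕ → Matrix {u : Fin 2 → Fin L // e u = m} {u : Fin 2 → Fin L // e u = m} (KK C') :=
    fun i => blk e m (Cmat p a b L ρ (Fpol p τ Θ f i))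
  have hcm : (p - 1) / Nat.lcm a b * m < p := by
    have h1 : (p - 1) / Nat.lcm a b * m ≤ (p - 1) / Nat.lcm a b * Nat.lcm a b :=
      Nat.mul_le_mul_left _ hm
    rw [Nat.div_mul_cancel hD] at h1
    omega
  obtain ⟨s, hs⟩ : ∃ s : KK C', s = ((((p - 1) / Nat.lcm a b * m).factorial : ℕ) : KK C') := ⟨_, rfl⟩
  have hs0 : s ≠ 0 := by
    rw [hs]
    intro h0
    have h1 := (CharP.cast_eq_zero_iff (KK C') p _).1 h0
    have h2 := (Nat.Prime.dvd_factorial hp.out).1 h1
    omega
  have hB : ∀ i, s • B i = (Hmat p a b L m f).map fun x => ι x ^ (p ^ i) := by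
    intro i
    refine Matrix.ext fun u v => ?_
    have h1 := (hL p a b ha hb hD C' hpC ζ ρ ε Θ hΘ hρ hρ0 hρ1 k ι τ hτ f hf i L u.1 v.1
      (u.2.le.trans hm) (v.2.le.trans hm)).2 m u.2 v.2
    rw [Matrix.smul_apply, smul_eq_mul, mul_comm, hs]
    exact h1
  have hG : s ^ h • Pmat B h = (Fprod p (Hmat p a b L m f) h).map ι := by
    rw [chi_Pmat_smul s B _ hB h, chi_Pmat_frob ι p]
  obtain ⟨_, hcard, hch⟩ := hR p a b ha hb L m hm hL'
  have hN : (X * (Fprod p (Hmat p a b L m f) h).charpoly).Separable := by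
    rw [hch k f h]
    exact hsep m hm1 hm
  have hN1 : (Fprod p (Hmat p a b L m f) h).charpoly.Separable := hN.of_mul_right
  have hN0 : (Fprod p (Hmat p a b L m f) h).charpoly.coeff 0 ≠ 0 := by
    intro h0
    have h1 : IsCoprime (X : k[X]) (Fprod p (Hmat p a b L m f) h).charpoly := hN.isCoprime
    have h2 : (X : k[X]) ∣ (Fprod p (Hmat p a b L m f) h).charpoly := X_dvd_iff.2 h0
    exact not_isUnit_X (h1.isUnit_of_dvd' dvd_rfl h2)
  have hM1 : ((Fprod p (Hmat p a b L m f) h).map ι).charpoly.Separable := by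
    rw [Matrix.charpoly_map]
    exact hN1.map
  have hM0 : ((Fprod p (Hmat p a b L m f) h).map ι).charpoly.coeff 0 ≠ 0 := by
    rw [Matrix.charpoly_map, coeff_map]
    exact (map_ne_zero ι).2 hN0
  have hr : (s ^ h)⁻¹ ≠ 0 := inv_ne_zero (pow_ne_zero _ hs0)
  have hG' : Pmat B h = (s ^ h)⁻¹ • (Fprod p (Hmat p a b L m f) h).map ι := by
    rw [← hG, smul_smul, inv_mul_cancel₀ (pow_ne_zero _ hs0), one_smul]
  have hdet : (Pmat B h).det ≠ 0 := by
    rw [hG', Matrix.det_smul, Matrix.det_eq_sign_charpoly_coeff]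
    exact mul_ne_zero (pow_ne_zero _ hr) (mul_ne_zero (pow_ne_zero _ (by norm_num)) hM0)
  refine ⟨?_, ?_, ?_, ?_⟩
  · show (Pmat B h).charpolyRev.Separable
    rw [hG', chi_rev_smul, ← Matrix.reverse_charpoly]
    exact chi_comp (chi_sep_rev hM1 hM0) hr
  · show (Pmat B h).charpolyRev.natDegree = _
    have h1 : (Pmat B h).charpoly.coeff 0 ≠ 0 := by
      intro h0
      apply hdet
      rw [Matrix.det_eq_sign_charpoly_coeff, h0, mul_zero]
    rw [← Matrix.reverse_charpoly, reverse_natDegree, Matrix.charpoly_natDegree_eq_dim,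
      natTrailingDegree_eq_zero.2 (Or.inr h1), Nat.sub_zero, ← hcard]
  · show (Pmat B h).charpolyRev.coeff 0 = 1
    rw [coeff_zero_eq_eval_zero, Matrix.eval_charpolyRev]
  · intro i hi
    show (B i).det ≠ 0
    rw [chi_det_Pmat] at hdet
    exact (prod_ne_zero_iff.1 hdet) i (mem_range.2 hi)

end ASur
end

section
/-!
# MP_b685ef_ag, theorem AS: module CHS

The exponential sum over the points of affine space, by the splitting polynomial.
-/
set_option linter.all false

namespace ASur

open Finset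

section
variable {C : Type} [NormedField C] [IsUltrametricDist C]

private theorem chs_sub_le {x y : C} {ε : ℝ} (hx : ‖x‖ ≤ ε) (hy : ‖y‖ ≤ ε) : ‖x - y‖ ≤ ε := by
  rw [sub_eq_add_neg]
  exact (IsUltrametricDist.norm_add_le_max x (-y)).trans (max_le hx (by simpa using hy))

private theorem chs_prod {ι : Type} (S : Finset ι) (a b : ι → C) {ε : ℝ} (hε : 0 ≤ ε)
    (ha : ∀ i ∈ S, ‖a i‖ ≤ 1) (hb : ∀ i ∈ S, ‖b i‖ ≤ 1) (hab : ∀ i ∈ S, ‖a i - b i‖ ≤ ε) :
    ‖∏ i ∈ S, a i - ∏ i ∈ S, b i‖ ≤ ε := by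
  classical
  induction S using Finset.induction_on with
  | empty => simpa using hε
  | insert m S hm ih =>
    rw [Finset.prod_insert hm, Finset.prod_insert hm]
    have h1 := ih (fun i hi => ha i (by simp [hi])) (fun i hi => hb i (by simp [hi]))
      (fun i hi => hab i (by simp [hi]))
    have h2 : ‖∏ i ∈ S, a i‖ ≤ 1 := norm_prod_le_one S fun i hi => ha i (by simp [hi])
    have e : a m * ∏ i ∈ S, a i - b m * ∏ i ∈ S, b i =
        (a m - b m) * ∏ i ∈ S, a i + b m * (∏ i ∈ S, a i - ∏ i ∈ S, b i) := by ring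
    rw [e]
    refine (IsUltrametricDist.norm_add_le_max _ _).trans (max_le ?_ ?_)
    · rw [norm_mul]
      calc ‖a m - b m‖ * ‖∏ i ∈ S, a i‖ ≤ ε * 1 :=
            mul_le_mul (hab m (by simp)) h2 (norm_nonneg _) hε
        _ = ε := mul_one ε
    · rw [norm_mul]
      calc ‖b m‖ * ‖∏ i ∈ S, a i - ∏ i ∈ S, b i‖ ≤ 1 * ε :=
            mul_le_mul (hb m (by simp)) h1 (norm_nonneg _) zero_le_one
        _ = ε := one_mul ε

private theorem chs_psi {p : ℕ} [Fact p.Prime] (ψ : AddChar (ZMod p) C) (a : ZMod p) :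
    ‖ψ a‖ = 1 := by
  have h : ψ a ^ p = 1 := by
    rw [← AddChar.map_nsmul_eq_pow]
    simp
  have h2 : ‖ψ a‖ ^ p = 1 := by rw [← norm_pow, h, norm_one]
  exact (pow_eq_one_iff_of_nonneg (norm_nonneg _) (Fact.out : p.Prime).ne_zero).1 h2

private theorem chs_theta {p : ℕ} [Fact p.Prime] (ψ : AddChar (ZMod p) C) {ε : ℝ}
    {Θ : Polynomial C} (h : IsSplit p (ψ 1) ε Θ) {t : C} (ht : ‖t‖ ≤ 1) : ‖Θ.eval t‖ ≤ 1 := by
  rw [Polynomial.eval_eq_sum_range]
  apply norm_sum_le_one
  intro m _
  rw [norm_mul, norm_pow]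
  have h1 : ‖ψ 1 - 1‖ ≤ 1 := chs_sub_le (chs_psi ψ 1).le (by simp)
  exact mul_le_one₀ ((h.bound m).trans (pow_le_one₀ (norm_nonneg _) h1))
    (pow_nonneg (norm_nonneg _) _) (pow_le_one₀ (norm_nonneg _) ht)

end

private theorem chs_expand {σ C : Type} [CommRing C] (n : ℕ) (y : σ → C) (F : MvPolynomial σ C) :
    MvPolynomial.eval y (MvPolynomial.expand n F) = MvPolynomial.eval (fun s => y s ^ n) F := by
  induction F using MvPolynomial.induction_on with
  | C a => simp
  | add f g hf hg => simp [hf, hg]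
  | mul_X f s hf => simp [hf]

private theorem chs_psi_sum {A M ι : Type} [AddCommGroup A] [CommMonoid M] (ψ : AddChar A M)
    (S : Finset ι) (g : ι → A) : ψ (∑ i ∈ S, g i) = ∏ i ∈ S, ψ (g i) := by
  classical
  induction S using Finset.induction_on with
  | empty => simp
  | insert m S hm ih =>
    rw [Finset.sum_insert hm, Finset.prod_insert hm, AddChar.map_add_eq_mul, ih]

theorem chs_thm (h1 : StmtTTR) : StmtCHS := by
  intro p _ C _ _ hp ψ ε Θ hε hΘ k _ _ τ E _ _ _ _ ιE τE hτE hcomp σ _ _ f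
  have httr := h1 p C hp E ιE τE hτE
  haveI := charP_KK (C := C) hp
  generalize Module.finrank (ZMod p) E = n at httr ⊢
  -- one monomial
  have hA : ∀ z : E, ‖∏ i ∈ range n, Θ.eval (τE z ^ (p ^ i)) -
      ψ (Algebra.trace (ZMod p) E z)‖ ≤ ε := by
    intro z
    obtain ⟨hz1, hz2⟩ := httr z
    obtain ⟨c, hc, hc1, hc2⟩ := hΘ.split n (τE z) hz1
    have hs : ‖∑ i ∈ range n, τE z ^ (p ^ i)‖ ≤ 1 := by
      apply norm_sum_le_one
      intro i _
      rw [norm_pow]
      exact pow_le_one₀ (norm_nonneg _) (hτE.norm_le z)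
    have h3 := (rd_eq_iff hs (norm_natCast_le c)).2 hc1
    rw [hz2, rd_natCast] at h3
    have h4 : ((Algebra.trace (ZMod p) E z).val : ZMod p) = (c : ZMod p) := by
      rw [ZMod.natCast_eq_natCast_iff]
      exact (CharP.natCast_eq_natCast (KK C) p).1 h3
    rw [ZMod.natCast_zmod_val] at h4
    have h5 : ψ (Algebra.trace (ZMod p) E z) = ψ 1 ^ c := by
      rw [h4, ← AddChar.map_nsmul_eq_pow]
      simp
    rw [h5]
    exact hc2
  -- the two products
  have hB : ∀ x : σ → E, MvPolynomial.eval (fun s => τE (x s)) (Gpol p (Fpol p τ Θ f) n) =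
      ∏ m ∈ f.support, ∏ i ∈ range n,
        Θ.eval (τE (algebraMap k E (f.coeff m) * ∏ s, x s ^ m s) ^ (p ^ i)) := by
    intro x
    unfold Gpol Fpol
    rw [map_prod, Finset.prod_comm]
    apply Finset.prod_congr rfl
    intro i _
    rw [chs_expand, map_prod]
    apply Finset.prod_congr rfl
    intro m _
    have e1 : MvPolynomial.eval (fun s => τE (x s) ^ p ^ i)
        (MvPolynomial.monomial m (τ (f.coeff m) ^ p ^ i)) =
        τE (algebraMap k E (f.coeff m) * ∏ s, x s ^ m s) ^ (p ^ i) := by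
      rw [MvPolynomial.eval_monomial, Finsupp.prod_fintype _ _ (by simp), map_mul, hcomp,
        map_prod, mul_pow, ← Finset.prod_pow]
      congr 1
      apply Finset.prod_congr rfl
      intro s _
      rw [map_pow, ← pow_mul, ← pow_mul, mul_comm]
    rw [← e1, Polynomial.aeval_def, Polynomial.hom_eval₂, Polynomial.eval₂_eq_eval_map]
    congr 1
    have e2 : (MvPolynomial.eval fun s => τE (x s) ^ p ^ i).comp
        (algebraMap C (MvPolynomial σ C)) = RingHom.id C := by
      ext a
      simp [MvPolynomial.algebraMap_eq]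
    rw [e2, Polynomial.map_id]
  have hC : ∀ x : σ → E, ψ (Algebra.trace (ZMod p) E (MvPolynomial.aeval x f)) =
      ∏ m ∈ f.support, ψ (Algebra.trace (ZMod p) E
        (algebraMap k E (f.coeff m) * ∏ s, x s ^ m s)) := by
    intro x
    rw [MvPolynomial.aeval_def, MvPolynomial.eval₂_eq', map_sum, chs_psi_sum]
  rw [← Finset.sum_sub_distrib]
  apply IsUltrametricDist.norm_sum_le_of_forall_le_of_nonneg hε.le
  intro x _
  rw [hB, hC]
  refine chs_prod _ _ _ hε.le (fun m _ => (chs_psi ψ _).le) (fun m _ => ?_) (fun m _ => ?_)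
  · apply norm_prod_le_one
    intro i _
    apply chs_theta ψ hΘ
    rw [norm_pow]
    exact pow_le_one₀ (norm_nonneg _) (hτE.norm_le _)
  · rw [norm_sub_rev]
    exact hA _

end ASur
end

section
/-!
# MP_b685ef_ag, theorem AS, module COP: the coprime case
-/
set_option linter.all false

namespace ASur

open Finset

private theorem cop_lcm {a b : ℕ} (ha : 2 ≤ a) (hb : 2 ≤ b) (hab : Nat.Coprime a b) :
    Nat.lcm a b = a * b ∧ Nat.lcm a b / a = b ∧ Nat.lcm a b / b = a := by
  have h1 : Nat.lcm a b = a * b := hab.lcm_eq_mul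
  refine ⟨h1, ?_, ?_⟩
  · rw [h1, Nat.mul_div_cancel_left _ (by omega)]
  · rw [h1, Nat.mul_div_cancel _ (by omega)]

private theorem cop_ew {a b : ℕ} (ha : 2 ≤ a) (hb : 2 ≤ b) (hab : Nat.Coprime a b)
    (w : Fin 2 → ℕ) : ew a b w = b * w 0 + a * w 1 := by
  obtain ⟨_, h2, h3⟩ := cop_lcm ha hb hab
  unfold ew
  rw [h2, h3]

private theorem cop_sub {a b m L : ℕ} (ha : 2 ≤ a) (hb : 2 ≤ b) (hab : Nat.Coprime a b)
    (hm : m ≤ Nat.lcm a b) : Subsingleton (Um a b L m) := by
  obtain ⟨h1, _, _⟩ := cop_lcm ha hb hab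
  rw [h1] at hm
  constructor
  rintro ⟨u, hu⟩ ⟨v, hv⟩
  rw [cop_ew ha hb hab] at hu hv
  unfold pt at hu hv
  have e0 : (u 0 : ℕ) + 1 = (v 0 : ℕ) + 1 := by
    have h2 : ∀ x y : ℕ, b * (x + 1) + a * (y + 1) = m → x + 1 < a := by
      intro x y hxy
      by_contra hcon
      have h3 : b * a ≤ b * (x + 1) := Nat.mul_le_mul_left b (by omega)
      have h4 : 0 < a * (y + 1) := Nat.mul_pos (by omega) (by omega)
      have h5 : b * a = a * b := mul_comm b a
      omega
    have h3 : b * ((u 0 : ℕ) + 1) ≡ b * ((v 0 : ℕ) + 1) [MOD a] := by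
      have h4 : b * ((u 0 : ℕ) + 1) + a * ((u 1 : ℕ) + 1) ≡
          b * ((v 0 : ℕ) + 1) + a * ((v 1 : ℕ) + 1) [MOD a] := by rw [hu, hv]
      unfold Nat.ModEq at h4 ⊢
      rwa [Nat.add_mul_mod_self_left, Nat.add_mul_mod_self_left] at h4
    have h4 : ((u 0 : ℕ) + 1) ≡ ((v 0 : ℕ) + 1) [MOD a] :=
      Nat.ModEq.cancel_left_of_coprime hab h3
    exact Nat.ModEq.eq_of_lt_of_lt h4 (h2 _ _ hu) (h2 _ _ hv)
  have e1 : (u 1 : ℕ) + 1 = (v 1 : ℕ) + 1 := by
    rw [e0] at hu
    have h2 : a * ((u 1 : ℕ) + 1) = a * ((v 1 : ℕ) + 1) := by omega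
    exact Nat.eq_of_mul_eq_mul_left (by omega) h2
  apply Subtype.ext
  funext s
  apply Fin.ext
  fin_cases s
  · show (u 0 : ℕ) = v 0
    omega
  · show (u 1 : ℕ) = v 1
    omega

private theorem cop_lead {a b : ℕ} (ha : 2 ≤ a) (hb : 2 ≤ b) (hab : Nat.Coprime a b)
    {k : Type} [Field k] (f : MvPolynomial (Fin 2) k) :
    lead a b f = MvPolynomial.monomial (Finsupp.single 0 a) (f.coeff (Finsupp.single 0 a)) +
      MvPolynomial.monomial (Finsupp.single 1 b) (f.coeff (Finsupp.single 1 b)) := by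
  classical
  obtain ⟨h1, h2, h3⟩ := cop_lcm ha hb hab
  unfold lead
  rw [h2, h3, h1]
  ext w
  rw [MvPolynomial.coeff_weightedHomogeneousComponent, MvPolynomial.coeff_add,
    MvPolynomial.coeff_monomial, MvPolynomial.coeff_monomial]
  have hw : Finsupp.weight ![b, a] w = b * w 0 + a * w 1 := by
    rw [Finsupp.weight_apply, Finsupp.sum_fintype w (fun i c => c • ![b, a] i)
      (fun i => by simp)]
    rw [Fin.sum_univ_two]
    simp only [smul_eq_mul, Matrix.cons_val_zero, Matrix.cons_val_one]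
    ring
  rw [hw]
  have hs0 : Finsupp.single (0 : Fin 2) a = w ↔ w 0 = a ∧ w 1 = 0 := by
    constructor
    · rintro rfl
      simp
    · rintro ⟨h4, h5⟩
      ext s
      fin_cases s
      · simp [h4]
      · simp [h5]
  have hs1 : Finsupp.single (1 : Fin 2) b = w ↔ w 0 = 0 ∧ w 1 = b := by
    constructor
    · rintro rfl
      simp
    · rintro ⟨h4, h5⟩
      ext s
      fin_cases s
      · simp [h4]
      · simp [h5]
  by_cases hcase : b * w 0 + a * w 1 = a * b
  · rw [if_pos hcase]
    have h4 : a ∣ w 0 := by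
      have h5 : a ∣ b * w 0 := by
        have h6 : a ∣ b * w 0 + a * w 1 := by
          rw [hcase]
          exact Dvd.intro _ rfl
        exact (Nat.dvd_add_left (Dvd.intro _ rfl)).1 h6
      exact hab.dvd_of_dvd_mul_left h5
    obtain ⟨t, ht⟩ := h4
    have h5 : t = 0 ∨ t = 1 := by
      rcases Nat.lt_or_ge t 2 with h | h
      · omega
      · exfalso
        have h6 : b * (a * 2) ≤ b * w 0 := by
          rw [ht]
          exact Nat.mul_le_mul_left b (Nat.mul_le_mul_left a h)
        have h7 : b * (a * 2) = 2 * (a * b) := by ring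
        have h8 : 0 < a * b := Nat.mul_pos (by omega) (by omega)
        omega
    rcases h5 with rfl | rfl
    · have h6 : w 0 = 0 := by rw [ht, mul_zero]
      have h7 : w 1 = b := by
        rw [h6, mul_zero, zero_add] at hcase
        exact Nat.eq_of_mul_eq_mul_left (by omega) hcase
      rw [if_neg (fun h => by
        have := (hs0.1 h).1
        omega), if_pos (hs1.2 ⟨h6, h7⟩), zero_add, hs1.2 ⟨h6, h7⟩]
    · have h6 : w 0 = a := by rw [ht, mul_one]
      have h7 : w 1 = 0 := by
        rw [h6, mul_comm b a] at hcase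
        have h8 : a * w 1 = 0 := by omega
        rcases Nat.mul_eq_zero.1 h8 with h | h
        · omega
        · exact h
      rw [if_pos (hs0.2 ⟨h6, h7⟩), if_neg (fun h => by
        have := (hs1.1 h).1
        omega), add_zero, hs0.2 ⟨h6, h7⟩]
  · rw [if_neg hcase, if_neg (fun h => by
      obtain ⟨h4, h5⟩ := hs0.1 h
      apply hcase
      rw [h4, h5]
      ring), if_neg (fun h => by
      obtain ⟨h4, h5⟩ := hs1.1 h
      apply hcase
      rw [h4, h5]
      ring), add_zero]

private theorem cop_entry {p a b : ℕ} [hp : Fact p.Prime] (ha : 2 ≤ a) (hb : 2 ≤ b)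
    (hab : Nat.Coprime a b) (hdvd : Nat.lcm a b ∣ p - 1) {k : Type} [Field k] [CharP k p]
    (f : MvPolynomial (Fin 2) k) (h0 : f.coeff (Finsupp.single 0 a) ≠ 0)
    (h1 : f.coeff (Finsupp.single 1 b) ≠ 0) {m : ℕ} (hm : m ≤ Nat.lcm a b)
    (w : Fin 2 → ℕ) (hw : ew a b w = m) :
    cf (lead a b f ^ ((p - 1) / Nat.lcm a b * m)) (fun s => p * w s - w s) ≠ 0 := by
  classical
  obtain ⟨e1, e2, e3⟩ := cop_lcm ha hb hab
  have hp1 : 1 < p := hp.out.one_lt
  obtain ⟨c, hc⟩ := hdvd
  have hD : 0 < Nat.lcm a b := Nat.lcm_pos (by omega) (by omega)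
  have hc' : (p - 1) / Nat.lcm a b = c := by
    rw [hc, Nat.mul_div_cancel_left _ hD]
  rw [hc', cop_lead ha hb hab]
  obtain ⟨α, hα⟩ : ∃ α, α = f.coeff (Finsupp.single 0 a) := ⟨_, rfl⟩
  obtain ⟨β, hβ⟩ : ∃ β, β = f.coeff (Finsupp.single 1 b) := ⟨_, rfl⟩
  rw [← hα, ← hβ]
  rw [← hα] at h0
  rw [← hβ] at h1
  rw [cop_ew ha hb hab] at hw
  obtain ⟨n, hn⟩ : ∃ n, n = c * m := ⟨_, rfl⟩
  rw [← hn]
  have hnp : n < p := by
    have h2 : c * m ≤ c * Nat.lcm a b := Nat.mul_le_mul_left c hm
    have h3 : c * Nat.lcm a b = p - 1 := by rw [hc, mul_comm]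
    omega
  obtain ⟨j, hj⟩ : ∃ j, j = c * (b * w 0) := ⟨_, rfl⟩
  have hnj : n = j + c * (a * w 1) := by
    rw [hn, hj, ← mul_add, hw]
  unfold cf
  rw [add_pow, MvPolynomial.coeff_sum]
  have hterm : ∀ i, MvPolynomial.coeff (Finsupp.equivFunOnFinite.symm fun s => p * w s - w s)
      (MvPolynomial.monomial (Finsupp.single 0 a) α ^ i *
        MvPolynomial.monomial (Finsupp.single 1 b) β ^ (n - i) *
          ((n.choose i : ℕ) : MvPolynomial (Fin 2) k)) =
      (if i • Finsupp.single (0 : Fin 2) a + (n - i) • Finsupp.single (1 : Fin 2) b =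
        Finsupp.equivFunOnFinite.symm (fun s => p * w s - w s) then α ^ i * β ^ (n - i) else 0) *
        ((n.choose i : ℕ) : k) := by
    intro i
    have h4 : ((n.choose i : ℕ) : MvPolynomial (Fin 2) k) =
        MvPolynomial.C ((n.choose i : ℕ) : k) := (map_natCast MvPolynomial.C _).symm
    rw [h4, mul_comm _ (MvPolynomial.C ((n.choose i : ℕ) : k)), MvPolynomial.coeff_C_mul,
      mul_comm ((n.choose i : ℕ) : k), MvPolynomial.monomial_pow, MvPolynomial.monomial_pow,
      MvPolynomial.monomial_mul, MvPolynomial.coeff_monomial]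
  rw [Finset.sum_congr rfl fun i _ => hterm i]
  have hpw : ∀ s, p * w s - w s = Nat.lcm a b * c * w s := by
    intro s
    rw [← hc, Nat.sub_mul, one_mul]
  have hex : ∀ i, i • Finsupp.single (0 : Fin 2) a + (n - i) • Finsupp.single (1 : Fin 2) b =
        Finsupp.equivFunOnFinite.symm (fun s => p * w s - w s) →
      i = j := by
    intro i h
    have h4 := DFunLike.congr_fun h 0
    simp only [Finsupp.coe_add, Finsupp.coe_smul, Pi.add_apply, Pi.smul_apply, smul_eq_mul,
      Finsupp.single_eq_same, Finsupp.equivFunOnFinite_symm_apply_apply] at h4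
    rw [hpw, e1] at h4
    have h5 : (Finsupp.single (1 : Fin 2) b) 0 = 0 := by simp
    rw [h5, mul_zero, add_zero] at h4
    have h6 : a * i = a * j := by
      rw [hj, mul_comm a i, h4]
      ring
    exact Nat.eq_of_mul_eq_mul_left (by omega) h6
  rw [Finset.sum_eq_single j]
  · rw [if_pos]
    · refine mul_ne_zero (mul_ne_zero (pow_ne_zero _ h0) (pow_ne_zero _ h1)) ?_
      rw [Ne, CharP.cast_eq_zero_iff k p]
      intro hdv
      have h4 : p ∣ n.factorial := by
        rw [← Nat.choose_mul_factorial_mul_factorial (show j ≤ n by omega), mul_assoc]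
        exact Dvd.dvd.mul_right hdv _
      rw [hp.out.dvd_factorial] at h4
      omega
    · ext s
      rw [Finsupp.equivFunOnFinite_symm_apply_apply, hpw, e1]
      fin_cases s
      · show (j • Finsupp.single (0 : Fin 2) a + (n - j) • Finsupp.single (1 : Fin 2) b) 0 =
          a * b * c * w 0
        simp only [Finsupp.coe_add, Finsupp.coe_smul, Pi.add_apply, Pi.smul_apply, smul_eq_mul,
          Finsupp.single_eq_same]
        have h5 : (Finsupp.single (1 : Fin 2) b) 0 = 0 := by simp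
        rw [h5, mul_zero, add_zero, hj]
        ring
      · show (j • Finsupp.single (0 : Fin 2) a + (n - j) • Finsupp.single (1 : Fin 2) b) 1 =
          a * b * c * w 1
        simp only [Finsupp.coe_add, Finsupp.coe_smul, Pi.add_apply, Pi.smul_apply, smul_eq_mul,
          Finsupp.single_eq_same]
        have h5 : (Finsupp.single (0 : Fin 2) a) 1 = 0 := by simp
        rw [h5, mul_zero, zero_add, hnj, Nat.add_sub_cancel_left]
        ring
  · intro i _ hij
    rw [if_neg (fun h => hij (hex i h)), zero_mul]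
  · intro h
    exfalso
    apply h
    rw [mem_range]
    omega

private theorem cop_fprod {p : ℕ} {ι k : Type} [Fintype ι] [DecidableEq ι] [Unique ι] [Field k]
    (M : Matrix ι ι k) (hM : M default default ≠ 0) (h : ℕ) :
    (Fprod p M h) default default ≠ 0 := by
  induction h with
  | zero =>
    show (1 : Matrix ι ι k) default default ≠ 0
    rw [Matrix.one_apply_eq]
    exact one_ne_zero
  | succ n ih =>
    show ((M.map fun x => x ^ (p ^ n)) * Fprod p M n) default default ≠ 0
    rw [Matrix.mul_apply, Fintype.sum_unique, Matrix.map_apply]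
    exact mul_ne_zero (pow_ne_zero _ hM) ih

theorem cop_thm : StmtCOP := by
  intro p hp a b ha hb hab hdvd k _ _ f h0 h1 h m hm1 hm2
  classical
  have hchar : CharP k p := charP_of_injective_algebraMap (algebraMap (ZMod p) k).injective p
  have hsub : Subsingleton (Um a b (Nat.lcm a b) m) := cop_sub ha hb hab hm2
  rcases isEmpty_or_nonempty (Um a b (Nat.lcm a b) m) with hemp | hne
  · have h2 : (Fprod p (Hmat p a b (Nat.lcm a b) m f) h).charpoly = 1 := by
      unfold Matrix.charpoly
      exact Matrix.det_isEmpty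
    rw [h2, mul_one]
    exact Polynomial.separable_X
  · obtain ⟨u⟩ := hne
    let hU : Unique (Um a b (Nat.lcm a b) m) := { default := u, uniq := fun v => hsub.elim v u }
    have h2 : Hmat p a b (Nat.lcm a b) m f default default ≠ 0 := by
      unfold Hmat
      rw [Matrix.of_apply]
      exact cop_entry ha hb hab hdvd f h0 h1 hm2 (pt (default : Um a b (Nat.lcm a b) m).1)
        (default : Um a b (Nat.lcm a b) m).2
    have h3 := cop_fprod (p := p) (Hmat p a b (Nat.lcm a b) m f) h2 h
    obtain ⟨x, hx⟩ : ∃ x, x = Fprod p (Hmat p a b (Nat.lcm a b) m f) h default default := ⟨_, rfl⟩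
    have h4 : (Fprod p (Hmat p a b (Nat.lcm a b) m f) h).charpoly =
        Polynomial.X - Polynomial.C x := by
      unfold Matrix.charpoly
      rw [Matrix.det_unique, Matrix.charmatrix_apply_eq, hx]
    rw [h4]
    refine Polynomial.Separable.mul Polynomial.separable_X Polynomial.separable_X_sub_C ?_
    have h5 : IsCoprime (Polynomial.X - Polynomial.C (0 : k)) (Polynomial.X - Polynomial.C x) := by
      refine Polynomial.isCoprime_X_sub_C_of_isUnit_sub ?_
      rw [zero_sub]
      exact (isUnit_iff_ne_zero.2 (by rw [hx]; exact h3)).neg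
    rwa [Polynomial.C_0, sub_zero] at h5

end ASur
end

section
set_option linter.all false

namespace ASur

open Finset

theorem core_thm (hHALF : StmtHALF) (hCOUNT : StmtCOUNT) : StmtCORE := by
  classical
  intro p _ a b ha hb hD C _ _ _ _ hp j hj k _ _ _ f hf hS ψ hψ β hβ0 hT
  set q : C := (Fintype.card k : C) with hq
  have hq0 : q ≠ 0 := by
    rw [hq]
    exact_mod_cast Fintype.card_ne_zero
  have hqpos : 0 < ‖q‖ := norm_pos_iff.2 hq0
  have hψ' : ψ⁻¹ ≠ 1 := inv_ne_one.2 hψ
  obtain ⟨A1, A2, A3⟩ := hHALF p a b ha hb hD C hp j hj k f hf hS ψ hψ β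
    (fun E _ _ _ _ => (hT E).1)
  obtain ⟨B1, B2, B3⟩ := hHALF p a b ha hb hD C hp j hj k f hf hS ψ⁻¹ hψ'
    (β.map fun x => q ^ 2 * x⁻¹) (fun E _ _ _ _ => by
      rw [← (hT E).2, Multiset.map_map, ← Multiset.sum_map_mul_left]
      congr 1
      refine Multiset.map_congr rfl fun x _ => ?_
      simp only [Function.comp]
      rw [mul_pow, ← pow_mul, ← pow_mul, mul_comm 2])
  rw [← hq] at A1 A2 A3 B1 B2 B3
  have hiff : ∀ x : C, x ≠ 0 → (‖q‖ < ‖q ^ 2 * x⁻¹‖ ↔ ‖x‖ < ‖q‖) := by
    intro x hx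
    have hxpos : 0 < ‖x‖ := norm_pos_iff.2 hx
    rw [norm_mul, norm_pow, norm_inv, ← div_eq_mul_inv, lt_div_iff₀ hxpos, sq]
    exact mul_lt_mul_iff_right₀ hqpos
  have C1 : Multiset.card (β.filter fun x => ‖x‖ < ‖q‖) =
      Fintype.card {u : Fin 2 → Fin (Nat.lcm a b) // ew a b (pt u) < Nat.lcm a b} := by
    rw [← B1, Multiset.filter_map, Multiset.card_map]
    congr 1
    refine Multiset.filter_congr fun x hx => ?_
    simp only [Function.comp]
    exact (hiff x (hβ0 x hx)).symm
  have C2 : Multiset.card β = Multiset.card (β.filter fun x => ‖q‖ < ‖x‖) +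
      Multiset.card (β.filter fun x => ‖x‖ = ‖q‖) +
      Multiset.card (β.filter fun x => ‖x‖ < ‖q‖) := by
    rw [← Multiset.card_add, ← Multiset.card_add]
    congr 1
    ext x
    rw [Multiset.count_add, Multiset.count_add, Multiset.count_filter, Multiset.count_filter,
      Multiset.count_filter]
    rcases lt_trichotomy ‖x‖ ‖q‖ with h | h | h
    · rw [if_neg (by linarith), if_neg (by linarith), if_pos h]; omega
    · rw [if_neg (by linarith), if_pos h, if_neg (by linarith)]; omega
    · rw [if_pos h, if_neg h.ne', if_neg (by linarith)]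
      omega
  refine ⟨?_, ?_⟩
  · rw [C2, A1, A2, C1, ← hCOUNT a b ha hb]
    ring
  · rw [Multiset.nodup_iff_count_le_one]
    intro x
    by_cases hx : ‖q‖ ≤ ‖x‖
    · have := Multiset.nodup_iff_count_le_one.1 A3 x
      rwa [Multiset.count_filter, if_pos hx] at this
    · push Not at hx
      by_cases hx0 : x = 0
      · rw [Multiset.count_eq_zero_of_notMem]
        · omega
        · intro h
          exact hβ0 x h hx0
      · have h1 := Multiset.nodup_iff_count_le_one.1 B3 (q ^ 2 * x⁻¹)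
        rw [Multiset.count_filter, if_pos ((hiff x hx0).2 hx).le] at h1
        refine le_trans ?_ h1
        rw [Multiset.count_map, Multiset.count_eq_card_filter_eq]
        refine Multiset.card_le_card (Multiset.monotone_filter_right β ?_)
        rintro y rfl
        rfl

end ASur
end

section
/-!
# MP_b685ef_ag, theorem AS, module COUNT: counting points under the line
-/
set_option linter.all false

namespace ASur

open Finset

namespace CountAux

/-- the weight on pairs -/
def e2 (a b : ℕ) (w : ℕ × ℕ) : ℕ := (Nat.lcm a b / a) * w.1 + (Nat.lcm a b / b) * w.2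

/-- the box -/
def box (a b : ℕ) : Finset (ℕ × ℕ) := Ico 1 a ×ˢ Ico 1 b

lemma mem_box {a b : ℕ} {w : ℕ × ℕ} :
    w ∈ box a b ↔ (1 ≤ w.1 ∧ w.1 < a) ∧ (1 ≤ w.2 ∧ w.2 < b) := by
  simp [box]

lemma card_box (a b : ℕ) : (box a b).card = (a - 1) * (b - 1) := by
  simp [box, Finset.card_product]

lemma count (a b : ℕ) (ha : 2 ≤ a) (hb : 2 ≤ b) (P : ℕ → Prop) [DecidablePred P]
    (hP : ∀ m, P m → m ≤ Nat.lcm a b)
    [Fintype {u : Fin 2 → Fin (Nat.lcm a b) // P (ew a b (pt u))}] :
    Fintype.card {u : Fin 2 → Fin (Nat.lcm a b) // P (ew a b (pt u))} =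
      ((box a b).filter fun w => P (e2 a b w)).card := by
  have hL : 0 < Nat.lcm a b := Nat.lcm_pos (by omega) (by omega)
  have hA : Nat.lcm a b / a * a = Nat.lcm a b := Nat.div_mul_cancel (Nat.dvd_lcm_left a b)
  have hB : Nat.lcm a b / b * b = Nat.lcm a b := Nat.div_mul_cancel (Nat.dvd_lcm_right a b)
  have hAL : a ≤ Nat.lcm a b := Nat.le_of_dvd hL (Nat.dvd_lcm_left a b)
  have hBL : b ≤ Nat.lcm a b := Nat.le_of_dvd hL (Nat.dvd_lcm_right a b)
  have hA0 : 0 < Nat.lcm a b / a := Nat.pos_of_ne_zero (by rintro h; rw [h] at hA; omega)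
  have hB0 : 0 < Nat.lcm a b / b := Nat.pos_of_ne_zero (by rintro h; rw [h] at hB; omega)
  rw [Fintype.card_of_subtype ((univ : Finset (Fin 2 → Fin (Nat.lcm a b))).filter
    fun u => P (ew a b (pt u))) (by intro x; simp)]
  refine Finset.card_bij (fun u _ => (pt u 0, pt u 1)) ?_ ?_ ?_
  · intro u hu
    rw [Finset.mem_filter] at hu
    have hu2 := hu.2
    have hle := hP _ hu2
    rw [Finset.mem_filter, mem_box]
    refine ⟨⟨⟨?_, ?_⟩, ?_, ?_⟩, hu2⟩
    · show 1 ≤ (u 0 : ℕ) + 1
      omega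
    · show pt u 0 < a
      by_contra hc
      push Not at hc
      have h1 : Nat.lcm a b / a * a ≤ Nat.lcm a b / a * pt u 0 := Nat.mul_le_mul_left _ hc
      have h2 : 0 < Nat.lcm a b / b * pt u 1 := Nat.mul_pos hB0 (Nat.succ_pos _)
      unfold ew at hle
      omega
    · show 1 ≤ (u 1 : ℕ) + 1
      omega
    · show pt u 1 < b
      by_contra hc
      push Not at hc
      have h1 : Nat.lcm a b / b * b ≤ Nat.lcm a b / b * pt u 1 := Nat.mul_le_mul_left _ hc
      have h2 : 0 < Nat.lcm a b / a * pt u 0 := Nat.mul_pos hA0 (Nat.succ_pos _)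
      unfold ew at hle
      omega
  · intro u _ v _ h
    rw [Prod.mk.injEq] at h
    funext s
    apply Fin.ext
    fin_cases s
    · have := h.1
      unfold pt at this
      simpa using this
    · have := h.2
      unfold pt at this
      simpa using this
  · intro w hw
    rw [Finset.mem_filter, mem_box] at hw
    obtain ⟨⟨⟨h1, h2⟩, h3, h4⟩, h5⟩ := hw
    refine ⟨![⟨w.1 - 1, by omega⟩, ⟨w.2 - 1, by omega⟩], ?_, ?_⟩
    · rw [Finset.mem_filter]
      refine ⟨Finset.mem_univ _, ?_⟩
      have : ew a b (pt (![⟨w.1 - 1, by omega⟩, ⟨w.2 - 1, by omega⟩] : Fin 2 → Fin (Nat.lcm a b)))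
          = e2 a b w := by
        unfold ew e2 pt
        simp only [Matrix.cons_val_zero, Matrix.cons_val_one]
        rw [Nat.sub_add_cancel h1, Nat.sub_add_cancel h3]
      rw [this]
      exact h5
    · unfold pt
      simp only [Matrix.cons_val_zero, Matrix.cons_val_one]
      rw [Nat.sub_add_cancel h1, Nat.sub_add_cancel h3]

lemma symm (a b : ℕ) (ha : 2 ≤ a) (hb : 2 ≤ b) :
    ((box a b).filter fun w => e2 a b w < Nat.lcm a b).card =
      ((box a b).filter fun w => Nat.lcm a b < e2 a b w).card := by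
  have hA : Nat.lcm a b / a * a = Nat.lcm a b := Nat.div_mul_cancel (Nat.dvd_lcm_left a b)
  have hB : Nat.lcm a b / b * b = Nat.lcm a b := Nat.div_mul_cancel (Nat.dvd_lcm_right a b)
  have key : ∀ w ∈ box a b, e2 a b w + e2 a b (a - w.1, b - w.2) = 2 * Nat.lcm a b := by
    intro w hw
    rw [mem_box] at hw
    obtain ⟨⟨h1, h2⟩, h3, h4⟩ := hw
    unfold e2
    have e1 : Nat.lcm a b / a * w.1 + Nat.lcm a b / a * (a - w.1) = Nat.lcm a b := by
      rw [← Nat.mul_add, Nat.add_sub_cancel' h2.le, hA]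
    have e3 : Nat.lcm a b / b * w.2 + Nat.lcm a b / b * (b - w.2) = Nat.lcm a b := by
      rw [← Nat.mul_add, Nat.add_sub_cancel' h4.le, hB]
    show Nat.lcm a b / a * w.1 + Nat.lcm a b / b * w.2 +
      (Nat.lcm a b / a * (a - w.1) + Nat.lcm a b / b * (b - w.2)) = _
    omega
  have hm : ∀ w ∈ box a b, (a - w.1, b - w.2) ∈ box a b := by
    intro w hw
    rw [mem_box] at hw ⊢
    obtain ⟨⟨h1, h2⟩, h3, h4⟩ := hw
    refine ⟨⟨?_, ?_⟩, ?_, ?_⟩ <;> dsimp only <;> omega
  refine Finset.card_bij' (fun w _ => (a - w.1, b - w.2)) (fun w _ => (a - w.1, b - w.2))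
    ?_ ?_ ?_ ?_
  · intro w hw
    rw [Finset.mem_filter] at hw ⊢
    refine ⟨hm w hw.1, ?_⟩
    have := key w hw.1
    have := hw.2
    omega
  · intro w hw
    rw [Finset.mem_filter] at hw ⊢
    refine ⟨hm w hw.1, ?_⟩
    have := key w hw.1
    have := hw.2
    omega
  · intro w hw
    rw [Finset.mem_filter, mem_box] at hw
    obtain ⟨⟨⟨h1, h2⟩, h3, h4⟩, -⟩ := hw
    refine Prod.ext ?_ ?_ <;> dsimp only <;> omega
  · intro w hw
    rw [Finset.mem_filter, mem_box] at hw
    obtain ⟨⟨⟨h1, h2⟩, h3, h4⟩, -⟩ := hw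
    refine Prod.ext ?_ ?_ <;> dsimp only <;> omega

end CountAux

theorem COUNT_thm : StmtCOUNT := by
  intro a b ha hb
  have h1 := CountAux.count a b ha hb (fun m => m < Nat.lcm a b) (fun m hm => hm.le)
  have h2 := CountAux.count a b ha hb (fun m => m = Nat.lcm a b) (fun m hm => hm.le)
  have h3 := CountAux.symm a b ha hb
  have h4 := CountAux.card_box a b
  rw [h1]
  unfold Um
  rw [h2, ← h4]
  have h5 := Finset.card_filter_add_card_filter_not (s := CountAux.box a b)
    (fun w => CountAux.e2 a b w < Nat.lcm a b)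
  have h6 := Finset.card_filter_add_card_filter_not
    (s := (CountAux.box a b).filter fun w => ¬ CountAux.e2 a b w < Nat.lcm a b)
    (fun w => CountAux.e2 a b w = Nat.lcm a b)
  rw [Finset.filter_filter, Finset.filter_filter] at h6
  have h7 : ((CountAux.box a b).filter fun w => ¬ CountAux.e2 a b w < Nat.lcm a b ∧
      CountAux.e2 a b w = Nat.lcm a b) =
      (CountAux.box a b).filter fun w => CountAux.e2 a b w = Nat.lcm a b := by
    apply Finset.filter_congr
    intro w _
    constructor <;> intro h <;> omega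
  have h8 : ((CountAux.box a b).filter fun w => ¬ CountAux.e2 a b w < Nat.lcm a b ∧
      ¬ CountAux.e2 a b w = Nat.lcm a b) =
      (CountAux.box a b).filter fun w => Nat.lcm a b < CountAux.e2 a b w := by
    apply Finset.filter_congr
    intro w _
    constructor <;> intro h <;> omega
  rw [h7, h8] at h6
  omega

end ASur
end

section
/-!
# MP_b685ef_ag, AS: module CYC1 (adapted from helper25)
-/
set_option autoImplicit false
set_option linter.all false

namespace ASur.CYC1M


open Matrix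

variable {R I : Type*} [CommRing R] [Fintype I] [DecidableEq I]

/-- The ordered product `E_n ... E_0`. -/
def prodE (E : ℕ → Matrix I I R) : ℕ → Matrix I I R
  | 0 => E 0
  | n + 1 => E (n + 1) * prodE E n

/-- The cyclic block matrix. -/
def cycM (S : Matrix I I R) (E : ℕ → Matrix I I R) (n : ℕ) :
    Matrix (Fin (n + 1) × I) (Fin (n + 1) × I) R := fun x y =>
  (if x.1 = y.1 then S x.2 y.2 else 0) -
    (if x.1.val = (y.1.val + 1) % (n + 1) then E y.1 x.2 y.2 else 0)

omit [DecidableEq I] in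
theorem prodE_congr {E E' : ℕ → Matrix I I R} {n : ℕ} (h : ∀ j ≤ n, E j = E' j) :
    prodE E n = prodE E' n := by
  induction n with
  | zero => exact h 0 le_rfl
  | succ n ih =>
    show E (n + 1) * prodE E n = E' (n + 1) * prodE E' n
    rw [ih fun j hj => h j (by omega), h (n + 1) le_rfl]

/-- The equivalence splitting off the last block. -/
def splitLast (n : ℕ) (I : Type*) : (Fin (n + 1) × I) ⊕ I ≃ Fin (n + 2) × I where
  toFun := Sum.elim (fun x => (x.1.castSucc, x.2)) (fun u => (Fin.last (n + 1), u))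
  invFun x := if h : x.1.val < n + 1 then Sum.inl (⟨x.1.val, h⟩, x.2) else Sum.inr x.2
  left_inv := by
    rintro (⟨i, u⟩ | u)
    · show (if h : i.val < n + 1 then Sum.inl ((⟨i.val, h⟩ : Fin (n + 1)), u) else Sum.inr u) = _
      rw [dif_pos i.2]
    · show (if h : n + 1 < n + 1 then Sum.inl ((⟨n + 1, h⟩ : Fin (n + 1)), u) else Sum.inr u) = _
      rw [dif_neg (lt_irrefl _)]
  right_inv := by
    rintro ⟨i, u⟩
    by_cases h : i.val < n + 1
    · simp [h, Fin.castSucc, Fin.castAdd, Fin.castLE]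
    · have : i = Fin.last (n + 1) := by
        apply Fin.ext
        simp only [Fin.val_last]
        omega
      simp [this]

def bA (E : ℕ → Matrix I I R) (n : ℕ) : Matrix (Fin (n + 1) × I) (Fin (n + 1) × I) R :=
  fun x y => (if x.1 = y.1 then (1 : Matrix I I R) x.2 y.2 else 0) -
            (if x.1.val = y.1.val + 1 then E y.1 x.2 y.2 else 0)

def bB (E : ℕ → Matrix I I R) (n : ℕ) : Matrix (Fin (n + 1) × I) I R :=
  fun x v => - (if x.1.val = 0 then E (n + 1) x.2 v else 0)

def bC (E : ℕ → Matrix I I R) (n : ℕ) : Matrix I (Fin (n + 1) × I) R :=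
  fun u y => - (if y.1.val = n then E n u y.2 else 0)

theorem det_cycM (n : ℕ) (E : ℕ → Matrix I I R) :
    (cycM 1 E n).det = (1 - prodE E n).det := by
  induction n generalizing E with
  | zero =>
    let e : I ≃ Fin 1 × I :=
      ⟨fun u => (0, u), fun x => x.2, fun _ => rfl, fun x => by
        obtain ⟨i, u⟩ := x
        exact Prod.ext (Subsingleton.elim _ _) rfl⟩
    rw [← Matrix.det_submatrix_equiv_self e]
    congr 1
    ext u v
    show (if (0 : Fin 1) = 0 then (1 : Matrix I I R) u v else 0) -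
      (if 0 = (0 + 1) % (0 + 1) then E 0 u v else 0) = _
    rw [if_pos rfl, if_pos (show 0 = (0 + 1) % (0 + 1) from rfl)]
    rfl
  | succ n ih =>
    rw [← Matrix.det_submatrix_equiv_self (splitLast n I)]
    have hM : (cycM 1 E (n + 1)).submatrix (splitLast n I) (splitLast n I) =
        fromBlocks (bA E n) (bB E n) (bC E n) 1 := by
      ext x y
      rcases x with ⟨i, u⟩ | u <;> rcases y with ⟨j, v⟩ | v
      · show (if i.castSucc = j.castSucc then (1 : Matrix I I R) u v else 0) -
          (if i.val = (j.val + 1) % (n + 1 + 1) then E j u v else 0) =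
          (if i = j then (1 : Matrix I I R) u v else 0) - (if i.val = j.val + 1 then E j u v else 0)
        rw [Nat.mod_eq_of_lt (by omega)]
        simp only [Fin.castSucc_inj]
      · show (if i.castSucc = Fin.last (n + 1) then (1 : Matrix I I R) u v else 0) -
          (if i.val = (n + 1 + 1) % (n + 1 + 1) then E (n + 1) u v else 0) =
          - (if i.val = 0 then E (n + 1) u v else 0)
        rw [Nat.mod_self, if_neg, zero_sub]
        intro h
        have := congrArg Fin.val h
        simp only [Fin.val_castSucc, Fin.val_last] at this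
        omega
      · show (if Fin.last (n + 1) = j.castSucc then (1 : Matrix I I R) u v else 0) -
          (if n + 1 = (j.val + 1) % (n + 1 + 1) then E j u v else 0) =
          - (if j.val = n then E n u v else 0)
        rw [Nat.mod_eq_of_lt (by omega), if_neg, zero_sub]
        · by_cases h : j.val = n
          · rw [if_pos (by omega), if_pos h, h]
          · rw [if_neg (by omega), if_neg h]
        · intro h
          have := congrArg Fin.val h
          simp only [Fin.val_castSucc, Fin.val_last] at this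
          omega
      · show (if Fin.last (n + 1) = Fin.last (n + 1) then (1 : Matrix I I R) u v else 0) -
          (if n + 1 = (n + 1 + 1) % (n + 1 + 1) then E (n + 1) u v else 0) =
          (1 : Matrix I I R) u v
        rw [Nat.mod_self, if_pos rfl, if_neg (Nat.succ_ne_zero n), sub_zero]
    rw [hM, Matrix.det_fromBlocks_one₂₂]
    set E' : ℕ → Matrix I I R := fun j => if j = n then E (n + 1) * E n else E j with hE'
    have hA : bA E n - bB E n * bC E n = cycM 1 E' n := by
      ext x y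
      obtain ⟨i, u⟩ := x
      obtain ⟨j, v⟩ := y
      rw [Matrix.sub_apply, Matrix.mul_apply]
      show (if i = j then (1 : Matrix I I R) u v else 0) -
            (if i.val = j.val + 1 then E j u v else 0) -
          ∑ w, (- (if i.val = 0 then E (n + 1) u w else 0)) * (- (if j.val = n then E n w v else 0))
        = (if i = j then (1 : Matrix I I R) u v else 0) -
            (if i.val = (j.val + 1) % (n + 1) then E' j u v else 0)
      rw [sub_sub]
      congr 1
      simp only [neg_mul_neg]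
      by_cases hj : j.val = n
      · rw [if_neg (by omega), zero_add, hj, Nat.mod_self]
        by_cases hi : i.val = 0
        · simp only [hi, if_true, hE', Matrix.mul_apply]
        · simp only [hi, if_false, zero_mul, Finset.sum_const_zero]
      · simp only [hj, if_false, mul_zero, Finset.sum_const_zero, add_zero]
        rw [Nat.mod_eq_of_lt (by omega)]
        simp only [hE', if_neg hj]
    rw [hA, ih E']
    congr 2
    cases n with
    | zero =>
      show E' 0 = E 1 * E 0
      simp [hE']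
    | succ n =>
      show E' (n + 1) * prodE E' n = E (n + 2) * (E (n + 1) * prodE E n)
      rw [← mul_assoc]
      have h1 : E' (n + 1) = E (n + 2) * E (n + 1) := by simp [hE']
      have h2 : prodE E' n = prodE E n := prodE_congr fun j hj => by
        simp only [hE']
        rw [if_neg (by omega)]
      rw [h1, h2]


end ASur.CYC1M

namespace ASur

open CYC1M in
theorem CYC1_prod {ι R : Type} [Fintype ι] [DecidableEq ι] [CommRing R] (E : ℕ → Matrix ι ι R)
    (n : ℕ) : prodE E n = Pmat E (n + 1) := by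
  induction n with
  | zero => show E 0 = E 0 * 1; rw [mul_one]
  | succ n ih => show E (n + 1) * prodE E n = E (n + 1) * Pmat E (n + 1); rw [ih]

theorem CYC1_thm : StmtCYC1 := by
  intro ι R _ _ _ h hh E
  obtain ⟨n, rfl⟩ : ∃ n, h = n + 1 := ⟨h - 1, by omega⟩
  rw [← CYC1_prod]
  exact CYC1M.det_cycM n E

end ASur
end

section
/-!
# MP_b685ef_ag, AS: module CYC3 (adapted from helper25)
-/
set_option autoImplicit false
set_option linter.all false

namespace ASur.CYC3M


open Matrix

variable {R I : Type*} [CommRing R] [Fintype I] [DecidableEq I]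

/-- The cyclic block matrix. -/
def cycM (S : Matrix I I R) (E : ℕ → Matrix I I R) (n : ℕ) :
    Matrix (Fin (n + 1) × I) (Fin (n + 1) × I) R := fun x y =>
  (if x.1 = y.1 then S x.2 y.2 else 0) -
    (if x.1.val = (y.1.val + 1) % (n + 1) then E y.1 x.2 y.2 else 0)

/-- The negative of the cyclic shift. -/
def shiftM (R : Type*) [CommRing R] (n : ℕ) : Matrix (Fin (n + 1)) (Fin (n + 1)) R :=
  fun i k => if i.val = (k.val + 1) % (n + 1) then (-1 : R) else 0

def diagM (E : ℕ → Matrix I I R) (n : ℕ) : Matrix (Fin (n + 1) × I) (Fin (n + 1) × I) R :=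
  fun x y => if x.1 = y.1 then E y.1 x.2 y.2 else 0

theorem det_shiftM_pm (n : ℕ) : (shiftM R n).det = 1 ∨ (shiftM R n).det = -1 := by
  have : shiftM R n = -(((finRotate (n + 1)).symm).toPEquiv.toMatrix : Matrix _ _ R) := by
    ext i k
    rw [Matrix.neg_apply, PEquiv.toMatrix_apply]
    have key : (i.val = (k.val + 1) % (n + 1)) ↔ k ∈ ((finRotate (n + 1)).symm).toPEquiv i := by
      rw [Equiv.toPEquiv_apply, Option.mem_some_iff, Equiv.symm_apply_eq, finRotate_succ_apply]
      constructor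
      · intro h
        apply Fin.ext
        rw [h, Fin.val_add, Fin.val_one']
        simp
      · intro h
        rw [h, Fin.val_add, Fin.val_one']
        simp
    unfold shiftM
    by_cases h : i.val = (k.val + 1) % (n + 1)
    · rw [if_pos h, if_pos (key.mp h)]
    · rw [if_neg h, if_neg (fun h' => h (key.mpr h')), neg_zero]
  rw [this, Matrix.det_neg, Matrix.det_permutation]
  rcases neg_one_pow_eq_or R (Fintype.card (Fin (n + 1))) with h1 | h1 <;>
  rcases Int.units_eq_one_or (Equiv.Perm.sign (finRotate (n + 1)).symm) with h | h <;>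
      rw [h, h1] <;> simp

theorem det_diagM (E : ℕ → Matrix I I R) (n : ℕ) :
    (diagM E n).det = ∏ i ∈ Finset.range (n + 1), (E i).det := by
  have : diagM E n = (Matrix.blockDiagonal fun i : Fin (n + 1) => E i.val).submatrix
      Prod.swap Prod.swap := by
    ext x y
    obtain ⟨i, u⟩ := x
    obtain ⟨j, v⟩ := y
    rw [Matrix.submatrix_apply, Prod.swap_prod_mk, Prod.swap_prod_mk, Matrix.blockDiagonal_apply]
    show (if i = j then E j u v else 0) = (if i = j then E i u v else 0)
    by_cases h : i = j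
    · rw [if_pos h, if_pos h, h]
    · rw [if_neg h, if_neg h]
  rw [this]
  have e : (Prod.swap : Fin (n + 1) × I → I × Fin (n + 1)) = Equiv.prodComm (Fin (n + 1)) I := rfl
  rw [e, Matrix.det_submatrix_equiv_self, Matrix.det_blockDiagonal, Finset.prod_range]

theorem det_cycM_zero (E : ℕ → Matrix I I R) (n : ℕ) :
    ∃ c : R, (c = 1 ∨ c = -1) ∧
      (cycM 0 E n).det = c * ∏ i ∈ Finset.range (n + 1), (E i).det := by
  have hfac : cycM 0 E n = Matrix.kroneckerMap (· * ·) (shiftM R n) (1 : Matrix I I R) *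
      diagM E n := by
    ext x y
    obtain ⟨i, u⟩ := x
    obtain ⟨j, v⟩ := y
    rw [Matrix.mul_apply, Fintype.sum_prod_type]
    simp only [Matrix.kroneckerMap_apply]
    rw [Finset.sum_eq_single j]
    · rw [Finset.sum_eq_single u]
      · rw [Matrix.one_apply_eq, mul_one]
        show (if i = j then (0 : Matrix I I R) u v else 0) -
          (if i.val = (j.val + 1) % (n + 1) then E j u v else 0) =
          (if i.val = (j.val + 1) % (n + 1) then (-1 : R) else 0) * (if j = j then E j u v else 0)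
        rw [Matrix.zero_apply, ite_self, zero_sub, if_pos rfl]
        split_ifs <;> simp
      · intro w _ hw
        rw [Matrix.one_apply_ne (Ne.symm hw), mul_zero, zero_mul]
      · intro h
        exact absurd (Finset.mem_univ u) h
    · intro k _ hk
      apply Finset.sum_eq_zero
      intro w _
      show _ * (if k = j then E j w v else 0) = 0
      rw [if_neg hk, mul_zero]
    · intro h
      exact absurd (Finset.mem_univ j) h
  refine ⟨(Matrix.kroneckerMap (· * ·) (shiftM R n) (1 : Matrix I I R)).det, ?_, ?_⟩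
  · rw [Matrix.det_kronecker, Matrix.det_one, one_pow, mul_one]
    rcases det_shiftM_pm (R := R) n with h | h
    · left
      rw [h, one_pow]
    · rw [h]
      exact neg_one_pow_eq_or R _
  · rw [hfac, Matrix.det_mul, det_diagM]


end ASur.CYC3M

namespace ASur

theorem CYC3_thm : StmtCYC3 := by
  intro ι R _ _ _ h hh E
  obtain ⟨n, rfl⟩ : ∃ n, h = n + 1 := ⟨h - 1, by omega⟩
  exact CYC3M.det_cycM_zero E n

end ASur
end

section
/-! # AS, module DEG: a degree bound. -/
set_option linter.all false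

namespace ASur

open Finset

private theorem deg_mono {C : Type} [Field C] (m : Fin 2 →₀ ℕ) (a : C) (s : Fin 2) :
    (MvPolynomial.monomial m a).degreeOf s ≤ m s := by
  by_cases ha : a = 0
  · subst ha; simp
  · rw [MvPolynomial.degreeOf_monomial_eq m s ha]

private theorem deg_aeval {C : Type} [Field C] (m : Fin 2 →₀ ℕ) (a : C) (Θ : Polynomial C)
    (s : Fin 2) :
    (Polynomial.aeval (MvPolynomial.monomial m a) Θ).degreeOf s ≤ Θ.natDegree * m s := by
  rw [Polynomial.aeval_eq_sum_range]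
  refine (MvPolynomial.degreeOf_sum_le s _ _).trans (Finset.sup_le fun j hj => ?_)
  rw [MvPolynomial.monomial_pow, MvPolynomial.smul_monomial]
  refine (deg_mono _ _ _).trans ?_
  have hj' : j ≤ Θ.natDegree := Nat.lt_succ_iff.1 (Finset.mem_range.1 hj)
  simpa using Nat.mul_le_mul_right (m s) hj'

theorem deg_thm : StmtDEG := by
  intro p hp C _ k _ τ Θ f L0
  refine ⟨L0 + ∑ m ∈ f.support, Θ.natDegree * (m 0 + m 1), by omega, fun i s => ?_⟩
  have h1 : (Fpol p τ Θ f i).degreeOf s ≤ ∑ m ∈ f.support, Θ.natDegree * (m 0 + m 1) := by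
    unfold Fpol
    refine (MvPolynomial.degreeOf_prod_le s _ _).trans (Finset.sum_le_sum fun m _ => ?_)
    refine (deg_aeval m _ Θ s).trans (Nat.mul_le_mul_left _ ?_)
    fin_cases s <;> simp
  have h2 : 1 ≤ p - 1 := by omega
  calc (Fpol p τ Θ f i).degreeOf s ≤ L0 + ∑ m ∈ f.support, Θ.natDegree * (m 0 + m 1) := by omega
    _ ≤ (p - 1) * (L0 + ∑ m ∈ f.support, Θ.natDegree * (m 0 + m 1)) :=
      Nat.le_mul_of_pos_left _ h2

end ASur
end

section
/-!
# MP_b685ef_ag, theorem AS, module DWL: Dwork's lemma, existence form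
-/
set_option linter.all false

namespace ASur

section DWLsec

variable (p : ℕ) [hp : Fact p.Prime]

/-- `F ↦ F(X^p, Y^p)` -/
noncomputable def dwl_Phi (F : PowerSeries (Polynomial ℤ_[p])) :
    PowerSeries (Polynomial ℤ_[p]) :=
  PowerSeries.expand p hp.out.ne_zero
    (PowerSeries.map (Polynomial.expand ℤ_[p] p).toRingHom F)

theorem dwl_Phi_apply (F : PowerSeries (Polynomial ℤ_[p])) :
    dwl_Phi p F = PowerSeries.expand p hp.out.ne_zero
      (PowerSeries.map (Polynomial.expand ℤ_[p] p).toRingHom F) := rfl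

theorem dwl_coeff_Phi (F : PowerSeries (Polynomial ℤ_[p])) (n : ℕ) :
    PowerSeries.coeff n (dwl_Phi p F) =
      if p ∣ n then Polynomial.expand ℤ_[p] p (PowerSeries.coeff (n / p) F) else 0 := by
  rw [dwl_Phi_apply, PowerSeries.coeff_expand, PowerSeries.coeff_map]
  rfl

/-- Reduction modulo `p` of the coefficients. -/
noncomputable def dwl_pi : Polynomial ℤ_[p] →+* Polynomial (ZMod p) :=
  Polynomial.mapRingHom PadicInt.toZMod

theorem dwl_ker (x : Polynomial ℤ_[p]) (hx : dwl_pi p x = 0) :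
    Polynomial.C (p : ℤ_[p]) ∣ x := by
  rw [Polynomial.C_dvd_iff_dvd_coeff]
  intro i
  have h1 : PadicInt.toZMod (x.coeff i) = 0 := by
    have h2 := congrArg (fun q => Polynomial.coeff q i) hx
    simpa [dwl_pi] using h2
  have h3 : x.coeff i ∈ RingHom.ker (PadicInt.toZMod (p := p)) := h1
  rw [PadicInt.ker_toZMod, PadicInt.maximalIdeal_eq_span_p, Ideal.mem_span_singleton] at h3
  exact h3

theorem dwl_pi_dvd (x : Polynomial ℤ_[p]) (hx : Polynomial.C (p : ℤ_[p]) ∣ x) :
    dwl_pi p x = 0 := by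
  obtain ⟨y, rfl⟩ := hx
  have h1 : dwl_pi p (Polynomial.C (p : ℤ_[p])) = 0 := by
    simp [dwl_pi]
  rw [map_mul, h1, zero_mul]

theorem dwl_map_Phi (F : PowerSeries (Polynomial ℤ_[p])) :
    PowerSeries.map (dwl_pi p) (dwl_Phi p F) = (PowerSeries.map (dwl_pi p) F) ^ p := by
  have : ExpChar (Polynomial (ZMod p)) p := ExpChar.prime hp.out
  have h1 : (PowerSeries.map (dwl_pi p) F) ^ p =
      PowerSeries.map (frobenius (Polynomial (ZMod p)) p)
        (PowerSeries.expand p hp.out.ne_zero (PowerSeries.map (dwl_pi p) F)) :=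
    (MvPowerSeries.map_frobenius_expand (σ := Unit) (R := Polynomial (ZMod p)) p
      hp.out.ne_zero (f := PowerSeries.map (dwl_pi p) F)).symm
  rw [h1]
  ext1 n
  rw [PowerSeries.coeff_map, dwl_coeff_Phi, PowerSeries.coeff_map, PowerSeries.coeff_expand,
    PowerSeries.coeff_map]
  split_ifs with h
  · rw [frobenius_def, ← ZMod.expand_card]
    exact Polynomial.map_expand
  · rw [map_zero, map_zero]

theorem dwl_dvd (g : PowerSeries (Polynomial ℤ_[p])) (hg0 : PowerSeries.constantCoeff g = 1)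
    (hgp : ∀ n, 1 ≤ n → Polynomial.C (p : ℤ_[p]) ∣ PowerSeries.coeff n g)
    (F : PowerSeries (Polynomial ℤ_[p])) (n : ℕ) :
    Polynomial.C (p : ℤ_[p]) ∣ PowerSeries.coeff n (dwl_Phi p F) -
      PowerSeries.coeff n (F ^ p * g) := by
  apply dwl_ker
  have h1 : PowerSeries.map (dwl_pi p) g = 1 := by
    ext1 n
    rw [PowerSeries.coeff_map, PowerSeries.coeff_one]
    split_ifs with h
    · rw [h, PowerSeries.coeff_zero_eq_constantCoeff_apply, hg0, map_one]
    · exact dwl_pi_dvd p _ (hgp n (Nat.one_le_iff_ne_zero.2 h))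
  have h2 : PowerSeries.map (dwl_pi p) (F ^ p * g) = PowerSeries.map (dwl_pi p) (dwl_Phi p F) := by
    rw [dwl_map_Phi, map_mul (PowerSeries.map (dwl_pi p)), map_pow (PowerSeries.map (dwl_pi p)),
      h1, mul_one]
  rw [map_sub, ← PowerSeries.coeff_map, ← PowerSeries.coeff_map, h2, sub_self]

/-! ### Degrees -/

/-- the coefficient of `Y^n` has degree `≤ n` -/
def dwl_D (F : PowerSeries (Polynomial ℤ_[p])) : Prop :=
  ∀ n, (PowerSeries.coeff n F).natDegree ≤ n

theorem dwl_D_mul {F G : PowerSeries (Polynomial ℤ_[p])} (hF : dwl_D p F) (hG : dwl_D p G) :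
    dwl_D p (F * G) := by
  intro n
  rw [PowerSeries.coeff_mul]
  refine Polynomial.natDegree_sum_le_of_forall_le _ _ fun x hx => ?_
  have h1 := Finset.HasAntidiagonal.mem_antidiagonal.1 hx
  refine Polynomial.natDegree_mul_le.trans ?_
  have h2 := hF x.1
  have h3 := hG x.2
  omega

theorem dwl_D_one : dwl_D p 1 := by
  intro n
  rw [PowerSeries.coeff_one]
  split_ifs
  · simp
  · simp

theorem dwl_D_pow {F : PowerSeries (Polynomial ℤ_[p])} (hF : dwl_D p F) (k : ℕ) :
    dwl_D p (F ^ k) := by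
  induction k with
  | zero => rw [pow_zero]; exact dwl_D_one p
  | succ k ih => rw [pow_succ]; exact dwl_D_mul p ih hF

theorem dwl_D_Phi {F : PowerSeries (Polynomial ℤ_[p])} (hF : dwl_D p F) :
    dwl_D p (dwl_Phi p F) := by
  intro n
  rw [dwl_coeff_Phi]
  split_ifs with h
  · rw [Polynomial.natDegree_expand]
    calc (PowerSeries.coeff (n / p) F).natDegree * p ≤ (n / p) * p :=
          Nat.mul_le_mul_right _ (hF _)
      _ ≤ n := Nat.div_mul_le_self n p
  · simp

/-! ### The recursion -/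

/-- the three properties modulo `Y^(m+1)` -/
def dwl_Good (g : PowerSeries (Polynomial ℤ_[p])) (m : ℕ)
    (P : PowerSeries (Polynomial ℤ_[p])) : Prop :=
  PowerSeries.constantCoeff P = 1 ∧ dwl_D p P ∧
    ∀ n, n ≤ m → PowerSeries.coeff n (dwl_Phi p P) = PowerSeries.coeff n (P ^ p * g)

theorem dwl_step (g : PowerSeries (Polynomial ℤ_[p])) (hg0 : PowerSeries.constantCoeff g = 1)
    (hgp : ∀ n, 1 ≤ n → Polynomial.C (p : ℤ_[p]) ∣ PowerSeries.coeff n g) (hgd : dwl_D p g)
    (m : ℕ) (P : PowerSeries (Polynomial ℤ_[p])) (hP : dwl_Good p g m P) :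
    ∃ P', dwl_Good p g (m + 1) P' ∧
      ∀ n, n ≤ m → PowerSeries.coeff n P' = PowerSeries.coeff n P := by
  obtain ⟨hP0, hPd, hPe⟩ := hP
  obtain ⟨a, ha⟩ := dwl_dvd p g hg0 hgp P (m + 1)
  have hp0 : (p : ℤ_[p]) ≠ 0 := Nat.cast_ne_zero.2 hp.out.ne_zero
  have hdeg : a.natDegree ≤ m + 1 := by
    have h1 : (Polynomial.C (p : ℤ_[p]) * a).natDegree = a.natDegree :=
      Polynomial.natDegree_C_mul hp0
    rw [← h1, ← ha]
    refine (Polynomial.natDegree_sub_le _ _).trans (max_le ?_ ?_)
    · exact dwl_D_Phi p hPd (m + 1)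
    · exact dwl_D_mul p (dwl_D_pow p hPd p) hgd (m + 1)
  have hc : ∀ n, PowerSeries.coeff n (P + PowerSeries.C a * PowerSeries.X ^ (m + 1)) =
      PowerSeries.coeff n P + if n = m + 1 then a else 0 := by
    intro n
    rw [map_add, PowerSeries.coeff_C_mul_X_pow]
  have hlow : ∀ n, n < m + 1 →
      PowerSeries.coeff n (P + PowerSeries.C a * PowerSeries.X ^ (m + 1)) =
      PowerSeries.coeff n P := by
    intro n hn
    rw [hc, if_neg hn.ne, add_zero]
  refine ⟨P + PowerSeries.C a * PowerSeries.X ^ (m + 1), ⟨?_, ?_, ?_⟩, ?_⟩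
  · rw [← PowerSeries.coeff_zero_eq_constantCoeff_apply, hlow 0 (Nat.succ_pos m),
      PowerSeries.coeff_zero_eq_constantCoeff_apply, hP0]
  · intro n
    rw [hc]
    refine (Polynomial.natDegree_add_le _ _).trans (max_le (hPd n) ?_)
    split_ifs with h
    · rw [h]; exact hdeg
    · simp
  · intro n hn
    have h1 : PowerSeries.coeff n (dwl_Phi p (P + PowerSeries.C a * PowerSeries.X ^ (m + 1))) =
        PowerSeries.coeff n (dwl_Phi p P) := by
      rw [dwl_coeff_Phi, dwl_coeff_Phi]
      split_ifs with h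
      · rw [hlow (n / p)]
        rcases Nat.eq_zero_or_pos n with h0 | h0
        · rw [h0, Nat.zero_div]; exact Nat.succ_pos m
        · exact (Nat.div_lt_self h0 hp.out.one_lt).trans_le hn
      · rfl
    obtain ⟨k, hk⟩ := Polynomial.powAddExpansion P
      (PowerSeries.C a * PowerSeries.X ^ (m + 1)) p
    have h2 : (P + PowerSeries.C a * PowerSeries.X ^ (m + 1)) ^ p * g = P ^ p * g +
        (PowerSeries.C (Polynomial.C (p : ℤ_[p]) * a) * (P ^ (p - 1) * g)) *
          PowerSeries.X ^ (m + 1) +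
        (k * PowerSeries.C a ^ 2 * g * PowerSeries.X ^ (m + 1)) * PowerSeries.X ^ (m + 1) := by
      rw [hk]
      have h3 : ((p : ℕ) : PowerSeries (Polynomial ℤ_[p])) =
          PowerSeries.C (Polynomial.C (p : ℤ_[p])) := by
        simp
      rw [h3, map_mul]
      ring
    rw [h1, h2, map_add, map_add, PowerSeries.coeff_mul_X_pow', PowerSeries.coeff_mul_X_pow']
    rcases Nat.lt_or_ge n (m + 1) with hlt | hge
    · rw [if_neg (Nat.not_le.2 hlt), if_neg (Nat.not_le.2 hlt), add_zero, add_zero]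
      exact hPe n (Nat.lt_succ_iff.1 hlt)
    · have hn' : n = m + 1 := le_antisymm hn hge
      subst hn'
      rw [if_pos le_rfl, if_pos le_rfl, Nat.sub_self,
        PowerSeries.coeff_zero_eq_constantCoeff_apply,
        PowerSeries.coeff_zero_eq_constantCoeff_apply]
      have h4 : PowerSeries.constantCoeff (PowerSeries.C (Polynomial.C (p : ℤ_[p]) * a) *
          (P ^ (p - 1) * g)) = Polynomial.C (p : ℤ_[p]) * a := by
        rw [map_mul PowerSeries.constantCoeff, PowerSeries.constantCoeff_C,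
          map_mul PowerSeries.constantCoeff, map_pow PowerSeries.constantCoeff, hP0, hg0, one_pow,
          mul_one, mul_one]
      have h5 : PowerSeries.constantCoeff (k * PowerSeries.C a ^ 2 * g *
          (PowerSeries.X : PowerSeries (Polynomial ℤ_[p])) ^ (m + 1)) = 0 := by
        rw [map_mul, map_pow, PowerSeries.constantCoeff_X, zero_pow (Nat.succ_ne_zero m), mul_zero]
      rw [h4, h5, add_zero, ← ha]
      ring
  · intro n hn
    exact hlow n (Nat.lt_succ_iff.2 hn)

theorem dwl_main (g : PowerSeries (Polynomial ℤ_[p])) (hg0 : PowerSeries.constantCoeff g = 1)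
    (hgp : ∀ n, 1 ≤ n → Polynomial.C (p : ℤ_[p]) ∣ PowerSeries.coeff n g) (hgd : dwl_D p g) :
    ∃ F : PowerSeries (Polynomial ℤ_[p]), PowerSeries.constantCoeff F = 1 ∧ dwl_D p F ∧
      dwl_Phi p F = F ^ p * g := by
  have hstep : ∀ (m : ℕ) (P : PowerSeries (Polynomial ℤ_[p])), ∃ P' :
      PowerSeries (Polynomial ℤ_[p]), dwl_Good p g m P → (dwl_Good p g (m + 1) P' ∧
      ∀ n, n ≤ m → PowerSeries.coeff n P' = PowerSeries.coeff n P) := by
    intro m P
    by_cases h : dwl_Good p g m P
    · obtain ⟨P', h'⟩ := dwl_step p g hg0 hgp hgd m P h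
      exact ⟨P', fun _ => h'⟩
    · exact ⟨P, fun h' => absurd h' h⟩
  choose nxt hnxt using hstep
  obtain ⟨Q, hQ0, hQs⟩ : ∃ Q : ℕ → PowerSeries (Polynomial ℤ_[p]), Q 0 = 1 ∧
      ∀ m, Q (m + 1) = nxt m (Q m) :=
    ⟨fun m => Nat.rec 1 (fun m P => nxt m P) m, rfl, fun m => rfl⟩
  have hgood : ∀ m, dwl_Good p g m (Q m) := by
    intro m
    induction m with
    | zero =>
      rw [hQ0]
      refine ⟨map_one _, dwl_D_one p, ?_⟩
      intro n hn
      obtain rfl : n = 0 := Nat.le_zero.1 hn
      rw [dwl_coeff_Phi, if_pos (dvd_zero p), Nat.zero_div, one_pow, one_mul,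
        PowerSeries.coeff_zero_eq_constantCoeff_apply,
        PowerSeries.coeff_zero_eq_constantCoeff_apply, map_one, map_one, hg0]
    | succ m ih =>
      rw [hQs]
      exact (hnxt m (Q m) ih).1
  have hst : ∀ n k, PowerSeries.coeff n (Q (n + k)) = PowerSeries.coeff n (Q n) := by
    intro n k
    induction k with
    | zero => rfl
    | succ k ih =>
      rw [← ih, ← Nat.add_assoc, hQs]
      exact (hnxt (n + k) (Q (n + k)) (hgood _)).2 n (Nat.le_add_right n k)
  obtain ⟨F, hF⟩ : ∃ F : PowerSeries (Polynomial ℤ_[p]),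
      F = PowerSeries.mk fun n => PowerSeries.coeff n (Q n) := ⟨_, rfl⟩
  have hFn : ∀ m n, n ≤ m → PowerSeries.coeff n F = PowerSeries.coeff n (Q m) := by
    intro m n hn
    obtain ⟨k, rfl⟩ := Nat.exists_eq_add_of_le hn
    rw [hst, hF, PowerSeries.coeff_mk]
  refine ⟨F, ?_, ?_, ?_⟩
  · rw [← PowerSeries.coeff_zero_eq_constantCoeff_apply, hFn 0 0 le_rfl,
      PowerSeries.coeff_zero_eq_constantCoeff_apply]
    exact (hgood 0).1
  · intro n
    rw [hFn n n le_rfl]
    exact (hgood n).2.1 n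
  · ext1 n
    have h1 : PowerSeries.coeff n (dwl_Phi p F) = PowerSeries.coeff n (dwl_Phi p (Q n)) := by
      rw [dwl_coeff_Phi, dwl_coeff_Phi]
      split_ifs with h
      · rw [hFn n (n / p) (Nat.div_le_self n p)]
      · rfl
    have h2 : (PowerSeries.X : PowerSeries (Polynomial ℤ_[p])) ^ (n + 1) ∣ F - Q n := by
      rw [PowerSeries.X_pow_dvd_iff]
      intro m hm
      rw [map_sub, hFn n m (Nat.lt_succ_iff.1 hm), sub_self]
    have h3 : (PowerSeries.X : PowerSeries (Polynomial ℤ_[p])) ^ (n + 1) ∣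
        F ^ p * g - Q n ^ p * g := by
      rw [← sub_mul]
      exact Dvd.dvd.mul_right (h2.trans (sub_dvd_pow_sub_pow F (Q n) p)) g
    rw [PowerSeries.X_pow_dvd_iff] at h3
    have h4 := h3 n (Nat.lt_succ_self n)
    rw [map_sub, sub_eq_zero] at h4
    rw [h1, h4]
    exact (hgood n).2.2 n le_rfl

end DWLsec

/-- **DWL**: Dwork's lemma, existence form. -/
theorem DWL_thm : StmtDWL := by
  intro p hp g hg0 hgp hgd
  obtain ⟨F, h0, h1, h2⟩ := dwl_main p g hg0 hgp hgd
  exact ⟨F, h0, h1, h2⟩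

end ASur
end

section
/-!
# MP_b685ef_ag, theorem AS, module ECL: closeness of edges
-/
set_option linter.all false

namespace ASur

theorem ECL_thm : StmtECL := by
  intro C _ _ P P' ϖ M χ m0 h0 h1 hclose hE
  obtain ⟨c, hc0, hc1, hc⟩ := hE
  refine ⟨c, hc0, hc1, fun n hn => ?_⟩
  obtain ⟨ha, hb⟩ := hc n hn
  have hpos : 0 < ‖ϖ‖ := norm_pos_iff.2 h0
  have hd : ‖c * PowerSeries.coeff n P / ϖ ^ n - c * PowerSeries.coeff n P' / ϖ ^ n‖ < 1 := by
    have e : c * PowerSeries.coeff n P / ϖ ^ n - c * PowerSeries.coeff n P' / ϖ ^ n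
        = c * (PowerSeries.coeff n P - PowerSeries.coeff n P') / ϖ ^ n := by ring
    rw [e, norm_div, norm_mul, norm_pow]
    have h2 : ‖c‖ * ‖PowerSeries.coeff n P - PowerSeries.coeff n P'‖ < ‖ϖ‖ ^ n := by
      calc ‖c‖ * ‖PowerSeries.coeff n P - PowerSeries.coeff n P'‖
          ≤ 1 * ‖PowerSeries.coeff n P - PowerSeries.coeff n P'‖ :=
            mul_le_mul_of_nonneg_right hc1 (norm_nonneg _)
        _ = ‖PowerSeries.coeff n P - PowerSeries.coeff n P'‖ := one_mul _
        _ < ‖ϖ‖ ^ m0 := hclose n hn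
        _ ≤ ‖ϖ‖ ^ n := pow_le_pow_of_le_one (norm_nonneg _) h1 hn
    rw [div_lt_one (pow_pos hpos n)]
    exact h2
  have hle : ‖c * PowerSeries.coeff n P / ϖ ^ n‖ ≤ 1 := by
    have e : c * PowerSeries.coeff n P / ϖ ^ n
        = (c * PowerSeries.coeff n P / ϖ ^ n - c * PowerSeries.coeff n P' / ϖ ^ n)
          + c * PowerSeries.coeff n P' / ϖ ^ n := by ring
    rw [e]
    exact (IsUltrametricDist.norm_add_le_max _ _).trans (max_le hd.le ha)
  refine ⟨hle, ?_⟩
  rw [← hb]
  exact (rd_eq_iff hle ha).2 hd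

end ASur
end

section
/-!
# Module EDGEM: the edges of `det (1 - X B)` (with helper25's reduction lemma)
-/
set_option linter.all false

namespace ASur

open Finset Matrix Polynomial

namespace EDGEMAux

section cycl
variable {R I : Type} [CommRing R] [Fintype I] [DecidableEq I]

theorem cyc_apply (h : ℕ) (S : Matrix I I R) (E : ℕ → Matrix I I R) (x y : Fin h × I) :
    cyc h S E x y = (if x.1 = y.1 then S x.2 y.2 else 0) -
      (if (x.1 : ℕ) = ((y.1 : ℕ) + 1) % h then E y.1 x.2 y.2 else 0) := rfl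

theorem cyc_mul (h : ℕ) (S : Matrix I I R) (E : ℕ → Matrix I I R) :
    cyc h S (fun i => S * E i) =
      Matrix.kroneckerMap (· * ·) (1 : Matrix (Fin h) (Fin h) R) S * cyc h 1 E := by
  ext x y
  obtain ⟨i, u⟩ := x
  obtain ⟨j, v⟩ := y
  rw [Matrix.mul_apply, Fintype.sum_prod_type]
  simp only [Matrix.kroneckerMap_apply]
  rw [Finset.sum_eq_single i]
  · simp only [Matrix.one_apply_eq, one_mul]
    show (if i = j then S u v else 0) - (if i.val = (j.val + 1) % h then (S * E j) u v else 0)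
      = ∑ w, S u w * ((if i = j then (1 : Matrix I I R) w v else 0) -
        (if i.val = (j.val + 1) % h then E j w v else 0))
    have h1 : ∀ w, S u w * ((if i = j then (1 : Matrix I I R) w v else 0) -
        (if i.val = (j.val + 1) % h then E j w v else 0)) =
        (if i = j then S u w * (1 : Matrix I I R) w v else 0) -
        (if i.val = (j.val + 1) % h then S u w * E j w v else 0) := by
      intro w
      rw [mul_sub, mul_ite, mul_ite, mul_zero]
    rw [Finset.sum_congr rfl fun w _ => h1 w, Finset.sum_sub_distrib]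
    congr 1
    · split_ifs
      · rw [← Matrix.mul_apply, Matrix.mul_one]
      · simp
    · split_ifs
      · rw [Matrix.mul_apply]
      · simp
  · intro k _ hk
    apply Finset.sum_eq_zero
    intro w _
    rw [Matrix.one_apply_ne (Ne.symm hk), zero_mul, zero_mul]
  · intro h
    exact absurd (Finset.mem_univ i) h

theorem det_cyc_mul (hCYC1 : StmtCYC1) (h : ℕ) (hh : 1 ≤ h) (S : Matrix I I R)
    (E : ℕ → Matrix I I R) :
    (cyc h S (fun i => S * E i)).det = S.det ^ h * (1 - Pmat E h).det := by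
  rw [cyc_mul, Matrix.det_mul, Matrix.det_kronecker, hCYC1 I R h hh]
  simp

theorem cyc_map {R' : Type} [CommRing R'] (φ : R →+* R') (h : ℕ) (S : Matrix I I R)
    (E : ℕ → Matrix I I R) :
    (cyc h S E).map φ = cyc h (S.map φ) (fun i => (E i).map φ) := by
  ext x y
  rw [Matrix.map_apply, cyc_apply, cyc_apply, map_sub]
  congr 1 <;> split_ifs <;> simp

/-- The matrices with `X` at the index `0`. -/
noncomputable def Eb (Ct : ℕ → Matrix I I R) (i : ℕ) : Matrix I I R[X] :=
  Matrix.of fun u v => (if i = 0 then X else 1) * C (Ct i u v)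

theorem Eb_apply (Ct : ℕ → Matrix I I R) (i : ℕ) (u v : I) :
    Eb Ct i u v = (if i = 0 then X else 1) * C (Ct i u v) := rfl

theorem Eb_zero (Ct : ℕ → Matrix I I R) : Eb Ct 0 = (X : R[X]) • (Ct 0).map C := by
  ext1 u v
  rw [Eb_apply, if_pos rfl]
  rfl

theorem Eb_succ (Ct : ℕ → Matrix I I R) (i : ℕ) : Eb Ct (i + 1) = (Ct (i + 1)).map C := by
  ext1 u v
  rw [Eb_apply, if_neg (Nat.succ_ne_zero i), one_mul]
  rfl

theorem Pmat_Eb (Ct : ℕ → Matrix I I R) (n : ℕ) :
    Pmat (Eb Ct) (n + 1) = (X : R[X]) • (Pmat Ct (n + 1)).map C := by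
  induction n with
  | zero =>
    show Eb Ct 0 * 1 = X • ((Ct 0 * 1).map C)
    rw [mul_one, mul_one, Eb_zero]
  | succ n ih =>
    show Eb Ct (n + 1) * Pmat (Eb Ct) (n + 1) = X • ((Ct (n + 1) * Pmat Ct (n + 1)).map C)
    rw [ih, Eb_succ, Matrix.mul_smul]
    congr 1
    exact (Matrix.map_mul (f := (C : R →+* R[X]))).symm

theorem prod_det_Eb (Ct : ℕ → Matrix I I R) (n : ℕ) :
    ∏ i ∈ Finset.range (n + 1), (Eb Ct i).det =
      X ^ Fintype.card I * C (∏ i ∈ Finset.range (n + 1), (Ct i).det) := by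
  rw [Finset.prod_range_succ', Finset.prod_range_succ']
  have h1 : ∀ i, (Eb Ct (i + 1)).det = C (Ct (i + 1)).det := by
    intro i
    rw [Eb_succ]
    exact (RingHom.map_det (C : R →+* R[X]) (Ct (i + 1))).symm
  have h0 : (Eb Ct 0).det = X ^ Fintype.card I * C (Ct 0).det := by
    rw [Eb_zero, Matrix.det_smul]
    congr 1
    exact (RingHom.map_det (C : R →+* R[X]) (Ct 0)).symm
  rw [h0, Finset.prod_congr rfl fun i _ => h1 i, ← map_prod, map_mul]
  ring

end cycl

/-- Restriction to a subtype. -/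
def rs {R I : Type} (q : I → Prop) (A : Matrix I I R) : Matrix {u // q u} {u // q u} R :=
  A.submatrix Subtype.val Subtype.val

/-- The diagonal matrix of the reduction. -/
noncomputable def Sb {I : Type} [DecidableEq I] (e : I → ℕ) (m : ℕ) (R : Type) [CommRing R] :
    Matrix I I R :=
  Matrix.diagonal fun u => if e u < m then 0 else 1

/-- The reduction of the characteristic polynomial at an edge (helper25). -/
theorem edge_bar (hCYC1 : StmtCYC1) (hCYC3 : StmtCYC3) {κ I : Type} [Field κ] [Fintype I]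
    [DecidableEq I] (e : I → ℕ) (m n : ℕ) (Ct : ℕ → Matrix I I κ)
    (h0 : ∀ i, i < n + 1 → ∀ u v, m < e u → Ct i u v = 0)
    (h1 : ∀ i, i < n + 1 → ∀ u v, e u ≤ m → e v ≤ m → e u ≠ e v → Ct i u v = 0) :
    ∃ c : κ, c ≠ 0 ∧ (cyc (n + 1) (Sb e m κ[X]) (Eb Ct)).det =
      C (c * ∏ i ∈ Finset.range (n + 1), (rs (fun u => e u < m) (Ct i)).det) *
        X ^ Fintype.card {u // e u < m} *
        (Pmat (fun i => rs (fun u => e u = m) (Ct i)) (n + 1)).charpolyRev := by
  classical
  set M := cyc (n + 1) (Sb e m κ[X]) (Eb Ct) with hM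
  have hMa : ∀ x y, M x y = (if x.1 = y.1 then Sb e m κ[X] x.2 y.2 else 0) -
    (if x.1.val = (y.1.val + 1) % (n + 1) then Eb Ct y.1 x.2 y.2 else 0) := fun x y => rfl
  have hrow : ∀ x y, m < e x.2 → M x y = if x = y then 1 else 0 := by
    intro x y hx
    rw [hMa, Eb_apply, h0 _ y.1.2 _ _ hx, map_zero, mul_zero, ite_self, sub_zero]
    by_cases h : x = y
    · rw [if_pos h, h, if_pos rfl, Sb, Matrix.diagonal_apply_eq, if_neg]
      rw [← h]; omega
    · rw [if_neg h]
      by_cases h' : x.1 = y.1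
      · rw [if_pos h', Sb, Matrix.diagonal_apply_ne]
        intro h2
        exact h (Prod.ext h' h2)
      · rw [if_neg h']
  rw [Matrix.twoBlockTriangular_det M (fun x => e x.2 ≤ m)]
  swap
  · intro x hx y hy
    rw [hrow x y (not_le.mp hx), if_neg]
    rintro rfl
    exact hx hy
  have hone : (M.toSquareBlockProp fun x => ¬ e x.2 ≤ m) = 1 := by
    refine Matrix.ext fun x y => ?_
    show M x.1 y.1 = _
    rw [hrow _ _ (not_le.mp x.2), Matrix.one_apply]
    by_cases h : x = y
    · rw [if_pos h, if_pos (congrArg _ h)]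
    · rw [if_neg h, if_neg (fun h' => h (Subtype.ext h'))]
  rw [hone, Matrix.det_one, mul_one]
  rw [Matrix.twoBlockTriangular_det _ (fun x => e x.1.2 < m)]
  swap
  · intro x hx y hy
    show M x.1 y.1 = 0
    have hxe : e x.1.2 = m := le_antisymm x.2 (not_lt.mp hx)
    have hne : e x.1.2 ≠ e y.1.2 := by rw [hxe]; exact (ne_of_lt hy).symm
    rw [hMa, Eb_apply, h1 _ y.1.1.2 _ _ x.2 y.2 hne, map_zero, mul_zero, ite_self, sub_zero, Sb,
      Matrix.diagonal_apply_ne, ite_self]
    intro h
    exact hne (congrArg e h)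
  -- the first block
  let e1 : Fin (n + 1) × {u // e u < m} ≃ {x : {x : Fin (n + 1) × I // e x.2 ≤ m} // e x.1.2 < m} :=
    ⟨fun x => ⟨⟨(x.1, x.2.1), x.2.2.le⟩, x.2.2⟩, fun x => (x.1.1.1, ⟨x.1.1.2, x.2⟩),
      fun x => rfl, fun x => rfl⟩
  let e2 : Fin (n + 1) × {u // e u = m} ≃
      {x : {x : Fin (n + 1) × I // e x.2 ≤ m} // ¬ e x.1.2 < m} :=
    ⟨fun x => ⟨⟨(x.1, x.2.1), x.2.2.le⟩, not_lt.mpr x.2.2.ge⟩,
      fun x => (x.1.1.1, ⟨x.1.1.2, le_antisymm x.1.2 (not_lt.mp x.2)⟩),
      fun x => rfl, fun x => rfl⟩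
  rw [← Matrix.det_submatrix_equiv_self e1, ← Matrix.det_submatrix_equiv_self e2]
  have hb1 : ((M.toSquareBlockProp fun x => e x.2 ≤ m).toSquareBlockProp
      fun x => e x.1.2 < m).submatrix e1 e1 =
      cyc (n + 1) 0 (Eb fun i => rs (fun u => e u < m) (Ct i)) := by
    refine Matrix.ext fun x y => ?_
    show M (x.1, x.2.1) (y.1, y.2.1) = _
    rw [hMa]
    show _ = (if x.1 = y.1 then (0 : Matrix _ _ κ[X]) x.2 y.2 else 0) -
      (if x.1.val = (y.1.val + 1) % (n + 1) then
        Eb (fun i => rs (fun u => e u < m) (Ct i)) y.1 x.2 y.2 else 0)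
    congr 1
    by_cases h : x.1 = y.1
    · rw [if_pos h, if_pos h, Sb]
      by_cases h' : x.2 = y.2
      · rw [h', Matrix.diagonal_apply_eq, if_pos y.2.2]; rfl
      · rw [Matrix.diagonal_apply_ne]
        · rfl
        · exact fun h2 => h' (Subtype.ext h2)
    · rw [if_neg h, if_neg h]
  have hb2 : ((M.toSquareBlockProp fun x => e x.2 ≤ m).toSquareBlockProp
      fun x => ¬ e x.1.2 < m).submatrix e2 e2 =
      cyc (n + 1) 1 (Eb fun i => rs (fun u => e u = m) (Ct i)) := by
    refine Matrix.ext fun x y => ?_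
    show M (x.1, x.2.1) (y.1, y.2.1) = _
    rw [hMa]
    show _ = (if x.1 = y.1 then (1 : Matrix _ _ κ[X]) x.2 y.2 else 0) -
      (if x.1.val = (y.1.val + 1) % (n + 1) then
        Eb (fun i => rs (fun u => e u = m) (Ct i)) y.1 x.2 y.2 else 0)
    congr 1
    by_cases h : x.1 = y.1
    · rw [if_pos h, if_pos h, Sb]
      by_cases h' : x.2 = y.2
      · rw [h', Matrix.diagonal_apply_eq, if_neg (by rw [y.2.2]; exact lt_irrefl _),
          Matrix.one_apply_eq]
      · rw [Matrix.diagonal_apply_ne, Matrix.one_apply_ne h']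
        exact fun h2 => h' (Subtype.ext h2)
    · rw [if_neg h, if_neg h]
  rw [hb1, hb2, hCYC1 _ _ (n + 1) (by omega), Pmat_Eb]
  obtain ⟨c, hc, hdet⟩ := hCYC3 {u // e u < m} κ[X] (n + 1) (by omega)
    (Eb fun i => rs (fun u => e u < m) (Ct i))
  rw [hdet, prod_det_Eb]
  rcases hc with rfl | rfl
  · refine ⟨1, one_ne_zero, ?_⟩
    rw [one_mul, one_mul, mul_comm (X ^ _) (C _)]
    rfl
  · refine ⟨-1, neg_ne_zero.mpr one_ne_zero, ?_⟩
    rw [map_mul, map_neg, map_one, mul_comm (X ^ _) (C _), ← mul_assoc]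
    rfl

section lift
variable {R I : Type} [CommRing R] [Fintype I] [DecidableEq I]

theorem coeff_charpolyRev_smul (c : R) (N : Matrix I I R) (n : ℕ) :
    (c • N).charpolyRev.coeff n = c ^ n * N.charpolyRev.coeff n := by
  have h : (c • N).charpolyRev = N.charpolyRev.comp (C c * X) := by
    have h1 := RingHom.map_det (Polynomial.compRingHom (C c * X)) (1 - (X : R[X]) • N.map C)
    have h2 : N.charpolyRev.comp (C c * X) =
        (Polynomial.compRingHom (C c * X)) ((1 - (X : R[X]) • N.map C).det) := rfl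
    rw [h2, h1]
    show (1 - (X : R[X]) • (c • N).map C).det = _
    congr 1
    ext1 u v
    rw [RingHom.mapMatrix_apply, Matrix.map_apply, Matrix.sub_apply, Matrix.sub_apply, map_sub,
      Matrix.smul_apply, Matrix.smul_apply, Matrix.map_apply, Matrix.map_apply, Matrix.smul_apply]
    congr 1
    · rw [Matrix.one_apply]
      split_ifs <;> simp
    · simp only [smul_eq_mul, map_mul, Polynomial.coe_compRingHom_apply, Polynomial.X_comp,
        Polynomial.C_comp]
      ring
  rw [h, Polynomial.comp_C_mul_X_coeff, mul_comm]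

theorem charpolyRev_conj (W A N : Matrix I I R) (hW : IsUnit W.det) (h : A * W = W * N) :
    A.charpolyRev = N.charpolyRev := by
  have hWu : IsUnit W := (Matrix.isUnit_iff_isUnit_det W).mpr hW
  obtain ⟨w, rfl⟩ := hWu
  have hA : A = w.val * N * w⁻¹.val := by
    rw [← h, mul_assoc, Units.mul_inv, mul_one]
  rw [← Matrix.reverse_charpoly, ← Matrix.reverse_charpoly, hA, Matrix.charpoly_mul_comm,
    ← mul_assoc, Units.inv_mul, one_mul]

end lift

end EDGEMAux

open EDGEMAux in
theorem EDGEM_thm (hCYC1 : StmtCYC1) (hCYC3 : StmtCYC3) (hBLD : StmtBLD) : StmtEDGEM := by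
  intro C _ _ ι _ _ e p h m ρ A Cm hp hh hρ hρ1 he hC hA hrd hdet m0
  classical
  obtain ⟨n, rfl⟩ : ∃ n, h = n + 1 := ⟨h - 1, by omega⟩
  set π : C := ρ ^ ((p - 1) * m) with hπ
  have hπ0 : π ≠ 0 := pow_ne_zero _ hρ
  -- integral lifts
  let s : ι → OO C := fun u => ⟨if e u < m then ρ ^ ((p - 1) * (m - e u)) else 1, by
    rw [mem_OO]
    split_ifs
    · rw [norm_pow]; exact pow_le_one₀ (norm_nonneg _) hρ1.le
    · simp⟩
  have hs : ∀ u, ((s u : OO C) : C) = if e u < m then ρ ^ ((p - 1) * (m - e u)) else 1 :=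
    fun u => rfl
  let EO : ℕ → Matrix ι ι (OO C) := fun i u v =>
    ⟨(if e u ≤ m then 1 else ρ ^ ((p - 1) * (e u - m))) * Cm i u v, by
      rw [mem_OO, norm_mul]
      refine mul_le_one₀ ?_ (norm_nonneg _) (hC i u v)
      split_ifs
      · simp
      · rw [norm_pow]; exact pow_le_one₀ (norm_nonneg _) hρ1.le⟩
  have hEO : ∀ i u v, ((EO i u v : OO C) : C) =
      (if e u ≤ m then 1 else ρ ^ ((p - 1) * (e u - m))) * Cm i u v := fun i u v => rfl
  let Es : ℕ → Matrix ι ι C := fun i => Matrix.of fun u v => ρ ^ ((p - 1) * e u) * Cm i u v / π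
  have hEs : ∀ i u v, Es i u v = ρ ^ ((p - 1) * e u) * Cm i u v / π := fun i u v => rfl
  have hsE : ∀ i u v, ((EO i u v : OO C) : C) = (s u : C) * Es i u v := by
    intro i u v
    rw [hEO, hs, hEs]
    rcases lt_trichotomy (e u) m with hlt | heq | hgt
    · rw [if_pos hlt.le, if_pos hlt]
      have : ρ ^ ((p - 1) * (m - e u)) * ρ ^ ((p - 1) * e u) = π := by
        rw [hπ, ← pow_add, ← mul_add]
        congr 2
        omega
      field_simp
      rw [← this]
      ring
    · rw [if_pos heq.le, if_neg (by omega), heq, ← hπ]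
      field_simp
    · rw [if_neg (by omega), if_neg (by omega)]
      have : ρ ^ ((p - 1) * (e u - m)) * π = ρ ^ ((p - 1) * e u) := by
        rw [hπ, ← pow_add, ← mul_add]
        congr 2
        omega
      rw [← this]
      field_simp
  -- the determinant over `O[X]`
  set MO : Matrix (Fin (n + 1) × ι) (Fin (n + 1) × ι) (OO C)[X] :=
    cyc (n + 1) (Matrix.diagonal fun u => Polynomial.C (s u)) (Eb EO) with hMO
  -- (a) in `C[X]`
  have hsub : MO.det.map (OO C).subtype =
      Polynomial.C ((∏ u, (s u : C)) ^ (n + 1)) * (Pmat Es (n + 1)).charpolyRev := by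
    have h1 := RingHom.map_det (Polynomial.mapRingHom (OO C).subtype) MO
    rw [Polynomial.coe_mapRingHom] at h1
    rw [h1, RingHom.mapMatrix_apply, hMO, cyc_map]
    have h2 : (fun i => (Eb EO i).map (Polynomial.mapRingHom (OO C).subtype)) = fun i =>
        (Matrix.diagonal fun u => (Polynomial.C ((s u : OO C) : C) : C[X])) * Eb Es i := by
      funext i
      ext1 u v
      rw [Matrix.map_apply, Matrix.diagonal_mul, Eb_apply, Eb_apply, map_mul]
      have h3 : (Polynomial.mapRingHom (OO C).subtype) (Polynomial.C (EO i u v)) =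
          Polynomial.C ((s u : C) * Es i u v) := by
        rw [Polynomial.coe_mapRingHom, Polynomial.map_C, ← hsE i u v]
        rfl
      rw [h3, map_mul]
      split_ifs
      · rw [Polynomial.coe_mapRingHom, Polynomial.map_X]; ring
      · rw [map_one]; ring
    have h4 : (Matrix.diagonal fun u => (Polynomial.C (s u) : (OO C)[X])).map
        (Polynomial.mapRingHom (OO C).subtype) =
        Matrix.diagonal fun u => (Polynomial.C ((s u : OO C) : C) : C[X]) := by
      rw [Matrix.diagonal_map (map_zero _)]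
      congr 1
      funext u
      rw [Polynomial.coe_mapRingHom, Polynomial.map_C]
      rfl
    rw [h2, h4, det_cyc_mul hCYC1 (n + 1) (by omega), Matrix.det_diagonal, Pmat_Eb,
      ← map_prod, ← map_pow]
    rfl
  -- (b) the reduction
  set r : OO C →+* KK C := IsLocalRing.residue (OO C) with hr
  have hrc : ∀ x : OO C, r x = rd (x : C) := fun x => (rd_coe x).symm
  set Ct : ℕ → Matrix ι ι (KK C) := fun i => (EO i).map r with hCt
  have hCtle : ∀ i u v, e u ≤ m → Ct i u v = rd (Cm i u v) := by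
    intro i u v hu
    show r (EO i u v) = _
    rw [hrc, hEO, if_pos hu, one_mul]
  have hCt0 : ∀ i, i < n + 1 → ∀ u v, m < e u → Ct i u v = 0 := by
    intro i _ u v hu
    show r (EO i u v) = _
    rw [hrc, hEO, if_neg (by omega)]
    apply rd_of_lt
    rw [norm_mul, norm_pow]
    have h1 : ‖ρ‖ ^ ((p - 1) * (e u - m)) < 1 := by
      apply pow_lt_one₀ (norm_nonneg _) hρ1
      have : 0 < (p - 1) * (e u - m) := Nat.mul_pos (by omega) (by omega)
      omega
    calc ‖ρ‖ ^ ((p - 1) * (e u - m)) * ‖Cm i u v‖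
        ≤ ‖ρ‖ ^ ((p - 1) * (e u - m)) * 1 :=
          mul_le_mul_of_nonneg_left (hC i u v) (by positivity)
      _ < 1 := by rw [mul_one]; exact h1
  have hred : MO.det.map r = (cyc (n + 1) (Sb e m (KK C)[X]) (Eb Ct)).det := by
    have h1 := RingHom.map_det (Polynomial.mapRingHom r) MO
    rw [Polynomial.coe_mapRingHom] at h1
    rw [h1, RingHom.mapMatrix_apply, hMO, cyc_map]
    congr 1
    congr 1
    · rw [Matrix.diagonal_map (map_zero _), Sb]
      congr 1
      funext u
      rw [Polynomial.coe_mapRingHom, Polynomial.map_C, hrc, hs]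
      split_ifs with hu
      · rw [rd_of_lt, Polynomial.C_0]
        rw [norm_pow]
        apply pow_lt_one₀ (norm_nonneg _) hρ1
        have : 0 < (p - 1) * (m - e u) := Nat.mul_pos (by omega) (by omega)
        omega
      · rw [rd_one, Polynomial.C_1]
    · funext i
      ext1 u v
      rw [Matrix.map_apply, Eb_apply, Eb_apply, map_mul, Polynomial.coe_mapRingHom,
        Polynomial.map_C]
      congr 1
      split_ifs
      · rw [Polynomial.map_X]
      · rw [Polynomial.map_one]
  obtain ⟨c, hc, hbar⟩ := edge_bar hCYC1 hCYC3 e m n Ct hCt0 (fun i hi u v hu hv huv => by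
    rw [hCtle i u v hu]
    exact hrd i hi u v hu hv huv)
  have hblk : (fun i => rs (fun u => e u = m) (Ct i)) = fun i => blk e m (Cm i) := by
    funext i
    ext1 u v
    exact hCtle i u.1 v.1 u.2.le
  have hdet0 : ∏ i ∈ Finset.range (n + 1), (rs (fun u => e u < m) (Ct i)).det ≠ 0 := by
    rw [Finset.prod_ne_zero_iff]
    intro i hi
    have hi' : i < n + 1 := Finset.mem_range.mp hi
    refine hBLD {u // e u < m} (KK C) (fun u => e u.1) _ ?_ ?_
    · intro u v huv
      show Ct i u.1 v.1 = 0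
      rw [hCtle i u.1 v.1 u.2.le]
      exact hrd i hi' u.1 v.1 u.2.le v.2.le huv
    · intro m'
      by_cases hm' : m' < m
      · let ee : {u : ι // e u = m'} ≃ {u : {u : ι // e u < m} // e u.1 = m'} :=
          ⟨fun u => ⟨⟨u.1, by rw [u.2]; exact hm'⟩, u.2⟩, fun u => ⟨u.1.1, u.2⟩,
            fun u => rfl, fun u => rfl⟩
        rw [← Matrix.det_submatrix_equiv_self ee]
        have : ((Matrix.of fun (u v : {u : {u : ι // e u < m} // e u.1 = m'}) =>
            rs (fun u => e u < m) (Ct i) u.1 v.1).submatrix ee ee) = blk e m' (Cm i) := by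
          ext1 u v
          show Ct i u.1 v.1 = rd (Cm i u.1 v.1)
          exact hCtle i u.1 v.1 (by rw [u.2]; exact hm'.le)
        rw [this]
        exact hdet i hi' m' hm'
      · haveI : IsEmpty {u : {u : ι // e u < m} // e u.1 = m'} :=
          ⟨fun u => hm' (by rw [← u.2]; exact u.1.2)⟩
        rw [Matrix.det_isEmpty]
        exact one_ne_zero
  set c0 : KK C := c * ∏ i ∈ Finset.range (n + 1), (rs (fun u => e u < m) (Ct i)).det with hc0
  have hc00 : c0 ≠ 0 := mul_ne_zero hc hdet0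
  -- (c) conjugation
  have hconj : ∀ k, (Pmat A (n + 1)).charpolyRev.coeff k =
      (π ^ (n + 1)) ^ k * (Pmat Es (n + 1)).charpolyRev.coeff k := by
    intro k
    let W : Matrix ι ι C := Matrix.diagonal fun u => ρ ^ e u
    have hW : IsUnit W.det := by
      rw [Matrix.det_diagonal, isUnit_iff_ne_zero, Finset.prod_ne_zero_iff]
      intro u _
      exact pow_ne_zero _ hρ
    have hstep : ∀ i, A i * W = W * (π • Es i) := by
      intro i
      ext1 u v
      rw [Matrix.mul_diagonal, Matrix.diagonal_mul, hA, Matrix.smul_apply, hEs, smul_eq_mul,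
        mul_div_cancel₀ _ hπ0, ← mul_assoc, ← pow_add]
      congr 2
      have : p * e u = e u + (p - 1) * e u := by
        obtain ⟨q, rfl⟩ : ∃ q, p = q + 1 := ⟨p - 1, by omega⟩
        rw [Nat.add_sub_cancel]
        ring
      exact this
    have hP : ∀ j, Pmat A j * W = W * (π ^ j • Pmat Es j) := by
      intro j
      induction j with
      | zero =>
        show 1 * W = W * (π ^ 0 • (1 : Matrix ι ι C))
        rw [pow_zero, one_smul, one_mul, mul_one]
      | succ j ih =>
        show A j * Pmat A j * W = W * (π ^ (j + 1) • (Es j * Pmat Es j))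
        rw [mul_assoc, ih, ← mul_assoc, hstep, mul_assoc]
        simp only [Matrix.smul_mul, Matrix.mul_smul, smul_smul, pow_succ]
    rw [charpolyRev_conj W _ _ hW (hP (n + 1)), coeff_charpolyRev_smul]
  -- (d) the end
  obtain ⟨γ, hγ⟩ := IsLocalRing.residue_surjective (R := OO C) c0⁻¹
  have hγ' : r γ = c0⁻¹ := hγ
  have hγ0 : (γ : C) ≠ 0 := by
    intro h0
    have : γ = 0 := Subtype.ext h0
    rw [this, map_zero] at hγ'
    exact inv_ne_zero hc00 hγ'.symm
  have hprod0 : (∏ u, (s u : C)) ≠ 0 := by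
    rw [Finset.prod_ne_zero_iff]
    intro u _
    rw [hs]
    split_ifs
    · exact pow_ne_zero _ hρ
    · exact one_ne_zero
  have hϖ : ρ ^ ((p - 1) * m * (n + 1)) = π ^ (n + 1) := by rw [hπ, ← pow_mul]
  have hkey : ∀ k, (γ : C) * (∏ u, (s u : C)) ^ (n + 1) *
      PowerSeries.coeff k ((Pmat A (n + 1)).charpolyRev : PowerSeries C) /
        (ρ ^ ((p - 1) * m * (n + 1))) ^ k = ((γ * MO.det.coeff k : OO C) : C) := by
    intro k
    rw [Polynomial.coeff_coe, hconj, hϖ]
    have h1 := congrArg (fun q => Polynomial.coeff q k) hsub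
    simp only [Polynomial.coeff_map, Polynomial.coeff_C_mul] at h1
    have h2 : ((MO.det.coeff k : OO C) : C) =
        (∏ u, (s u : C)) ^ (n + 1) * (Pmat Es (n + 1)).charpolyRev.coeff k := h1
    show _ = (γ : C) * ((MO.det.coeff k : OO C) : C)
    rw [h2]
    have h3 : (π ^ (n + 1)) ^ k ≠ 0 := pow_ne_zero _ (pow_ne_zero _ hπ0)
    field_simp
  refine ⟨(γ : C) * (∏ u, (s u : C)) ^ (n + 1), mul_ne_zero hγ0 (pow_ne_zero _ hprod0), ?_, ?_⟩
  · have : (γ : C) * (∏ u, (s u : C)) ^ (n + 1) = ((γ * (∏ u, s u) ^ (n + 1) : OO C) : C) := by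
      push_cast
      rfl
    rw [this]
    exact norm_coe_le _
  · intro k _
    rw [hkey k]
    refine ⟨norm_coe_le _, ?_⟩
    rw [rd_coe]
    show r (γ * MO.det.coeff k) = _
    rw [map_mul, hγ']
    have h1 := congrArg (fun q => Polynomial.coeff q k) (hred.trans hbar)
    simp only [Polynomial.coeff_map] at h1
    rw [h1, mul_assoc, Polynomial.coeff_C_mul, ← mul_assoc, inv_mul_cancel₀ hc00, one_mul, hblk]

end ASur
end

section
/-!
# AS, module EDGES: formula (9) (helper3)
-/
set_option linter.all false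

namespace ASur

open Finset

private theorem pmat_norm {C : Type} [NormedField C] [IsUltrametricDist C] {ι : Type} [Fintype ι]
    [DecidableEq ι] (A : ℕ → Matrix ι ι C) (hA : ∀ i u v, ‖A i u v‖ ≤ 1) (n : ℕ) :
    ∀ u v, ‖Pmat A n u v‖ ≤ 1 := by
  induction n with
  | zero =>
    intro u v
    simp only [Pmat, Matrix.one_apply]
    split_ifs <;> simp
  | succ n ih =>
    intro u v
    simp only [Pmat, Matrix.mul_apply]
    refine norm_sum_le_one _ fun w _ => ?_
    rw [norm_mul]
    exact mul_le_one₀ (hA _ _ _) (norm_nonneg _) (ih _ _)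

private theorem cf_zero {σ R : Type} [Finite σ] [CommSemiring R] (F : MvPolynomial σ R) :
    cf F (fun _ => 0) = F.coeff 0 := by
  unfold cf
  congr 1
  ext s
  simp

private theorem ew_zero (a b : ℕ) : ew a b (fun _ => 0) = 0 := by
  simp [ew]

private theorem psi_norm {p : ℕ} [Fact p.Prime] {C : Type} [NormedField C]
    (ψ : AddChar (ZMod p) C) (x : ZMod p) : ‖ψ x‖ = 1 := by
  have h1 : (ψ x) ^ p = 1 := by
    rw [← AddChar.map_nsmul_eq_pow]
    have : p • x = 0 := by simp
    rw [this, AddChar.map_zero_eq_one]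
  have h2 : ‖ψ x‖ ^ p = 1 := by rw [← norm_pow, h1, norm_one]
  exact (pow_eq_one_iff_of_nonneg (norm_nonneg _) (Fact.out : p.Prime).ne_zero).1 h2

private theorem psi_prim {p : ℕ} [Fact p.Prime] {C : Type} [Field C]
    (ψ : AddChar (ZMod p) C) (hψ : ψ ≠ 1) : IsPrimitiveRoot (ψ 1) p := by
  have h1 : (ψ 1) ^ p = 1 := by
    rw [← AddChar.map_nsmul_eq_pow]
    have : p • (1 : ZMod p) = 0 := by simp
    rw [this, AddChar.map_zero_eq_one]
  have hne : ψ 1 ≠ 1 := by
    intro h
    apply hψ
    ext x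
    have : x = (x.val) • (1 : ZMod p) := by
      rw [nsmul_eq_mul, mul_one, ZMod.natCast_val, ZMod.cast_id]
    rw [this, AddChar.map_nsmul_eq_pow, h, one_pow, AddChar.one_apply]
  exact IsPrimitiveRoot.mk_of_lt _ (Fact.out : p.Prime).pos h1 (by
    intro l hl0 hlp hl
    have hd := orderOf_dvd_of_pow_eq_one h1
    rcases (Nat.dvd_prime (Fact.out : p.Prime)).1 hd with h | h
    · exact hne (orderOf_eq_one_iff.1 h)
    · have := orderOf_dvd_of_pow_eq_one hl
      rw [h] at this
      exact absurd (Nat.le_of_dvd hl0 this) (by omega))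

private theorem usmall_lin {C : Type} [NormedField C] [IsUltrametricDist C] (x ϖ : C)
    (hϖ : ϖ ≠ 0) (hx : ‖x‖ < ‖ϖ‖) :
    USmall (((1 - Polynomial.C x * Polynomial.X : Polynomial C)) : PowerSeries C) ϖ := by
  have hpos : 0 < ‖ϖ‖ := norm_pos_iff.2 hϖ
  constructor
  · rw [← PowerSeries.coeff_zero_eq_constantCoeff_apply, Polynomial.coeff_coe]
    simp
  · intro n hn
    rw [Polynomial.coeff_coe]
    rcases eq_or_ne n 1 with rfl | h1
    · have : (1 - Polynomial.C x * Polynomial.X : Polynomial C).coeff 1 = -x := by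
        simp [Polynomial.coeff_one]
      rw [this, pow_one, norm_div, norm_neg]
      exact (div_lt_one hpos).2 hx
    · have : (1 - Polynomial.C x * Polynomial.X : Polynomial C).coeff n = 0 := by
        obtain ⟨k, rfl⟩ : ∃ k, n = k + 2 := ⟨n - 2, by omega⟩
        simp [Polynomial.coeff_one, Polynomial.coeff_X]
      rw [this]
      simp

theorem EDGES_thm (hTHETA : StmtTHETA) (hTRF : StmtTRF) (hDEG : StmtDEG) (hFIVE : StmtFIVE)
    (hWGT : StmtWGT) (hCHI : StmtCHI) (hLEAD : StmtLEAD) (hREIDX : StmtREIDX)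
    (hEDGEM : StmtEDGEM) (hSMALL : StmtSMALL) (hAFAC : StmtAFAC) (hEDIV : StmtEDIV)
    (hECL : StmtECL) (hTEX : StmtTEX) (hTEMB : StmtTEMB) (hZETA : StmtZETA)
    (hAXI : StmtAXI) (hEXT : StmtEXT) : StmtEDGES := by
  intro p hp a b ha hb hdvd C _ _ _ _ hpC j hj k _ _ _ f hsupp hsep ψ hψ β hβ ρ hρ m hm1 hmD m0
  have hp2 : 2 ≤ p := hp.out.two_le
  set D := Nat.lcm a b with hD
  have hDpos : 0 < D := Nat.lcm_pos (by omega) (by omega)
  set h := Module.finrank (ZMod p) k with hh
  have hh1 : 1 ≤ h := Module.finrank_pos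
  have hprim := psi_prim ψ hψ
  obtain ⟨hz0, hz1, hz2, -⟩ := hZETA p C hpC (ψ 1) hprim
  have hρ0 : ρ ≠ 0 := by
    rintro rfl
    rw [zero_pow hDpos.ne'] at hρ
    exact hz0 hρ.symm
  have hρ1 : ‖ρ‖ < 1 := by
    by_contra hc
    have : 1 ≤ ‖ρ‖ ^ D := one_le_pow₀ (not_lt.1 hc)
    rw [← norm_pow, hρ] at this
    linarith
  have hρpos : 0 < ‖ρ‖ := norm_pos_iff.2 hρ0
  set ϖ : C := ρ ^ ((p - 1) * m * h) with hϖ
  have hϖ0 : ϖ ≠ 0 := pow_ne_zero _ hρ0
  have hϖpos : 0 < ‖ϖ‖ := norm_pos_iff.2 hϖ0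
  have hϖ1 : ‖ϖ‖ ≤ 1 := by
    rw [hϖ, norm_pow]; exact pow_le_one₀ (norm_nonneg _) hρ1.le
  -- epsilon
  have hfac : (m0.factorial : C) ≠ 0 := by exact_mod_cast Nat.factorial_ne_zero m0
  have hfacpos : 0 < ‖(m0.factorial : C)‖ := norm_pos_iff.2 hfac
  set ε : ℝ := ‖ϖ‖ ^ m0 * ‖(m0.factorial : C)‖ / 2 with hε
  have hεpos : 0 < ε := by positivity
  obtain ⟨Θ, hΘ⟩ := hTHETA p C hpC j hj (ψ 1) hprim ε hεpos
  obtain ⟨ι⟩ := hTEMB p C hpC k
  obtain ⟨τ, hτ⟩ := hTEX p C hpC k ι
  obtain ⟨L, hDL, hdeg⟩ := hDEG p hp2 C k τ Θ f D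
  set F := Fpol p (τ : k → C) Θ f with hF
  set q : C := (Fintype.card k : C) with hq
  have hcard : Fintype.card k = p ^ h := by
    rw [Module.card_eq_pow_finrank (K := ZMod p), ZMod.card]
  have hqn : ‖q‖ = ‖(p : C)‖ ^ h := by
    rw [hq, hcard]; push_cast; rw [norm_pow]
  have hq1 : ‖q‖ < 1 := by
    rw [hqn]; exact pow_lt_one₀ (norm_nonneg _) hpC (by omega)
  have hqϖ : ‖q‖ ≤ ‖ϖ‖ := by
    rw [hqn, ← hz2, ← hρ, norm_pow, hϖ, norm_pow, ← pow_mul, ← pow_mul]
    refine pow_le_pow_of_le_one hρpos.le hρ1.le ?_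
    calc (p - 1) * m * h ≤ (p - 1) * D * h := by gcongr
      _ = D * ((p - 1) * h) := by ring
  have hq2ϖ : ‖q ^ 2‖ ≤ ‖ϖ‖ := by
    rw [pow_two, norm_mul]
    exact (mul_le_of_le_one_left (norm_nonneg _) hq1.le).trans hqϖ
  -- weights
  have hW : ∀ i w, ‖cf (F i) w‖ ≤ ‖ρ‖ ^ ew a b w :=
    fun i w => hWGT p a b ha hb C (ψ 1) ρ ε Θ hΘ hρ hρ0 hρ1 k ι τ hτ f hsupp i w
  have hA := fun i => hAFAC C p a b L ρ (F i) (by omega) ha hb hρ0 hρ1 (hW i)
  set B := Pmat (fun i => Amat p L (F i)) h with hB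
  set B0 := Pmat (fun i => Amat p L (ax 0 (F i))) h with hB0
  set B1 := Pmat (fun i => Amat p L (ax 1 (F i))) h with hB1
  set γ : C := ∏ i ∈ range h, (F i).coeff 0 with hγ
  have hγ1 : ‖γ‖ ≤ 1 := by
    refine norm_prod_le_one _ fun i _ => ?_
    have := hW i (fun _ => 0)
    rwa [cf_zero, ew_zero, pow_zero] at this
  have hBn : ∀ u v, ‖B u v‖ ≤ 1 := pmat_norm _ (fun i u v => (hA i).1.2.2 u v) h
  have hB0n : ∀ u v, ‖B0 u v‖ ≤ 1 := pmat_norm _ (fun i u v => ((hA i).2 0).1 u v) h
  have hB1n : ∀ u v, ‖B1 u v‖ ≤ 1 := pmat_norm _ (fun i u v => ((hA i).2 1).1 u v) h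
  have hs1 : ∀ j, 1 ≤ j → ‖(β.map fun x => x ^ j).sum‖ ≤ 1 := by
    intro j hj
    obtain ⟨E, i1, i2, i3, i4, hE⟩ := hEXT p k j hj
    rw [← hE, hβ E]
    unfold Sf
    exact norm_sum_le_one _ fun x _ => (psi_norm ψ _).le
  have hs2 : ∀ j, 1 ≤ j → ‖(β.map fun x => x ^ j).sum - ((q ^ j - 1) ^ 2 * Matrix.trace (B ^ j) +
      q ^ j * (q ^ j - 1) * (Matrix.trace (B0 ^ j) + Matrix.trace (B1 ^ j)) +
      (q ^ j) ^ 2 * γ ^ j)‖ ≤ ε := by
    intro j hj
    obtain ⟨E, i1, i2, i3, i4, hE⟩ := hEXT p k j hj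
    have := hTRF p C hpC ψ ε Θ hεpos hΘ k ι τ hτ f L hdeg E
    rw [← hE, hβ E]
    exact this
  have h5 := hFIVE C (Fin 2 → Fin L) (Fin 1 → Fin L) q γ B B0 B1 β ε hεpos.le hq1.le hγ1 hBn
    hB0n hB1n hs1 hs2
  -- chi
  obtain ⟨hχs, hχd, hχ0, hχb⟩ := hCHI p a b ha hb hdvd C hpC (ψ 1) ρ ε Θ hΘ hρ hρ0 hρ1 k ι τ hτ f
    hsupp h hh1 hsep L hDL m hm1 hmD
  have he1 : ∀ u : Fin 2 → Fin L, 1 ≤ ew a b (pt u) := by
    intro u
    have h1 : 1 ≤ Nat.lcm a b / a :=
      Nat.div_pos (Nat.le_of_dvd hDpos (Nat.dvd_lcm_left a b)) (by omega)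
    unfold ew
    have h2 : 1 ≤ pt u 0 := by simp [pt]
    calc 1 = 1 * 1 := rfl
      _ ≤ (Nat.lcm a b / a) * pt u 0 := Nat.mul_le_mul h1 h2
      _ ≤ _ := Nat.le_add_right _ _
  have hedge := hEDGEM C (Fin 2 → Fin L) (fun u => ew a b (pt u)) p h m ρ
    (fun i => Amat p L (F i)) (fun i => Cmat p a b L ρ (F i)) hp2 hh1 hρ0 hρ1 he1
    (fun i u v => (hA i).1.1 u v) (fun i u v => (hA i).1.2.1 u v)
    (by
      intro i hi u v hu hv huv
      exact (hLEAD p a b ha hb hdvd C hpC (ψ 1) ρ ε Θ hΘ hρ hρ0 hρ1 k ι τ hτ f hsupp i L u v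
        (hu.trans hmD) (hv.trans hmD)).1 huv)
    (by
      intro i hi m' hm'
      rcases Nat.eq_zero_or_pos m' with rfl | hpos
      · haveI : IsEmpty {u : Fin 2 → Fin L // ew a b (pt u) = 0} :=
          ⟨fun u => by have := he1 u.1; have := u.2; omega⟩
        rw [Matrix.det_isEmpty]
        exact one_ne_zero
      · exact (hCHI p a b ha hb hdvd C hpC (ψ 1) ρ ε Θ hΘ hρ hρ0 hρ1 k ι τ hτ f
          hsupp h hh1 hsep L hDL m' hpos (by omega)).2.2.2 i hi)
    m0
  -- small factors
  have hsm : ∀ x : C, ‖x‖ ≤ ‖ϖ‖ → USmall ((x • B).charpolyRev : PowerSeries C) ϖ := by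
    intro x hx
    exact hSMALL C (Fin 2 → Fin L) (fun u => ew a b (pt u)) p h ρ x ϖ
      (fun i => Amat p L (F i)) (fun i => Cmat p a b L ρ (F i)) hp2 hh1 hρ0 hρ1 he1
      (fun i u v => (hA i).1.1 u v) (fun i u v => (hA i).1.2.1 u v) hϖ0 hx
  have hsmax : ∀ (s : Fin 2) (x : C), ‖x‖ ≤ ‖ϖ‖ →
      USmall ((x • Pmat (fun i => Amat p L (ax s (F i))) h).charpolyRev : PowerSeries C) ϖ := by
    intro s x hx
    choose Cm hCm1 hCm2 using fun i => ((hA i).2 s).2
    refine hSMALL C (Fin 1 → Fin L) (fun u => ew a b (fun t => if t = s then pt u 0 else 0)) p h ρ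
      x ϖ (fun i => Amat p L (ax s (F i))) Cm hp2 hh1 hρ0 hρ1 ?_ hCm1 hCm2 hϖ0 hx
    intro u
    have h1 : 1 ≤ Nat.lcm a b / a :=
      Nat.div_pos (Nat.le_of_dvd hDpos (Nat.dvd_lcm_left a b)) (by omega)
    have h1' : 1 ≤ Nat.lcm a b / b :=
      Nat.div_pos (Nat.le_of_dvd hDpos (Nat.dvd_lcm_right a b)) (by omega)
    have h2 : 1 ≤ pt u 0 := by simp [pt]
    unfold ew
    fin_cases s
    · simp only [Fin.zero_eta, if_true]
      calc 1 = 1 * 1 := rfl
        _ ≤ (Nat.lcm a b / a) * pt u 0 := Nat.mul_le_mul h1 h2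
        _ ≤ _ := Nat.le_add_right _ _
    · simp only [Fin.mk_one, if_true]
      calc 1 = 1 * 1 := rfl
        _ ≤ (Nat.lcm a b / b) * pt u 0 := Nat.mul_le_mul h1' h2
        _ ≤ _ := Nat.le_add_left _ _
  have hmul : ∀ P Q : PowerSeries C, USmall P ϖ → USmall Q ϖ → USmall (P * Q) ϖ :=
    fun P Q hP hQ => (hEDIV C 1 P Q ϖ hϖ0 hP).2 hQ
  have hD1 : USmall ((DD1 q B B0 B1 : Polynomial C) : PowerSeries C) ϖ := by
    unfold DD1
    rw [pow_two]
    simp only [Polynomial.coe_mul]
    exact hmul _ _ (hmul _ _ (hmul _ _ (hsm q hqϖ) (hsm q hqϖ)) (hsmax 0 q hqϖ)) (hsmax 1 q hqϖ)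
  have hD3 : USmall ((DD3 q γ B B0 B1 : Polynomial C) : PowerSeries C) ϖ := by
    unfold DD3
    simp only [Polynomial.coe_mul]
    refine hmul _ _ (hmul _ _ (hmul _ _ (hsm _ hq2ϖ) (hsmax 0 _ hq2ϖ)) (hsmax 1 _ hq2ϖ)) ?_
    refine usmall_lin _ _ hϖ0 ?_
    rw [norm_mul, pow_two, norm_mul]
    by_cases hq0 : ‖q‖ = 0
    · rw [hq0]; simpa using hϖpos
    · have hqp : 0 < ‖q‖ := lt_of_le_of_ne (norm_nonneg _) (Ne.symm hq0)
      calc ‖q‖ * ‖q‖ * ‖γ‖ ≤ ‖q‖ * ‖q‖ * 1 := by gcongr
        _ = ‖q‖ * ‖q‖ := mul_one _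
        _ < 1 * ‖q‖ := by gcongr
        _ = ‖q‖ := one_mul _
        _ ≤ ‖ϖ‖ := hqϖ
  -- transfer
  have hedge2 : Edge (((B.charpolyRev * DD3 q γ B B0 B1 : Polynomial C)) : PowerSeries C) ϖ
      (Fintype.card {u : Fin 2 → Fin L // ew a b (pt u) < m})
      (Pmat (fun i => blk (fun u : Fin 2 → Fin L => ew a b (pt u)) m
        (Cmat p a b L ρ (F i))) h).charpolyRev m0 := by
    rw [Polynomial.coe_mul]
    exact ((hEDIV C _ _ 1 ϖ hϖ0 hD3).1 _ _ _).2 hedge
  have hclose : ∀ n, n ≤ m0 →
      ‖PowerSeries.coeff n (((revP β * DD1 q B B0 B1 : Polynomial C)) : PowerSeries C) -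
        PowerSeries.coeff n (((B.charpolyRev * DD3 q γ B B0 B1 : Polynomial C)) : PowerSeries C)‖
        < ‖ϖ‖ ^ m0 := by
    intro n hn
    rw [Polynomial.coeff_coe, Polynomial.coeff_coe]
    refine (h5 n).trans_lt ?_
    have hn0 : (n.factorial : C) ≠ 0 := by exact_mod_cast Nat.factorial_ne_zero n
    have hnpos : 0 < ‖(n.factorial : C)‖ := norm_pos_iff.2 hn0
    have hle : ‖(m0.factorial : C)‖ ≤ ‖(n.factorial : C)‖ := by
      obtain ⟨c, hc⟩ := Nat.factorial_dvd_factorial hn
      rw [hc]; push_cast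
      rw [norm_mul]
      exact mul_le_of_le_one_right (norm_nonneg _) (norm_natCast_le c)
    rw [div_lt_iff₀ hnpos, hε]
    have : 0 < ‖ϖ‖ ^ m0 := by positivity
    nlinarith
  have hedge3 := hECL C _ _ ϖ _ _ m0 hϖ0 hϖ1 hclose hedge2
  rw [Polynomial.coe_mul] at hedge3
  have hedge4 := ((hEDIV C _ _ 1 ϖ hϖ0 hD1).1 _ _ _).1 hedge3
  refine ⟨_, hχs, hχ0, hχd, ?_⟩
  rw [← (hREIDX p a b ha hb L m hmD hDL).1]
  exact hedge4

end ASur
end
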