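import Pool.Agent.Lib.MP_b685ef_ag.AS.Spec

section
/-!
# AS/EDIV: multiplication of edges by series of `1 + X 𝔪[[X]]` (after scaling)
-/
set_option linter.all false

namespace ASur

open Finset

section
variable {C : Type} [NormedField C] [IsUltrametricDist C]

private theorem EDIV_sum_lt {ι : Type*} (s : Finset ι) {g : ι → C} (hg : ∀ i ∈ s, ‖g i‖ < 1) :
    ‖∑ i ∈ s, g i‖ < 1 := by
  classical
  induction s using Finset.induction_on with
  | empty => simp
  | insert a s ha ih =>
    rw [Finset.sum_insert ha]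
    exact (IsUltrametricDist.norm_add_le_max _ _).trans_lt
      (max_lt (hg a (by simp)) (ih fun i hi => hg i (by simp [hi])))

private theorem EDIV_coeff_mul (P D : PowerSeries C) (n : ℕ) :
    PowerSeries.coeff n (P * D) =
      ∑ k ∈ range (n + 1), PowerSeries.coeff k P * PowerSeries.coeff (n - k) D := by
  rw [PowerSeries.coeff_mul, Finset.Nat.sum_antidiagonal_eq_sum_range_succ_mk]

private theorem EDIV_diff {P D : PowerSeries C} {ϖ : C} (hϖ : ϖ ≠ 0) (hD : USmall D ϖ) (c : C)
    (n : ℕ) (hp : ∀ i, i < n → ‖c * PowerSeries.coeff i P / ϖ ^ i‖ ≤ 1) :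
    ‖c * PowerSeries.coeff n (P * D) / ϖ ^ n - c * PowerSeries.coeff n P / ϖ ^ n‖ < 1 := by
  have h0 : PowerSeries.coeff (n - n) D = 1 := by
    rw [Nat.sub_self]
    simpa using hD.1
  have h1 : c * PowerSeries.coeff n (P * D) / ϖ ^ n - c * PowerSeries.coeff n P / ϖ ^ n =
      ∑ k ∈ range n, (c * PowerSeries.coeff k P / ϖ ^ k) *
        (PowerSeries.coeff (n - k) D / ϖ ^ (n - k)) := by
    rw [EDIV_coeff_mul, Finset.sum_range_succ, h0, mul_one, mul_add, add_div, add_sub_cancel_right,
      Finset.mul_sum, Finset.sum_div]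
    refine Finset.sum_congr rfl fun k hk => ?_
    have hk' : k < n := Finset.mem_range.1 hk
    have e : ϖ ^ n = ϖ ^ k * ϖ ^ (n - k) := by
      rw [← pow_add]; congr 1; omega
    rw [e]
    have a1 : ϖ ^ k ≠ 0 := pow_ne_zero _ hϖ
    have a2 : ϖ ^ (n - k) ≠ 0 := pow_ne_zero _ hϖ
    field_simp
  rw [h1]
  refine EDIV_sum_lt _ fun k hk => ?_
  have hk' : k < n := Finset.mem_range.1 hk
  rw [norm_mul]
  have b1 := hp k hk'
  have b2 := hD.2 (n - k) (by omega)
  calc ‖c * PowerSeries.coeff k P / ϖ ^ k‖ * ‖PowerSeries.coeff (n - k) D / ϖ ^ (n - k)‖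
      ≤ 1 * ‖PowerSeries.coeff (n - k) D / ϖ ^ (n - k)‖ :=
        mul_le_mul_of_nonneg_right b1 (norm_nonneg _)
    _ < 1 := by rw [one_mul]; exact b2

private theorem EDIV_le_of_sub {x y : C} (h : ‖x - y‖ < 1) (hy : ‖y‖ ≤ 1) : ‖x‖ ≤ 1 := by
  have : x = (x - y) + y := by ring
  rw [this]
  exact (IsUltrametricDist.norm_add_le_max _ _).trans (max_le h.le hy)

private theorem EDIV_small_mul {D D' : PowerSeries C} {ϖ : C} (hϖ : ϖ ≠ 0) (hD : USmall D ϖ)
    (hD' : USmall D' ϖ) : USmall (D * D') ϖ := by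
  refine ⟨by rw [map_mul, hD.1, hD'.1, one_mul], fun n hn => ?_⟩
  have hle : ∀ i, i < n → ‖(1 : C) * PowerSeries.coeff i D / ϖ ^ i‖ ≤ 1 := by
    intro i hi
    rw [one_mul]
    rcases Nat.eq_zero_or_pos i with rfl | hi0
    · have : PowerSeries.coeff 0 D = 1 := by simpa using hD.1
      rw [this]
      simp
    · exact (hD.2 i hi0).le
  have h1 := EDIV_diff hϖ hD' 1 n hle
  have h2 := hD.2 n hn
  rw [one_mul, one_mul] at h1
  have : PowerSeries.coeff n (D * D') / ϖ ^ n =
      (PowerSeries.coeff n (D * D') / ϖ ^ n - PowerSeries.coeff n D / ϖ ^ n) +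
        PowerSeries.coeff n D / ϖ ^ n := by ring
  rw [this]
  exact (IsUltrametricDist.norm_add_le_max _ _).trans_lt (max_lt h1 h2)

end

theorem ediv_thm : StmtEDIV := by
  intro C _ _ P D D' ϖ hϖ hD
  refine ⟨fun M χ m0 => ⟨?_, ?_⟩, fun hD' => EDIV_small_mul hϖ hD hD'⟩
  · rintro ⟨c, hc0, hc1, hc⟩
    refine ⟨c, hc0, hc1, ?_⟩
    have key : ∀ n, n ≤ m0 → ‖c * PowerSeries.coeff n P / ϖ ^ n‖ ≤ 1 := by
      intro n
      induction n using Nat.strong_induction_on with
      | _ n ih =>
        intro hn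
        have h1 := EDIV_diff (P := P) hϖ hD c n fun i hi => ih i hi (by omega)
        rw [norm_sub_rev] at h1
        exact EDIV_le_of_sub h1 (hc n hn).1
    intro n hn
    refine ⟨key n hn, ?_⟩
    have h1 := EDIV_diff (P := P) hϖ hD c n fun i hi => key i (by omega)
    rw [norm_sub_rev] at h1
    rw [← (hc n hn).2]
    exact (rd_eq_iff (key n hn) (hc n hn).1).2 h1
  · rintro ⟨c, hc0, hc1, hc⟩
    refine ⟨c, hc0, hc1, fun n hn => ?_⟩
    have h1 := EDIV_diff (P := P) hϖ hD c n fun i hi => (hc i (by omega)).1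
    have h2 : ‖c * PowerSeries.coeff n (P * D) / ϖ ^ n‖ ≤ 1 := EDIV_le_of_sub h1 (hc n hn).1
    refine ⟨h2, ?_⟩
    rw [← (hc n hn).2]
    exact (rd_eq_iff h2 (hc n hn).1).2 h1

end ASur
end

section
/-! # Module EVJ: truncated evaluation is multiplicative up to `‖λ‖^J`. -/
set_option linter.all false

namespace ASur

open Finset

private theorem EVJ_coeff_mul {C : Type} [NormedField C] [IsUltrametricDist C]
    (P Q : PowerSeries C) (hP : ∀ n, ‖PowerSeries.coeff n P‖ ≤ 1)
    (hQ : ∀ n, ‖PowerSeries.coeff n Q‖ ≤ 1) (n : ℕ) : ‖PowerSeries.coeff n (P * Q)‖ ≤ 1 := by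
  rw [PowerSeries.coeff_mul]
  refine norm_sum_le_one _ fun x _ => ?_
  rw [norm_mul]
  exact mul_le_one₀ (hP _) (norm_nonneg _) (hQ _)

private theorem EVJ_ev_le {C : Type} [NormedField C] [IsUltrametricDist C] (J : ℕ) (lam : C)
    (hl : ‖lam‖ ≤ 1) (P : PowerSeries C) (hP : ∀ n, ‖PowerSeries.coeff n P‖ ≤ 1) :
    ‖ev J lam P‖ ≤ 1 := by
  rw [ev]
  refine norm_sum_le_one _ fun n _ => ?_
  rw [norm_mul, norm_pow]
  exact mul_le_one₀ (hP _) (by positivity) (pow_le_one₀ (norm_nonneg _) hl)

private theorem EVJ_key {C : Type} [NormedField C] [IsUltrametricDist C] (J : ℕ) (lam : C)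
    (hl : ‖lam‖ ≤ 1) (P Q : PowerSeries C) (hP : ∀ n, ‖PowerSeries.coeff n P‖ ≤ 1)
    (hQ : ∀ n, ‖PowerSeries.coeff n Q‖ ≤ 1) :
    ‖ev J lam (P * Q) - ev J lam P * ev J lam Q‖ ≤ ‖lam‖ ^ J := by
  classical
  have h1 : ev J lam P * ev J lam Q = ∑ x ∈ range J ×ˢ range J,
      (PowerSeries.coeff x.1 P * lam ^ x.1) * (PowerSeries.coeff x.2 Q * lam ^ x.2) := by
    rw [ev, ev, Finset.sum_mul_sum, Finset.sum_product]
  have h2 : ev J lam (P * Q) = ∑ x ∈ (range J ×ˢ range J).filter (fun x => x.1 + x.2 < J),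
      (PowerSeries.coeff x.1 P * lam ^ x.1) * (PowerSeries.coeff x.2 Q * lam ^ x.2) := by
    rw [ev, ← Finset.sum_fiberwise_of_maps_to (g := fun x : ℕ × ℕ => x.1 + x.2) (t := range J)
      (by intro x hx; simp only [mem_filter] at hx; simpa using hx.2)]
    refine Finset.sum_congr rfl fun n hn => ?_
    have hn' := Finset.mem_range.1 hn
    rw [PowerSeries.coeff_mul, Finset.sum_mul]
    have hset : (((range J ×ˢ range J).filter (fun x => x.1 + x.2 < J)).filter
        (fun x => x.1 + x.2 = n)) = antidiagonal n := by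
      ext ⟨i, j⟩
      simp only [mem_filter, mem_product, mem_range, Finset.HasAntidiagonal.mem_antidiagonal]
      omega
    rw [hset]
    refine Finset.sum_congr rfl fun x hx => ?_
    rw [Finset.HasAntidiagonal.mem_antidiagonal] at hx
    rw [← hx, pow_add]
    ring
  rw [h1, h2, ← Finset.sum_filter_add_sum_filter_not (range J ×ˢ range J)
    (fun x : ℕ × ℕ => x.1 + x.2 < J), sub_add_cancel_left, norm_neg]
  refine IsUltrametricDist.norm_sum_le_of_forall_le_of_nonneg (by positivity) fun x hx => ?_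
  simp only [mem_filter, not_lt] at hx
  rw [norm_mul, norm_mul, norm_mul, norm_pow, norm_pow]
  calc ‖PowerSeries.coeff x.1 P‖ * ‖lam‖ ^ x.1 * (‖PowerSeries.coeff x.2 Q‖ * ‖lam‖ ^ x.2)
      ≤ 1 * ‖lam‖ ^ x.1 * (1 * ‖lam‖ ^ x.2) := by
        gcongr
        · exact hP _
        · exact hQ _
    _ = ‖lam‖ ^ (x.1 + x.2) := by rw [pow_add]; ring
    _ ≤ ‖lam‖ ^ J := pow_le_pow_of_le_one (norm_nonneg _) hl hx.2

private theorem EVJ_one {C : Type} [NormedField C] [IsUltrametricDist C] (J : ℕ) (lam : C)
    (hl : ‖lam‖ ≤ 1) : ‖ev J lam 1 - 1‖ ≤ ‖lam‖ ^ J := by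
  rcases Nat.eq_zero_or_pos J with rfl | hJ
  · simp [ev]
  · have : ev J lam (1 : PowerSeries C) = 1 := by
      rw [ev, Finset.sum_eq_single 0]
      · simp
      · intro n _ hn
        rw [PowerSeries.coeff_one, if_neg hn, zero_mul]
      · intro h
        exact absurd (Finset.mem_range.2 hJ) h
    rw [this, sub_self, norm_zero]
    positivity

theorem EVJ_thm : StmtEVJ := by
  intro C _ _ J lam hl ι s h hh
  classical
  induction s using Finset.induction_on with
  | empty =>
    constructor
    · intro n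
      rw [Finset.prod_empty, PowerSeries.coeff_one]
      split_ifs <;> simp
    · rw [Finset.prod_empty, Finset.prod_empty]
      exact EVJ_one J lam hl
  | insert a s ha ih =>
    obtain ⟨ih1, ih2⟩ := ih fun i hi => hh i (Finset.mem_insert_of_mem hi)
    have hA : ∀ n, ‖PowerSeries.coeff n (h a)‖ ≤ 1 := hh a (Finset.mem_insert_self _ _)
    rw [Finset.prod_insert ha, Finset.prod_insert ha]
    refine ⟨EVJ_coeff_mul _ _ hA ih1, ?_⟩
    have hk := EVJ_key J lam hl (h a) (∏ i ∈ s, h i) hA ih1
    have he := EVJ_ev_le J lam hl (h a) hA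
    have heq : ev J lam (h a * ∏ i ∈ s, h i) - ev J lam (h a) * ∏ i ∈ s, ev J lam (h i) =
        (ev J lam (h a * ∏ i ∈ s, h i) - ev J lam (h a) * ev J lam (∏ i ∈ s, h i)) +
        ev J lam (h a) * (ev J lam (∏ i ∈ s, h i) - ∏ i ∈ s, ev J lam (h i)) := by ring
    rw [heq]
    refine (IsUltrametricDist.norm_add_le_max _ _).trans (max_le hk ?_)
    rw [norm_mul]
    calc ‖ev J lam (h a)‖ * ‖ev J lam (∏ i ∈ s, h i) - ∏ i ∈ s, ev J lam (h i)‖
        ≤ 1 * ‖lam‖ ^ J := by gcongr
      _ = ‖lam‖ ^ J := one_mul _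

end ASur
end

section
/-!
# Module EXT: every degree occurs (MP_b685ef_ag, hive AS)
-/
set_option linter.all false

namespace ASur

theorem ext_thm : StmtEXT := by
  intro p _ k _ _ _ j hj
  haveI : NeZero j := ⟨by omega⟩
  haveI : CharP k p := (Algebra.charP_iff (ZMod p) k p).1 inferInstance
  exact ⟨FiniteField.Extension k p j, inferInstance, Fintype.ofFinite _, inferInstance,
    inferInstance, FiniteField.finrank_extension k p j⟩

end ASur
end

section
set_option linter.all false

namespace ASur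

open Finset

universe u v

private theorem final_alg {p : ℕ} [Fact p.Prime] {K : Type*} [Field K] [CharZero K]
    (ψ : AddChar (ZMod p) K) (x : ZMod p) : IsAlgebraic ℚ (ψ x) := by
  have h1 : (ψ x) ^ p = 1 := by
    rw [← AddChar.map_nsmul_eq_pow]
    simp
  have : IsIntegral ℚ (ψ x) := by
    refine IsIntegral.of_pow (Fact.out : p.Prime).pos ?_
    rw [h1]
    exact isIntegral_one
  exact this.isAlgebraic

private theorem final_alg_Sf {p : ℕ} [Fact p.Prime] {K : Type*} [Field K] [CharZero K]
    (ψ : AddChar (ZMod p) K) {k : Type} [Field k] (f : MvPolynomial (Fin 2) k)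
    (E : Type) [Field E] [Fintype E] [Algebra (ZMod p) E] [Algebra k E] :
    IsAlgebraic ℚ (Sf ψ f E) := by
  unfold Sf
  refine IsIntegral.isAlgebraic ?_
  refine IsIntegral.sum _ fun x _ => ?_
  exact (final_alg ψ _).isIntegral

/-- The theorem over an algebraically closed field `K`, for multisets. -/
theorem final_multiset (hCORE : StmtCORE) (hK2C : StmtK2C.{u}) (hEXT : StmtEXT)
    (p : ℕ) [Fact p.Prime] (a b : ℕ) (ha : 2 ≤ a) (hb : 2 ≤ b) (hD : Nat.lcm a b ∣ p - 1)
    (k : Type) [Field k] [Fintype k] [Algebra (ZMod p) k] (f : MvPolynomial (Fin 2) k)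
    (hf : ∀ m ∈ f.support, ew a b m ≤ Nat.lcm a b)
    (hS : ∀ m, 1 ≤ m → m ≤ Nat.lcm a b → (Polynomial.X *
      (Fprod p (Hmat p a b (Nat.lcm a b) m f) (Module.finrank (ZMod p) k)).charpoly).Separable)
    (K : Type u) [Field K] [IsAlgClosed K] [CharZero K] (ψ : AddChar (ZMod p) K) (hψ : ψ ≠ 1)
    (β : Multiset K) (hβ0 : ∀ x ∈ β, x ≠ 0)
    (hT : ∀ (E : Type) [Field E] [Fintype E] [Algebra (ZMod p) E] [Algebra k E],
      (β.map fun x => x ^ Module.finrank k E).sum = Sf ψ f E ∧
      ((Fintype.card k : K) ^ Module.finrank k E) ^ 2 *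
        (β.map fun x => (x⁻¹) ^ Module.finrank k E).sum = Sf ψ⁻¹ f E) :
    Multiset.card β = (a - 1) * (b - 1) ∧ β.Nodup := by
  let C := PadicAlgCl p
  obtain ⟨A, g, hA, hβA⟩ := hK2C K C β (by
    intro j hj
    obtain ⟨E, _, _, _, _, hE⟩ := hEXT p k j hj
    have := (hT E).1
    rw [hE] at this
    rw [this]
    exact final_alg_Sf ψ f E)
  have hmem : ∀ x : ZMod p, ψ x ∈ A := fun x => hA _ (final_alg ψ x)
  -- the characters over C
  let tr : AddChar (ZMod p) K → AddChar (ZMod p) C := fun χ =>
    { toFun := fun x => g ⟨χ x, hA _ (final_alg χ x)⟩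
      map_zero_eq_one' := by
        rw [← map_one g]
        congr 1
        apply Subtype.ext
        simp
      map_add_eq_mul' := by
        intro x y
        rw [← map_mul g]
        congr 1
        apply Subtype.ext
        simp [AddChar.map_add_eq_mul] }
  have htr : ∀ χ : AddChar (ZMod p) K, ∀ x, (tr χ) x = g ⟨χ x, hA _ (final_alg χ x)⟩ :=
    fun _ _ => rfl
  have hginj : Function.Injective g := g.injective
  have hψ' : tr ψ ≠ 1 := by
    intro h
    apply hψ
    ext x
    have h1 : (tr ψ) x = 1 := by rw [h]; rfl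
    rw [htr, ← map_one g] at h1
    have := congrArg Subtype.val (hginj h1)
    simpa using this
  have htinv : tr ψ⁻¹ = (tr ψ)⁻¹ := by
    ext x
    rw [AddChar.inv_apply, htr, htr]
    congr 1
  -- the multiset over A
  obtain ⟨βA, hβA'⟩ : ∃ βA : Multiset A, βA.map (fun x : A => (x : K)) = β := by
    refine ⟨β.attach.map fun x => ⟨x.1, hβA x.1 x.2⟩, ?_⟩
    simp only [Multiset.map_map, Function.comp]
    exact Multiset.attach_map_val β
  have hSf : ∀ (χ : AddChar (ZMod p) K) (E : Type) [Field E] [Fintype E] [Algebra (ZMod p) E]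
      [Algebra k E], ∃ s : A, (s : K) = Sf χ f E ∧ g s = Sf (tr χ) f E := by
    intro χ E _ _ _ _
    refine ⟨∑ x : Fin 2 → E, ⟨χ (Algebra.trace (ZMod p) E (MvPolynomial.aeval x f)),
      hA _ (final_alg χ _)⟩, ?_, ?_⟩
    · unfold Sf
      push_cast
      rfl
    · unfold Sf
      rw [map_sum]
      rfl
  have hp : ‖(p : C)‖ < 1 := by
    have h1 : ((algebraMap ℚ_[p] (PadicAlgCl p)) (p : ℚ_[p])) = (p : PadicAlgCl p) := by simp
    have h2 := PadicAlgCl.norm_extends p (p : ℚ_[p])
    have h3 : ‖(p : PadicAlgCl p)‖ = ‖(p : ℚ_[p])‖ := by rw [← h2]; congr 1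
    show ‖(p : PadicAlgCl p)‖ < 1
    rw [h3]
    exact Padic.norm_p_lt_one
  let j : ℤ_[p] →+* C := (algebraMap ℚ_[p] (PadicAlgCl p)).comp PadicInt.Coe.ringHom
  have hj : ∀ x, ‖j x‖ ≤ 1 := by
    intro x
    have h2 := PadicAlgCl.norm_extends p (x : ℚ_[p])
    exact h2.trans_le x.norm_le_one
  have hA0 : ∀ x ∈ βA, x ≠ 0 := by
    intro x hx h0
    have : (x : K) ∈ β := by
      rw [← hβA']
      exact Multiset.mem_map_of_mem _ hx
    exact hβ0 _ this (by rw [h0]; rfl)
  obtain ⟨R1, R2⟩ := hCORE p a b ha hb hD C hp j hj k f hf hS (tr ψ) hψ' (βA.map g)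
    (by
      intro y hy
      obtain ⟨x, hx, rfl⟩ := Multiset.mem_map.1 hy
      exact (map_ne_zero g).2 (hA0 x hx))
    (by
      intro E _ _ _ _
      obtain ⟨t1, t2⟩ := hT E
      obtain ⟨s, hs1, hs2⟩ := hSf ψ E
      obtain ⟨s', hs1', hs2'⟩ := hSf ψ⁻¹ E
      have hsumA : ∀ m : Multiset A, ((m.sum : A) : K) = (m.map fun x : A => (x : K)).sum :=
        fun m => map_multiset_sum (A.subtype) m
      have e1 : (βA.map fun x => x ^ Module.finrank k E).sum = s := by
        apply Subtype.ext
        rw [hs1, ← t1, ← hβA', Multiset.map_map, hsumA, Multiset.map_map]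
        rfl
      have e2 : ((Fintype.card k : A) ^ Module.finrank k E) ^ 2 *
          (βA.map fun x => (x⁻¹) ^ Module.finrank k E).sum = s' := by
        apply Subtype.ext
        rw [hs1', ← t2, ← hβA', Multiset.map_map]
        have hc : (((Fintype.card k : A) ^ Module.finrank k E) ^ 2 : K) =
          ((Fintype.card k : K) ^ Module.finrank k E) ^ 2 := by push_cast; rfl
        rw [Subfield.coe_mul, hsumA, Multiset.map_map]
        rfl
      constructor
      · rw [← hs2, ← e1, map_multiset_sum, Multiset.map_map, Multiset.map_map]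
        congr 1
        refine Multiset.map_congr rfl fun x _ => ?_
        simp only [Function.comp, map_pow]
      · rw [← htinv, ← hs2', ← e2, map_mul, map_pow, map_pow, map_natCast, map_multiset_sum,
          Multiset.map_map, Multiset.map_map]
        congr 2
        refine Multiset.map_congr rfl fun x _ => ?_
        simp only [Function.comp, map_pow, map_inv₀])
  constructor
  · rw [← R1, Multiset.card_map, ← hβA', Multiset.card_map]
  · rw [← hβA']
    exact (Multiset.Nodup.of_map g R2).map Subtype.val_injective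

theorem final_thm (hCORE : StmtCORE) (hK2C : StmtK2C.{u}) (hLINALG : StmtLINALG.{u, v})
    (hEXT : StmtEXT) : StmtFINAL.{u, v} := by
  intro p _ a b ha hb hD k _ _ _ f hf hS K _ _ _ ψ hψ V _ _ _ φ hT
  obtain ⟨L0, L1, L2, L3, L4⟩ := hLINALG K V φ
  obtain ⟨R1, R2⟩ := final_multiset hCORE hK2C hEXT p a b ha hb hD k f hf hS K ψ hψ
    (LinearMap.charpoly (φ : V →ₗ[K] V)).roots L0 (by
      intro E _ _ _ _
      obtain ⟨t1, t2⟩ := hT E
      rw [← L2, ← L3]
      refine ⟨t1, ?_⟩
      rw [← t2]
      congr 2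
      have := Module.card_eq_pow_finrank (K := k) (V := E)
      rw [this]
      push_cast
      rfl)
  exact ⟨by rw [← L1, R1], L4 R2⟩

end ASur
end

section
/-!
# MP_b685ef_ag, theorem AS: module FIVE (formula (5))
-/
set_option linter.all false

namespace ASur

open Finset

private theorem five_map_charpolyRev {R S ι : Type} [CommRing R] [CommRing S] [Fintype ι]
    [DecidableEq ι] (f : R →+* S) (M : Matrix ι ι R) :
    (M.charpolyRev).map f = (M.map f).charpolyRev := by
  rw [Matrix.charpolyRev, Matrix.charpolyRev, ← Polynomial.coe_mapRingHom, RingHom.map_det]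
  congr 1
  ext i j : 2
  by_cases h : i = j
  · subst h
    simp
  · simp [Matrix.one_apply_ne h]

section
variable {C : Type} [NormedField C] [IsUltrametricDist C]

private theorem five_lift {ι : Type} (M : Matrix ι ι C) (h : ∀ u v, ‖M u v‖ ≤ 1) :
    ∃ M' : Matrix ι ι (OO C), M'.map (OO C).subtype = M :=
  ⟨Matrix.of fun u v => ⟨M u v, mem_OO.2 (h u v)⟩, by ext u v; rfl⟩

private theorem five_coeff_rev {ι : Type} [Fintype ι] [DecidableEq ι] (M : Matrix ι ι C)
    (h : ∀ u v, ‖M u v‖ ≤ 1) (n : ℕ) : ‖(M.charpolyRev).coeff n‖ ≤ 1 := by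
  obtain ⟨M', rfl⟩ := five_lift M h
  rw [← five_map_charpolyRev, Polynomial.coeff_map]
  exact norm_coe_le _

private theorem five_trace {ι : Type} [Fintype ι] [DecidableEq ι] (M : Matrix ι ι C)
    (h : ∀ u v, ‖M u v‖ ≤ 1) (n : ℕ) : ‖Matrix.trace (M ^ n)‖ ≤ 1 := by
  obtain ⟨M', rfl⟩ := five_lift M h
  have h1 : (M'.map (OO C).subtype) ^ n = (M' ^ n).map (OO C).subtype := by
    have := map_pow (RingHom.mapMatrix (OO C).subtype) M' n
    exact this.symm
  rw [h1]
  have h2 : Matrix.trace ((M' ^ n).map (OO C).subtype) = ((Matrix.trace (M' ^ n) : OO C) : C) := by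
    simp [Matrix.trace, Matrix.diag]
  rw [h2]
  exact norm_coe_le _

private theorem five_mul {P Q : Polynomial C} (hP : ∀ n, ‖P.coeff n‖ ≤ 1)
    (hQ : ∀ n, ‖Q.coeff n‖ ≤ 1) (n : ℕ) : ‖(P * Q).coeff n‖ ≤ 1 := by
  rw [Polynomial.coeff_mul]
  refine norm_sum_le_one _ fun i _ => ?_
  rw [norm_mul]
  exact mul_le_one₀ (hP _) (norm_nonneg _) (hQ _)

private theorem five_add {x y : C} (hx : ‖x‖ ≤ 1) (hy : ‖y‖ ≤ 1) : ‖x + y‖ ≤ 1 :=
  (IsUltrametricDist.norm_add_le_max x y).trans (max_le hx hy)

private theorem five_lin (x : C) (hx : ‖x‖ ≤ 1) (n : ℕ) :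
    ‖(1 - Polynomial.C x * Polynomial.X : Polynomial C).coeff n‖ ≤ 1 := by
  rw [sub_eq_add_neg, Polynomial.coeff_add]
  refine five_add ?_ ?_
  · rw [Polynomial.coeff_one]
    split_ifs <;> simp
  · rw [Polynomial.coeff_neg, norm_neg, Polynomial.coeff_C_mul, Polynomial.coeff_X]
    split_ifs <;> simp [hx]

private theorem five_smul {ι : Type} (M : Matrix ι ι C) (h : ∀ u v, ‖M u v‖ ≤ 1) (q : C)
    (hq : ‖q‖ ≤ 1) (u v : ι) : ‖(q • M) u v‖ ≤ 1 := by
  rw [Matrix.smul_apply, smul_eq_mul, norm_mul]
  exact mul_le_one₀ hq (norm_nonneg _) (h u v)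

end

private theorem five_trace_smul {ι C : Type} [Fintype ι] [DecidableEq ι] [Field C]
    (M : Matrix ι ι C) (q : C) (n : ℕ) :
    Matrix.trace ((q • M) ^ n) = q ^ n * Matrix.trace (M ^ n) := by
  rw [smul_pow, Matrix.trace_smul, smul_eq_mul]

theorem FIVE_thm (h1 : StmtNRM) (h2 : StmtNRB) (h3 : StmtNCL) : StmtFIVE := by
  intro C _ _ _ _ I J _ _ _ _ q γ B B0 B1 β ε hε hq hγ hB hB0 hB1 hβ hcl m
  obtain ⟨hr, hd⟩ := h2 C
  -- the power sums of the two products
  have hlin : NR (fun i => (({q ^ 2 * γ} : Multiset C).map fun x => x ^ i).sum)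
      ((1 - Polynomial.C (q ^ 2 * γ) * Polynomial.X : Polynomial C) : PowerSeries C) := by
    have := hr {q ^ 2 * γ}
    rwa [show revP ({q ^ 2 * γ} : Multiset C) =
      (1 - Polynomial.C (q ^ 2 * γ) * Polynomial.X : Polynomial C) by simp [revP]] at this
  have hP : NR (fun i => (β.map fun x => x ^ i).sum +
      (((Matrix.trace ((q • B) ^ i) + Matrix.trace ((q • B) ^ i)) + Matrix.trace ((q • B0) ^ i)) +
        Matrix.trace ((q • B1) ^ i)))
      ((revP β * DD1 q B B0 B1 : Polynomial C) : PowerSeries C) := by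
    rw [DD1, pow_two, Polynomial.coe_mul, Polynomial.coe_mul, Polynomial.coe_mul,
      Polynomial.coe_mul]
    exact h1 C _ _ _ _ (hr β) (h1 C _ _ _ _ (h1 C _ _ _ _ (h1 C _ _ _ _ (hd I (q • B))
      (hd I (q • B))) (hd J (q • B0))) (hd J (q • B1)))
  have hQ : NR (fun i => Matrix.trace (B ^ i) +
      (((Matrix.trace ((q ^ 2 • B) ^ i) + Matrix.trace ((q ^ 2 • B0) ^ i)) +
        Matrix.trace ((q ^ 2 • B1) ^ i)) +
        (({q ^ 2 * γ} : Multiset C).map fun x => x ^ i).sum))
      ((B.charpolyRev * DD3 q γ B B0 B1 : Polynomial C) : PowerSeries C) := by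
    rw [DD3, Polynomial.coe_mul, Polynomial.coe_mul, Polynomial.coe_mul, Polynomial.coe_mul]
    exact h1 C _ _ _ _ (hd I B) (h1 C _ _ _ _ (h1 C _ _ _ _ (h1 C _ _ _ _ (hd I (q ^ 2 • B))
      (hd J (q ^ 2 • B0))) (hd J (q ^ 2 • B1))) hlin)
  have hq2 : ‖q ^ 2‖ ≤ 1 := by
    rw [norm_pow]
    exact pow_le_one₀ (norm_nonneg _) hq
  have hqγ : ‖q ^ 2 * γ‖ ≤ 1 := by
    rw [norm_mul]
    exact mul_le_one₀ hq2 (norm_nonneg _) hγ
  have key := h3 C _ _ _ _ ε hε hP hQ ?_ ?_ ?_ m
  · rwa [Polynomial.coeff_coe, Polynomial.coeff_coe] at key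
  · -- integrality
    intro n
    rw [Polynomial.coeff_coe, DD3]
    exact five_mul (five_coeff_rev B hB) (five_mul (five_mul (five_mul
      (five_coeff_rev _ (five_smul B hB _ hq2)) (five_coeff_rev _ (five_smul B0 hB0 _ hq2)))
      (five_coeff_rev _ (five_smul B1 hB1 _ hq2))) (five_lin _ hqγ)) n
  · intro i hi
    exact five_add (hβ i hi) (five_add (five_add (five_add (five_trace _ (five_smul B hB _ hq) i)
      (five_trace _ (five_smul B hB _ hq) i)) (five_trace _ (five_smul B0 hB0 _ hq) i))
      (five_trace _ (five_smul B1 hB1 _ hq) i))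
  · intro i hi
    refine le_trans (le_of_eq ?_) (hcl i hi)
    congr 1
    simp only [five_trace_smul, Multiset.map_singleton, Multiset.sum_singleton]
    rw [mul_pow, ← pow_mul, mul_comm 2 i, pow_mul]
    ring

end ASur
end

section
/-!
# MP_b685ef_ag, theorem AS, module GSER: the series `g`
-/
set_option linter.all false

namespace ASur

open Finset

/-- `p^k / k!` is a `p`-adic integer, divisible by `p` for `k ≥ 1`. -/
theorem gser_c (p : ℕ) [hp : Fact p.Prime] (k : ℕ) : ∃ c : ℤ_[p],
    (k.factorial : ℤ_[p]) * c = (p : ℤ_[p]) ^ k ∧ (1 ≤ k → (p : ℤ_[p]) ∣ c) := by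
  rcases Nat.eq_zero_or_pos k with rfl | hk
  · exact ⟨1, by simp, fun h => absurd h (by norm_num)⟩
  have hv : padicValNat p k.factorial < k := by
    have h1 := sub_one_mul_padicValNat_factorial_lt_of_ne_zero p (Nat.pos_iff_ne_zero.1 hk)
    have h2 : 1 ≤ p - 1 := by have := hp.out.two_le; omega
    calc padicValNat p k.factorial = 1 * padicValNat p k.factorial := (one_mul _).symm
      _ ≤ (p - 1) * padicValNat p k.factorial := Nat.mul_le_mul_right _ h2
      _ < k := h1
  set v := padicValNat p k.factorial with hvdef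
  obtain ⟨u, hu⟩ : p ^ v ∣ k.factorial := pow_padicValNat_dvd
  have hnd : ¬ p ∣ u := by
    rintro ⟨w, hw⟩
    have h3 : p ^ (v + 1) ∣ k.factorial := ⟨w, by rw [hu, hw, pow_succ]; ring⟩
    exact pow_succ_padicValNat_not_dvd (Nat.factorial_ne_zero k) h3
  have hun : IsUnit ((u : ℕ) : ℤ_[p]) := by
    rw [PadicInt.isUnit_iff]
    by_contra hne
    have hlt : ‖((u : ℤ) : ℤ_[p])‖ < 1 := by
      have h4 := PadicInt.norm_le_one ((u : ℕ) : ℤ_[p])
      push_cast
      exact lt_of_le_of_ne h4 hne
    rw [PadicInt.norm_int_lt_one_iff_dvd] at hlt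
    exact hnd (by exact_mod_cast hlt)
  obtain ⟨w, hw⟩ := hun.exists_right_inv
  refine ⟨(p : ℤ_[p]) ^ (k - v) * w, ?_, fun _ => ?_⟩
  · have h5 : ((k.factorial : ℕ) : ℤ_[p]) = (p : ℤ_[p]) ^ v * (u : ℤ_[p]) := by
      rw [hu]; push_cast; ring
    rw [h5]
    calc (p : ℤ_[p]) ^ v * (u : ℤ_[p]) * ((p : ℤ_[p]) ^ (k - v) * w)
        = ((p : ℤ_[p]) ^ v * (p : ℤ_[p]) ^ (k - v)) * ((u : ℤ_[p]) * w) := by ring
      _ = (p : ℤ_[p]) ^ k := by rw [hw, mul_one, ← pow_add]; congr 1; omega
  · exact Dvd.dvd.mul_right (dvd_pow_self _ (by omega)) w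

/-- `P_k = p^k binom(X, k)`. -/
theorem gser_P (p : ℕ) [hp : Fact p.Prime] (k : ℕ) : ∃ P : Polynomial ℤ_[p],
    (∀ s : ℕ, P.eval (s : ℤ_[p]) = (p : ℤ_[p]) ^ k * (s.choose k : ℤ_[p])) ∧
    P.natDegree ≤ k ∧ (1 ≤ k → Polynomial.C (p : ℤ_[p]) ∣ P) := by
  obtain ⟨c, hc, hd⟩ := gser_c p k
  refine ⟨Polynomial.C c * descPochhammer ℤ_[p] k, fun s => ?_, ?_, fun h => ?_⟩
  · have h0 : ((k.factorial : ℕ) : ℤ_[p]) ≠ 0 := Nat.cast_ne_zero.2 (Nat.factorial_ne_zero k)
    apply mul_left_cancel₀ h0
    rw [Polynomial.eval_mul, Polynomial.eval_C, descPochhammer_eval_eq_descFactorial,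
      Nat.descFactorial_eq_factorial_mul_choose]
    push_cast
    linear_combination ((k.factorial : ℤ_[p]) * (s.choose k : ℤ_[p])) * hc
  · refine (Polynomial.natDegree_C_mul_le _ _).trans ?_
    rw [descPochhammer_natDegree]
  · exact Dvd.dvd.mul_right ((Polynomial.C_dvd_iff_dvd_coeff _ _).2 fun i => by
      rw [Polynomial.coeff_C]; split_ifs
      · exact hd h
      · exact dvd_zero _) _

/-- `1 + Y^p = (1 + Y)^p (1 + p Y H)`. -/
theorem gser_H (p : ℕ) [hp : Fact p.Prime] : ∃ H : PowerSeries ℤ_[p],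
    (1 : PowerSeries ℤ_[p]) + PowerSeries.X ^ p =
      (1 + PowerSeries.X) ^ p * (1 + (p : PowerSeries ℤ_[p]) * (PowerSeries.X * H)) := by
  obtain ⟨r, hr⟩ := exists_add_pow_prime_eq hp.out (1 : PowerSeries ℤ_[p]) PowerSeries.X
  have hu : IsUnit ((1 + PowerSeries.X : PowerSeries ℤ_[p]) ^ p) := by
    apply IsUnit.pow
    rw [PowerSeries.isUnit_iff_constantCoeff]
    simp
  obtain ⟨U, hU⟩ := hu.exists_right_inv
  refine ⟨-(r * U), ?_⟩
  rw [one_pow, mul_one] at hr
  linear_combination -hr + (p : PowerSeries ℤ_[p]) * PowerSeries.X * r * hU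

theorem gser_thm : StmtGSER := by
  intro p hp
  obtain ⟨H, hH⟩ := gser_H p
  choose P hPe hPd hPp using gser_P p
  set K : PowerSeries ℤ_[p] := PowerSeries.X * H with hK
  have hK0 : ∀ n k, n < k → PowerSeries.coeff n (K ^ k) = 0 := by
    intro n k hnk
    rw [hK, mul_pow, PowerSeries.coeff_X_pow_mul', if_neg (by omega)]
  have hP0 : P 0 = 1 := by
    have h1 : (P 0).natDegree = 0 := Nat.le_zero.1 (hPd 0)
    have h2 := hPe 0 0
    rw [Polynomial.eq_C_of_natDegree_eq_zero h1] at h2 ⊢
    rw [Polynomial.eval_C] at h2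
    rw [h2]; simp
  refine ⟨PowerSeries.mk fun n => ∑ k ∈ range (n + 1),
    Polynomial.C (PowerSeries.coeff n (K ^ k)) * P k, ?_, ?_, ?_, ?_⟩
  · rw [← PowerSeries.coeff_zero_eq_constantCoeff_apply, PowerSeries.coeff_mk]
    simp [hP0]
  · intro n hn
    rw [PowerSeries.coeff_mk]
    refine Finset.dvd_sum fun k _ => ?_
    rcases Nat.eq_zero_or_pos k with rfl | hk
    · rw [pow_zero, PowerSeries.coeff_one, if_neg (by omega), Polynomial.C_0, zero_mul]
      exact dvd_zero _
    · exact Dvd.dvd.mul_left (hPp k hk) _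
  · intro n
    rw [PowerSeries.coeff_mk]
    refine Polynomial.natDegree_sum_le_of_forall_le _ _ fun k hk => ?_
    refine (Polynomial.natDegree_C_mul_le _ _).trans ((hPd k).trans ?_)
    have := Finset.mem_range.1 hk
    omega
  · intro s
    have h1 : PowerSeries.map (Polynomial.evalRingHom (s : ℤ_[p]))
        (PowerSeries.mk fun n => ∑ k ∈ range (n + 1),
          Polynomial.C (PowerSeries.coeff n (K ^ k)) * P k) =
        (1 + (p : PowerSeries ℤ_[p]) * K) ^ s := by
      ext n
      rw [PowerSeries.coeff_map, PowerSeries.coeff_mk, map_sum]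
      have e1 : (1 + (p : PowerSeries ℤ_[p]) * K) ^ s =
          ∑ k ∈ range (s + 1), PowerSeries.C ((p : ℤ_[p]) ^ k * (s.choose k : ℤ_[p])) * K ^ k := by
        rw [add_comm, add_pow]
        refine Finset.sum_congr rfl fun k _ => ?_
        rw [one_pow, mul_one, mul_pow, map_mul, map_pow, map_natCast, map_natCast]
        ring
      rw [e1, map_sum]
      have e2 : ∀ k, (Polynomial.evalRingHom (s : ℤ_[p]))
          (Polynomial.C (PowerSeries.coeff n (K ^ k)) * P k) =
          PowerSeries.coeff n (PowerSeries.C ((p : ℤ_[p]) ^ k * (s.choose k : ℤ_[p])) * K ^ k) := by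
        intro k
        rw [Polynomial.coe_evalRingHom, Polynomial.eval_mul, Polynomial.eval_C, hPe,
          PowerSeries.coeff_C_mul]
        ring
      simp only [e2]
      -- both sums are over the range `max n s + 1`
      have e3 : ∀ N, n ≤ N → ∑ k ∈ range (n + 1),
          PowerSeries.coeff n (PowerSeries.C ((p : ℤ_[p]) ^ k * (s.choose k : ℤ_[p])) * K ^ k) =
          ∑ k ∈ range (N + 1),
          PowerSeries.coeff n (PowerSeries.C ((p : ℤ_[p]) ^ k * (s.choose k : ℤ_[p])) * K ^ k) := by
        intro N hN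
        refine Finset.sum_subset (Finset.range_mono (by omega)) fun k _ hk => ?_
        rw [PowerSeries.coeff_C_mul, hK0 n k (by
          rw [Finset.mem_range] at hk; omega), mul_zero]
      have e4 : ∀ N, s ≤ N → ∑ k ∈ range (s + 1),
          PowerSeries.coeff n (PowerSeries.C ((p : ℤ_[p]) ^ k * (s.choose k : ℤ_[p])) * K ^ k) =
          ∑ k ∈ range (N + 1),
          PowerSeries.coeff n (PowerSeries.C ((p : ℤ_[p]) ^ k * (s.choose k : ℤ_[p])) * K ^ k) := by
        intro N hN
        refine Finset.sum_subset (Finset.range_mono (by omega)) fun k _ hk => ?_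
        rw [PowerSeries.coeff_C_mul, Nat.choose_eq_zero_of_lt (by
          rw [Finset.mem_range] at hk; omega), Nat.cast_zero, mul_zero, zero_mul]
      rw [e3 (max n s) (le_max_left _ _), e4 (max n s) (le_max_right _ _)]
    rw [h1, hH, mul_pow, ← pow_mul]

end ASur
end

section
set_option linter.all false

namespace ASur

open Finset

/-- A nontrivial additive character of `ZMod p` sends `1` to a primitive `p`-th root of `1`. -/
theorem prim_of_char {p : ℕ} [Fact p.Prime] {K : Type*} [Field K] (ψ : AddChar (ZMod p) K)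
    (hψ : ψ ≠ 1) : IsPrimitiveRoot (ψ 1) p := by
  have h1 : (ψ 1) ^ p = 1 := by
    rw [← AddChar.map_nsmul_eq_pow]
    simp
  have h2 : ψ 1 ≠ 1 := by
    intro h
    apply hψ
    ext x
    have : x = x.val • (1 : ZMod p) := by simp
    rw [this, AddChar.map_nsmul_eq_pow, h]
    simp
  exact IsPrimitiveRoot.iff_orderOf.2 (orderOf_eq_prime h1 h2)

private theorem half_card_succ (a b L m : ℕ) :
    Fintype.card {u : Fin 2 → Fin L // ew a b (pt u) < m + 1} =
      Fintype.card {u : Fin 2 → Fin L // ew a b (pt u) < m} + Fintype.card (Um a b L m) := by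
  simp only [Fintype.card_subtype]
  rw [← Finset.card_union_of_disjoint]
  · congr 1
    ext u
    simp only [Finset.mem_filter, Finset.mem_univ, true_and, Finset.mem_union]
    omega
  · rw [Finset.disjoint_filter]
    intro u _ h1 h2
    omega

theorem weight_pos {a b : ℕ} (ha : 2 ≤ a) (hb : 2 ≤ b) :
    1 ≤ Nat.lcm a b / a ∧ 1 ≤ Nat.lcm a b / b := by
  have hD : 0 < Nat.lcm a b := Nat.lcm_pos (by omega) (by omega)
  constructor
  · exact Nat.div_pos (Nat.le_of_dvd hD (Nat.dvd_lcm_left a b)) (by omega)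
  · exact Nat.div_pos (Nat.le_of_dvd hD (Nat.dvd_lcm_right a b)) (by omega)

theorem ew_pt_pos {a b : ℕ} (ha : 2 ≤ a) (hb : 2 ≤ b) {L : ℕ} (u : Fin 2 → Fin L) :
    1 ≤ ew a b (pt u) := by
  obtain ⟨h1, h2⟩ := weight_pos ha hb
  unfold ew pt
  nlinarith [Nat.zero_le (u 0 : ℕ), Nat.zero_le (u 1 : ℕ)]

theorem half_thm (hEDGES : StmtEDGES) (hROOTS : StmtROOTS) (hZETA : StmtZETA) : StmtHALF := by
  classical
  intro p _ a b ha hb hD C _ _ _ _ hp j hj k _ _ _ f hf hS ψ hψ β hT
  have hDpos : 0 < Nat.lcm a b := Nat.lcm_pos (by omega) (by omega)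
  obtain ⟨ρ, hρ⟩ := IsAlgClosed.exists_pow_nat_eq (ψ 1 - 1) hDpos
  obtain ⟨hz0, hz1, hz2, -⟩ := hZETA p C hp (ψ 1) (prim_of_char ψ hψ)
  have hρ0 : ρ ≠ 0 := by
    rintro rfl
    apply hz0
    rw [← hρ, zero_pow hDpos.ne']
  have hρ1 : ‖ρ‖ < 1 := by
    by_contra h
    push Not at h
    have : 1 ≤ ‖ρ ^ Nat.lcm a b‖ := by
      rw [norm_pow]; exact one_le_pow₀ h
    rw [hρ] at this
    linarith
  have hρpos : 0 < ‖ρ‖ := norm_pos_iff.2 hρ0
  set h := Module.finrank (ZMod p) k with hh
  have hcard : Fintype.card k = p ^ h := by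
    have := Module.card_eq_pow_finrank (K := ZMod p) (V := k)
    rwa [ZMod.card] at this
  have hhpos : 1 ≤ h := Module.finrank_pos
  have hp2 : 2 ≤ p := (Fact.out : p.Prime).two_le
  set D := Nat.lcm a b with hDdef
  have hq : ‖ρ ^ ((p - 1) * D * h)‖ = ‖(Fintype.card k : C)‖ := by
    rw [hcard]
    push_cast
    rw [norm_pow, norm_pow, show (p - 1) * D * h = D * ((p - 1) * h) by ring, pow_mul,
      ← norm_pow, hρ, pow_mul, hz2]
  -- edges
  have key : ∀ m, 1 ≤ m → m ≤ D →
      Multiset.card (β.filter fun x => ‖ρ ^ ((p - 1) * m * h)‖ < ‖x‖) =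
        Fintype.card {u : Fin 2 → Fin D // ew a b (pt u) < m} ∧
      Multiset.card (β.filter fun x => ‖x‖ = ‖ρ ^ ((p - 1) * m * h)‖) =
        Fintype.card (Um a b D m) ∧
      (β.filter fun x => ‖x‖ = ‖ρ ^ ((p - 1) * m * h)‖).Nodup := by
    intro m hm hmD
    obtain ⟨χ, h1, h2, h3, h4⟩ := hEDGES p a b ha hb hD C hp j hj k f hf hS ψ hψ β hT ρ hρ m hm hmD
      (max (Multiset.card β) (Fintype.card {u : Fin 2 → Fin D // ew a b (pt u) < m} +
        Fintype.card (Um a b D m)))
    have := hROOTS C β (ρ ^ ((p - 1) * m * h))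
      (Fintype.card {u : Fin 2 → Fin D // ew a b (pt u) < m}) χ _ (pow_ne_zero _ hρ0) h1 h2
      (le_max_left _ _) (by rw [h3]; exact le_max_right _ _) h4
    rw [h3] at this
    exact this
  have hanti : ∀ m, ‖ρ ^ ((p - 1) * (m + 1) * h)‖ < ‖ρ ^ ((p - 1) * m * h)‖ := by
    intro m
    rw [norm_pow, norm_pow]
    apply pow_lt_pow_right_of_lt_one₀ hρpos hρ1
    have h1 : 0 < (p - 1) * h := by
      apply Nat.mul_pos <;> omega
    nlinarith
  have claim : ∀ m, 1 ≤ m → m ≤ D → ∀ x, ‖ρ ^ ((p - 1) * m * h)‖ ≤ ‖x‖ → β.count x ≤ 1 := by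
    intro m hm
    induction m, hm using Nat.le_induction with
    | base =>
      intro hmD x hx
      obtain ⟨h1, h2, h3⟩ := key 1 le_rfl hmD
      rcases lt_or_eq_of_le hx with hx | hx
      · have h0 : Fintype.card {u : Fin 2 → Fin D // ew a b (pt u) < 1} = 0 := by
          rw [Fintype.card_eq_zero_iff]
          refine ⟨fun u => ?_⟩
          have := ew_pt_pos ha hb u.1
          have := u.2
          omega
        rw [h0, Multiset.card_eq_zero] at h1
        have : x ∉ β := by
          intro hxβ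
          have : x ∈ β.filter fun x => ‖ρ ^ ((p - 1) * 1 * h)‖ < ‖x‖ :=
            Multiset.mem_filter.2 ⟨hxβ, hx⟩
          rw [h1] at this
          simp at this
        rw [Multiset.count_eq_zero_of_notMem this]
        omega
      · have := Multiset.nodup_iff_count_le_one.1 h3 x
        rwa [Multiset.count_filter, if_pos hx.symm] at this
    | succ m hm ih =>
      intro hmD x hx
      obtain ⟨h1, h2, h3⟩ := key (m + 1) (by omega) hmD
      obtain ⟨g1, g2, g3⟩ := key m hm (by omega)
      rcases lt_or_eq_of_le hx with hx | hx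
      · by_cases hx2 : ‖ρ ^ ((p - 1) * m * h)‖ ≤ ‖x‖
        · exact ih (by omega) x hx2
        · push Not at hx2
          have : x ∉ β := by
            intro hxβ
            -- card count
            have e1 : β.filter (fun x => ‖ρ ^ ((p - 1) * m * h)‖ < ‖x‖) +
                β.filter (fun x => ‖x‖ = ‖ρ ^ ((p - 1) * m * h)‖) ≤
                β.filter (fun x => ‖ρ ^ ((p - 1) * (m + 1) * h)‖ < ‖x‖) := by
              rw [Multiset.le_iff_count]
              intro y
              rw [Multiset.count_add]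
              simp only [Multiset.count_filter]
              have hlt := hanti m
              by_cases c1 : ‖ρ ^ ((p - 1) * m * h)‖ < ‖y‖
              · rw [if_pos c1, if_neg (by linarith), if_pos (by linarith)]
                omega
              · by_cases c2 : ‖y‖ = ‖ρ ^ ((p - 1) * m * h)‖
                · rw [if_neg c1, if_pos c2, if_pos (by linarith)]
                  omega
                · rw [if_neg c1, if_neg c2]
                  omega
            have e2 : β.filter (fun x => ‖ρ ^ ((p - 1) * m * h)‖ < ‖x‖) +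
                β.filter (fun x => ‖x‖ = ‖ρ ^ ((p - 1) * m * h)‖) =
                β.filter (fun x => ‖ρ ^ ((p - 1) * (m + 1) * h)‖ < ‖x‖) := by
              apply Multiset.eq_of_le_of_card_le e1
              rw [Multiset.card_add, h1, g1, g2, half_card_succ]
            have e3 : x ∈ β.filter (fun x => ‖ρ ^ ((p - 1) * (m + 1) * h)‖ < ‖x‖) :=
              Multiset.mem_filter.2 ⟨hxβ, hx⟩
            rw [← e2, Multiset.mem_add, Multiset.mem_filter, Multiset.mem_filter] at e3
            rcases e3 with e3 | e3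
            · linarith [e3.2]
            · linarith [e3.2]
          rw [Multiset.count_eq_zero_of_notMem this]
          omega
      · have := Multiset.nodup_iff_count_le_one.1 h3 x
        rwa [Multiset.count_filter, if_pos hx.symm] at this
  obtain ⟨k1, k2, k3⟩ := key D hDpos le_rfl
  rw [hq] at k1 k2
  refine ⟨k1, k2, ?_⟩
  rw [Multiset.nodup_iff_count_le_one]
  intro x
  by_cases hx : ‖(Fintype.card k : C)‖ ≤ ‖x‖
  · rw [Multiset.count_filter, if_pos hx]
    apply claim D hDpos le_rfl
    rwa [hq]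
  · rw [Multiset.count_filter, if_neg hx]
    omega

end ASur
end

section
/-! # Module K2C: algebraic power sums imply algebraic elements; embedding of `ℚ̄` into `C`. -/
set_option linter.all false

namespace ASur

open Finset

private theorem K2C_esymm {F : Type} {K : Type*} [Field F] [Field K] [Algebra F K] [CharZero F]
    [CharZero K] (β : Multiset K)
    (h : ∀ j, 1 ≤ j → IsAlgebraic F (β.map fun x => x ^ j).sum) :
    ∀ k, β.esymm k ∈ algebraicClosure F K := by
  classical
  intro k
  induction k using Nat.strong_induction_on with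
  | _ k ih =>
  have hf : (Finset.univ.val.map (fun i : β => (i : K))) = β := Multiset.map_univ_coe β
  have hes : ∀ n, MvPolynomial.aeval (fun i : β => (i : K)) (MvPolynomial.esymm β F n) =
      β.esymm n := by
    intro n
    rw [MvPolynomial.aeval_esymm_eq_multiset_esymm, hf]
  have hps : ∀ n, MvPolynomial.aeval (fun i : β => (i : K)) (MvPolynomial.psum β F n) =
      (β.map fun x => x ^ n).sum := by
    intro n
    rw [MvPolynomial.psum, map_sum]
    simp only [map_pow, MvPolynomial.aeval_X]
    conv_rhs => rw [← hf, Multiset.map_map]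
    rfl
  rcases Nat.eq_zero_or_pos k with rfl | hk
  · simp only [Multiset.esymm, Multiset.powersetCard_zero_left, Multiset.map_singleton,
      Multiset.prod_zero, Multiset.sum_singleton]
    exact one_mem _
  · have hN := congrArg (MvPolynomial.aeval (fun i : β => (i : K)))
      (MvPolynomial.mul_esymm_eq_sum β F k)
    simp only [map_mul, map_sum, map_pow, map_neg, map_one, map_natCast, hes, hps] at hN
    have hk0 : (k : K) ≠ 0 := by exact_mod_cast hk.ne'
    have : β.esymm k = (k : K)⁻¹ * ((-1) ^ (k + 1) *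
        ∑ a ∈ (antidiagonal k).filter (fun a => a.1 < k), (-1) ^ a.1 * β.esymm a.1 *
          (β.map fun x => x ^ a.2).sum) := by
      rw [← hN, inv_mul_cancel_left₀ hk0]
    rw [this]
    refine mul_mem (inv_mem (natCast_mem _ k)) (mul_mem (pow_mem (neg_mem (one_mem _)) _)
      (sum_mem fun a ha => ?_))
    simp only [Finset.mem_filter, Finset.HasAntidiagonal.mem_antidiagonal] at ha
    refine mul_mem (mul_mem (pow_mem (neg_mem (one_mem _)) _) (ih _ ha.2)) ?_
    exact mem_algebraicClosure_iff.2 (h _ (by omega))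

private theorem K2C_alg {F : Type} {K : Type*} [Field F] [Field K] [Algebra F K] [CharZero F]
    [CharZero K] (β : Multiset K)
    (h : ∀ j, 1 ≤ j → IsAlgebraic F (β.map fun x => x ^ j).sum) :
    ∀ x ∈ β, x ∈ algebraicClosure F K := by
  classical
  intro x hx
  have hes := K2C_esymm β h
  set P : Polynomial K := (β.map fun t => Polynomial.X - Polynomial.C t).prod with hP
  have hmonic : P.Monic := Polynomial.monic_multiset_prod_of_monic _ _
    fun t _ => Polynomial.monic_X_sub_C t
  have hdeg : P.natDegree = Multiset.card β := by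
    rw [hP, Polynomial.natDegree_multiset_prod_X_sub_C_eq_card]
  have hcoe : ∀ n, P.coeff n ∈ algebraicClosure F K := by
    intro n
    rcases le_or_gt n (Multiset.card β) with hn | hn
    · rw [hP, Multiset.prod_X_sub_C_coeff β hn]
      exact mul_mem (pow_mem (neg_mem (one_mem _)) _) (hes _)
    · rw [Polynomial.coeff_eq_zero_of_natDegree_lt (by omega)]
      exact zero_mem _
  have hlift : P ∈ Polynomial.lifts (algebraMap (algebraicClosure F K) K) := by
    rw [Polynomial.lifts_iff_coeff_lifts]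
    intro n
    exact ⟨⟨P.coeff n, hcoe n⟩, rfl⟩
  obtain ⟨q, hq⟩ := (Polynomial.mem_lifts P).1 hlift
  have hq0 : q ≠ 0 := by
    rintro rfl
    rw [Polynomial.map_zero] at hq
    exact hmonic.ne_zero hq.symm
  have hroot : Polynomial.eval x P = 0 := by
    rw [hP, Polynomial.eval_multiset_prod]
    apply Multiset.prod_eq_zero
    rw [Multiset.mem_map]
    refine ⟨Polynomial.X - Polynomial.C x, Multiset.mem_map_of_mem _ hx, by simp⟩
  have hx' : IsAlgebraic (algebraicClosure F K) x := by
    refine ⟨q, hq0, ?_⟩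
    rw [Polynomial.aeval_def, ← Polynomial.eval_map, hq, hroot]
  rw [mem_algebraicClosure_iff]
  exact hx'.restrictScalars F

private theorem K2C_emb (F : Type) (K : Type*) [Field F] [Field K] [Algebra F K] (C : Type)
    [Field C] [IsAlgClosed C] [Algebra F C] : Nonempty (algebraicClosure F K →+* C) :=
  ⟨((IsAlgClosed.lift : algebraicClosure F K →ₐ[F] C) : algebraicClosure F K →+* C)⟩

theorem K2C_thm : StmtK2C := by
  intro K _ _ _ C _ _ _ β h
  obtain ⟨g⟩ := K2C_emb ℚ K C
  refine ⟨(algebraicClosure ℚ K).toSubfield, g, ?_, ?_⟩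
  · intro x hx
    exact mem_algebraicClosure_iff.2 hx
  · intro x hx
    exact K2C_alg β h x hx

end ASur
end

section
set_option linter.all false

namespace ASur

open Polynomial in
theorem KAC_thm : StmtKAC := by
  intro C _ _ _
  apply IsAlgClosed.of_exists_root
  intro P hm hirr
  have hsurj : Function.Surjective (IsLocalRing.residue (OO C)) := IsLocalRing.residue_surjective
  have hl : P ∈ Polynomial.lifts (IsLocalRing.residue (OO C)) := by
    rw [Polynomial.mem_lifts]
    exact Polynomial.map_surjective _ hsurj P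
  obtain ⟨Q, hQ, hdeg, hQm⟩ := Polynomial.lifts_and_degree_eq_and_monic hl hm
  have hd : (Q.map (algebraMap (OO C) C)).degree ≠ 0 := by
    rw [hQm.degree_map, hdeg]
    exact (Polynomial.degree_pos_of_irreducible hirr).ne'
  obtain ⟨z, hz⟩ := IsAlgClosed.exists_root (Q.map (algebraMap (OO C) C)) hd
  have hint : IsIntegral (OO C) z := by
    refine ⟨Q, hQm, ?_⟩
    rw [IsRoot.def, eval_map] at hz
    exact hz
  obtain ⟨y, hy⟩ := (IsIntegrallyClosed.isIntegral_iff (R := OO C) (K := C)).1 hint
  refine ⟨IsLocalRing.residue (OO C) y, ?_⟩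
  rw [← hQ]
  rw [IsRoot.def, eval_map, ← hy, eval₂_at_apply] at hz
  have h0 : Q.eval y = 0 := by
    apply (FaithfulSMul.algebraMap_injective (OO C) C)
    rw [hz, map_zero]
  rw [Polynomial.eval_map, Polynomial.eval₂_at_apply, h0, map_zero]

end ASur
end

section
/-!
# MP_b685ef_ag, theorem AS: module LEAD (formula (7))
-/
set_option linter.all false

namespace ASur

open Finset

/-- If `l < p` then `l!` is a nonzero element of `C`. -/
private theorem lead_fact_ne {p : ℕ} [hp : Fact p.Prime] {C : Type} [NormedField C]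
    [IsUltrametricDist C] (h : ‖(p : C)‖ < 1) {l : ℕ} (hl : l < p) :
    ((l.factorial : ℕ) : C) ≠ 0 := by
  intro h0
  have hc : Nat.Coprime p l.factorial := hp.out.coprime_factorial_of_lt hl
  have hi : IsCoprime (p : ℤ) (l.factorial : ℤ) := Nat.isCoprime_iff_coprime.2 hc
  obtain ⟨x, y, hxy⟩ := hi
  have h1 : (x : C) * (p : C) + (y : C) * ((l.factorial : ℕ) : C) = 1 := by
    have := congrArg (fun z : ℤ => (z : C)) hxy
    push_cast at this
    exact this
  rw [h0, mul_zero, add_zero] at h1
  have h2 : ‖(x : C)‖ * ‖(p : C)‖ = 1 := by rw [← norm_mul, h1, norm_one]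
  have h3 : ‖(x : C)‖ ≤ 1 := IsUltrametricDist.norm_intCast_le_one C x
  nlinarith [norm_nonneg (x : C), norm_nonneg (p : C)]

/-- The coefficients of the reduced splitting polynomial. -/
private theorem lead_exr_coeff {C : Type} [NormedField C] [IsUltrametricDist C] (ζ : C)
    (Θ : Polynomial C) (l : ℕ) : (Exr ζ Θ).coeff l = rd (Θ.coeff l / (ζ - 1) ^ l) := by
  unfold Exr
  rw [Polynomial.finset_sum_coeff]
  simp only [Polynomial.coeff_monomial]
  rw [Finset.sum_ite_eq' (range (Θ.natDegree + 1)) l]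
  by_cases h : l ∈ range (Θ.natDegree + 1)
  · rw [if_pos h]
  · rw [if_neg h]
    have : Θ.coeff l = 0 := by
      apply Polynomial.coeff_eq_zero_of_natDegree_lt
      rw [mem_range] at h
      omega
    rw [this, zero_div, rd_zero]

private theorem lead_exr {p : ℕ} [hp : Fact p.Prime] {C : Type} [NormedField C]
    [IsUltrametricDist C] (h : ‖(p : C)‖ < 1) (ζ : C) (ε : ℝ) (Θ : Polynomial C)
    (hs : IsSplit p ζ ε Θ) (h0 : ζ - 1 ≠ 0) (h1 : ‖ζ - 1‖ < 1) (l : ℕ) (hl : l < p) :
    (Exr ζ Θ).coeff l * (l.factorial : KK C) = 1 := by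
  have hf := lead_fact_ne h hl
  have hlam : 0 < ‖ζ - 1‖ := norm_pos_iff.2 h0
  rw [lead_exr_coeff]
  have hb : ‖Θ.coeff l / (ζ - 1) ^ l‖ ≤ 1 := by
    rw [norm_div, norm_pow]
    exact div_le_one_of_le₀ (hs.bound l) (by positivity)
  have hfn : ‖((l.factorial : ℕ) : C)‖ ≤ 1 := norm_natCast_le _
  have e1 : rd (Θ.coeff l / (ζ - 1) ^ l) * (l.factorial : KK C) =
      rd (Θ.coeff l / (ζ - 1) ^ l * ((l.factorial : ℕ) : C)) := by
    rw [rd_mul hb hfn, rd_natCast]
  have hprod : ‖Θ.coeff l / (ζ - 1) ^ l * ((l.factorial : ℕ) : C)‖ ≤ 1 := by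
    rw [norm_mul]
    exact mul_le_one₀ hb (norm_nonneg _) hfn
  rw [e1, ← rd_one (C := C), rd_eq_iff hprod (by simp)]
  have hsm := hs.small l hl
  have e2 : Θ.coeff l / (ζ - 1) ^ l * ((l.factorial : ℕ) : C) - 1 =
      (Θ.coeff l - (ζ - 1) ^ l / ((l.factorial : ℕ) : C)) *
        (((l.factorial : ℕ) : C) / (ζ - 1) ^ l) := by
    field_simp
  rw [e2, norm_mul, norm_div, norm_pow]
  calc ‖Θ.coeff l - (ζ - 1) ^ l / ((l.factorial : ℕ) : C)‖ *
        (‖((l.factorial : ℕ) : C)‖ / ‖ζ - 1‖ ^ l)
      ≤ ‖ζ - 1‖ ^ (l + 1) * (1 / ‖ζ - 1‖ ^ l) := by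
        apply mul_le_mul hsm _ (by positivity) (by positivity)
        gcongr
    _ = ‖ζ - 1‖ := by
        rw [pow_succ]; field_simp
    _ < 1 := h1

/-- Frobenius twist as a ring homomorphism. -/
private theorem lead_gk_eq {p : ℕ} [hp : Fact p.Prime] (a b : ℕ) {C : Type} [NormedField C]
    [IsUltrametricDist C] [CharP (KK C) p] {k : Type} [Field k] (ι : k →+* KK C)
    (f : MvPolynomial (Fin 2) k) (i : ℕ) :
    gk p a b ι f i = MvPolynomial.map ((iterateFrobenius (KK C) p i).comp ι) (lead a b f) := by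
  classical
  ext n
  unfold gk
  rw [MvPolynomial.coeff_sum, MvPolynomial.coeff_map]
  simp only [MvPolynomial.coeff_monomial]
  rw [Finset.sum_ite_eq' (lead a b f).support n]
  have e : ((iterateFrobenius (KK C) p i).comp ι) (MvPolynomial.coeff n (lead a b f)) =
      ι (MvPolynomial.coeff n (lead a b f)) ^ p ^ i := by
    rw [RingHom.comp_apply, iterateFrobenius_def]
  rw [e]
  by_cases hn : n ∈ (lead a b f).support
  · rw [if_pos hn]
  · rw [if_neg hn]
    rw [MvPolynomial.notMem_support_iff] at hn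
    rw [hn, map_zero, zero_pow]
    exact (pow_pos hp.out.pos i).ne'

private theorem lead_weight (a b : ℕ) (m : Fin 2 →₀ ℕ) :
    Finsupp.weight ![Nat.lcm a b / a, Nat.lcm a b / b] m = ew a b m := by
  rw [Finsupp.weight_apply, Finsupp.sum_fintype _ _ (by simp)]
  simp [ew, Fin.sum_univ_two, mul_comm]

private theorem lead_supp (a b : ℕ) {k : Type} [Field k] (f : MvPolynomial (Fin 2) k)
    (m : Fin 2 →₀ ℕ) (hm : m ∈ (lead a b f).support) : ew a b m = Nat.lcm a b := by
  classical
  rw [MvPolynomial.mem_support_iff] at hm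
  unfold lead at hm
  rw [MvPolynomial.coeff_weightedHomogeneousComponent] at hm
  by_contra hne
  apply hm
  rw [if_neg]
  rw [lead_weight]
  exact hne

/-- **LEAD.** -/
theorem lead_thm (h1 : StmtLEADC) (h2 : StmtLEADK) : StmtLEAD := by
  intro p hp a b ha hb hD C _ _ hpC ζ ρ ε Θ hs hρ hρ0 hρ1 k _ ι τ hι f hf i L u v hu hv
  classical
  haveI : CharP (KK C) p := charP_KK hpC
  set D := Nat.lcm a b with hDdef
  have hDpos : 0 < D := Nat.pos_of_ne_zero (Nat.lcm_ne_zero (by omega) (by omega))
  have hp2 : 2 ≤ p := hp.out.two_le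
  obtain ⟨c, hc⟩ := hD
  have hcdiv : (p - 1) / D = c := by rw [hc]; exact Nat.mul_div_cancel_left c hDpos
  have hpc : p = D * c + 1 := by omega
  -- `λ = ζ - 1`
  have hlam0 : ζ - 1 ≠ 0 := by rw [← hρ]; exact pow_ne_zero _ hρ0
  have hlam1 : ‖ζ - 1‖ < 1 := by
    rw [← hρ, norm_pow]; exact pow_lt_one₀ (norm_nonneg _) hρ1 hDpos.ne'
  -- weights
  have hDa : 1 ≤ D / a := by
    rw [Nat.one_le_div_iff (by omega)]
    exact Nat.le_of_dvd hDpos (Nat.dvd_lcm_left a b)
  have hDb : 1 ≤ D / b := by
    rw [Nat.one_le_div_iff (by omega)]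
    exact Nat.le_of_dvd hDpos (Nat.dvd_lcm_right a b)
  have hewdef : ∀ w : Fin 2 → ℕ, ew a b w = (D / a) * w 0 + (D / b) * w 1 := fun w => rfl
  have hpu : ∀ s, 1 ≤ pt u s := fun s => by simp [pt]
  have hpv : ∀ s, 1 ≤ pt v s := fun s => by simp [pt]
  have hle : ∀ s, pt v s ≤ p * pt u s := by
    intro s
    have h3 : pt v s ≤ ew a b (pt v) := by
      rw [hewdef]
      fin_cases s
      · show pt v 0 ≤ _
        calc pt v 0 = 1 * pt v 0 + 0 := by ring
          _ ≤ D / a * pt v 0 + D / b * pt v 1 :=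
            Nat.add_le_add (Nat.mul_le_mul_right _ hDa) (Nat.zero_le _)
      · show pt v 1 ≤ _
        calc pt v 1 = 0 + 1 * pt v 1 := by ring
          _ ≤ D / a * pt v 0 + D / b * pt v 1 :=
            Nat.add_le_add (Nat.zero_le _) (Nat.mul_le_mul_right _ hDb)
    have h4 : D ≤ p * 1 := by
      have : 1 ≤ c := by
        rcases Nat.eq_zero_or_pos c with h0 | h0
        · rw [h0, mul_zero] at hpc; omega
        · exact h0
      nlinarith
    exact (h3.trans (hv.trans h4)).trans (Nat.mul_le_mul_left p (hpu s))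
  set w : Fin 2 → ℕ := fun s => p * pt u s - pt v s with hw
  have hww : ew a b w + ew a b (pt v) = p * ew a b (pt u) := by
    rw [hewdef, hewdef, hewdef]
    have e0 : w 0 + pt v 0 = p * pt u 0 := by rw [hw]; exact Nat.sub_add_cancel (hle 0)
    have e1 : w 1 + pt v 1 = p * pt u 1 := by rw [hw]; exact Nat.sub_add_cancel (hle 1)
    calc D / a * w 0 + D / b * w 1 + (D / a * pt v 0 + D / b * pt v 1)
        = D / a * (w 0 + pt v 0) + D / b * (w 1 + pt v 1) := by ring
      _ = p * (D / a * pt u 0 + D / b * pt u 1) := by rw [e0, e1]; ring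
  have hupos : 1 ≤ ew a b (pt u) := by
    rw [hewdef]
    nlinarith [hpu 0, hpu 1]
  have hvpos : 1 ≤ ew a b (pt v) := by
    rw [hewdef]
    nlinarith [hpv 0, hpv 1]
  have hC : Cmat p a b L ρ (Fpol p τ Θ f i) u v = cf (Fpol p τ Θ f i) w / ρ ^ ew a b w := by
    unfold Cmat
    rw [Matrix.of_apply, if_pos hle]
  have hg : ∀ m ∈ (gk p a b ι f i).support, ew a b m = Nat.lcm a b := by
    intro m hm
    rw [lead_gk_eq] at hm
    exact lead_supp a b f m (MvPolynomial.support_map_subset _ _ hm)
  have hE : ∀ l, l < p → (Exr ζ Θ).coeff l * (l.factorial : KK C) = 1 :=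
    fun l hl => lead_exr hpC ζ ε Θ hs hlam0 hlam1 l hl
  have hLC := h1 p a b ha hb C ζ ρ ε Θ hs hρ hρ0 hρ1 k ι τ hι f hf i w
  have hLK := h2 (KK C) p (Exr ζ Θ) hE a b ha hb (gk p a b ι f i) hg w
  rw [hC, hLC]
  refine ⟨fun hne => ?_, fun m hum hvm => ?_⟩
  · apply hLK.1
    rintro ⟨t, ht⟩
    apply hne
    rw [← hDdef] at ht
    rw [ht] at hww
    -- D t + e(v) = (D c + 1) e(u)
    have h5 : D * t + ew a b (pt v) = D * (c * ew a b (pt u)) + ew a b (pt u) := by
      rw [hww, hpc]; ring
    have h6 : ew a b (pt v) ≡ ew a b (pt u) [MOD D] := by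
      have h7 : D * t + ew a b (pt v) ≡ D * (c * ew a b (pt u)) + ew a b (pt u) [MOD D] := by
        rw [h5]
      unfold Nat.ModEq at h7 ⊢
      rwa [Nat.mul_add_mod, Nat.mul_add_mod] at h7
    rcases lt_trichotomy (ew a b (pt u)) (ew a b (pt v)) with hlt | heq | hgt
    · have h8 : D ∣ ew a b (pt v) - ew a b (pt u) := (Nat.modEq_iff_dvd' hlt.le).1 h6.symm
      have := Nat.le_of_dvd (by omega) h8
      omega
    · exact heq
    · have h8 : D ∣ ew a b (pt u) - ew a b (pt v) := (Nat.modEq_iff_dvd' hgt.le).1 h6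
      have := Nat.le_of_dvd (by omega) h8
      omega
  · have hm1 : m ≤ D := by rw [← hum]; exact hu
    have hl : c * m < p := by
      rw [hpc, mul_comm D c]
      exact Nat.lt_succ_of_le (Nat.mul_le_mul_left c hm1)
    have hwD : ew a b w = Nat.lcm a b * (c * m) := by
      rw [hum, hvm] at hww
      rw [← hDdef]
      have : ew a b w + m = D * (c * m) + m := by rw [hww, hpc]; ring
      omega
    have h9 := hLK.2 (c * m) hl hwD
    rw [hcdiv, h9, lead_gk_eq, ← map_pow]
    unfold cf
    rw [MvPolynomial.coeff_map, RingHom.comp_apply, iterateFrobenius_def]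

end ASur
end

section
/-!
# MP_b685ef_ag, theorem AS, module WGT (and the relation used in LEADC)

`Rel a b ρ F G`: all coefficients of `F`, divided by `ρ ^ e(d)`, are integral, with reductions the
coefficients of `G`. The relation is compatible with sums and products.
-/
set_option linter.all false

namespace ASur

open Finset

namespace WGTM

theorem ew_add (a b : ℕ) (x y : Fin 2 →₀ ℕ) : ew a b (x + y) = ew a b x + ew a b y := by
  unfold ew
  simp only [Pi.add_apply]
  ring

theorem ew_coe_add (a b : ℕ) (x y : Fin 2 →₀ ℕ) :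
    ew a b ((x + y : Fin 2 →₀ ℕ)) = ew a b x + ew a b y := by
  unfold ew
  simp only [Finsupp.add_apply]
  ring

theorem ew_smul (a b l : ℕ) (x : Fin 2 →₀ ℕ) :
    ew a b ((l • x : Fin 2 →₀ ℕ)) = l * ew a b x := by
  unfold ew
  simp only [Finsupp.smul_apply, smul_eq_mul]
  ring

theorem ew_zero (a b : ℕ) : ew a b ((0 : Fin 2 →₀ ℕ)) = 0 := by
  unfold ew
  simp

variable {C : Type} [NormedField C] [IsUltrametricDist C]

/-- The scaled coefficients of `F` are integral and reduce to the coefficients of `G`. -/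
def Rel (a b : ℕ) (ρ : C) (F : MvPolynomial (Fin 2) C) (G : MvPolynomial (Fin 2) (KK C)) : Prop :=
  ∀ d : Fin 2 →₀ ℕ, ‖F.coeff d / ρ ^ ew a b d‖ ≤ 1 ∧
    rd (F.coeff d / ρ ^ ew a b d) = G.coeff d

theorem Rel.mul {a b : ℕ} {ρ : C} {F F' : MvPolynomial (Fin 2) C}
    {G G' : MvPolynomial (Fin 2) (KK C)} (h : Rel a b ρ F G) (h' : Rel a b ρ F' G') :
    Rel a b ρ (F * F') (G * G') := by
  classical
  intro d
  have e : (F * F').coeff d / ρ ^ ew a b d = ∑ x ∈ antidiagonal d,
      (F.coeff x.1 / ρ ^ ew a b x.1) * (F'.coeff x.2 / ρ ^ ew a b x.2) := by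
    rw [MvPolynomial.coeff_mul, Finset.sum_div]
    refine Finset.sum_congr rfl fun x hx => ?_
    have hx' := mem_antidiagonal.1 hx
    have e1 : ew a b d = ew a b x.1 + ew a b x.2 := by
      rw [← hx']
      exact ew_coe_add a b x.1 x.2
    rw [e1, pow_add, div_mul_div_comm]
  have hn : ∀ x ∈ antidiagonal d, ‖(F.coeff x.1 / ρ ^ ew a b x.1) *
      (F'.coeff x.2 / ρ ^ ew a b x.2)‖ ≤ 1 := by
    intro x _
    rw [norm_mul]
    exact mul_le_one₀ (h x.1).1 (norm_nonneg _) (h' x.2).1
  rw [e]
  refine ⟨norm_sum_le_one _ hn, ?_⟩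
  rw [rd_sum _ hn, MvPolynomial.coeff_mul]
  refine Finset.sum_congr rfl fun x _ => ?_
  rw [rd_mul (h x.1).1 (h' x.2).1, (h x.1).2, (h' x.2).2]

theorem Rel.add {a b : ℕ} {ρ : C} {F F' : MvPolynomial (Fin 2) C}
    {G G' : MvPolynomial (Fin 2) (KK C)} (h : Rel a b ρ F G) (h' : Rel a b ρ F' G') :
    Rel a b ρ (F + F') (G + G') := by
  intro d
  rw [MvPolynomial.coeff_add, MvPolynomial.coeff_add, add_div]
  refine ⟨(IsUltrametricDist.norm_add_le_max _ _).trans (max_le (h d).1 (h' d).1), ?_⟩
  rw [rd_add (h d).1 (h' d).1, (h d).2, (h' d).2]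

theorem Rel.zero (a b : ℕ) (ρ : C) : Rel a b ρ 0 0 := by
  intro d
  simp

theorem Rel.mono {a b : ℕ} {ρ : C} (d0 : Fin 2 →₀ ℕ) (x : C)
    (hx : ‖x / ρ ^ ew a b d0‖ ≤ 1) :
    Rel a b ρ (MvPolynomial.monomial d0 x)
      (MvPolynomial.monomial d0 (rd (x / ρ ^ ew a b d0))) := by
  classical
  intro d
  rw [MvPolynomial.coeff_monomial, MvPolynomial.coeff_monomial]
  split_ifs with h
  · rw [← h]
    exact ⟨hx, rfl⟩
  · simp

theorem Rel.one (a b : ℕ) (ρ : C) : Rel a b ρ 1 1 := by
  have h := Rel.mono (a := a) (b := b) (ρ := ρ) 0 1 (by rw [ew_zero]; simp)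
  rw [ew_zero, pow_zero, div_one, rd_one] at h
  exact h

theorem Rel.sum {a b : ℕ} {ρ : C} {ι : Type*} (s : Finset ι) {F : ι → MvPolynomial (Fin 2) C}
    {G : ι → MvPolynomial (Fin 2) (KK C)} (h : ∀ i ∈ s, Rel a b ρ (F i) (G i)) :
    Rel a b ρ (∑ i ∈ s, F i) (∑ i ∈ s, G i) := by
  classical
  induction s using Finset.induction_on with
  | empty => simpa using Rel.zero a b ρ
  | insert x s hx ih =>
    rw [Finset.sum_insert hx, Finset.sum_insert hx]
    exact (h x (by simp)).add (ih fun i hi => h i (by simp [hi]))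

theorem Rel.prod {a b : ℕ} {ρ : C} {ι : Type*} (s : Finset ι) {F : ι → MvPolynomial (Fin 2) C}
    {G : ι → MvPolynomial (Fin 2) (KK C)} (h : ∀ i ∈ s, Rel a b ρ (F i) (G i)) :
    Rel a b ρ (∏ i ∈ s, F i) (∏ i ∈ s, G i) := by
  classical
  induction s using Finset.induction_on with
  | empty => simpa using Rel.one a b ρ
  | insert x s hx ih =>
    rw [Finset.prod_insert hx, Finset.prod_insert hx]
    exact (h x (by simp)).mul (ih fun i hi => h i (by simp [hi]))

/-- A factor `Θ(c x^m)` is the sum of its monomials. -/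
theorem aeval_mono {R : Type} [Field R] (P : Polynomial R) (m : Fin 2 →₀ ℕ) (c : R) :
    Polynomial.aeval (MvPolynomial.monomial m c) P =
      ∑ l ∈ range (P.natDegree + 1), MvPolynomial.monomial (l • m) (P.coeff l * c ^ l) := by
  rw [Polynomial.aeval_eq_sum_range]
  refine Finset.sum_congr rfl fun l _ => ?_
  rw [MvPolynomial.monomial_pow, MvPolynomial.smul_monomial, smul_eq_mul]

theorem term_norm {D e l : ℕ} {ρ c θ lam : C} (hρ : ρ ≠ 0) (hρ1 : ‖ρ‖ < 1)
    (hlam : ρ ^ D = lam) (hθ : ‖θ‖ ≤ ‖lam‖ ^ l) (hc : ‖c‖ ≤ 1) (he : e ≤ D) :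
    ‖θ * c ^ l / ρ ^ (l * e)‖ ≤ ‖ρ‖ ^ (l * (D - e)) := by
  have hρ0 : 0 < ‖ρ‖ := norm_pos_iff.2 hρ
  have e0 : ‖θ * c ^ l / ρ ^ (l * e)‖ = ‖θ‖ * ‖c‖ ^ l / ‖ρ‖ ^ (l * e) := by
    rw [norm_div, norm_mul, norm_pow, norm_pow]
  have e1 : l * (D - e) + l * e = D * l := by
    rw [← Nat.mul_add, Nat.sub_add_cancel he, Nat.mul_comm]
  rw [e0, div_le_iff₀ (pow_pos hρ0 _), ← pow_add, e1, pow_mul, ← norm_pow ρ D, hlam]
  calc ‖θ‖ * ‖c‖ ^ l ≤ ‖lam‖ ^ l * 1 :=
        mul_le_mul hθ (pow_le_one₀ (norm_nonneg _) hc) (by positivity) (by positivity)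
    _ = ‖lam‖ ^ l := mul_one _

/-- The relation for one factor, general form. -/
theorem factor {a b : ℕ} {ρ ζ : C} {p : ℕ} {ε : ℝ} {Θ : Polynomial C} (hΘ : IsSplit p ζ ε Θ)
    (hρ : ρ ≠ 0) (hρ1 : ‖ρ‖ < 1) (hlam : ρ ^ Nat.lcm a b = ζ - 1) (m : Fin 2 →₀ ℕ) (c : C)
    (hc : ‖c‖ ≤ 1) (he : ew a b m ≤ Nat.lcm a b) :
    Rel a b ρ (Polynomial.aeval (MvPolynomial.monomial m c) Θ)
      (∑ l ∈ range (Θ.natDegree + 1), MvPolynomial.monomial (l • m)
        (rd (Θ.coeff l * c ^ l / ρ ^ (l * ew a b m)))) := by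
  rw [aeval_mono]
  refine Rel.sum _ fun l _ => ?_
  have h := Rel.mono (a := a) (b := b) (ρ := ρ) (l • m) (Θ.coeff l * c ^ l) (by
    rw [ew_smul]
    refine (term_norm hρ hρ1 hlam (hΘ.bound l) hc he).trans ?_
    exact pow_le_one₀ (norm_nonneg _) hρ1.le)
  rw [ew_smul] at h
  exact h

/-- The reduced factor is `1` if `e(m) < D`. -/
theorem factor_lt {a b : ℕ} {ρ ζ : C} {p : ℕ} {ε : ℝ} {Θ : Polynomial C} (hΘ : IsSplit p ζ ε Θ)
    (hρ : ρ ≠ 0) (hρ1 : ‖ρ‖ < 1) (hlam : ρ ^ Nat.lcm a b = ζ - 1) (m : Fin 2 →₀ ℕ) (c : C)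
    (hc : ‖c‖ ≤ 1) (he : ew a b m < Nat.lcm a b) :
    ∑ l ∈ range (Θ.natDegree + 1), MvPolynomial.monomial (l • m)
        (rd (Θ.coeff l * c ^ l / ρ ^ (l * ew a b m))) = (1 : MvPolynomial (Fin 2) (KK C)) := by
  rw [Finset.sum_eq_single 0]
  · rw [zero_smul, Nat.zero_mul, pow_zero, pow_zero, div_one, mul_one, hΘ.zero, rd_one]
    rfl
  · intro l _ hl
    rw [rd_of_lt, map_zero]
    refine (term_norm hρ hρ1 hlam (hΘ.bound l) hc he.le).trans_lt ?_
    exact pow_lt_one₀ (norm_nonneg _) hρ1
      (Nat.mul_ne_zero hl (Nat.sub_ne_zero_of_lt he))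
  · intro h
    exact absurd (Finset.mem_range.2 (Nat.succ_pos _)) h

theorem weight_ew (a b : ℕ) (d : Fin 2 →₀ ℕ) :
    Finsupp.weight ![Nat.lcm a b / a, Nat.lcm a b / b] d = ew a b d := by
  rw [Finsupp.weight_apply, Finsupp.sum_fintype _ _ (fun i => by simp)]
  simp only [Fin.sum_univ_two, Matrix.cons_val_zero, Matrix.cons_val_one, smul_eq_mul]
  unfold ew
  ring

theorem norm_le_of_rel {a b : ℕ} {ρ : C} (hρ : ρ ≠ 0) {F : MvPolynomial (Fin 2) C}
    {G : MvPolynomial (Fin 2) (KK C)} (h : Rel a b ρ F G) (d : Fin 2 →₀ ℕ) :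
    ‖F.coeff d‖ ≤ ‖ρ‖ ^ ew a b d := by
  have h1 := (h d).1
  have hρ0 : 0 < ‖ρ‖ := norm_pos_iff.2 hρ
  rw [norm_div, norm_pow, div_le_iff₀ (pow_pos hρ0 _), one_mul] at h1
  exact h1

end WGTM

open WGTM

theorem WGT_thm : StmtWGT := by
  intro p _ a b ha hb C _ _ ζ ρ ε Θ hΘ hlam hρ hρ1 k _ ι τ hτ f hf i w
  have h := Rel.prod f.support (a := a) (b := b) (ρ := ρ) fun m hm =>
    factor hΘ hρ hρ1 hlam m (τ (f.coeff m) ^ (p ^ i)) (by
      rw [norm_pow]
      exact pow_le_one₀ (norm_nonneg _) (hτ.norm_le _)) (hf m hm)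
  have h2 := norm_le_of_rel hρ h (Finsupp.equivFunOnFinite.symm w)
  have e : ew a b (Finsupp.equivFunOnFinite.symm w) = ew a b w := rfl
  rw [e] at h2
  exact h2

end ASur
end

section
/-!
# MP_b685ef_ag, theorem AS, module LEADC: the reduction of the scaled `F_i`
-/
set_option linter.all false

namespace ASur

open Finset

namespace LEADCM

open WGTM

variable {C : Type} [NormedField C] [IsUltrametricDist C]

/-- The reduced factor of a monomial of weight `D`. -/
theorem factor_eq {a b : ℕ} {ρ ζ : C} {p : ℕ} {ε : ℝ} {Θ : Polynomial C} (hΘ : IsSplit p ζ ε Θ)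
    (hρ : ρ ≠ 0) (hlam : ρ ^ Nat.lcm a b = ζ - 1) (m : Fin 2 →₀ ℕ) (c : C)
    (hc : ‖c‖ ≤ 1) (he : ew a b m = Nat.lcm a b) :
    ∑ l ∈ range (Θ.natDegree + 1), MvPolynomial.monomial (l • m)
        (rd (Θ.coeff l * c ^ l / ρ ^ (l * ew a b m))) =
      Polynomial.aeval (MvPolynomial.monomial m (rd c)) (Exr ζ Θ) := by
  unfold Exr
  rw [map_sum]
  refine Finset.sum_congr rfl fun l _ => ?_
  have hlam0 : ζ - 1 ≠ 0 := by rw [← hlam]; exact pow_ne_zero _ hρ
  have hlp : 0 < ‖ζ - 1‖ := norm_pos_iff.2 hlam0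
  have e1 : ρ ^ (l * ew a b m) = (ζ - 1) ^ l := by
    rw [he, Nat.mul_comm, pow_mul, hlam]
  have e2 : Θ.coeff l * c ^ l / ρ ^ (l * ew a b m) = (Θ.coeff l / (ζ - 1) ^ l) * c ^ l := by
    rw [e1]
    ring
  have hn : ‖Θ.coeff l / (ζ - 1) ^ l‖ ≤ 1 := by
    rw [norm_div, norm_pow, div_le_one (pow_pos hlp _)]
    exact hΘ.bound l
  rw [e2, rd_mul hn (by rw [norm_pow]; exact pow_le_one₀ (norm_nonneg _) hc), rd_pow hc,
    Polynomial.aeval_monomial, MvPolynomial.monomial_pow, MvPolynomial.algebraMap_eq,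
    MvPolynomial.C_mul_monomial]

theorem lead_coeff (a b : ℕ) {k : Type} [Field k] (f : MvPolynomial (Fin 2) k)
    (m : Fin 2 →₀ ℕ) : (lead a b f).coeff m =
      if ew a b m = Nat.lcm a b then f.coeff m else 0 := by
  classical
  unfold lead
  rw [MvPolynomial.coeff_weightedHomogeneousComponent, weight_ew]

theorem gk_coeff (p a b : ℕ) {k : Type} [Field k] (ι : k →+* KK C)
    (f : MvPolynomial (Fin 2) k) (i : ℕ) (hp : p ≠ 0) (m : Fin 2 →₀ ℕ) :
    (gk p a b ι f i).coeff m = if ew a b m = Nat.lcm a b then ι (f.coeff m) ^ (p ^ i) else 0 := by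
  classical
  unfold gk
  rw [MvPolynomial.coeff_sum]
  simp only [MvPolynomial.coeff_monomial]
  rw [Finset.sum_ite_eq' (lead a b f).support m
    (fun x => ι ((lead a b f).coeff x) ^ (p ^ i))]
  have hpi : p ^ i ≠ 0 := pow_ne_zero _ hp
  by_cases h : ew a b m = Nat.lcm a b
  · rw [if_pos h, lead_coeff, if_pos h]
    split_ifs with h2
    · rfl
    · rw [MvPolynomial.notMem_support_iff, lead_coeff, if_pos h] at h2
      rw [h2, map_zero, zero_pow hpi]
  · rw [if_neg h, lead_coeff, if_neg h, map_zero, zero_pow hpi, ite_self]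

theorem gk_support (p a b : ℕ) {k : Type} [Field k] (ι : k →+* KK C)
    (f : MvPolynomial (Fin 2) k) (i : ℕ) (hp : p ≠ 0) :
    (gk p a b ι f i).support =
      f.support.filter fun m : Fin 2 →₀ ℕ => ew a b m = Nat.lcm a b := by
  classical
  ext m
  rw [MvPolynomial.mem_support_iff, gk_coeff p a b ι f i hp, Finset.mem_filter,
    MvPolynomial.mem_support_iff]
  split_ifs with h
  · simp only [h, and_true]
    rw [not_iff_not]
    constructor
    · intro h1
      exact (map_eq_zero ι).1 (pow_eq_zero_iff (pow_ne_zero _ hp) |>.1 h1)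
    · intro h1
      rw [h1, map_zero, zero_pow (pow_ne_zero _ hp)]
  · simp [h]

end LEADCM

open WGTM LEADCM

theorem LEADC_thm : StmtLEADC := by
  classical
  intro p hp a b ha hb C _ _ ζ ρ ε Θ hΘ hlam hρ hρ1 k _ ι τ hτ f hf i w
  have hp0 : p ≠ 0 := hp.out.ne_zero
  have hc : ∀ m, ‖τ (f.coeff m) ^ (p ^ i)‖ ≤ 1 := by
    intro m
    rw [norm_pow]
    exact pow_le_one₀ (norm_nonneg _) (hτ.norm_le _)
  have h := Rel.prod f.support (a := a) (b := b) (ρ := ρ) fun m hm =>
    factor hΘ hρ hρ1 hlam m (τ (f.coeff m) ^ (p ^ i)) (hc m) (hf m hm)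
  have h2 := (h (Finsupp.equivFunOnFinite.symm w)).2
  have e : ew a b (Finsupp.equivFunOnFinite.symm w) = ew a b w := rfl
  rw [e] at h2
  have h3 : ∏ m ∈ f.support, ∑ l ∈ range (Θ.natDegree + 1), MvPolynomial.monomial (l • m)
        (rd (Θ.coeff l * (τ (f.coeff m) ^ (p ^ i)) ^ l / ρ ^ (l * ew a b m))) =
      ∏ m ∈ (gk p a b ι f i).support, Polynomial.aeval
        (MvPolynomial.monomial m ((gk p a b ι f i).coeff m)) (Exr ζ Θ) := by
    rw [gk_support p a b ι f i hp0, Finset.prod_filter]
    refine Finset.prod_congr rfl fun m hm => ?_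
    split_ifs with h4
    · rw [factor_eq hΘ hρ hlam m _ (hc m) h4, gk_coeff p a b ι f i hp0, if_pos h4,
        rd_pow (hτ.norm_le _), hτ.rd_eq]
    · exact factor_lt hΘ hρ hρ1 hlam m _ (hc m) (lt_of_le_of_ne (hf m hm) h4)
  rw [← h3]
  exact h2

end ASur
end

section
/-!
# MP_b685ef_ag, theorem AS, module LEADK: truncated exponentials over the residue field
-/
set_option linter.all false

namespace ASur

open Finset

/-- `E(T y)` -/
private noncomputable def ET {κ : Type} [Field κ] (Ex : Polynomial κ) (y : MvPolynomial (Fin 2) κ) :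
    Polynomial (MvPolynomial (Fin 2) κ) :=
  Polynomial.aeval (Polynomial.C y * Polynomial.X) Ex

private theorem ET_coeff {κ : Type} [Field κ] (Ex : Polynomial κ) (y : MvPolynomial (Fin 2) κ)
    (l : ℕ) : (ET Ex y).coeff l = Ex.coeff l • y ^ l := by
  unfold ET
  rw [Polynomial.aeval_eq_sum_range, Polynomial.finset_sum_coeff]
  have h : ∀ i, (Ex.coeff i • (Polynomial.C y * Polynomial.X) ^ i).coeff l =
      if l = i then Ex.coeff i • y ^ i else 0 := by
    intro i
    rw [mul_pow, ← Polynomial.C_pow, Polynomial.coeff_smul, Polynomial.coeff_C_mul,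
      Polynomial.coeff_X_pow]
    split_ifs
    · rw [mul_one]
    · rw [mul_zero, smul_zero]
  rw [Finset.sum_congr rfl fun i _ => h i, Finset.sum_ite_eq]
  split_ifs with h1
  · rfl
  · rw [Polynomial.coeff_eq_zero_of_natDegree_lt (by
      rw [mem_range] at h1
      omega), zero_smul]

private theorem ET_eval {κ : Type} [Field κ] (Ex : Polynomial κ) (y : MvPolynomial (Fin 2) κ) :
    (ET Ex y).eval 1 = Polynomial.aeval y Ex := by
  unfold ET
  rw [Polynomial.aeval_eq_sum_range, Polynomial.aeval_eq_sum_range, Polynomial.eval_finset_sum]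
  refine Finset.sum_congr rfl fun i _ => ?_
  rw [Polynomial.eval_smul, Polynomial.eval_pow, Polynomial.eval_mul, Polynomial.eval_C,
    Polynomial.eval_X, mul_one]

private theorem ew_eq (a b : ℕ) (w : Fin 2 →₀ ℕ) :
    Finsupp.weight ![Nat.lcm a b / a, Nat.lcm a b / b] w = ew a b w := by
  rw [Finsupp.weight_apply, Finsupp.sum_fintype w
    (fun i c => c • ![Nat.lcm a b / a, Nat.lcm a b / b] i) (fun i => by simp)]
  rw [Fin.sum_univ_two]
  simp only [smul_eq_mul, Matrix.cons_val_zero, Matrix.cons_val_one, ew]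
  ring

private theorem wh_coeff {κ : Type} [Field κ] (a b : ℕ) {P : MvPolynomial (Fin 2) κ} {n : ℕ}
    (hP : MvPolynomial.IsWeightedHomogeneous ![Nat.lcm a b / a, Nat.lcm a b / b] P n)
    (w : Fin 2 → ℕ) (h : ew a b w ≠ n) : cf P w = 0 := by
  unfold cf
  by_contra hne
  apply h
  have h1 := hP hne
  rw [ew_eq] at h1
  exact h1

theorem leadk_thm : StmtLEADK := by
  intro κ _ p _ _ Ex hEx a b ha hb g hg w
  classical
  have hD : 0 < Nat.lcm a b := Nat.lcm_pos (by omega) (by omega)
  -- both statements on the coefficients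
  have key : ∀ S : Finset (Fin 2 →₀ ℕ), S ⊆ g.support →
      (∀ l, MvPolynomial.IsWeightedHomogeneous ![Nat.lcm a b / a, Nat.lcm a b / b]
        ((∏ m ∈ S, ET Ex (MvPolynomial.monomial m (g.coeff m))).coeff l) (Nat.lcm a b * l)) ∧
      (∀ l, l < p → (∏ m ∈ S, ET Ex (MvPolynomial.monomial m (g.coeff m))).coeff l *
        ((l.factorial : ℕ) : MvPolynomial (Fin 2) κ) =
          (∑ m ∈ S, MvPolynomial.monomial m (g.coeff m)) ^ l) := by
    intro S
    induction S using Finset.induction_on with
    | empty =>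
      intro _
      refine ⟨fun l => ?_, fun l hl => ?_⟩
      · rw [Finset.prod_empty, Polynomial.coeff_one]
        split_ifs with h
        · rw [h, mul_zero]
          exact MvPolynomial.isWeightedHomogeneous_one _ _
        · exact MvPolynomial.isWeightedHomogeneous_zero _ _ _
      · rw [Finset.prod_empty, Finset.sum_empty, Polynomial.coeff_one]
        split_ifs with h
        · subst h
          simp
        · rw [zero_mul, zero_pow h]
    | insert m S hm ih =>
      intro hS
      obtain ⟨ih1, ih2⟩ := ih fun x hx => hS (Finset.mem_insert_of_mem hx)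
      have hmw : ew a b m = Nat.lcm a b := hg m (hS (Finset.mem_insert_self m S))
      have hy : MvPolynomial.IsWeightedHomogeneous ![Nat.lcm a b / a, Nat.lcm a b / b]
          (MvPolynomial.monomial m (g.coeff m)) (Nat.lcm a b) :=
        MvPolynomial.isWeightedHomogeneous_monomial _ _ _ (by rw [ew_eq]; exact hmw)
      rw [Finset.prod_insert hm, Finset.sum_insert hm]
      refine ⟨fun l => ?_, fun l hl => ?_⟩
      · rw [Polynomial.coeff_mul]
        refine MvPolynomial.IsWeightedHomogeneous.sum _ _ _ fun x hx => ?_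
        rw [ET_coeff]
        have hx' := Finset.HasAntidiagonal.mem_antidiagonal.1 hx
        have h1 : MvPolynomial.IsWeightedHomogeneous ![Nat.lcm a b / a, Nat.lcm a b / b]
            (Ex.coeff x.1 • MvPolynomial.monomial m (g.coeff m) ^ x.1) (x.1 * Nat.lcm a b) := by
          have h2 := hy.pow x.1
          rw [smul_eq_mul] at h2
          rw [MvPolynomial.smul_eq_C_mul]
          have h3 := (MvPolynomial.isWeightedHomogeneous_C ![Nat.lcm a b / a, Nat.lcm a b / b]
            (Ex.coeff x.1)).mul h2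
          rwa [zero_add] at h3
        have h2 := h1.mul (ih1 x.2)
        have h3 : x.1 * Nat.lcm a b + Nat.lcm a b * x.2 = Nat.lcm a b * l := by
          rw [← hx']; ring
        rwa [h3] at h2
      · rw [Polynomial.coeff_mul, Finset.sum_mul, (Commute.all _ _).add_pow']
        refine Finset.sum_congr rfl fun x hx => ?_
        have hx' := Finset.HasAntidiagonal.mem_antidiagonal.1 hx
        rw [ET_coeff, ← ih2 x.2 (by omega)]
        have h1 : l.factorial = l.choose x.1 * x.1.factorial * x.2.factorial := by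
          have h0 := Nat.choose_mul_factorial_mul_factorial (show x.1 ≤ l by omega)
          rw [show l - x.1 = x.2 by omega] at h0
          exact h0.symm
        have h2 : Ex.coeff x.1 • MvPolynomial.monomial m (g.coeff m) ^ x.1 *
            ((x.1.factorial : ℕ) : MvPolynomial (Fin 2) κ) =
            MvPolynomial.monomial m (g.coeff m) ^ x.1 := by
          have h3 := hEx x.1 (by omega)
          have h4 : ((x.1.factorial : ℕ) : MvPolynomial (Fin 2) κ) =
              MvPolynomial.C ((x.1.factorial : ℕ) : κ) := (map_natCast MvPolynomial.C _).symm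
          rw [MvPolynomial.smul_eq_C_mul, h4, mul_right_comm, ← MvPolynomial.C_mul, h3,
            MvPolynomial.C_1, one_mul]
        rw [h1, nsmul_eq_mul]
        push_cast
        calc Ex.coeff x.1 • MvPolynomial.monomial m (g.coeff m) ^ x.1 *
              (∏ m ∈ S, ET Ex (MvPolynomial.monomial m (g.coeff m))).coeff x.2 *
              ((l.choose x.1 : MvPolynomial (Fin 2) κ) * (x.1.factorial : MvPolynomial (Fin 2) κ) *
                (x.2.factorial : MvPolynomial (Fin 2) κ))
            = (l.choose x.1 : MvPolynomial (Fin 2) κ) *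
              ((Ex.coeff x.1 • MvPolynomial.monomial m (g.coeff m) ^ x.1 *
                (x.1.factorial : MvPolynomial (Fin 2) κ)) *
              ((∏ m ∈ S, ET Ex (MvPolynomial.monomial m (g.coeff m))).coeff x.2 *
                (x.2.factorial : MvPolynomial (Fin 2) κ))) := by ring
          _ = _ := by rw [h2]
  obtain ⟨k1, k2⟩ := key g.support (Finset.Subset.refl _)
  obtain ⟨Q, hQ⟩ : ∃ Q, Q = ∏ m ∈ g.support, ET Ex (MvPolynomial.monomial m (g.coeff m)) :=
    ⟨_, rfl⟩
  rw [← hQ] at k1 k2
  have hP : ∏ m ∈ g.support, Polynomial.aeval (MvPolynomial.monomial m (g.coeff m)) Ex =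
      ∑ l ∈ range (Q.natDegree + 1), Q.coeff l := by
    have h1 : ∏ m ∈ g.support, Polynomial.aeval (MvPolynomial.monomial m (g.coeff m)) Ex =
        Q.eval 1 := by
      rw [hQ, Polynomial.eval_prod]
      exact Finset.prod_congr rfl fun m _ => (ET_eval _ _).symm
    rw [h1, Polynomial.eval_eq_sum_range]
    simp
  have hcf : ∀ w, cf (∏ m ∈ g.support,
      Polynomial.aeval (MvPolynomial.monomial m (g.coeff m)) Ex) w =
      ∑ l ∈ range (Q.natDegree + 1), cf (Q.coeff l) w := by
    intro w
    rw [hP]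
    unfold cf
    rw [MvPolynomial.coeff_sum]
  refine ⟨fun hw => ?_, fun l hl hw => ?_⟩
  · rw [hcf]
    refine Finset.sum_eq_zero fun l _ => wh_coeff a b (k1 l) w ?_
    intro h
    exact hw ⟨l, h⟩
  · have h1 : cf (∏ m ∈ g.support,
        Polynomial.aeval (MvPolynomial.monomial m (g.coeff m)) Ex) w = cf (Q.coeff l) w := by
      rw [hcf]
      by_cases hlr : l ∈ range (Q.natDegree + 1)
      · rw [Finset.sum_eq_single_of_mem l hlr]
        intro j _ hj
        refine wh_coeff a b (k1 j) w ?_
        rw [hw]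
        intro h
        exact hj (Nat.eq_of_mul_eq_mul_left hD h).symm
      · have h2 : Q.coeff l = 0 := Polynomial.coeff_eq_zero_of_natDegree_lt (by
          rw [mem_range] at hlr
          omega)
        have h3 : cf (0 : MvPolynomial (Fin 2) κ) w = 0 := by
          unfold cf
          rw [MvPolynomial.coeff_zero]
        rw [h2, h3]
        refine Finset.sum_eq_zero fun j hj => wh_coeff a b (k1 j) w ?_
        rw [hw]
        intro h
        rw [Nat.eq_of_mul_eq_mul_left hD h] at hlr
        exact hlr hj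
    rw [h1]
    have h2 := k2 l hl
    have h3 : ∑ m ∈ g.support, MvPolynomial.monomial m (g.coeff m) = g := g.as_sum.symm
    rw [h3] at h2
    rw [← h2]
    unfold cf
    have h4 : ((l.factorial : ℕ) : MvPolynomial (Fin 2) κ) =
        MvPolynomial.C ((l.factorial : ℕ) : κ) := (map_natCast MvPolynomial.C _).symm
    rw [h4, mul_comm (Q.coeff l), MvPolynomial.coeff_C_mul, mul_comm]

end ASur
end

section
/-!
# MP_b685ef_ag, theorem AS, module NRB

Power sums of `∏(1 - βX)` and of `det(1 - XM)`.
-/
set_option linter.all false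

namespace ASur

open Finset Polynomial

/-- Form of `NR` by the derivative: `P(0) = 1`, `P' = - S P`, `S = ∑ s_{i+1} X^i`. -/
theorem nrb_iff {C : Type*} [Field C] (s : ℕ → C) (P : PowerSeries C) :
    NR s P ↔ PowerSeries.constantCoeff P = 1 ∧
      PowerSeries.derivative C P = - (PowerSeries.mk (fun i => s (i + 1)) * P) := by
  unfold NR
  refine and_congr_right fun _ => ?_
  constructor
  · intro h
    ext n
    rw [PowerSeries.coeff_derivative, map_neg, PowerSeries.coeff_mul,
      Finset.Nat.sum_antidiagonal_eq_sum_range_succ_mk]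
    have := h n
    rw [mul_comm] at this
    rw [this]
    simp
  · intro h n
    have h1 := congrArg (PowerSeries.coeff n) h
    rw [PowerSeries.coeff_derivative, map_neg, PowerSeries.coeff_mul,
      Finset.Nat.sum_antidiagonal_eq_sum_range_succ_mk] at h1
    rw [mul_comm, h1]
    simp

/-- Products add the power sums. -/
theorem nrb_mul {C : Type*} [Field C] {s s' : ℕ → C} {P P' : PowerSeries C}
    (h : NR s P) (h' : NR s' P') : NR (fun i => s i + s' i) (P * P') := by
  rw [nrb_iff] at *
  obtain ⟨h0, h1⟩ := h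
  obtain ⟨h0', h1'⟩ := h'
  refine ⟨by simp [h0, h0'], ?_⟩
  rw [Derivation.leibniz, h1, h1']
  have : (PowerSeries.mk fun i => s (i + 1) + s' (i + 1)) =
      PowerSeries.mk (fun i => s (i + 1)) + PowerSeries.mk (fun i => s' (i + 1)) := by
    ext n; simp
  rw [this]
  simp only [smul_eq_mul]
  ring

theorem nrb_lin {C : Type*} [Field C] (x : C) :
    NR (fun i => x ^ i) ((1 - Polynomial.C x * Polynomial.X : Polynomial C) : PowerSeries C) := by
  rw [nrb_iff]
  refine ⟨?_, ?_⟩
  · simp
  · ext n
    rw [PowerSeries.coeff_derivative, map_neg]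
    have e : ((1 - Polynomial.C x * Polynomial.X : Polynomial C) : PowerSeries C) =
        1 - PowerSeries.C x * PowerSeries.X := by
      simp
    rw [e, mul_sub, map_sub, mul_one, ← mul_assoc]
    cases n with
    | zero =>
      simp [PowerSeries.coeff_one, PowerSeries.coeff_X]
    | succ n =>
      rw [PowerSeries.coeff_succ_mul_X, mul_comm (PowerSeries.mk _) (PowerSeries.C x), map_sub,
        PowerSeries.coeff_succ_mul_X,
        PowerSeries.coeff_C_mul, PowerSeries.coeff_mk, PowerSeries.coeff_mk]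
      simp [PowerSeries.coeff_one, PowerSeries.coeff_X, PowerSeries.coeff_C]
      ring

theorem nrb_revP {C : Type*} [Field C] (β : Multiset C) :
    NR (fun i => (β.map fun x => x ^ i).sum) (revP β : PowerSeries C) := by
  induction β using Multiset.induction_on with
  | empty =>
    rw [nrb_iff]
    refine ⟨by simp [revP], ?_⟩
    ext n
    rw [PowerSeries.coeff_derivative]
    have e0 : (PowerSeries.mk fun i => (Multiset.map (fun x : C => x ^ (i + 1)) 0).sum) = 0 := by
      ext i
      simp
    rw [e0]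
    simp [revP, PowerSeries.coeff_one]
  | cons a β ih =>
    have h := nrb_mul (nrb_lin a) ih
    have e : (revP (a ::ₘ β) : PowerSeries C) =
        ((1 - Polynomial.C a * Polynomial.X : Polynomial C) : PowerSeries C) *
          (revP β : PowerSeries C) := by
      rw [← Polynomial.coe_mul]
      simp [revP]
    rw [e]
    simpa using h

/-- `charpolyRev M = ∏(1 - λX)` over the roots of the characteristic polynomial. -/
theorem nrb_charpolyRev {C : Type*} [Field C] [IsAlgClosed C] {ι : Type*} [Fintype ι]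
    [DecidableEq ι] (M : Matrix ι ι C) : M.charpolyRev = revP M.charpoly.roots := by
  rw [← Matrix.reverse_charpoly]
  have hs : M.charpoly.Splits := IsAlgClosed.splits _
  have e := hs.eq_prod_roots_of_monic M.charpoly_monic
  conv_lhs => rw [e]
  unfold revP
  generalize M.charpoly.roots = β
  induction β using Multiset.induction_on with
  | empty =>
    rw [Multiset.map_zero, Multiset.prod_zero, Multiset.map_zero, Multiset.prod_zero,
      ← Polynomial.C_1, Polynomial.reverse_C]
  | cons a β ih =>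
    rw [Multiset.map_cons, Multiset.prod_cons, Polynomial.reverse_mul_of_domain, ih,
      Multiset.map_cons, Multiset.prod_cons]
    congr 1
    have hX : (Polynomial.X : Polynomial C).reverse = 1 := by
      have := Polynomial.reverse_X_mul (1 : Polynomial C)
      rw [mul_one] at this
      rw [this, ← Polynomial.C_1, Polynomial.reverse_C]
    rw [sub_eq_add_neg, ← Polynomial.C_neg, Polynomial.reverse_add_C, hX]
    simp [sub_eq_add_neg]

theorem nrb_det_sub {C : Type*} [Field C] [IsAlgClosed C] {ι : Type*} [Fintype ι]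
    [DecidableEq ι] (M : Matrix ι ι C) (a : C) :
    (M - Matrix.scalar ι a).det = (M.charpoly.roots.map fun l => l - a).prod := by
  have hs : M.charpoly.Splits := IsAlgClosed.splits _
  have e := hs.eq_prod_roots_of_monic M.charpoly_monic
  have hc : Multiset.card M.charpoly.roots = Fintype.card ι := by
    rw [← M.charpoly_natDegree_eq_dim]
    exact hs.natDegree_eq_card_roots.symm
  have h1 := M.eval_charpoly a
  rw [e, Polynomial.eval_multiset_prod, Multiset.map_map] at h1
  have h2 : (M - Matrix.scalar ι a) = -(Matrix.scalar ι a - M) := by simp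
  rw [h2, Matrix.det_neg, ← h1, ← hc]
  generalize M.charpoly.roots = β
  induction β using Multiset.induction_on with
  | empty => simp
  | cons b β ih =>
    rw [Multiset.map_cons, Multiset.prod_cons, Multiset.map_cons, Multiset.prod_cons, ← ih,
      Multiset.card_cons, pow_succ]
    simp
    ring

theorem nrb_det_aeval {C : Type*} [Field C] [IsAlgClosed C] {ι : Type*} [Fintype ι]
    [DecidableEq ι] (M : Matrix ι ι C) (f : Polynomial C) :
    (Polynomial.aeval M f).det = (M.charpoly.roots.map fun l => f.eval l).prod := by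
  have hs : M.charpoly.Splits := IsAlgClosed.splits _
  have hc : Multiset.card M.charpoly.roots = Fintype.card ι := by
    rw [← M.charpoly_natDegree_eq_dim]
    exact hs.natDegree_eq_card_roots.symm
  have hf : f.Splits := IsAlgClosed.splits _
  have e := hf.eq_prod_roots
  rw [e]
  generalize f.roots = β
  generalize f.leadingCoeff = c
  rw [map_mul, Matrix.det_mul, Polynomial.aeval_C]
  have h0 : (algebraMap C (Matrix ι ι C) c).det = c ^ Fintype.card ι := by
    rw [Matrix.algebraMap_eq_diagonal, Matrix.det_diagonal]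
    simp
  rw [h0]
  have h1 : (Polynomial.aeval M (β.map fun a => Polynomial.X - Polynomial.C a).prod).det =
      (M.charpoly.roots.map fun l => ((β.map fun a => Polynomial.X - Polynomial.C a).prod).eval l).prod := by
    induction β using Multiset.induction_on with
    | empty => simp
    | cons b β ih =>
      rw [Multiset.map_cons, Multiset.prod_cons, map_mul, Matrix.det_mul, ih]
      have h2 : Polynomial.aeval M (Polynomial.X - Polynomial.C b) = M - Matrix.scalar ι b := by
        simp [Matrix.algebraMap_eq_diagonal]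
      rw [h2, nrb_det_sub, ← Multiset.prod_map_mul]
      simp
  rw [h1]
  simp only [Polynomial.eval_mul, Polynomial.eval_C]
  rw [Multiset.prod_map_mul]
  simp [hc]

/-- The characteristic polynomial of a power. -/
theorem nrb_charpoly_pow {C : Type*} [Field C] [IsAlgClosed C] {ι : Type*} [Fintype ι]
    [DecidableEq ι] (M : Matrix ι ι C) (i : ℕ) :
    (M ^ i).charpoly.roots = M.charpoly.roots.map fun l => l ^ i := by
  have h : (M ^ i).charpoly =
      ((M.charpoly.roots.map fun l => l ^ i).map fun a => Polynomial.X - Polynomial.C a).prod := by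
    refine Polynomial.funext fun t => ?_
    rw [Matrix.eval_charpoly]
    have h2 : Matrix.scalar ι t - M ^ i =
        Polynomial.aeval M (Polynomial.C t - Polynomial.X ^ i) := by
      simp [Matrix.algebraMap_eq_diagonal]
    rw [h2, nrb_det_aeval, Polynomial.eval_multiset_prod, Multiset.map_map, Multiset.map_map]
    simp
  rw [h, Polynomial.roots_multiset_prod_X_sub_C]

/-- `tr M^i = ∑ λ^i`. -/
theorem nrb_trace_pow {C : Type*} [Field C] [IsAlgClosed C] {ι : Type*} [Fintype ι]
    [DecidableEq ι] (M : Matrix ι ι C) (i : ℕ) :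
    Matrix.trace (M ^ i) = (M.charpoly.roots.map fun l => l ^ i).sum := by
  rw [Matrix.trace_eq_sum_roots_charpoly, nrb_charpoly_pow]

theorem nrb_thm : StmtNRB := by
  intro C _ _
  refine ⟨fun β => nrb_revP β, ?_⟩
  intro ι _ _ M
  rw [nrb_charpolyRev]
  have : (fun i => Matrix.trace (M ^ i)) =
      fun i => (M.charpoly.roots.map fun l => l ^ i).sum := by
    funext i
    exact nrb_trace_pow M i
  rw [this]
  exact nrb_revP _

end ASur
end

section
/-!
# MP_b685ef_ag, theorem AS, module LINALG

`tr φ^j = ∑ β^j` over the roots of the characteristic polynomial, for `φ` and `φ⁻¹`.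
-/
set_option linter.all false

namespace ASur

open Finset Polynomial

/-- The roots of the characteristic polynomial of an inverse. -/
theorem linalg_inv {C : Type*} [Field C] [IsAlgClosed C] {ι : Type*} [Fintype ι]
    [DecidableEq ι] (M N : Matrix ι ι C) (hMN : M * N = 1)
    (h0 : ∀ x ∈ M.charpoly.roots, x ≠ 0) :
    N.charpoly.roots = M.charpoly.roots.map fun l => l⁻¹ := by
  have hd : M.det * N.det = 1 := by rw [← Matrix.det_mul, hMN, Matrix.det_one]
  have hd0 : M.det ≠ 0 := fun h => by simp [h] at hd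
  have h : N.charpoly =
      ((M.charpoly.roots.map fun l => l⁻¹).map fun a => Polynomial.X - Polynomial.C a).prod := by
    refine Polynomial.funext fun t => ?_
    rw [Matrix.eval_charpoly]
    apply mul_left_cancel₀ hd0
    rw [← Matrix.det_mul]
    have h2 : M * (Matrix.scalar ι t - N) =
        Polynomial.aeval M (Polynomial.C t * Polynomial.X - 1) := by
      rw [mul_sub, hMN]
      simp [Matrix.algebraMap_eq_diagonal]
      rw [← Matrix.scalar_apply]
      exact (Matrix.scalar_commute t (fun r => mul_comm _ _) M).symm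
    rw [h2, nrb_det_aeval, Matrix.det_eq_prod_roots_charpoly, Polynomial.eval_multiset_prod,
      Multiset.map_map, Multiset.map_map]
    conv_rhs => rw [← Multiset.map_id M.charpoly.roots, Multiset.map_map]
    rw [← Multiset.prod_map_mul]
    congr 1
    refine Multiset.map_congr rfl fun x hx => ?_
    have := h0 x hx
    simp
    field_simp
  rw [h, Polynomial.roots_multiset_prod_X_sub_C]

theorem linalg_thm : StmtLINALG := by
  intro K _ _ V _ _ _ φ
  classical
  let b := Module.finBasis K V
  set M := LinearMap.toMatrix b b (φ : V →ₗ[K] V) with hM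
  set N := LinearMap.toMatrix b b (φ.symm : V →ₗ[K] V) with hN
  have hc : LinearMap.charpoly (φ : V →ₗ[K] V) = M.charpoly :=
    (LinearMap.charpoly_toMatrix _ b).symm
  have hMN : M * N = 1 := by
    rw [hM, hN, ← LinearMap.toMatrix_comp]
    rw [← LinearMap.toMatrix_id b]
    congr 1
    ext v
    simp
  have hs : M.charpoly.Splits := IsAlgClosed.splits _
  have hd : M.det * N.det = 1 := by rw [← Matrix.det_mul, hMN, Matrix.det_one]
  have hd0 : M.det ≠ 0 := fun h => by simp [h] at hd
  have h0 : ∀ x ∈ M.charpoly.roots, x ≠ 0 := by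
    rintro x hx rfl
    apply hd0
    rw [Matrix.det_eq_prod_roots_charpoly]
    exact Multiset.prod_eq_zero hx
  refine ⟨?_, ?_, ?_, ?_, ?_⟩
  · rw [hc]; exact h0
  · rw [hc, ← hs.natDegree_eq_card_roots, Matrix.charpoly_natDegree_eq_dim]
    simp
  · intro j
    rw [hc, ← nrb_trace_pow, LinearMap.trace_eq_matrix_trace K b, LinearMap.toMatrix_pow]
  · intro j
    rw [hc, LinearMap.trace_eq_matrix_trace K b, ← LinearMap.toMatrix_pow, nrb_trace_pow,
      linalg_inv M N hMN h0, Multiset.map_map]
    rfl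
  · intro h
    rw [hc] at h ⊢
    exact (Polynomial.nodup_roots_iff_of_splits M.charpoly_monic.ne_zero hs).1 h

end ASur
end

section
/-!
# MP_b685ef_ag, theorem AS: module LOW (the low coefficients of `F`)

PRODF for `n = 1` gives `F_m(t) = binom(t, m)` for every `t` with `t ^ p = t`. For `m < p` the
polynomial `m! F_m - descPochhammer m` has degree `≤ m < p` and vanishes at the `p` solutions of
`t ^ p = t` in `C`, so it is zero.
-/
set_option linter.all false

namespace ASur

open Finset

private theorem LOW_eval (h1 : StmtPRODF) {p : ℕ} [Fact p.Prime]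
    {g F : PowerSeries (Polynomial ℤ_[p])} (hF : DSer p g F) (C : Type) [Field C] [CharZero C]
    (j : ℤ_[p] →+* C) (t : C) (ht : t ^ p = t) (m : ℕ) :
    Polynomial.eval₂ j t (PowerSeries.coeff m F) = Ring.choose t m := by
  have h := h1 p g F hF C j 1 t (by simpa using ht)
  simp only [prod_range_one, sum_range_one, pow_zero, pow_one] at h
  have h' := congrArg (PowerSeries.coeff m) h
  rw [PowerSeries.coeff_map, PowerSeries.binomialSeries_coeff] at h'
  simpa using h'

private theorem LOW_roots (p : ℕ) (hp : 2 ≤ p) (C : Type) [Field C] [CharZero C] [IsAlgClosed C] :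
    ∃ s : Finset C, s.card = p ∧ ∀ t ∈ s, t ^ p = t := by
  classical
  have hp1 : 0 < p - 1 := by omega
  haveI : NeZero (p - 1) := ⟨hp1.ne'⟩
  haveI : NeZero ((p - 1 : ℕ) : C) := ⟨by exact_mod_cast hp1.ne'⟩
  obtain ⟨ζ, hζ⟩ := HasEnoughRootsOfUnity.exists_primitiveRoot C (p - 1)
  have hc : (Polynomial.nthRootsFinset (p - 1) (1 : C)).card = p - 1 :=
    hζ.card_nthRootsFinset
  refine ⟨insert 0 (Polynomial.nthRootsFinset (p - 1) (1 : C)), ?_, ?_⟩
  · rw [card_insert_of_notMem, hc]
    · omega
    · intro h0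
      rw [Polynomial.mem_nthRootsFinset hp1, zero_pow hp1.ne'] at h0
      exact zero_ne_one h0
  · intro t ht
    rcases mem_insert.1 ht with rfl | ht
    · exact zero_pow (by omega)
    · rw [Polynomial.mem_nthRootsFinset hp1] at ht
      obtain ⟨q, rfl⟩ : ∃ q, p = q + 1 := ⟨p - 1, by omega⟩
      simp only [Nat.add_sub_cancel] at ht
      rw [pow_succ, ht, one_mul]

theorem LOW_thm (h1 : StmtPRODF) : StmtLOW := by
  intro p _ g F hF C _ _ _ j
  have hpp : 2 ≤ p := (Fact.out : p.Prime).two_le
  refine ⟨?_, ?_⟩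
  · intro m hm
    obtain ⟨s, hs, hst⟩ := LOW_roots p hpp C
    set P : Polynomial C := (PowerSeries.coeff m F).map j with hP
    set R : Polynomial C := Polynomial.C (m.factorial : C) * P - descPochhammer C m with hR
    have hdeg : R.natDegree < s.card := by
      rw [hs]
      refine lt_of_le_of_lt (Polynomial.natDegree_sub_le _ _) (max_lt ?_ ?_)
      · refine lt_of_le_of_lt (Polynomial.natDegree_C_mul_le _ _) ?_
        exact lt_of_le_of_lt (Polynomial.natDegree_map_le.trans (hF.Fdeg m)) hm
      · rw [descPochhammer_natDegree]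
        exact hm
    have hz : R = 0 := by
      refine Polynomial.eq_zero_of_natDegree_lt_card_of_eval_eq_zero' R s ?_ hdeg
      intro t ht
      have e1 := LOW_eval h1 hF C j t (hst t ht) m
      have e2 : (descPochhammer C m).eval t = (m.factorial : C) * Ring.choose t m := by
        have := Ring.descPochhammer_eq_factorial_smul_choose t m
        rw [nsmul_eq_mul] at this
        rw [← this, ← Polynomial.aeval_eq_smeval, ← descPochhammer_map (algebraMap ℤ C),
          Polynomial.eval_map_algebraMap]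
      rw [hR, Polynomial.eval_sub, Polynomial.eval_mul, Polynomial.eval_C, hP,
        Polynomial.eval_map, e1, e2, sub_self]
    have hc := congrArg (fun q : Polynomial C => q.coeff m) (sub_eq_zero.1 hz)
    simp only [Polynomial.coeff_C_mul, hP, Polynomial.coeff_map] at hc
    have hm1 : (descPochhammer C m).coeff m = 1 := by
      have := (monic_descPochhammer C m)
      rw [Polynomial.Monic, Polynomial.leadingCoeff, descPochhammer_natDegree] at this
      exact this
    rw [hm1] at hc
    rw [mul_comm]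
    exact hc
  · intro m hm
    have e1 := LOW_eval h1 hF C j 0 (zero_pow (by omega)) m
    rw [Polynomial.eval₂_at_zero] at e1
    rw [e1]
    obtain ⟨q, rfl⟩ : ∃ q, m = q + 1 := ⟨m - 1, by omega⟩
    exact Ring.choose_zero_succ C q

end ASur
end

section
/-!
# Module NCL: power series with close power sums are close (MP_b685ef_ag, hive AS)
-/
set_option linter.all false

namespace ASur

open Finset

private theorem ncl_fact {C : Type} [NormedField C] [IsUltrametricDist C] (n i : ℕ) :
    ‖((n).factorial : C)‖ ≤ ‖((n - i).factorial : C)‖ := by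
  obtain ⟨c, hc⟩ := Nat.factorial_dvd_factorial (Nat.sub_le n i)
  rw [hc, Nat.cast_mul, norm_mul]
  exact mul_le_of_le_one_right (norm_nonneg _) (norm_natCast_le c)

theorem ncl_thm : StmtNCL := by
  intro C _ _ _ s s' P P' ε hε hP hP' h1 h2 h3 m
  have hpos : ∀ n : ℕ, 0 < ‖((n).factorial : C)‖ := fun n =>
    norm_pos_iff.2 (Nat.cast_ne_zero.2 (Nat.factorial_ne_zero n))
  have hone : ∀ n : ℕ, ‖((n).factorial : C)‖ ≤ 1 := fun n => norm_natCast_le _
  induction m using Nat.strong_induction_on with
  | _ m ih =>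
    cases m with
    | zero =>
      have e1 : PowerSeries.coeff 0 P = 1 := by
        rw [PowerSeries.coeff_zero_eq_constantCoeff_apply]; exact hP.1
      have e2 : PowerSeries.coeff 0 P' = 1 := by
        rw [PowerSeries.coeff_zero_eq_constantCoeff_apply]; exact hP'.1
      rw [e1, e2, sub_self, norm_zero]
      exact div_nonneg hε (norm_nonneg _)
    | succ n =>
      have e := hP.2 n
      have e' := hP'.2 n
      have e3 : ((n : C) + 1) * (PowerSeries.coeff (n + 1) P - PowerSeries.coeff (n + 1) P') =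
          ∑ i ∈ range (n + 1), -(s (i + 1) * (PowerSeries.coeff (n - i) P -
            PowerSeries.coeff (n - i) P') + (s (i + 1) - s' (i + 1)) *
              PowerSeries.coeff (n - i) P') := by
        rw [mul_sub, e, e', ← Finset.sum_neg_distrib, ← Finset.sum_neg_distrib,
          ← Finset.sum_sub_distrib]
        refine Finset.sum_congr rfl fun i _ => ?_
        ring
      have e4 : ‖((n : C) + 1) * (PowerSeries.coeff (n + 1) P -
          PowerSeries.coeff (n + 1) P')‖ ≤ ε / ‖((n).factorial : C)‖ := by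
        rw [e3]
        refine IsUltrametricDist.norm_sum_le_of_forall_le_of_nonneg
          (div_nonneg hε (norm_nonneg _)) fun i hi => ?_
        rw [norm_neg]
        refine (IsUltrametricDist.norm_add_le_max _ _).trans (max_le ?_ ?_)
        · rw [norm_mul]
          refine (mul_le_of_le_one_left (norm_nonneg _) (h2 (i + 1) (by omega))).trans ?_
          refine (ih (n - i) (by omega)).trans ?_
          exact div_le_div_of_nonneg_left hε (hpos n) (ncl_fact n i)
        · rw [norm_mul]
          refine (mul_le_of_le_one_right (norm_nonneg _) (h1 _)).trans ?_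
          refine (h3 (i + 1) (by omega)).trans ?_
          rw [le_div_iff₀ (hpos n)]
          exact mul_le_of_le_one_right hε (hone n)
      have e5 : ((n + 1).factorial : C) = ((n : C) + 1) * (n.factorial : C) := by
        rw [Nat.factorial_succ]; push_cast; ring
      rw [e5, norm_mul]
      have hn : 0 < ‖(n : C) + 1‖ := norm_pos_iff.2 (Nat.cast_add_one_ne_zero n)
      rw [norm_mul] at e4
      rw [mul_comm ‖(n : C) + 1‖, ← div_div, le_div_iff₀ hn, mul_comm]
      exact e4

end ASur
end

section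
/-! # AS, module NRM: products add the power sums. -/
set_option linter.all false

namespace ASur

open Finset

private theorem nrm_iff {C : Type*} [Field C] (s : ℕ → C) (P : PowerSeries C) :
    NR s P ↔ PowerSeries.constantCoeff P = 1 ∧
      PowerSeries.derivative C P = -(PowerSeries.mk (fun i => s (i + 1)) * P) := by
  unfold NR
  refine and_congr Iff.rfl ?_
  rw [PowerSeries.ext_iff]
  refine forall_congr' fun n => ?_
  rw [PowerSeries.coeff_derivative, map_neg, PowerSeries.coeff_mul,
    Finset.Nat.sum_antidiagonal_eq_sum_range_succ_mk]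
  simp [mul_comm]

theorem nrm_thm : StmtNRM := by
  intro C _ s s' P P' h h'
  rw [nrm_iff] at h h' ⊢
  refine ⟨by rw [map_mul, h.1, h'.1, one_mul], ?_⟩
  have hmk : (PowerSeries.mk (fun i => s (i + 1) + s' (i + 1)) : PowerSeries C) =
      PowerSeries.mk (fun i => s (i + 1)) + PowerSeries.mk (fun i => s' (i + 1)) := by
    ext n; simp
  rw [Derivation.leibniz, h.2, h'.2, hmk]
  simp only [smul_eq_mul]
  ring

end ASur
end

section
/-!
# MP_b685ef_ag, theorem AS: the path lemma
-/
set_option linter.all false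

namespace ASur

open Finset

section path

variable {C : Type} [Field C] {σ : Type} [Fintype σ] [DecidableEq σ]

private theorem path_expand (q : ℕ) (A : MvPolynomial σ C) :
    MvPolynomial.expand q A =
      ∑ m ∈ A.support, MvPolynomial.monomial (q • m) (A.coeff m) := by
  conv_lhs => rw [A.as_sum]
  rw [map_sum]
  refine Finset.sum_congr rfl fun m _ => ?_
  rw [MvPolynomial.expand_monomial]

private theorem path_degree (q N : ℕ) (A : MvPolynomial σ C) (s : σ) (h : A.degreeOf s ≤ N) :
    (MvPolynomial.expand q A).degreeOf s ≤ q * N := by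
  rw [path_expand]
  refine (MvPolynomial.degreeOf_sum_le _ _ _).trans (Finset.sup_le fun m hm => ?_)
  rw [MvPolynomial.degreeOf_le_iff]
  intro m' hm'
  have hmm : m' = q • m := by
    have := MvPolynomial.support_monomial_subset hm'
    simpa using this
  rw [hmm, Finsupp.smul_apply, smul_eq_mul]
  exact Nat.mul_le_mul_left _ ((MvPolynomial.monomial_le_degreeOf s hm).trans h)

private theorem path_coeff (q : ℕ) (G A : MvPolynomial σ C) (d : σ →₀ ℕ) :
    (G * MvPolynomial.expand q A).coeff d =
      ∑ m ∈ A.support, if q • m ≤ d then A.coeff m * G.coeff (d - q • m) else 0 := by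
  rw [path_expand, Finset.mul_sum, MvPolynomial.coeff_sum]
  refine Finset.sum_congr rfl fun m _ => ?_
  rw [MvPolynomial.coeff_mul_monomial']
  split_ifs with h
  · ring
  · rfl

private theorem path_deg (p : ℕ) (hp : 1 ≤ p) (L : ℕ) (F : ℕ → MvPolynomial σ C)
    (hF : ∀ i s, (F i).degreeOf s ≤ (p - 1) * L) (n : ℕ) (s : σ) :
    (Gpol p F n).degreeOf s ≤ (p ^ n - 1) * L := by
  induction n with
  | zero => simp [Gpol]
  | succ n ih =>
    have h1 : Gpol p F (n + 1) = Gpol p F n * MvPolynomial.expand (p ^ n) (F n) := by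
      simp only [Gpol, Finset.prod_range_succ]
    rw [h1]
    refine (MvPolynomial.degreeOf_mul_le _ _ _).trans ?_
    have h2 := path_degree (p ^ n) _ (F n) s (hF n s)
    have h3 : (p ^ (n + 1) - 1) * L = (p ^ n - 1) * L + p ^ n * ((p - 1) * L) := by
      have h4 : 1 ≤ p ^ n := Nat.one_le_pow _ _ hp
      have h5 : p ^ (n + 1) - 1 = (p ^ n - 1) + p ^ n * (p - 1) := by
        rw [pow_succ]
        obtain ⟨a, ha⟩ := Nat.exists_eq_add_of_le' h4
        obtain ⟨b, hb⟩ := Nat.exists_eq_add_of_le' hp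
        rw [ha, hb, Nat.add_sub_cancel, Nat.add_sub_cancel]
        have : (a + 1) * (b + 1) = a + (a + 1) * b + 1 := by ring
        rw [this, Nat.add_sub_cancel]
      rw [h5]; ring
    rw [h3]
    exact add_le_add ih h2

private theorem path_main (p : ℕ) (hp : 1 ≤ p) (L : ℕ) (F : ℕ → MvPolynomial σ C)
    (hF : ∀ i s, (F i).degreeOf s ≤ (p - 1) * L) (n : ℕ) (u v : σ → Fin L) :
    Pmat (fun i => Amat p L (F i)) n u v =
      if ∀ s, pt v s ≤ p ^ n * pt u s then
        cf (Gpol p F n) (fun s => p ^ n * pt u s - pt v s) else 0 := by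
  classical
  induction n generalizing u v with
  | zero =>
    simp only [Pmat, Gpol, Finset.range_zero, Finset.prod_empty, pow_zero, one_mul, cf]
    by_cases huv : u = v
    · subst huv
      rw [Matrix.one_apply_eq, if_pos (fun s => le_rfl), MvPolynomial.coeff_one, if_pos]
      ext s
      simp
    · rw [Matrix.one_apply_ne huv]
      split_ifs with h
      · rw [MvPolynomial.coeff_one, if_neg]
        intro h0
        apply huv
        funext s
        have h1 := DFunLike.congr_fun h0 s
        simp only [Finsupp.coe_zero, Pi.zero_apply, Finsupp.equivFunOnFinite_symm_apply_apply] at h1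
        have h2 := h s
        simp only [pt] at h1 h2
        apply Fin.ext
        omega
      · rfl
  | succ n ih =>
    have hG : Gpol p F (n + 1) = Gpol p F n * MvPolynomial.expand (p ^ n) (F n) := by
      simp only [Gpol, Finset.prod_range_succ]
    have hL : Pmat (fun i => Amat p L (F i)) (n + 1) u v =
        ∑ w : σ → Fin L, Amat p L (F n) u w *
          Pmat (fun i => Amat p L (F i)) n w v := by
      simp only [Pmat, Matrix.mul_apply]
    rw [hL]
    have hpn : 1 ≤ p ^ n := Nat.one_le_pow _ _ hp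
    by_cases hv : ∀ s, pt v s ≤ p ^ (n + 1) * pt u s
    swap
    · rw [if_neg hv]
      refine Finset.sum_eq_zero fun w _ => ?_
      rw [ih w v]
      simp only [Amat, Matrix.of_apply]
      by_cases h1 : ∀ s, pt w s ≤ p * pt u s
      · by_cases h2 : ∀ s, pt v s ≤ p ^ n * pt w s
        · exfalso
          apply hv
          intro s
          calc pt v s ≤ p ^ n * pt w s := h2 s
            _ ≤ p ^ n * (p * pt u s) := Nat.mul_le_mul_left _ (h1 s)
            _ = p ^ (n + 1) * pt u s := by ring
        · rw [if_neg h2, mul_zero]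
      · rw [if_neg h1, zero_mul]
    · rw [if_pos hv, hG]
      simp only [cf]
      rw [path_coeff]
      set d : σ →₀ ℕ := Finsupp.equivFunOnFinite.symm
        (fun s => p ^ (n + 1) * pt u s - pt v s) with hd
      have hds : ∀ s, d s = p ^ (n + 1) * pt u s - pt v s := fun s => by
        rw [hd, Finsupp.equivFunOnFinite_symm_apply_apply]
      set g : (σ →₀ ℕ) → C := fun m =>
        if p ^ n • m ≤ d then (F n).coeff m * (Gpol p F n).coeff (d - p ^ n • m) else 0 with hg
      set mm : (σ → Fin L) → (σ →₀ ℕ) := fun w =>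
        Finsupp.equivFunOnFinite.symm (fun s => p * pt u s - pt w s) with hmm
      have hmms : ∀ w s, mm w s = p * pt u s - pt w s := fun w s => by
        rw [hmm]; simp only [Finsupp.equivFunOnFinite_symm_apply_apply]
      set T : Finset (σ → Fin L) := Finset.univ.filter fun w => ∀ s, pt w s ≤ p * pt u s with hT
      -- left side
      have e1 : ∑ w : σ → Fin L, Amat p L (F n) u w * Pmat (fun i => Amat p L (F i)) n w v =
          ∑ w ∈ T, g (mm w) := by
        rw [hT, Finset.sum_filter]
        refine Finset.sum_congr rfl fun w _ => ?_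
        rw [ih w v]
        simp only [Amat, Matrix.of_apply]
        split_ifs with h1 h2
        · have h3 : p ^ n • mm w ≤ d := by
            intro s
            rw [Finsupp.smul_apply, smul_eq_mul, hmms, hds]
            have h4 := h1 s
            have h5 := h2 s
            have h6 : p ^ n * (p * pt u s - pt w s) = p ^ (n + 1) * pt u s - p ^ n * pt w s := by
              rw [Nat.mul_sub]; congr 1; ring
            omega
          rw [hg]
          simp only [if_pos h3, cf]
          congr 1
          congr 1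
          ext s
          rw [Finsupp.tsub_apply, Finsupp.smul_apply, smul_eq_mul, hmms, hds,
            Finsupp.equivFunOnFinite_symm_apply_apply]
          have h4 := h1 s
          have h5 := h2 s
          have h6 : p ^ n * (p * pt u s - pt w s) = p ^ (n + 1) * pt u s - p ^ n * pt w s := by
            rw [Nat.mul_sub]; congr 1; ring
          have h7 : p ^ n * pt w s ≤ p ^ (n + 1) * pt u s := by
            calc p ^ n * pt w s ≤ p ^ n * (p * pt u s) := Nat.mul_le_mul_left _ h4
              _ = p ^ (n + 1) * pt u s := by ring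
          omega
        · rw [mul_zero, hg]
          simp only
          rw [if_neg]
          intro h3
          apply h2
          intro s
          have h4 := h3 s
          rw [Finsupp.smul_apply, smul_eq_mul, hmms, hds] at h4
          have h5 := h1 s
          have h6 : p ^ n * (p * pt u s - pt w s) = p ^ (n + 1) * pt u s - p ^ n * pt w s := by
            rw [Nat.mul_sub]; congr 1; ring
          have h7 : p ^ n * pt w s ≤ p ^ (n + 1) * pt u s := by
            calc p ^ n * pt w s ≤ p ^ n * (p * pt u s) := Nat.mul_le_mul_left _ h5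
              _ = p ^ (n + 1) * pt u s := by ring
          have h8 := hv s
          omega
        · rw [zero_mul]
        · rw [zero_mul]
      have einj : ∀ w ∈ T, ∀ w' ∈ T, mm w = mm w' → w = w' := by
        intro w hw w' hw' h
        rw [hT, Finset.mem_filter] at hw hw'
        funext s
        have h1 := DFunLike.congr_fun h s
        rw [hmms, hmms] at h1
        have h2 := hw.2 s
        have h3 := hw'.2 s
        simp only [pt] at h1 h2 h3
        apply Fin.ext
        omega
      rw [e1, ← Finset.sum_image (g := mm) (f := g) (fun w hw w' hw' => einj w hw w' hw')]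
      have e2 : ∀ m, m ∉ (F n).support → g m = 0 := by
        intro m hm
        rw [hg]
        simp only
        rw [MvPolynomial.notMem_support_iff.1 hm, zero_mul, ite_self]
      have e3 : ∀ m ∈ (F n).support, m ∉ T.image mm → g m = 0 := by
        intro m hm hmT
        rw [hg]
        simp only
        split_ifs with h1
        swap
        · rfl
        have h2 : ∀ s, m s < p * pt u s := by
          intro s
          have h3 := h1 s
          rw [Finsupp.smul_apply, smul_eq_mul, hds] at h3
          have h4 : p ^ (n + 1) * pt u s = p ^ n * (p * pt u s) := by ring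
          have h5 := hv s
          have h6 : 1 ≤ pt v s := by simp [pt]
          rw [h4] at h3 h5
          have h7 : p ^ n * m s < p ^ n * (p * pt u s) := by omega
          exact Nat.lt_of_mul_lt_mul_left h7
        have h3 : ∃ s, L < p * pt u s - m s := by
          by_contra hcon
          push Not at hcon
          apply hmT
          rw [Finset.mem_image]
          have hb : ∀ s, p * pt u s - m s - 1 < L := by
            intro s
            have := hcon s
            have := h2 s
            omega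
          refine ⟨fun s => ⟨p * pt u s - m s - 1, hb s⟩, ?_, ?_⟩
          · rw [hT, Finset.mem_filter]
            refine ⟨Finset.mem_univ _, fun s => ?_⟩
            have := h2 s
            show p * pt u s - m s - 1 + 1 ≤ p * pt u s
            omega
          · ext s
            rw [hmms]
            have := h2 s
            have h5 : (pt (fun s => (⟨p * pt u s - m s - 1, hb s⟩ : Fin L)) s) =
                p * pt u s - m s := by
              show p * pt u s - m s - 1 + 1 = p * pt u s - m s
              generalize p * pt u s = N at this ⊢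
              omega
            rw [h5]
            generalize p * pt u s = N at this ⊢
            omega
        obtain ⟨s, hs⟩ := h3
        have h4 : (Gpol p F n).coeff (d - p ^ n • m) = 0 := by
          by_contra hne
          have h5 := MvPolynomial.monomial_le_degreeOf s (MvPolynomial.mem_support_iff.2 hne)
          have h6 := h5.trans (path_deg p hp L F hF n s)
          rw [Finsupp.tsub_apply, Finsupp.smul_apply, smul_eq_mul, hds] at h6
          have h7 : p ^ (n + 1) * pt u s = p ^ n * (p * pt u s) := by ring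
          have h8 : pt v s ≤ L := by
            simp only [pt]
            exact (v s).2
          have h9 : p ^ n * (p * pt u s) = p ^ n * m s + p ^ n * (p * pt u s - m s) := by
            rw [← Nat.mul_add]
            congr 1
            have := h2 s
            omega
          have h10 : p ^ n * (L + 1) ≤ p ^ n * (p * pt u s - m s) := Nat.mul_le_mul_left _ hs
          have h11 : p ^ n * (L + 1) = (p ^ n - 1) * L + L + p ^ n := by
            obtain ⟨a, ha⟩ := Nat.exists_eq_add_of_le' hpn
            rw [ha, Nat.add_sub_cancel]; ring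
          rw [h7, h9] at h6
          omega
        rw [h4, mul_zero]
      have e4 : ∑ m ∈ T.image mm, g m = ∑ m ∈ T.image mm ∪ (F n).support, g m := by
        refine Finset.sum_subset Finset.subset_union_left fun m hm hm' => ?_
        rcases Finset.mem_union.1 hm with h | h
        · exact absurd h hm'
        · exact e3 m h hm'
      have e5 : ∑ m ∈ (F n).support, g m = ∑ m ∈ T.image mm ∪ (F n).support, g m := by
        refine Finset.sum_subset Finset.subset_union_right fun m hm hm' => e2 m hm'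
      rw [e4, ← e5]

end path

theorem path_thm : StmtPATH := by
  intro p hp C _ σ _ _ L F hF n
  refine ⟨path_deg p hp L F hF n, ?_⟩
  rw [Matrix.trace, Tsum]
  refine Finset.sum_congr rfl fun u _ => ?_
  rw [Matrix.diag_apply, path_main p hp L F hF n u u, if_pos]
  · congr 1
    funext s
    rw [Nat.sub_mul, one_mul]
  · intro s
    exact Nat.le_mul_of_pos_left _ (pow_pos hp n)

end ASur
end

section
/-!
# MP_b685ef_ag, AS: module PER
-/
set_option autoImplicit false
set_option linter.all false

namespace ASur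

theorem PER_add {ι C : Type} [Fintype ι] [DecidableEq ι] [CommRing C]
    (A : ℕ → Matrix ι ι C) (h : ℕ) (hA : ∀ i, A (i + h) = A i) (n : ℕ) :
    Pmat A (n + h) = Pmat A n * Pmat A h := by
  induction n with
  | zero =>
    rw [Nat.zero_add]
    show Pmat A h = 1 * Pmat A h
    rw [one_mul]
  | succ n ih =>
    have h1 : n + 1 + h = (n + h) + 1 := by omega
    rw [h1]
    show A (n + h) * Pmat A (n + h) = A n * Pmat A n * Pmat A h
    rw [ih, hA, mul_assoc]

theorem PER_thm : StmtPER := by
  intro ι C _ _ _ A h hA j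
  induction j with
  | zero =>
    rw [Nat.mul_zero, pow_zero]
    rfl
  | succ j ih => rw [Nat.mul_succ, PER_add A h hA, ih, pow_succ]

end ASur
end

section
/-!
# MP_b685ef_ag, theorem AS, module PRODF
-/
set_option linter.all false

namespace ASur

open Finset

private lemma prodf_cyc {M : Type} [CommMonoid M] (a : ℕ → M) (n : ℕ) (h : a n = a 0) :
    ∏ i ∈ range n, a (i + 1) = ∏ i ∈ range n, a i := by
  cases n with
  | zero => simp
  | succ m => rw [prod_range_succ, prod_range_succ', h]

private lemma prodf_eval (p : ℕ) [Fact p.Prime] (C : Type) [Field C] (j : ℤ_[p] →+* C) (x : C) :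
    (Polynomial.eval₂RingHom j x).comp (Polynomial.expand ℤ_[p] p).toRingHom =
      Polynomial.eval₂RingHom j (x ^ p) := by
  ext y
  · simp
  · simp

private lemma prodf_step (p : ℕ) [hp : Fact p.Prime] (g F : PowerSeries (Polynomial ℤ_[p]))
    (h : DSer p g F) (C : Type) [Field C] (j : ℤ_[p] →+* C) (x : C) :
    PowerSeries.expand p hp.out.ne_zero (PowerSeries.map (Polynomial.eval₂RingHom j (x ^ p)) F) =
      (PowerSeries.map (Polynomial.eval₂RingHom j x) F) ^ p *
        PowerSeries.map (Polynomial.eval₂RingHom j x) g := by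
  have h1 := congrArg (PowerSeries.map (Polynomial.eval₂RingHom j x)) h.Feq
  rw [map_mul, map_pow] at h1
  rw [← h1, ← prodf_eval]
  ext n
  simp only [PowerSeries.coeff_map, PowerSeries.coeff_expand]
  split_ifs with hd
  · simp [PowerSeries.coeff_map]
  · simp

theorem prodf_thm (hBIN : StmtBIN) (hUNIQ : StmtUNIQ) : StmtPRODF := by
  intro p hp g F hDS C _ _ j n t ht
  have hsum : PowerSeries.binomialSeries C (∑ i ∈ range n, t ^ (p ^ i)) =
      ∏ i ∈ range n, PowerSeries.binomialSeries C (t ^ (p ^ i)) := by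
    clear ht
    induction n with
    | zero => simp
    | succ m ih => rw [sum_range_succ, prod_range_succ, PowerSeries.binomialSeries_add, ih]
  rw [hsum]
  refine hUNIQ p hp.out.ne_zero hp.out.two_le C _ _
    (∏ i ∈ range n, PowerSeries.map (Polynomial.eval₂RingHom j (t ^ (p ^ i))) g) ?_ ?_ ?_ ?_
  · rw [map_prod]
    refine prod_eq_one fun i _ => ?_
    rw [← PowerSeries.coeff_zero_eq_constantCoeff_apply, PowerSeries.coeff_map,
      PowerSeries.coeff_zero_eq_constantCoeff_apply, hDS.F0, map_one]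
  · rw [map_prod]
    refine prod_eq_one fun i _ => ?_
    simp
  · rw [← prod_pow, ← prod_mul_distrib]
    have h2 : ∀ i ∈ range n,
        (PowerSeries.map (Polynomial.eval₂RingHom j (t ^ (p ^ i))) F) ^ p *
          PowerSeries.map (Polynomial.eval₂RingHom j (t ^ (p ^ i))) g =
        PowerSeries.expand p hp.out.ne_zero
          (PowerSeries.map (Polynomial.eval₂RingHom j (t ^ (p ^ (i + 1)))) F) := by
      intro i _
      rw [← prodf_step p g F hDS C j (t ^ (p ^ i)), ← pow_mul, ← pow_succ]
    rw [prod_congr rfl h2, ← map_prod,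
      prodf_cyc (fun i => PowerSeries.map (Polynomial.eval₂RingHom j (t ^ (p ^ i))) F) n
        (by simp [ht])]
  · rw [← prod_pow, ← prod_mul_distrib, map_prod]
    refine prod_congr rfl fun i _ => ?_
    exact hBIN p g hDS.gnat C j (t ^ (p ^ i))

end ASur
end
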