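import Pool.Agent.Lib.MP_b685ef_ag.AS.Spec
import Pool.Agent.Lib.MP_b685ef_ag.AS.EDGES
import Pool.Agent.Lib.MP_b685ef_ag.AS.PRODF

section
/-!
# MP_b685ef_ag, theorem AS, module PSI

`b_s ^ p = b_s ((1+Y)^p - 1)` coefficientwise: both sides are polynomials in `s`, equal for
natural `s`.
-/
set_option linter.all false

namespace ASur

open Finset

/-- `binom(X, k)` as a polynomial over `C`. -/
private noncomputable def psiP (C : Type) [Field C] (k : ℕ) : Polynomial C :=
  Polynomial.C ((k.factorial : C)⁻¹) * descPochhammer C k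

private theorem psi_eval (C : Type) [Field C] [CharZero C] (s : C) (k : ℕ) :
    Polynomial.eval s (psiP C k) = Ring.choose s k := by
  have h := Ring.descPochhammer_eq_factorial_smul_choose s k
  have h2 : (descPochhammer ℤ k).smeval s = Polynomial.eval s (descPochhammer C k) := by
    rw [← Polynomial.eval₂_smulOneHom_eq_smeval, ← descPochhammer_map (Int.castRingHom C) k,
      Polynomial.eval_map]
    congr 1
    exact RingHom.ext_int _ _
  rw [h2] at h
  unfold psiP
  rw [Polynomial.eval_mul, Polynomial.eval_C, h, nsmul_eq_mul, ← mul_assoc,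
    inv_mul_cancel₀ (Nat.cast_ne_zero.2 (Nat.factorial_ne_zero k)), one_mul]

private theorem psi_nat (C : Type) [Field C] [CharZero C] (p d n : ℕ) :
    PowerSeries.coeff n ((PowerSeries.binomialSeries C (d : C)) ^ p) =
    ∑ k ∈ range (n + 1), Ring.choose (d : C) k *
      PowerSeries.coeff n (((1 + PowerSeries.X : PowerSeries C) ^ p - 1) ^ k) := by
  rw [PowerSeries.binomialSeries_nat, ← pow_mul, mul_comm d p, pow_mul]
  set Ψ : PowerSeries C := (1 + PowerSeries.X : PowerSeries C) ^ p - 1 with hΨ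
  have h1 : (1 + PowerSeries.X : PowerSeries C) ^ p = Ψ + 1 := by rw [hΨ]; ring
  have hX : (PowerSeries.X : PowerSeries C) ∣ Ψ := by
    rw [PowerSeries.X_dvd_iff, hΨ]
    simp
  have hzero : ∀ k, n < k → PowerSeries.coeff n (Ψ ^ k) = 0 := by
    intro k hk
    have h2 : (PowerSeries.X : PowerSeries C) ^ k ∣ Ψ ^ k := pow_dvd_pow_of_dvd hX k
    exact PowerSeries.X_pow_dvd_iff.1 h2 n hk
  rw [h1, add_pow, map_sum]
  have h3 : ∀ k, PowerSeries.coeff n (Ψ ^ k * 1 ^ (d - k) * ((d.choose k : ℕ) : PowerSeries C)) =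
      Ring.choose (d : C) k * PowerSeries.coeff n (Ψ ^ k) := by
    intro k
    rw [one_pow, mul_one, mul_comm, Ring.choose_natCast]
    have h4 : ((d.choose k : ℕ) : PowerSeries C) = PowerSeries.C ((d.choose k : ℕ) : C) := by
      simp
    rw [h4, PowerSeries.coeff_C_mul]
  simp_rw [h3]
  have e1 : ∑ k ∈ range (d + 1), Ring.choose (d : C) k * PowerSeries.coeff n (Ψ ^ k) =
      ∑ k ∈ range (max d n + 1), Ring.choose (d : C) k * PowerSeries.coeff n (Ψ ^ k) := by
    apply Finset.sum_subset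
    · intro k hk
      rw [mem_range] at hk ⊢
      have := le_max_left d n
      omega
    · intro k _ hk
      rw [mem_range, not_lt] at hk
      rw [Ring.choose_natCast, Nat.choose_eq_zero_of_lt (by omega), Nat.cast_zero, zero_mul]
  have e2 : ∑ k ∈ range (n + 1), Ring.choose (d : C) k * PowerSeries.coeff n (Ψ ^ k) =
      ∑ k ∈ range (max d n + 1), Ring.choose (d : C) k * PowerSeries.coeff n (Ψ ^ k) := by
    apply Finset.sum_subset
    · intro k hk
      rw [mem_range] at hk ⊢
      have := le_max_right d n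
      omega
    · intro k _ hk
      rw [mem_range, not_lt] at hk
      rw [hzero k (by omega), mul_zero]
  rw [e1, e2]

theorem PSI_thm : StmtPSI := by
  intro C _ _ p s n
  set A : Polynomial C :=
    PowerSeries.coeff n ((PowerSeries.mk (fun k => psiP C k) : PowerSeries (Polynomial C)) ^ p)
    with hA
  set B : Polynomial C := ∑ k ∈ range (n + 1), psiP C k *
    Polynomial.C (PowerSeries.coeff n (((1 + PowerSeries.X : PowerSeries C) ^ p - 1) ^ k)) with hB
  have hmap : ∀ t : C, PowerSeries.binomialSeries C t =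
      PowerSeries.map (Polynomial.evalRingHom t) (PowerSeries.mk (fun k => psiP C k)) := by
    intro t
    ext m
    rw [PowerSeries.binomialSeries_coeff, PowerSeries.coeff_map, PowerSeries.coeff_mk,
      Polynomial.coe_evalRingHom, psi_eval, smul_eq_mul, mul_one]
  have hAe : ∀ t : C, PowerSeries.coeff n ((PowerSeries.binomialSeries C t) ^ p) =
      Polynomial.eval t A := by
    intro t
    rw [hmap t, ← map_pow, PowerSeries.coeff_map, Polynomial.coe_evalRingHom, hA]
  have hBe : ∀ t : C, ∑ k ∈ range (n + 1), Ring.choose t k *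
      PowerSeries.coeff n (((1 + PowerSeries.X : PowerSeries C) ^ p - 1) ^ k) =
      Polynomial.eval t B := by
    intro t
    rw [hB, Polynomial.eval_finset_sum]
    refine Finset.sum_congr rfl fun k _ => ?_
    rw [Polynomial.eval_mul, Polynomial.eval_C, psi_eval]
  have hAB : A = B := by
    apply Polynomial.eq_of_infinite_eval_eq
    apply Set.Infinite.mono (s := Set.range (fun d : ℕ => (d : C)))
    · rintro _ ⟨d, rfl⟩
      show Polynomial.eval (d : C) A = Polynomial.eval (d : C) B
      rw [← hAe, ← hBe]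
      exact psi_nat C p d n
    · exact Set.infinite_range_of_injective Nat.cast_injective
  rw [hAe, hBe, hAB]

end ASur
end

section
/-!
# MP_b685ef_ag, theorem AS, module REIDX: the blocks do not depend on `L`
-/
set_option linter.all false

namespace ASur

open Finset

private theorem reidx_le_ew {a b : ℕ} (ha : 2 ≤ a) (hb : 2 ≤ b) (w : Fin 2 → ℕ) (s : Fin 2) :
    w s ≤ ew a b w := by
  have hpos : 0 < Nat.lcm a b := Nat.lcm_pos (by omega) (by omega)
  have h1 : 1 ≤ Nat.lcm a b / a :=
    Nat.div_pos (Nat.le_of_dvd hpos (Nat.dvd_lcm_left a b)) (by omega)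
  have h2 : 1 ≤ Nat.lcm a b / b :=
    Nat.div_pos (Nat.le_of_dvd hpos (Nat.dvd_lcm_right a b)) (by omega)
  unfold ew
  fin_cases s
  · show w 0 ≤ _
    nlinarith [Nat.zero_le (w 0), Nat.zero_le (Nat.lcm a b / b * w 1)]
  · show w 1 ≤ _
    nlinarith [Nat.zero_le (w 1), Nat.zero_le (Nat.lcm a b / a * w 0)]

/-- Change of the size of the box, for a predicate that forces the coordinates to be `≤ D`. -/
private def reidx_eqv {D L : ℕ} (hDL : D ≤ L) (P : (Fin 2 → ℕ) → Prop)
    (hP : ∀ w, P w → ∀ s, w s ≤ D) :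
    {u : Fin 2 → Fin D // P (pt u)} ≃ {u : Fin 2 → Fin L // P (pt u)} where
  toFun u := ⟨fun s => Fin.castLE hDL (u.1 s), u.2⟩
  invFun u := ⟨fun s => ⟨(u.1 s : ℕ), by
    have h := hP _ u.2 s
    simp only [pt] at h
    omega⟩, u.2⟩
  left_inv _ := rfl
  right_inv _ := rfl

private theorem reidx_eqv_pt {D L : ℕ} (hDL : D ≤ L) (P : (Fin 2 → ℕ) → Prop)
    (hP : ∀ w, P w → ∀ s, w s ≤ D) (u : {u : Fin 2 → Fin D // P (pt u)}) :
    pt (reidx_eqv hDL P hP u).1 = pt u.1 := rfl

private theorem reidx_Fprod (p : ℕ) {ι κ k : Type} [Fintype ι] [DecidableEq ι] [Fintype κ]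
    [DecidableEq κ] [CommSemiring k] (e : ι ≃ κ) (M : Matrix κ κ k) (n : ℕ) :
    Fprod p (M.submatrix e e) n = (Fprod p M n).submatrix e e := by
  induction n with
  | zero => simp [Fprod]
  | succ n ih =>
    rw [Fprod, Fprod, ih, ← Matrix.submatrix_mul_equiv _ _ e e e, Matrix.submatrix_map]

theorem reidx_thm : StmtREIDX := by
  intro p a b ha hb L m hm hL
  have hlt : ∀ w : Fin 2 → ℕ, ew a b w < m → ∀ s, w s ≤ Nat.lcm a b := fun w hw s =>
    (reidx_le_ew ha hb w s).trans (hw.le.trans hm)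
  have heq : ∀ w : Fin 2 → ℕ, ew a b w = m → ∀ s, w s ≤ Nat.lcm a b := fun w hw s =>
    (reidx_le_ew ha hb w s).trans (hw.le.trans hm)
  refine ⟨(Fintype.card_congr (reidx_eqv hL (fun w => ew a b w < m) hlt)).symm,
    (Fintype.card_congr (reidx_eqv hL (fun w => ew a b w = m) heq)).symm, ?_⟩
  intro k _ f h
  have hH : Hmat p a b (Nat.lcm a b) m f =
      (Hmat p a b L m f).submatrix (reidx_eqv hL (fun w => ew a b w = m) heq)
        (reidx_eqv hL (fun w => ew a b w = m) heq) := rfl
  rw [hH, reidx_Fprod]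
  exact (Matrix.charpoly_reindex (reidx_eqv hL (fun w => ew a b w = m) heq).symm
    (Fprod p (Hmat p a b L m f) h)).symm

end ASur
end

section
/-!
# MP_b685ef_ag, theorem AS: from the edge to the roots
-/
set_option linter.all false

namespace ASur

open Finset

section roots

variable {C : Type} [NormedField C] [IsUltrametricDist C]

private theorem roots_inv_le {b : C} (h : 1 < ‖b‖) : ‖b⁻¹‖ ≤ 1 := by
  rw [norm_inv]
  exact inv_le_one_of_one_le₀ h.le

private theorem roots_inv_lt {b : C} (h : 1 < ‖b‖) : ‖b⁻¹‖ < 1 := by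
  rw [norm_inv]
  exact inv_lt_one_of_one_lt₀ h

/-- the factor of `b`, over `O`: `b⁻¹ - X` if `‖b‖ > 1`, else `1 - b X`. -/
private noncomputable def fac (b : C) : Polynomial (OO C) :=
  if h : 1 < ‖b‖ then Polynomial.C ⟨b⁻¹, mem_OO.2 (roots_inv_le h)⟩ - Polynomial.X
  else 1 - Polynomial.C ⟨b, mem_OO.2 (not_lt.1 h)⟩ * Polynomial.X

open Classical in
private noncomputable def sc (b : C) : C := if 1 < ‖b‖ then b⁻¹ else 1

private theorem sc_ne (b : C) : sc b ≠ 0 := by
  unfold sc
  split_ifs with h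
  · apply inv_ne_zero
    rintro rfl
    simp at h
    linarith
  · exact one_ne_zero

private theorem fac_map (b : C) :
    (fac b).map (OO C).subtype = Polynomial.C (sc b) * (1 - Polynomial.C b * Polynomial.X) := by
  unfold fac sc
  split_ifs with h
  · have hb : b ≠ 0 := by
      rintro rfl
      simp at h
      linarith
    rw [Polynomial.map_sub, Polynomial.map_C, Polynomial.map_X, mul_sub, mul_one, ← mul_assoc,
      ← Polynomial.C_mul, inv_mul_cancel₀ hb, Polynomial.C_1, one_mul]
    rfl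
  · rw [Polynomial.map_sub, Polynomial.map_mul, Polynomial.map_C, Polynomial.map_X,
      Polynomial.map_one, Polynomial.C_1, one_mul]
    rfl

private theorem fac_red_big {b : C} (h : 1 < ‖b‖) :
    (fac b).map (IsLocalRing.residue (OO C)) = -Polynomial.X := by
  unfold fac
  rw [dif_pos h, Polynomial.map_sub, Polynomial.map_C, Polynomial.map_X]
  have : IsLocalRing.residue (OO C) ⟨b⁻¹, mem_OO.2 (roots_inv_le h)⟩ = 0 := by
    rw [← rd_of_le (roots_inv_le h), rd_of_lt (roots_inv_lt h)]
  rw [this, Polynomial.C_0, zero_sub]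

private theorem fac_red {b : C} (h : ‖b‖ ≤ 1) :
    (fac b).map (IsLocalRing.residue (OO C)) = 1 - Polynomial.C (rd b) * Polynomial.X := by
  unfold fac
  rw [dif_neg (not_lt.2 h), Polynomial.map_sub, Polynomial.map_mul, Polynomial.map_C,
    Polynomial.map_X, Polynomial.map_one, ← rd_of_le h]

open Classical in
private theorem prod_red (β : Multiset C) :
    ((β.map fac).prod).map (IsLocalRing.residue (OO C)) =
      (-1 : Polynomial (KK C)) ^ (Multiset.card (β.filter fun x => 1 < ‖x‖)) *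
      Polynomial.X ^ (Multiset.card (β.filter fun x => 1 < ‖x‖)) *
      ((β.filter fun x => ‖x‖ = 1).map fun x =>
        (1 - Polynomial.C (rd x) * Polynomial.X : Polynomial (KK C))).prod := by
  induction β using Multiset.induction_on with
  | empty => simp
  | cons b β ih =>
    rw [Multiset.map_cons, Multiset.prod_cons, Polynomial.map_mul, ih]
    rcases lt_trichotomy ‖b‖ 1 with h | h | h
    · rw [Multiset.filter_cons_of_neg (p := fun x : C => 1 < ‖x‖) _ (not_lt.2 h.le),
        Multiset.filter_cons_of_neg (p := fun x : C => ‖x‖ = 1) _ h.ne,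
        fac_red h.le, rd_of_lt h, Polynomial.C_0, zero_mul, sub_zero, one_mul]
    · rw [Multiset.filter_cons_of_neg (p := fun x : C => 1 < ‖x‖) _ (not_lt.2 h.le),
        Multiset.filter_cons_of_pos (p := fun x : C => ‖x‖ = 1) _ h,
        fac_red h.le, Multiset.map_cons, Multiset.prod_cons]
      ring
    · rw [Multiset.filter_cons_of_pos (p := fun x : C => 1 < ‖x‖) _ h,
        Multiset.filter_cons_of_neg (p := fun x : C => ‖x‖ = 1) _ h.ne', fac_red_big h,
        Multiset.card_cons]
      ring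

private theorem prod_map (β : Multiset C) :
    ((β.map fac).prod).map (OO C).subtype =
      Polynomial.C (β.map sc).prod * (β.map fun b => 1 - Polynomial.C b * Polynomial.X).prod := by
  induction β using Multiset.induction_on with
  | empty => simp
  | cons b β ih =>
    rw [Multiset.map_cons, Multiset.prod_cons, Polynomial.map_mul, ih, Multiset.map_cons,
      Multiset.prod_cons, Multiset.map_cons, Multiset.prod_cons, fac_map, Polynomial.C_mul]
    ring

private theorem scale_coeff (β : Multiset C) (ϖ : C) (n : ℕ) :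
    ((β.map fun x => 1 - Polynomial.C (x / ϖ) * Polynomial.X).prod).coeff n =
      (revP β).coeff n / ϖ ^ n := by
  have h : (β.map fun x => 1 - Polynomial.C (x / ϖ) * Polynomial.X).prod =
      (revP β).comp (Polynomial.C ϖ⁻¹ * Polynomial.X) := by
    unfold revP
    rw [Polynomial.multiset_prod_comp, Multiset.map_map]
    congr 1
    refine Multiset.map_congr rfl fun x _ => ?_
    simp only [Function.comp_apply, Polynomial.sub_comp, Polynomial.one_comp, Polynomial.mul_comp,
      Polynomial.C_comp, Polynomial.X_comp]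
    rw [div_eq_mul_inv, Polynomial.C_mul, mul_assoc]
  rw [h, Polynomial.comp_C_mul_X_coeff, inv_pow, div_eq_mul_inv]

private theorem revP_natDegree (β : Multiset C) : (revP β).natDegree ≤ Multiset.card β := by
  unfold revP
  refine (Polynomial.natDegree_multiset_prod_le _).trans ?_
  rw [Multiset.map_map]
  have : ∀ x ∈ β, (Polynomial.natDegree ∘ fun x : C =>
      (1 - Polynomial.C x * Polynomial.X : Polynomial C)) x ≤ 1 := by
    intro x _
    simp only [Function.comp_apply]
    refine (Polynomial.natDegree_sub_le _ _).trans ?_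
    rw [Polynomial.natDegree_one]
    exact max_le (by norm_num) ((Polynomial.natDegree_C_mul_le _ _).trans Polynomial.natDegree_X_le)
  calc (β.map (Polynomial.natDegree ∘ fun x : C =>
      (1 - Polynomial.C x * Polynomial.X : Polynomial C))).sum ≤ (β.map fun _ => 1).sum :=
        Multiset.sum_map_le_sum_map _ _ this
    _ = Multiset.card β := by simp

end roots

theorem roots_thm : StmtROOTS := by
  classical
  intro C _ _ β ϖ M χ m0 hϖ hsep hχ0 hβ hM hE
  obtain ⟨c, hc0, hc1, hE⟩ := hE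
  -- the condition holds for all `n`
  have hE' : ∀ n, ‖c * (revP β).coeff n / ϖ ^ n‖ ≤ 1 ∧
      rd (c * (revP β).coeff n / ϖ ^ n) = (Polynomial.X ^ M * χ).coeff n := by
    intro n
    rcases le_or_gt n m0 with hn | hn
    · have := hE n hn
      rwa [Polynomial.coeff_coe] at this
    · have h1 : (revP β).coeff n = 0 :=
        Polynomial.coeff_eq_zero_of_natDegree_lt (lt_of_le_of_lt ((revP_natDegree β).trans hβ) hn)
      have h2 : (Polynomial.X ^ M * χ).coeff n = 0 := by
        apply Polynomial.coeff_eq_zero_of_natDegree_lt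
        refine lt_of_le_of_lt ?_ hn
        refine Polynomial.natDegree_mul_le.trans ?_
        exact (Nat.add_le_add_right (Polynomial.natDegree_X_pow_le M) _).trans hM
      rw [h1, h2]
      simp
  set b : Multiset C := β.map fun x => x / ϖ with hb
  set R0 : Polynomial (OO C) := (b.map fac).prod with hR0
  set e : C := (b.map sc).prod with he
  have he0 : e ≠ 0 := by
    rw [he, Ne, Multiset.prod_eq_zero_iff, Multiset.mem_map]
    rintro ⟨x, _, hx⟩
    exact sc_ne x hx
  set d : C := c * e⁻¹ with hd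
  have hd0 : d ≠ 0 := mul_ne_zero hc0 (inv_ne_zero he0)
  have hco : ∀ n, c * (revP β).coeff n / ϖ ^ n = d * ((R0.coeff n : OO C) : C) := by
    intro n
    have h1 : ((R0.coeff n : OO C) : C) = (R0.map (OO C).subtype).coeff n := by
      rw [Polynomial.coeff_map]; rfl
    have h2 : (b.map (fun b : C => (1 - Polynomial.C b * Polynomial.X : Polynomial C))).prod =
        (β.map fun x => (1 - Polynomial.C (x / ϖ) * Polynomial.X : Polynomial C)).prod := by
      rw [hb, Multiset.map_map]
      rfl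
    rw [h1, hR0, prod_map, Polynomial.coeff_C_mul, h2, scale_coeff, ← he, hd]
    field_simp
  have hr0 : R0.map (IsLocalRing.residue (OO C)) =
      (-1 : Polynomial (KK C)) ^ (Multiset.card (b.filter fun x => 1 < ‖x‖)) *
      Polynomial.X ^ (Multiset.card (b.filter fun x => 1 < ‖x‖)) *
      ((b.filter fun x => ‖x‖ = 1).map fun x =>
        (1 - Polynomial.C (rd x) * Polynomial.X : Polynomial (KK C))).prod := prod_red b
  set N := Multiset.card (b.filter fun x => 1 < ‖x‖) with hN
  set T := b.filter fun x => ‖x‖ = 1 with hT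
  set S : Polynomial (KK C) := (T.map fun x =>
        (1 - Polynomial.C (rd x) * Polynomial.X : Polynomial (KK C))).prod with hS
  have hS0 : S.coeff 0 = 1 := by
    rw [Polynomial.coeff_zero_eq_eval_zero, hS, Polynomial.eval_multiset_prod, Multiset.map_map]
    apply Multiset.prod_eq_one
    intro x hx
    rw [Multiset.mem_map] at hx
    obtain ⟨y, _, rfl⟩ := hx
    simp
  have hcoefN : (R0.map (IsLocalRing.residue (OO C))).coeff N = (-1) ^ N := by
    rw [hr0, mul_assoc, mul_comm (Polynomial.X ^ N) S, ← mul_assoc]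
    have h1 : ((-1 : Polynomial (KK C)) ^ N * S * Polynomial.X ^ N).coeff N =
        ((-1 : Polynomial (KK C)) ^ N * S).coeff 0 := by
      have := Polynomial.coeff_mul_X_pow ((-1 : Polynomial (KK C)) ^ N * S) N 0
      rwa [zero_add] at this
    rw [h1, Polynomial.mul_coeff_zero, hS0, mul_one]
    have h2 : ((-1 : Polynomial (KK C)) ^ N) = Polynomial.C ((-1) ^ N) := by
      rw [Polynomial.C_pow, Polynomial.C_neg, Polynomial.C_1]
    rw [h2, Polynomial.coeff_C_zero]
  -- the scalar is a unit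
  have hrdR : ∀ n, rd ((R0.coeff n : OO C) : C) =
      (R0.map (IsLocalRing.residue (OO C))).coeff n := by
    intro n
    rw [rd_coe, Polynomial.coeff_map]
  have hRle : ∀ n, ‖((R0.coeff n : OO C) : C)‖ ≤ 1 := fun n => norm_coe_le _
  have hd1 : ‖d‖ ≤ 1 := by
    have h1 : ‖((R0.coeff N : OO C) : C)‖ = 1 := by
      by_contra hne
      have hlt : ‖((R0.coeff N : OO C) : C)‖ < 1 := lt_of_le_of_ne (hRle N) hne
      have h2 := rd_of_lt hlt
      rw [hrdR, hcoefN] at h2
      exact pow_ne_zero N (neg_ne_zero.2 one_ne_zero) h2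
    have h2 := (hE' N).1
    rw [hco, norm_mul, h1, mul_one] at h2
    exact h2
  have hcoefM : (Polynomial.X ^ M * χ).coeff M = 1 := by
    rw [mul_comm]
    have := Polynomial.coeff_mul_X_pow χ M 0
    rw [zero_add] at this
    rw [this, hχ0]
  have hd2 : ‖d‖ = 1 := by
    refine le_antisymm hd1 ?_
    have h1 := hE' M
    rw [hcoefM, hco] at h1
    have h2 : ‖d * ((R0.coeff M : OO C) : C)‖ = 1 := by
      by_contra hne
      have hlt : ‖d * ((R0.coeff M : OO C) : C)‖ < 1 := lt_of_le_of_ne h1.1 hne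
      have h3 := rd_of_lt hlt
      rw [h1.2] at h3
      exact one_ne_zero h3
    rw [norm_mul] at h2
    nlinarith [hRle M, norm_nonneg d, norm_nonneg ((R0.coeff M : OO C) : C)]
  set u : KK C := rd d with hu
  have hu0 : u ≠ 0 := by
    rw [hu, Ne, rd_eq_zero_iff hd1]
    intro h; linarith
  have hpoly : Polynomial.X ^ M * χ = Polynomial.C u * ((-1) ^ N * Polynomial.X ^ N * S) := by
    rw [← hr0]
    ext n
    rw [← (hE' n).2, hco, rd_mul hd1 (hRle n), hrdR, Polynomial.coeff_C_mul]
  have hneg : ((-1 : Polynomial (KK C)) ^ N) = Polynomial.C ((-1) ^ N) := by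
    rw [Polynomial.C_pow, Polynomial.C_neg, Polynomial.C_1]
  set v : KK C := u * (-1) ^ N with hv
  have hv0 : v ≠ 0 := mul_ne_zero hu0 (pow_ne_zero N (neg_ne_zero.2 one_ne_zero))
  have hpoly2 : Polynomial.X ^ M * χ = Polynomial.X ^ N * (Polynomial.C v * S) := by
    rw [hpoly, hneg, hv, Polynomial.C_mul]
    ring
  have hMN : M = N := by
    rcases lt_trichotomy M N with h | h | h
    · exfalso
      have h1 : (Polynomial.X ^ N * (Polynomial.C v * S)).coeff M = 0 := by
        rw [Polynomial.coeff_X_pow_mul', if_neg (not_le.2 h)]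
      rw [← hpoly2, hcoefM] at h1
      exact one_ne_zero h1
    · exact h
    · exfalso
      have h1 : (Polynomial.X ^ M * χ).coeff N = 0 := by
        rw [Polynomial.coeff_X_pow_mul', if_neg (not_le.2 h)]
      rw [hpoly2, Polynomial.coeff_X_pow_mul', if_pos le_rfl, Nat.sub_self,
        Polynomial.coeff_C_mul, hS0, mul_one] at h1
      exact hv0 h1
  have hχ : χ = Polynomial.C v * S := by
    rw [hMN] at hpoly2
    exact mul_left_cancel₀ (pow_ne_zero N Polynomial.X_ne_zero) hpoly2
  have hfac : ∀ x ∈ T, rd x ≠ 0 := by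
    intro x hx
    rw [hT, Multiset.mem_filter] at hx
    rw [Ne, rd_eq_zero_iff hx.2.le]
    intro h; linarith [hx.2]
  have hdeg1 : ∀ x ∈ T, (1 - Polynomial.C (rd x) * Polynomial.X : Polynomial (KK C)).natDegree = 1 := by
    intro x hx
    have h1 : (1 - Polynomial.C (rd x) * Polynomial.X : Polynomial (KK C)) =
        Polynomial.C (-rd x) * Polynomial.X + Polynomial.C 1 := by
      rw [Polynomial.C_neg, Polynomial.C_1]; ring
    rw [h1]
    exact Polynomial.natDegree_linear (neg_ne_zero.2 (hfac x hx))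
  have hSdeg : S.natDegree = Multiset.card T := by
    rw [hS, Polynomial.natDegree_multiset_prod]
    · rw [Multiset.map_map]
      have : T.map (Polynomial.natDegree ∘ fun x : C =>
          (1 - Polynomial.C (rd x) * Polynomial.X : Polynomial (KK C))) = T.map fun _ => 1 :=
        Multiset.map_congr rfl fun x hx => hdeg1 x hx
      rw [this]
      simp
    · intro h0
      rw [Multiset.mem_map] at h0
      obtain ⟨x, hx, h0⟩ := h0
      have := hdeg1 x hx
      rw [h0] at this
      simp at this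
  have hTnodup : T.Nodup := by
    rw [Multiset.nodup_iff_le]
    intro x hx
    obtain ⟨T', hT'⟩ := Multiset.le_iff_exists_add.1 hx
    have hxT : x ∈ T := by
      rw [hT']
      simp
    have hsepS : S.Separable := by
      rw [hχ] at hsep
      exact Polynomial.Separable.of_mul_right hsep
    have hsq := hsepS.squarefree
    have hdiv : (1 - Polynomial.C (rd x) * Polynomial.X : Polynomial (KK C)) *
        (1 - Polynomial.C (rd x) * Polynomial.X) ∣ S := by
      rw [hS, hT', Multiset.map_add, Multiset.prod_add, Multiset.map_cons, Multiset.map_cons,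
        Multiset.map_zero, Multiset.prod_cons, Multiset.prod_cons, Multiset.prod_zero, mul_one]
      exact Dvd.intro _ rfl
    have hunit := hsq _ hdiv
    have := Polynomial.natDegree_eq_zero_of_isUnit hunit
    rw [hdeg1 x hxT] at this
    exact one_ne_zero this
  -- translate to `β`
  have hϖn : 0 < ‖ϖ‖ := norm_pos_iff.2 hϖ
  have h1 : b.filter (fun x => 1 < ‖x‖) = (β.filter fun x => ‖ϖ‖ < ‖x‖).map fun x => x / ϖ := by
    rw [hb, Multiset.filter_map]
    congr 1
    refine Multiset.filter_congr fun x _ => ?_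
    simp only [Function.comp_apply, norm_div]
    rw [lt_div_iff₀ hϖn, one_mul]
  have h2 : T = (β.filter fun x => ‖x‖ = ‖ϖ‖).map fun x => x / ϖ := by
    rw [hT, hb, Multiset.filter_map]
    congr 1
    refine Multiset.filter_congr fun x _ => ?_
    simp only [Function.comp_apply, norm_div]
    rw [div_eq_iff hϖn.ne', one_mul]
  refine ⟨?_, ?_, ?_⟩
  · rw [hMN, hN, h1, Multiset.card_map]
  · rw [hχ, Polynomial.natDegree_C_mul hv0, hSdeg, h2, Multiset.card_map]
  · rw [h2] at hTnodup
    exact Multiset.Nodup.of_map _ hTnodup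

end ASur
end

section
/-!
# MP_b685ef_ag, theorem AS, module SMALL
-/
set_option linter.all false

namespace ASur

open Finset

private def small_Bd {C : Type} [NormedField C] (s : ℝ) (F : Polynomial C) : Prop :=
  ∀ n, ‖F.coeff n‖ ≤ s ^ n

section
variable {C : Type} [NormedField C] [IsUltrametricDist C]

private theorem small_add {s : ℝ} {F G : Polynomial C} (hF : small_Bd s F) (hG : small_Bd s G) :
    small_Bd s (F + G) := by
  intro n
  rw [Polynomial.coeff_add]
  exact (IsUltrametricDist.norm_add_le_max _ _).trans (max_le (hF n) (hG n))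

private theorem small_mul {s : ℝ} (hs : 0 ≤ s) {F G : Polynomial C} (hF : small_Bd s F)
    (hG : small_Bd s G) : small_Bd s (F * G) := by
  intro n
  rw [Polynomial.coeff_mul]
  refine IsUltrametricDist.norm_sum_le_of_forall_le_of_nonneg (pow_nonneg hs n) ?_
  rintro ⟨i, j⟩ hij
  have hij' : i + j = n := Finset.HasAntidiagonal.mem_antidiagonal.1 hij
  simp only
  rw [norm_mul, ← hij', pow_add]
  exact mul_le_mul (hF i) (hG j) (norm_nonneg _) (pow_nonneg hs i)

private theorem small_C {s : ℝ} (hs : 0 ≤ s) {c : C} (hc : ‖c‖ ≤ 1) :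
    small_Bd s (Polynomial.C c) := by
  intro n
  rw [Polynomial.coeff_C]
  split_ifs with h
  · subst h; simpa using hc
  · simpa using pow_nonneg hs n

private theorem small_X {s : ℝ} (hs : 0 ≤ s) {c : C} (hc : ‖c‖ ≤ s) :
    small_Bd s (Polynomial.X * Polynomial.C c) := by
  intro n
  rw [Polynomial.coeff_mul_C, Polynomial.coeff_X]
  split_ifs with h
  · subst h; simpa using hc
  · simpa using pow_nonneg hs n

private theorem small_neg {s : ℝ} {F : Polynomial C} (hF : small_Bd s F) : small_Bd s (-F) := by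
  intro n
  rw [Polynomial.coeff_neg, norm_neg]
  exact hF n

private theorem small_prod {s : ℝ} (hs : 0 ≤ s) {ι : Type} (t : Finset ι) {F : ι → Polynomial C}
    (hF : ∀ i ∈ t, small_Bd s (F i)) : small_Bd s (∏ i ∈ t, F i) := by
  classical
  induction t using Finset.induction_on with
  | empty =>
    have := small_C (C := C) hs (c := 1) (by simp)
    simpa using this
  | insert a t ha ih =>
    rw [Finset.prod_insert ha]
    exact small_mul hs (hF a (by simp)) (ih fun i hi => hF i (by simp [hi]))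

private theorem small_sum {s : ℝ} (hs : 0 ≤ s) {ι : Type} (t : Finset ι) {F : ι → Polynomial C}
    (hF : ∀ i ∈ t, small_Bd s (F i)) : small_Bd s (∑ i ∈ t, F i) := by
  classical
  induction t using Finset.induction_on with
  | empty => intro n; simpa using pow_nonneg hs n
  | insert a t ha ih =>
    rw [Finset.sum_insert ha]
    exact small_add (hF a (by simp)) (ih fun i hi => hF i (by simp [hi]))

private theorem small_det {s : ℝ} (hs : 0 ≤ s) {ι : Type} [Fintype ι] [DecidableEq ι]
    {M : Matrix ι ι (Polynomial C)} (hM : ∀ u v, small_Bd s (M u v)) : small_Bd s M.det := by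
  rw [Matrix.det_apply]
  refine small_sum hs _ fun σ _ => ?_
  have h1 : small_Bd s (∏ i, M (σ i) i) := small_prod hs _ fun i _ => hM _ _
  rcases Int.units_eq_one_or (Equiv.Perm.sign σ) with h | h
  · rw [h, one_smul]; exact h1
  · rw [h]
    have : ((-1 : ℤˣ) • ∏ i, M (σ i) i) = - ∏ i, M (σ i) i := by
      rw [Units.neg_smul, one_smul]
    rw [this]
    exact small_neg h1

private theorem small_rev {s : ℝ} (hs : 0 ≤ s) {ι : Type} [Fintype ι] [DecidableEq ι]
    {M : Matrix ι ι C} (hM : ∀ u v, ‖M u v‖ ≤ s) : small_Bd s M.charpolyRev := by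
  rw [Matrix.charpolyRev]
  refine small_det hs fun u v => ?_
  rw [Matrix.sub_apply, Matrix.smul_apply, Matrix.map_apply, sub_eq_add_neg, smul_eq_mul]
  refine small_add ?_ (small_neg (small_X hs (hM u v)))
  rw [Matrix.one_apply]
  split_ifs
  · have := small_C (C := C) hs (c := 1) (by simp)
    simpa using this
  · have := small_C (C := C) hs (c := 0) (by simp)
    simpa using this

private theorem small_pmat {ι : Type} [Fintype ι] [DecidableEq ι] {r : ℝ} (h0 : 0 ≤ r)
    (h1 : r ≤ 1) (B : ℕ → Matrix ι ι C) (hB : ∀ i u v, ‖B i u v‖ ≤ r) :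
    ∀ n, (∀ u v, ‖Pmat B n u v‖ ≤ 1) ∧ (1 ≤ n → ∀ u v, ‖Pmat B n u v‖ ≤ r) := by
  intro n
  induction n with
  | zero =>
    refine ⟨fun u v => ?_, fun h => absurd h (by norm_num)⟩
    rw [Pmat, Matrix.one_apply]
    split_ifs <;> simp
  | succ n ih =>
    have key : ∀ u v, ‖Pmat B (n + 1) u v‖ ≤ r := by
      intro u v
      rw [Pmat, Matrix.mul_apply]
      refine IsUltrametricDist.norm_sum_le_of_forall_le_of_nonneg h0 fun w _ => ?_
      rw [norm_mul]
      calc ‖B n u w‖ * ‖Pmat B n w v‖ ≤ r * 1 :=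
            mul_le_mul (hB n u w) (ih.1 w v) (norm_nonneg _) h0
        _ = r := mul_one r
    exact ⟨fun u v => (key u v).trans h1, fun _ => key⟩

private theorem small_conj {ι : Type} [Fintype ι] [DecidableEq ι] (W : (Matrix ι ι C)ˣ)
    (A B : ℕ → Matrix ι ι C) (hAB : ∀ i, A i = (W : Matrix ι ι C) * B i * (W⁻¹ : (Matrix ι ι C)ˣ)) :
    ∀ n, Pmat A n = (W : Matrix ι ι C) * Pmat B n * (W⁻¹ : (Matrix ι ι C)ˣ) := by
  intro n
  induction n with
  | zero => simp [Pmat]
  | succ n ih =>
    rw [Pmat, Pmat, ih, hAB n]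
    simp only [mul_assoc]
    rw [← mul_assoc ((W⁻¹ : (Matrix ι ι C)ˣ) : Matrix ι ι C) (W : Matrix ι ι C), Units.inv_mul,
      one_mul]

end

theorem SMALL_thm : StmtSMALL := by
  intro C _ _ ι _ _ e p h ρ x ϖ A Cm hp hh hρ0 hρ1 he hCm hA hϖ hx
  classical
  have hρn : 0 < ‖ρ‖ := norm_pos_iff.2 hρ0
  -- the conjugated matrices
  let B : ℕ → Matrix ι ι C := fun i => Matrix.of fun u v => ρ ^ ((p - 1) * e u) * Cm i u v
  have hB : ∀ i u v, ‖B i u v‖ ≤ ‖ρ‖ := by
    intro i u v
    show ‖ρ ^ ((p - 1) * e u) * Cm i u v‖ ≤ ‖ρ‖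
    rw [norm_mul, norm_pow]
    have h1 : 1 ≤ (p - 1) * e u := Nat.one_le_iff_ne_zero.2
      (Nat.mul_ne_zero (by omega) (by have := he u; omega))
    have h2 : ‖ρ‖ ^ ((p - 1) * e u) ≤ ‖ρ‖ ^ 1 := pow_le_pow_of_le_one hρn.le hρ1.le h1
    calc ‖ρ‖ ^ ((p - 1) * e u) * ‖Cm i u v‖ ≤ ‖ρ‖ ^ 1 * 1 :=
          mul_le_mul h2 (hCm i u v) (norm_nonneg _) (by positivity)
      _ = ‖ρ‖ := by rw [pow_one, mul_one]
  -- the unit W
  have hdet : IsUnit (Matrix.diagonal fun u => ρ ^ e u : Matrix ι ι C) := by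
    rw [Matrix.isUnit_iff_isUnit_det, Matrix.det_diagonal]
    exact (Finset.prod_ne_zero_iff.2 fun u _ => pow_ne_zero _ hρ0).isUnit
  obtain ⟨W, hW⟩ := hdet
  have hAB : ∀ i, A i = (W : Matrix ι ι C) * B i * (W⁻¹ : (Matrix ι ι C)ˣ) := by
    intro i
    rw [Units.eq_mul_inv_iff_mul_eq, hW]
    ext u v
    rw [Matrix.mul_diagonal, Matrix.diagonal_mul]
    show A i u v * ρ ^ e v = ρ ^ e u * (ρ ^ ((p - 1) * e u) * Cm i u v)
    rw [hA i u v, ← mul_assoc, ← pow_add]
    congr 2
    have : p = (p - 1) + 1 := by omega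
    calc p * e u = ((p - 1) + 1) * e u := by rw [← this]
      _ = e u + (p - 1) * e u := by ring
  have hP := small_conj W A B hAB h
  have hrev : (x • Pmat A h).charpolyRev = (x • Pmat B h).charpolyRev := by
    rw [← Matrix.reverse_charpoly, ← Matrix.reverse_charpoly]
    congr 1
    have : x • Pmat A h = (W : Matrix ι ι C) * (x • Pmat B h) * (W⁻¹ : (Matrix ι ι C)ˣ) := by
      rw [hP, Matrix.mul_smul, Matrix.smul_mul]
    rw [this, Matrix.coe_units_inv, Matrix.charpoly_units_conj]
  have hs : (0 : ℝ) ≤ ‖x‖ * ‖ρ‖ := by positivity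
  have hbd : small_Bd (‖x‖ * ‖ρ‖) (x • Pmat B h).charpolyRev := by
    refine small_rev hs fun u v => ?_
    rw [Matrix.smul_apply, smul_eq_mul, norm_mul]
    exact mul_le_mul_of_nonneg_left ((small_pmat hρn.le hρ1.le B hB h).2 hh u v) (norm_nonneg _)
  refine ⟨?_, ?_⟩
  · rw [Polynomial.constantCoeff_coe, Polynomial.coeff_zero_eq_eval_zero, Matrix.eval_charpolyRev]
  · intro n hn
    rw [Polynomial.coeff_coe, hrev, norm_div, norm_pow]
    have hϖn : 0 < ‖ϖ‖ := norm_pos_iff.2 hϖ
    rw [div_lt_one (by positivity)]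
    refine (hbd n).trans_lt ?_
    rw [mul_pow]
    calc ‖x‖ ^ n * ‖ρ‖ ^ n ≤ ‖ϖ‖ ^ n * ‖ρ‖ ^ n :=
          mul_le_mul_of_nonneg_right (pow_le_pow_left₀ (norm_nonneg _) hx n) (by positivity)
      _ < ‖ϖ‖ ^ n * 1 := by
          apply mul_lt_mul_of_pos_left _ (by positivity)
          exact pow_lt_one₀ hρn.le hρ1 (by omega)
      _ = ‖ϖ‖ ^ n := mul_one _

end ASur
end

section
/-!
# MP_b685ef_ag, theorem AS: module SUM2

The sum of `G(τ x)` over the points of the plane, by the moments of the Teichmüller lift.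
-/
set_option linter.all false

namespace ASur

open Finset

private noncomputable def s2b {C : Type} [CommRing C] (N L m : ℕ) : C :=
  ∑ u : Fin L, if N * ((u : ℕ) + 1) = m then (1 : C) else 0

private theorem s2b_eq {C : Type} [CommRing C] {N L m : ℕ} (hN : 1 ≤ N) (hm : m ≤ N * L) :
    (s2b N L m : C) = if m ≠ 0 ∧ N ∣ m then 1 else 0 := by
  unfold s2b
  split_ifs with h
  · obtain ⟨h0, k, rfl⟩ := h
    have hk : k ≠ 0 := by
      rintro rfl
      simp at h0
    have hkL : k ≤ L := Nat.le_of_mul_le_mul_left hm hN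
    rw [Finset.sum_eq_single (⟨k - 1, by omega⟩ : Fin L)]
    · rw [if_pos]
      simp only
      rw [Nat.sub_add_cancel (by omega)]
    · intro u _ hu
      rw [if_neg]
      intro e
      apply hu
      have : (u : ℕ) + 1 = k := Nat.eq_of_mul_eq_mul_left hN e
      apply Fin.ext
      simp only
      omega
    · simp
  · apply Finset.sum_eq_zero
    intro u _
    rw [if_neg]
    intro e
    apply h
    subst e
    exact ⟨by positivity, Dvd.intro _ rfl⟩

private theorem Tsum_monomial {σ C : Type} [Fintype σ] [DecidableEq σ] [CommRing C] (N L : ℕ)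
    (m : σ →₀ ℕ) (c : C) :
    Tsum N L (MvPolynomial.monomial m c) = c * ∏ s, s2b N L (m s) := by
  unfold Tsum s2b
  rw [Finset.prod_univ_sum, Fintype.piFinset_univ, Finset.mul_sum]
  apply Finset.sum_congr rfl
  intro u _
  unfold cf
  rw [MvPolynomial.coeff_monomial]
  by_cases h : ∀ s, N * pt u s = m s
  · rw [if_pos, Finset.prod_eq_one]
    · ring
    · intro s _
      rw [if_pos]
      exact h s
    · ext s
      exact (h s).symm
  · rw [if_neg]
    · push Not at h
      obtain ⟨s, hs⟩ := h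
      rw [Finset.prod_eq_zero (Finset.mem_univ s), mul_zero]
      exact if_neg hs
    · rintro rfl
      apply h
      intro s
      rfl

private theorem Tsum_sum {σ C ι : Type} [Fintype σ] [DecidableEq σ] [CommRing C] (N L : ℕ)
    (S : Finset ι) (g : ι → MvPolynomial σ C) :
    Tsum N L (∑ i ∈ S, g i) = ∑ i ∈ S, Tsum N L (g i) := by
  unfold Tsum cf
  simp_rw [MvPolynomial.coeff_sum]
  exact Finset.sum_comm

private theorem ax_monomial0 {C : Type} [CommRing C] (m : Fin 2 →₀ ℕ) (c : C) :
    ax 0 (MvPolynomial.monomial m c) =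
      MvPolynomial.monomial (Finsupp.single 0 (m 0)) (if m 1 = 0 then c else 0) := by
  unfold ax
  rw [MvPolynomial.aeval_monomial, Finsupp.prod_fintype _ _ (by simp), Fin.prod_univ_two]
  simp only [if_true, if_neg (show ¬ ((1 : Fin 2) = 0) by decide)]
  by_cases h : m 1 = 0
  · rw [h, if_pos rfl, pow_zero, mul_one, MvPolynomial.algebraMap_eq, MvPolynomial.X_pow_eq_monomial,
      MvPolynomial.C_mul_monomial, mul_one]
  · rw [if_neg h, zero_pow h]
    simp

private theorem ax_monomial1 {C : Type} [CommRing C] (m : Fin 2 →₀ ℕ) (c : C) :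
    ax 1 (MvPolynomial.monomial m c) =
      MvPolynomial.monomial (Finsupp.single 0 (m 1)) (if m 0 = 0 then c else 0) := by
  unfold ax
  rw [MvPolynomial.aeval_monomial, Finsupp.prod_fintype _ _ (by simp), Fin.prod_univ_two]
  simp only [if_true, if_neg (show ¬ ((0 : Fin 2) = 1) by decide)]
  by_cases h : m 0 = 0
  · rw [h, if_pos rfl, pow_zero, one_mul, MvPolynomial.algebraMap_eq, MvPolynomial.X_pow_eq_monomial,
      MvPolynomial.C_mul_monomial, mul_one]
  · rw [if_neg h, zero_pow h]
    simp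

theorem sum2_thm (h1 : StmtTMOM) : StmtSUM2 := by
  intro C _ _ E _ _ ι τ hτ L G hdeg
  have hmom := h1 C E ι τ hτ
  have hQ : 1 < Fintype.card E := Fintype.one_lt_card
  obtain ⟨N, hN⟩ : ∃ N, Fintype.card E = N + 1 := ⟨Fintype.card E - 1, by omega⟩
  have hN1 : 1 ≤ N := by omega
  rw [hN] at hmom hdeg ⊢
  simp only [Nat.add_sub_cancel] at hmom hdeg ⊢
  obtain ⟨S, c, hG, hm⟩ : ∃ (S : Finset (Fin 2 →₀ ℕ)) (c : (Fin 2 →₀ ℕ) → C),
      G = ∑ m ∈ S, MvPolynomial.monomial m (c m) ∧ ∀ m ∈ S, ∀ s, m s ≤ N * L :=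
    ⟨G.support, fun m => MvPolynomial.coeff m G, G.as_sum, fun m hm s =>
      (MvPolynomial.monomial_le_degreeOf s hm).trans (hdeg s)⟩
  clear hdeg
  subst hG
  simp only [map_sum, Tsum_sum, MvPolynomial.coeff_sum]
  rw [Finset.sum_comm, ← Finset.sum_add_distrib, Finset.mul_sum, Finset.mul_sum, Finset.mul_sum,
    ← Finset.sum_add_distrib, ← Finset.sum_add_distrib]
  apply Finset.sum_congr rfl
  intro m hmS
  have e1 : ∑ x : Fin 2 → E, MvPolynomial.eval (fun s => τ (x s))
      (MvPolynomial.monomial m (c m)) = c m * ((∑ y : E, τ y ^ m 0) * ∑ y : E, τ y ^ m 1) := by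
    have := Finset.prod_univ_sum (fun _ : Fin 2 => (Finset.univ : Finset E))
      (fun s y => τ y ^ m s)
    rw [Fin.prod_univ_two, Fintype.piFinset_univ] at this
    rw [this, Finset.mul_sum]
    apply Finset.sum_congr rfl
    intro x _
    rw [MvPolynomial.eval_monomial, Finsupp.prod_fintype _ _ (by simp)]
  rw [e1, ax_monomial0, ax_monomial1, Tsum_monomial, Tsum_monomial, Tsum_monomial,
    MvPolynomial.coeff_monomial, hmom, hmom, Fin.prod_univ_two]
  simp only [Finset.univ_unique, Finset.prod_singleton, Fin.default_eq_zero,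
    Finsupp.single_eq_same]
  rw [s2b_eq hN1 (hm m hmS 0), s2b_eq hN1 (hm m hmS 1)]
  have hz : (m = 0) ↔ (m 0 = 0 ∧ m 1 = 0) := by
    constructor
    · rintro rfl
      simp
    · rintro ⟨h, h'⟩
      ext s
      fin_cases s
      · simpa using h
      · simpa using h'
  push_cast
  by_cases a0 : m 0 = 0 <;> by_cases b0 : m 1 = 0 <;> by_cases a1 : N ∣ m 0 <;>
    by_cases b1 : N ∣ m 1 <;> simp [hz, a0, b0, a1, b1] <;> ring

end ASur
end

section
/-!
# MP_b685ef_ag, AS: module TEMB
-/
set_option autoImplicit false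
set_option linter.all false

namespace ASur

theorem TEMB_thm (hKAC : StmtKAC) : StmtTEMB := by
  intro p _ C _ _ _ hp k _ _ _
  haveI : IsAlgClosed (KK C) := hKAC C
  haveI : CharP (KK C) p := charP_KK hp
  letI : Algebra (ZMod p) (KK C) := ZMod.algebra (KK C) p
  exact ⟨(IsAlgClosed.lift : k →ₐ[ZMod p] KK C).toRingHom⟩

end ASur
end

section
set_option linter.all false

namespace ASur

open Polynomial

theorem TEX_thm (h1 : StmtTUN) : StmtTEX := by
  intro p hpf C _ _ _ _ hp E _ _ ι
  classical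
  haveI : CharP (KK C) p := charP_KK hp
  haveI : CharP E p := (RingHom.charP_iff ι ι.injective p).mpr this
  obtain ⟨n, _, hn⟩ := FiniteField.card E p
  set Q := Fintype.card E with hQdef
  have hQ : 1 < Q := Fintype.one_lt_card
  have htun : ∀ t t' : C, t ^ Q = t → t' ^ Q = t' → rd t = rd t' → t = t' := by
    intro t t' ht ht' h
    rw [hn] at ht ht'
    exact h1 p C hp n n.pos t t' ht ht' h
  have hnorm : ∀ t : C, t ^ Q = t → ‖t‖ ≤ 1 := by
    intro t ht
    by_contra hlt
    push Not at hlt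
    have h2 : ‖t‖ ^ Q = ‖t‖ := by rw [← norm_pow, ht]
    have h3 : ‖t‖ ^ 1 < ‖t‖ ^ Q := pow_lt_pow_right₀ hlt hQ
    rw [h2, pow_one] at h3
    exact lt_irrefl _ h3
  -- the fixed points in `C`
  have hne : ((Q - 1 : ℕ) : C) ≠ 0 := Nat.cast_ne_zero.mpr (by omega)
  haveI : NeZero ((Q - 1 : ℕ) : C) := ⟨hne⟩
  haveI : NeZero (Q - 1) := ⟨by omega⟩
  obtain ⟨ζ, hζ⟩ := HasEnoughRootsOfUnity.exists_primitiveRoot C (Q - 1)
  set RC : Finset C := insert 0 (nthRootsFinset (Q - 1) (1 : C)) with hRC
  have hRCcard : RC.card = Q := by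
    rw [hRC, Finset.card_insert_of_notMem, hζ.card_nthRootsFinset]
    · omega
    · rw [mem_nthRootsFinset (by omega), zero_pow (by omega)]
      exact zero_ne_one
  have hRCm : ∀ t ∈ RC, t ^ Q = t := by
    intro t ht
    rw [hRC, Finset.mem_insert] at ht
    rcases ht with rfl | ht
    · exact zero_pow (by omega)
    · rw [mem_nthRootsFinset (by omega)] at ht
      have : t ^ Q = t ^ (Q - 1) * t := by rw [← pow_succ]; congr 1; omega
      rw [this, ht, one_mul]
  -- the fixed points in `κ`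
  set P : (KK C)[X] := X ^ Q - X with hP
  have hP0 : P ≠ 0 := FiniteField.X_pow_card_sub_X_ne_zero (KK C) hQ
  have hRKcard : P.roots.toFinset.card ≤ Q := by
    calc P.roots.toFinset.card ≤ Multiset.card P.roots := Multiset.toFinset_card_le _
      _ ≤ P.natDegree := card_roots' P
      _ = Q := FiniteField.X_pow_card_sub_X_natDegree_eq (KK C) hQ
  have hmap : RC.image rd ⊆ P.roots.toFinset := by
    intro y hy
    obtain ⟨t, ht, rfl⟩ := Finset.mem_image.mp hy
    rw [Multiset.mem_toFinset, mem_roots hP0, IsRoot.def, hP, eval_sub, eval_pow, eval_X,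
      ← rd_pow (hnorm t (hRCm t ht)), hRCm t ht, sub_self]
  have himg : (RC.image (rd : C → KK C)).card = Q := by
    rw [Finset.card_image_of_injOn, hRCcard]
    intro t ht t' ht' h
    exact htun t t' (hRCm t ht) (hRCm t' ht') h
  have heq : RC.image rd = P.roots.toFinset :=
    Finset.eq_of_subset_of_card_le hmap (by rw [himg]; exact hRKcard)
  have hex : ∀ x : E, ∃ t : C, t ^ Q = t ∧ rd t = ι x := by
    intro x
    have : ι x ∈ P.roots.toFinset := by
      rw [Multiset.mem_toFinset, mem_roots hP0, IsRoot.def, hP, eval_sub, eval_pow, eval_X,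
        ← map_pow, FiniteField.pow_card, sub_self]
    rw [← heq] at this
    obtain ⟨t, ht, h⟩ := Finset.mem_image.mp this
    exact ⟨t, hRCm t ht, h⟩
  choose τ hτ1 hτ2 using hex
  refine ⟨{ toFun := τ, map_zero' := ?_, map_one' := ?_, map_mul' := ?_ }, ⟨?_, ?_⟩⟩
  · apply htun _ _ (hτ1 0) (zero_pow (by omega))
    rw [hτ2, map_zero, rd_zero]
  · apply htun _ _ (hτ1 1) (one_pow _)
    rw [hτ2, map_one, rd_one]
  · intro x y
    apply htun _ _ (hτ1 _)
    · rw [mul_pow, hτ1, hτ1]
    · rw [hτ2, rd_mul (hnorm _ (hτ1 x)) (hnorm _ (hτ1 y)), hτ2, hτ2, map_mul]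
  · intro x
    exact hnorm _ (hτ1 x)
  · intro x
    exact hτ2 x

end ASur
end

section
/-!
# MP_b685ef_ag, AS: module TEXT
-/
set_option autoImplicit false
set_option linter.all false

namespace ASur

theorem TEXT_thm (hKAC : StmtKAC) (hTUN : StmtTUN) (hTEX : StmtTEX) : StmtTEXT := by
  intro p _ C _ _ _ _ hp k _ _ ι τ hτ E _ _ _
  haveI : IsAlgClosed (KK C) := hKAC C
  haveI hKp : CharP (KK C) p := charP_KK hp
  letI : Algebra k (KK C) := ι.toAlgebra
  let φ : E →ₐ[k] KK C := IsAlgClosed.lift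
  have hφ : ∀ x : k, φ (algebraMap k E x) = ι x := fun x => φ.commutes x
  haveI : CharP E p := (RingHom.charP_iff (φ : E →+* KK C) (φ : E →+* KK C).injective p).2 hKp
  obtain ⟨τE, hE⟩ := hTEX p C hp E (φ : E →+* KK C)
  refine ⟨(φ : E →+* KK C), τE, hE, fun x => ?_⟩
  obtain ⟨n, -, hn⟩ := FiniteField.card E p
  have h1 : ∀ y : E, y ^ (p ^ (n : ℕ)) = y := fun y => by
    rw [← hn]
    exact FiniteField.pow_card y
  have h2 : x ^ (p ^ (n : ℕ)) = x := by
    apply (algebraMap k E).injective
    rw [map_pow]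
    exact h1 _
  refine hTUN p C hp n n.2 _ _ ?_ ?_ ?_
  · rw [← map_pow, h1]
  · rw [← map_pow, h2]
  · rw [hE.rd_eq, hτ.rd_eq]
    exact hφ x

end ASur
end

section
/-!
# MP_b685ef_ag, theorem AS: module THETA (the splitting polynomial)
-/
set_option linter.all false

namespace ASur

open Finset

private theorem theta_add {C : Type} [NormedField C] [IsUltrametricDist C] {x y : C} {r : ℝ}
    (hx : ‖x‖ ≤ r) (hy : ‖y‖ ≤ r) : ‖x + y‖ ≤ r :=
  (IsUltrametricDist.norm_add_le_max x y).trans (max_le hx hy)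

private theorem theta_sub {C : Type} [NormedField C] [IsUltrametricDist C] {x y : C} {r : ℝ}
    (hx : ‖x‖ ≤ r) (hy : ‖y‖ ≤ r) : ‖x - y‖ ≤ r := by
  rw [sub_eq_add_neg]
  exact theta_add hx (by rwa [norm_neg])

private theorem theta_sum {C : Type} [NormedField C] [IsUltrametricDist C] {ι : Type*}
    {s : Finset ι} {f : ι → C} {r : ℝ} (hr : 0 ≤ r) (h : ∀ i ∈ s, ‖f i‖ ≤ r) :
    ‖∑ i ∈ s, f i‖ ≤ r :=
  IsUltrametricDist.norm_sum_le_of_forall_le_of_nonneg hr h

/-- The residue of a Teichmüller trace is in the prime field. -/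
private theorem theta_c0 (p : ℕ) [Fact p.Prime] {C : Type} [NormedField C]
    [IsUltrametricDist C] (hp : ‖(p : C)‖ < 1) (n : ℕ) (t : C) (ht : ‖t‖ ≤ 1)
    (htn : t ^ (p ^ n) = t) :
    ∃ c : ℕ, c < p ∧ ‖∑ i ∈ range n, t ^ (p ^ i) - (c : C)‖ < 1 := by
  haveI : CharP (KK C) p := charP_KK hp
  have hs1 : ∀ i ∈ range n, ‖t ^ (p ^ i)‖ ≤ 1 := fun i _ => by
    rw [norm_pow]
    exact pow_le_one₀ (norm_nonneg _) ht
  have hs : ‖∑ i ∈ range n, t ^ (p ^ i)‖ ≤ 1 := norm_sum_le_one _ hs1
  have hrd : rd (∑ i ∈ range n, t ^ (p ^ i)) = ∑ i ∈ range n, rd t ^ (p ^ i) := by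
    rw [rd_sum _ hs1]
    exact sum_congr rfl fun i _ => rd_pow ht _
  have hfix : (rd (∑ i ∈ range n, t ^ (p ^ i))) ^ p = rd (∑ i ∈ range n, t ^ (p ^ i)) := by
    rw [hrd, sum_pow_char p]
    have h1 : ∀ i ∈ range n, (rd t ^ (p ^ i)) ^ p = rd t ^ (p ^ (i + 1)) := fun i _ => by
      rw [← pow_mul, pow_succ]
    rw [sum_congr rfl h1]
    have h2 : rd t ^ (p ^ n) = rd t ^ (p ^ 0) := by
      rw [← rd_pow ht, htn, pow_zero, pow_one]
    have h3 := Finset.sum_range_succ (fun i => rd t ^ (p ^ i)) n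
    have h4 := Finset.sum_range_succ' (fun i => rd t ^ (p ^ i)) n
    rw [h3] at h4
    simp only [h2] at h4
    exact (add_right_cancel h4).symm
  have hbot : rd (∑ i ∈ range n, t ^ (p ^ i)) ∈ (⊥ : Subfield (KK C)) :=
    (Subfield.mem_bot_iff_pow_eq_self (KK C) p).2 hfix
  rw [← ZMod.fieldRange_castHom_eq_bot p] at hbot
  obtain ⟨c, hc⟩ := hbot
  refine ⟨c.val, ZMod.val_lt c, ?_⟩
  have hc' : rd (∑ i ∈ range n, t ^ (p ^ i)) = ((c.val : ℕ) : KK C) := by
    rw [← hc, ZMod.castHom_apply, ZMod.cast_eq_val]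
  rw [← rd_natCast (C := C)] at hc'
  exact (rd_eq_iff hs (norm_natCast_le _)).1 hc'

section
variable {C : Type} [NormedField C] [IsUltrametricDist C]

private theorem theta_ev_X (J : ℕ) (lam : C) (k : ℕ) (hk : k < J) :
    ev J lam (PowerSeries.X ^ k : PowerSeries C) = lam ^ k := by
  rw [ev, sum_eq_single k]
  · simp [PowerSeries.coeff_X_pow]
  · intro n _ hn
    simp [PowerSeries.coeff_X_pow, hn]
  · intro h
    exact absurd (mem_range.2 hk) h

private theorem theta_ev_add (J : ℕ) (lam : C) (f g : PowerSeries C) :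
    ev J lam (f + g) = ev J lam f + ev J lam g := by
  simp only [ev, map_add, add_mul, sum_add_distrib]

private theorem theta_ev_sub (J : ℕ) (lam : C) (f g : PowerSeries C) :
    ev J lam (f - g) = ev J lam f - ev J lam g := by
  simp only [ev, map_sub, sub_mul, sum_sub_distrib]

private theorem theta_ev_poly (J : ℕ) (lam : C) (P : Polynomial C) (hP : P.natDegree < J) :
    ev J lam (P : PowerSeries C) = P.eval lam := by
  rw [ev, Polynomial.eval_eq_sum_range' hP]
  exact sum_congr rfl fun n _ => by rw [Polynomial.coeff_coe]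

end

theorem THETA_thm (hDWL : StmtDWL) (hGSER : StmtGSER) (hPSI : StmtPSI) (hPRODF : StmtPRODF)
    (hLOW : StmtLOW) (hEVJ : StmtEVJ) (hZETA : StmtZETA) : StmtTHETA := by
  intro p hpp C _ _ _ _ hp j hj ζ hζ ε hε
  have hp2 : 2 ≤ p := (Fact.out : p.Prime).two_le
  obtain ⟨hlam0, hlam1, hlamp, hlast⟩ := hZETA p C hp ζ hζ
  obtain ⟨g, hg0, hgp, hgdeg, hgnat⟩ := hGSER p
  obtain ⟨F, hF0, hFdeg, hFeq⟩ := hDWL p g hg0 hgp hgdeg
  have hDS : DSer p g F := ⟨hgnat, hF0, hFdeg, hFeq⟩
  obtain ⟨hlow1, hlow2⟩ := hLOW p g F hDS C j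
  set lam : C := ζ - 1 with hlam
  have hlampos : 0 < ‖lam‖ := norm_pos_iff.2 hlam0
  have hlamle : ‖lam‖ ≤ 1 := hlam1.le
  -- the choice of `J`
  obtain ⟨J0, hJ0⟩ : ∃ J0 : ℕ, ‖lam‖ ^ J0 < ε * ‖lam‖ ^ (p - 1) :=
    exists_pow_lt_of_lt_one (mul_pos hε (pow_pos hlampos _)) hlam1
  obtain ⟨J, hJ1, hJ2⟩ : ∃ J, J0 ≤ J ∧ p < J := ⟨J0 + p + 1, by omega, by omega⟩
  have hJε : ‖lam‖ ^ J / ‖lam‖ ^ (p - 1) ≤ ε := by
    rw [div_le_iff₀ (pow_pos hlampos _)]
    exact (pow_le_pow_of_le_one (norm_nonneg _) hlamle hJ1).trans hJ0.le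
  have hJε' : ‖lam‖ ^ J ≤ ε := by
    refine le_trans ?_ hJε
    rw [le_div_iff₀ (pow_pos hlampos _)]
    exact mul_le_of_le_one_right (pow_nonneg (norm_nonneg _) _)
      (pow_le_one₀ (norm_nonneg _) hlamle)
  -- the polynomial
  set Θ : Polynomial C := ∑ m ∈ range J,
    Polynomial.C (lam ^ m) * (PowerSeries.coeff m F).map j with hΘ
  have hcoeff : ∀ k, Θ.coeff k = ∑ m ∈ range J, lam ^ m * j ((PowerSeries.coeff m F).coeff k) := by
    intro k
    rw [hΘ, Polynomial.finsetSum_coeff]
    exact sum_congr rfl fun m _ => by rw [Polynomial.coeff_C_mul, Polynomial.coeff_map]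
  have hzero : ∀ m k, m < k → (PowerSeries.coeff m F).coeff k = 0 := fun m k h =>
    Polynomial.coeff_eq_zero_of_natDegree_lt ((hFdeg m).trans_lt h)
  have hterm : ∀ m k, k ≤ m → ‖lam ^ m * j ((PowerSeries.coeff m F).coeff k)‖ ≤ ‖lam‖ ^ k := by
    intro m k h
    rw [norm_mul, norm_pow]
    exact (mul_le_of_le_one_right (pow_nonneg (norm_nonneg _) _) (hj _)).trans
      (pow_le_pow_of_le_one (norm_nonneg _) hlamle h)
  refine ⟨Θ, ⟨?_, ?_, ?_, ?_⟩⟩
  · -- constant coefficient
    rw [hcoeff, sum_eq_single 0]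
    · rw [pow_zero, one_mul, PowerSeries.coeff_zero_eq_constantCoeff_apply, hF0,
        Polynomial.coeff_one_zero, map_one]
    · intro m _ hm
      rw [hlow2 m (Nat.one_le_iff_ne_zero.2 hm), mul_zero]
    · intro h
      exact absurd (mem_range.2 (by omega)) h
  · -- bound
    intro k
    rw [hcoeff]
    refine theta_sum (pow_nonneg (norm_nonneg _) _) fun m _ => ?_
    rcases Nat.lt_or_ge m k with h | h
    · rw [hzero m k h, map_zero, mul_zero, norm_zero]
      exact pow_nonneg (norm_nonneg _) _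
    · exact hterm m k h
  · -- low coefficients
    intro k hk
    have hfac : ((k.factorial : ℕ) : C) ≠ 0 := Nat.cast_ne_zero.2 (Nat.factorial_ne_zero k)
    have hkJ : k ∈ range J := mem_range.2 (by omega)
    rw [hcoeff, ← Finset.add_sum_erase _ _ hkJ]
    have h1 : j ((PowerSeries.coeff k F).coeff k) = 1 / (k.factorial : C) := by
      rw [eq_div_iff hfac]
      exact hlow1 k hk
    rw [h1, mul_one_div, add_sub_cancel_left]
    refine theta_sum (pow_nonneg (norm_nonneg _) _) fun m hm => ?_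
    rw [mem_erase] at hm
    rcases Nat.lt_or_ge m k with h | h
    · rw [hzero m k h, map_zero, mul_zero, norm_zero]
      exact pow_nonneg (norm_nonneg _) _
    · have h2 : k + 1 ≤ m := by
        have := hm.1
        omega
      rw [norm_mul, norm_pow]
      exact (mul_le_of_le_one_right (pow_nonneg (norm_nonneg _) _) (hj _)).trans
        (pow_le_pow_of_le_one (norm_nonneg _) hlamle h2)
  · -- splitting
    intro n t htn
    rcases Nat.eq_zero_or_pos n with rfl | hn
    · refine ⟨0, by omega, ?_, ?_⟩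
      · simp
      · simp [hε.le]
    have ht : ‖t‖ ≤ 1 := by
      by_contra hcon
      rw [not_le] at hcon
      have h1 : ‖t‖ ^ (p ^ n) = ‖t‖ := by rw [← norm_pow, htn]
      have h2 : 1 < p ^ n := Nat.one_lt_pow (by omega) (by omega)
      have h3 : ‖t‖ ^ 1 < ‖t‖ ^ (p ^ n) := pow_lt_pow_right₀ hcon h2
      rw [h1, pow_one] at h3
      exact lt_irrefl _ h3
    obtain ⟨c, hc, hcs⟩ := theta_c0 p hp n t ht htn
    refine ⟨c, hc, hcs, ?_⟩
    set s : C := ∑ i ∈ range n, t ^ (p ^ i) with hs
    have hti : ∀ i : ℕ, ‖t ^ (p ^ i)‖ ≤ 1 := fun i => by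
      rw [norm_pow]
      exact pow_le_one₀ (norm_nonneg _) ht
    -- the series `F(t^{p^i}, Y)`
    have hFi : ∀ i ∈ range n, ∀ m, ‖PowerSeries.coeff m
        (PowerSeries.map (Polynomial.eval₂RingHom j (t ^ (p ^ i))) F)‖ ≤ 1 := by
      intro i _ m
      rw [PowerSeries.coeff_map, Polynomial.coe_eval₂RingHom, Polynomial.eval₂_eq_sum_range]
      refine norm_sum_le_one _ fun l _ => ?_
      rw [norm_mul, norm_pow]
      exact mul_le_one₀ (hj _) (pow_nonneg (norm_nonneg _) _)
        (pow_le_one₀ (norm_nonneg _) (hti i))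
    obtain ⟨hb1, hb2⟩ := hEVJ C J lam hlamle ℕ (range n) _ hFi
    rw [hPRODF p g F hDS C j n t htn] at hb1 hb2
    have heval : ∀ i, ev J lam (PowerSeries.map (Polynomial.eval₂RingHom j (t ^ (p ^ i))) F) =
        Θ.eval (t ^ (p ^ i)) := by
      intro i
      rw [ev, hΘ, Polynomial.eval_finsetSum]
      refine sum_congr rfl fun m _ => ?_
      rw [PowerSeries.coeff_map, Polynomial.coe_eval₂RingHom, Polynomial.eval_mul,
        Polynomial.eval_C, Polynomial.eval_map, mul_comm]
    simp only [heval] at hb2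
    set b : PowerSeries C := PowerSeries.binomialSeries C s with hb
    have hbc : ∀ k, PowerSeries.coeff k b = Ring.choose s k := fun k => by
      rw [hb, PowerSeries.binomialSeries_coeff, smul_eq_mul, mul_one]
    have hch : ∀ k, ‖Ring.choose s k‖ ≤ 1 := fun k => by
      rw [← hbc]
      exact hb1 k
    set z' : C := ev J lam b with hz'
    -- `z' = 1 + s λ mod λ²`
    have h12 : ‖z' - (1 + s * (ζ - 1))‖ ≤ ‖ζ - 1‖ ^ 2 := by
      rw [← hlam, hz', ev]
      obtain ⟨J', rfl⟩ : ∃ J', J = J' + 2 := ⟨J - 2, by omega⟩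
      rw [sum_range_succ', sum_range_succ', hbc, hbc]
      simp only [zero_add, Ring.choose_zero_right, Ring.choose_one_right, pow_zero, pow_one,
        mul_one]
      have : ∀ x : C, x + s * lam + 1 - (1 + s * lam) = x := fun x => by ring
      rw [this]
      refine theta_sum (pow_nonneg (norm_nonneg _) _) fun m _ => ?_
      rw [norm_mul, norm_pow, hbc]
      exact (mul_le_of_le_one_left (pow_nonneg (norm_nonneg _) _) (hch _)).trans
        (pow_le_pow_of_le_one (norm_nonneg _) hlamle (by omega))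
    -- `z'^p` is close to `1`
    have hzp : ‖z' ^ p - 1‖ ≤ ‖lam‖ ^ J := by
      have h1 := (hEVJ C J lam hlamle ℕ (range p) (fun _ => b) (fun _ _ => hb1)).2
      rw [prod_const, card_range, prod_const, card_range, ← hz'] at h1
      -- the polynomial `Ψ`
      set Ψ : Polynomial C := (1 + Polynomial.X) ^ p - 1 with hΨ
      have hΨc : ((Ψ : Polynomial C) : PowerSeries C) = (1 + PowerSeries.X) ^ p - 1 := by
        rw [hΨ, Polynomial.coe_sub, Polynomial.coe_pow, Polynomial.coe_add, Polynomial.coe_one,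
          Polynomial.coe_X]
      have hΨint : ∀ m, ‖PowerSeries.coeff m (Ψ : PowerSeries C)‖ ≤ 1 := by
        intro m
        rw [Polynomial.coeff_coe, hΨ, Polynomial.coeff_sub, Polynomial.coeff_one_add_X_pow,
          Polynomial.coeff_one]
        refine theta_sub (norm_natCast_le _) ?_
        split_ifs <;> simp
      have hΨ0 : ev J lam (Ψ : PowerSeries C) = 0 := by
        rw [theta_ev_poly]
        · rw [hΨ]
          simp only [Polynomial.eval_sub, Polynomial.eval_pow, Polynomial.eval_add,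
            Polynomial.eval_one, Polynomial.eval_X]
          rw [hlam, add_sub_cancel, hζ.pow_eq_one, sub_self]
        · refine lt_of_le_of_lt ?_ hJ2
          rw [hΨ]
          refine (Polynomial.natDegree_sub_le _ _).trans (max_le ?_ (by simp))
          refine (Polynomial.natDegree_pow_le).trans ?_
          have : (1 + Polynomial.X : Polynomial C).natDegree ≤ 1 :=
            (Polynomial.natDegree_add_le _ _).trans (by simp)
          calc p * (1 + Polynomial.X : Polynomial C).natDegree ≤ p * 1 :=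
            Nat.mul_le_mul_left _ this
            _ = p := mul_one p
      have hk : ∀ k, 1 ≤ k → ‖ev J lam ((Ψ : PowerSeries C) ^ k)‖ ≤ ‖lam‖ ^ J := by
        intro k hk
        have := (hEVJ C J lam hlamle ℕ (range k) (fun _ => (Ψ : PowerSeries C))
          (fun _ _ => hΨint)).2
        rw [prod_const, card_range, prod_const, card_range, hΨ0, zero_pow (by omega),
          sub_zero] at this
        exact this
      have hlow : ∀ k m, m < k → PowerSeries.coeff m ((Ψ : PowerSeries C) ^ k) = 0 := by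
        intro k m hm
        have hdvd : (PowerSeries.X : PowerSeries C) ∣ (Ψ : PowerSeries C) := by
          rw [PowerSeries.X_dvd_iff, hΨc]
          simp
        have h2 : (PowerSeries.X : PowerSeries C) ^ k ∣ (Ψ : PowerSeries C) ^ k :=
          pow_dvd_pow_of_dvd hdvd k
        exact PowerSeries.X_pow_dvd_iff.1 h2 m hm
      have h2 : ev J lam (b ^ p) = ∑ k ∈ range J, Ring.choose s k *
          ev J lam ((Ψ : PowerSeries C) ^ k) := by
        rw [ev]
        have h3 : ∀ m ∈ range J, PowerSeries.coeff m (b ^ p) * lam ^ m =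
            ∑ k ∈ range J, Ring.choose s k *
              (PowerSeries.coeff m ((Ψ : PowerSeries C) ^ k) * lam ^ m) := by
          intro m hm
          rw [hb, hPSI C p s m, sum_mul, hΨc]
          rw [mem_range] at hm
          rw [← Finset.sum_subset (Finset.range_mono (show m + 1 ≤ J by omega))]
          · exact sum_congr rfl fun k _ => by ring
          · intro k _ hk2
            rw [← hΨc, hlow k m (by rw [mem_range] at hk2; omega), zero_mul, mul_zero]
        rw [sum_congr rfl h3, sum_comm]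
        refine sum_congr rfl fun k _ => ?_
        rw [ev, mul_sum]
      have h4 : ‖ev J lam (b ^ p) - 1‖ ≤ ‖lam‖ ^ J := by
        rw [h2]
        obtain ⟨J', hJ'⟩ : ∃ J', J = J' + 1 := ⟨J - 1, by omega⟩
        have h5 : ∑ k ∈ range J, Ring.choose s k * ev J lam ((Ψ : PowerSeries C) ^ k) - 1 =
            ∑ k ∈ range J', Ring.choose s (k + 1) *
              ev J lam ((Ψ : PowerSeries C) ^ (k + 1)) := by
          conv_lhs => rw [show range J = range (J' + 1) by rw [hJ']]
          rw [sum_range_succ']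
          have h6 : ev J lam ((Ψ : PowerSeries C) ^ 0) = 1 := by
            have := theta_ev_X J lam 0 (by omega)
            rw [pow_zero] at this ⊢
            rw [this, pow_zero]
          rw [h6, Ring.choose_zero_right]
          ring
        rw [h5]
        refine theta_sum (pow_nonneg (norm_nonneg _) _) fun k _ => ?_
        rw [norm_mul]
        exact (mul_le_of_le_one_left (norm_nonneg _) (hch _)).trans (hk _ (by omega))
      have h7 : z' ^ p - 1 = (ev J lam (b ^ p) - 1) - (ev J lam (b ^ p) - z' ^ p) := by ring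
      rw [h7]
      exact theta_sub h4 h1
    have hfin := hlast z' s c (‖lam‖ ^ J) hc hcs h12 hzp
    have h8 : ∏ i ∈ range n, Θ.eval (t ^ (p ^ i)) - ζ ^ c =
        (z' - ζ ^ c) - (z' - ∏ i ∈ range n, Θ.eval (t ^ (p ^ i))) := by ring
    rw [h8]
    exact theta_sub (hfin.trans hJε) (hb2.trans hJε')

end ASur
end

section
/-!
# MP_b685ef_ag, theorem AS, module TMOM: moments of a Teichmüller lift
-/
set_option linter.all false

namespace ASur

open Finset

private theorem tmom_inj {C : Type} [NormedField C] [IsUltrametricDist C]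
    {E : Type} [Field E] {ι : E →+* KK C} {τ : E →*₀ C} (h : IsTeich ι τ) :
    Function.Injective τ := by
  intro x y hxy
  apply ι.injective
  rw [← h.rd_eq x, ← h.rd_eq y, hxy]

private theorem tmom_nonzero {C : Type} [NormedField C] [IsUltrametricDist C]
    {E : Type} [Field E] [Fintype E] [DecidableEq E] {ι : E →+* KK C} {τ : E →*₀ C}
    (h : IsTeich ι τ) (m : ℕ) :
    ∑ x : Eˣ, τ (x : E) ^ m = if (Fintype.card E - 1) ∣ m then (Fintype.card E : C) - 1 else 0 := by
  classical
  obtain ⟨g, hg⟩ := IsCyclic.exists_generator (α := Eˣ)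
  have horder : orderOf g = Fintype.card E - 1 := by
    rw [orderOf_eq_card_of_forall_mem_zpowers hg, Nat.card_eq_fintype_card,
      Fintype.card_units]
  split_ifs with hd
  · have h1 : ∀ x : Eˣ, τ (x : E) ^ m = 1 := by
      intro x
      rw [← map_pow, ← Units.val_pow_eq_pow_val]
      have : x ^ m = 1 := by
        obtain ⟨c, rfl⟩ := hd
        rw [← Fintype.card_units (α := E), pow_mul, pow_card_eq_one, one_pow]
      rw [this]
      simp
    rw [Finset.sum_congr rfl (fun x _ => h1 x)]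
    rw [Finset.sum_const, Finset.card_univ, Fintype.card_units, nsmul_eq_mul, mul_one]
    have : 1 ≤ Fintype.card E := Fintype.card_pos
    push_cast [this]
    ring
  · have h1 : τ (g : E) ^ m * ∑ x : Eˣ, τ (x : E) ^ m = ∑ x : Eˣ, τ (x : E) ^ m := by
      rw [Finset.mul_sum]
      refine Fintype.sum_equiv (Equiv.mulLeft g) _ _ ?_
      intro x
      rw [Equiv.coe_mulLeft, Units.val_mul, map_mul, mul_pow]
    have h2 : τ (g : E) ^ m ≠ 1 := by
      intro h3
      apply hd
      rw [← horder]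
      apply orderOf_dvd_of_pow_eq_one
      apply Units.ext
      apply tmom_inj h
      rw [Units.val_pow_eq_pow_val, map_pow, h3]
      simp
    have h3 : (τ (g : E) ^ m - 1) * ∑ x : Eˣ, τ (x : E) ^ m = 0 := by
      rw [sub_mul, one_mul, h1, sub_self]
    rcases mul_eq_zero.1 h3 with h4 | h4
    · exact absurd (sub_eq_zero.1 h4) h2
    · exact h4

theorem tmom_thm : StmtTMOM := by
  intro C _ _ E _ _ ι τ h m
  classical
  by_cases hm : m = 0
  · subst hm
    simp [Finset.card_univ]
  · rw [if_neg hm, ← tmom_nonzero h m]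
    have h1 : ∑ x : E, τ x ^ m = τ 0 ^ m + ∑ x ∈ (Finset.univ.erase (0 : E)), τ x ^ m := by
      exact (Finset.add_sum_erase Finset.univ (fun x => τ x ^ m) (Finset.mem_univ (0 : E))).symm
    rw [h1, map_zero, zero_pow hm, zero_add]
    symm
    refine Finset.sum_bij (fun (x : Eˣ) _ => (x : E)) ?_ ?_ ?_ ?_
    · intro x _
      simp
    · intro x _ y _ hxy
      exact Units.ext hxy
    · intro y hy
      have hy0 : y ≠ 0 := by simpa using hy
      exact ⟨Units.mk0 y hy0, by simp, rfl⟩
    · intro x _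
      rfl

end ASur
end

section
set_option linter.all false

namespace ASur

open Finset

private theorem trf_period {p : ℕ} [Fact p.Prime] {C : Type} [NormedField C] [IsUltrametricDist C]
    (Θ : Polynomial C) {k : Type} [Field k] [Fintype k] [Algebra (ZMod p) k]
    (τ : k →*₀ C) (f : MvPolynomial (Fin 2) k) (i : ℕ) :
    Fpol p τ Θ f (i + Module.finrank (ZMod p) k) = Fpol p τ Θ f i := by
  unfold Fpol
  refine Finset.prod_congr rfl fun m _ => ?_
  congr 2
  have hc : Fintype.card k = p ^ Module.finrank (ZMod p) k := by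
    have := Module.card_eq_pow_finrank (K := ZMod p) (V := k)
    rwa [ZMod.card] at this
  rw [add_comm i, pow_add, pow_mul, ← hc, ← map_pow, FiniteField.pow_card]

theorem trf_thm (hTEXT : StmtTEXT) (hCHS : StmtCHS) (hSUM2 : StmtSUM2) (hPATH : StmtPATH)
    (hAXI : StmtAXI) (hPER : StmtPER) : StmtTRF := by
  intro p _ C _ _ _ _ hp ψ ε Θ hε hΘ k _ _ _ ι τ hτ f L hL E _ _ _ _
  intro F h j q B B0 B1 γ
  have hp1 : 1 ≤ p := (Fact.out : p.Prime).one_lt.le
  obtain ⟨ιE, τE, hτE, hext⟩ := hTEXT p C hp k ι τ hτ E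
  have hT : IsScalarTower (ZMod p) k E := by
    refine IsScalarTower.of_algebraMap_eq' ?_
    exact Subsingleton.elim _ _
  have hcardk : Fintype.card k = p ^ h := by
    have := Module.card_eq_pow_finrank (K := ZMod p) (V := k)
    rwa [ZMod.card] at this
  have hn : Module.finrank (ZMod p) E = h * j := (Module.finrank_mul_finrank (ZMod p) k E).symm
  have hcardE : Fintype.card E = p ^ (h * j) := by
    have := Module.card_eq_pow_finrank (K := ZMod p) (V := E)
    rw [ZMod.card, hn] at this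
    exact this
  have hQ : (Fintype.card E : C) = q ^ j := by
    rw [hcardE, pow_mul, ← hcardk]
    push_cast
    rfl
  have hchs := hCHS p C hp ψ ε Θ hε hΘ k τ E ιE τE hτE hext (Fin 2) f
  rw [hn] at hchs
  obtain ⟨hdeg, htr⟩ := hPATH p hp1 C (Fin 2) L F hL (h * j)
  have hsum := hSUM2 C E ιE τE hτE L (Gpol p F (h * j)) (by rw [hcardE]; exact hdeg)
  have hper : ∀ i, F (i + h) = F i := fun i => trf_period Θ τ f i
  have haxs : ∀ s : Fin 2, Tsum (p ^ (h * j) - 1) L (ax s (Gpol p F (h * j))) =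
      Matrix.trace ((Pmat (fun i => Amat p L (ax s (F i))) h) ^ j) := by
    intro s
    obtain ⟨h1, h2, -, -, -⟩ := hAXI p hp1 C F (h * j) s
    rw [h1, ← (hPATH p hp1 C (Fin 1) L (fun i => ax s (F i)) (by
      intro i t
      have : t = 0 := Subsingleton.elim _ _
      rw [this]
      exact (h2 i).trans (hL i s)) (h * j)).2]
    rw [hPER (Fin 1 → Fin L) C (fun i => Amat p L (ax s (F i))) h (by
      intro i; simp only [hper i]) j]
  have hmain : Tsum (p ^ (h * j) - 1) L (Gpol p F (h * j)) = Matrix.trace (B ^ j) := by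
    rw [← htr, hPER (Fin 2 → Fin L) C (fun i => Amat p L (F i)) h (by
      intro i; simp only [hper i]) j]
  have hγ : (Gpol p F (h * j)).coeff 0 = γ ^ j := by
    obtain ⟨-, -, -, h4, -⟩ := hAXI p hp1 C F (h * j) 0
    rw [h4]
    have : ∀ j : ℕ, ∏ i ∈ range (h * j), (F i).coeff 0 = γ ^ j := by
      intro j
      induction j with
      | zero => simp
      | succ j ih =>
        rw [Nat.mul_succ, Finset.prod_range_add, ih, pow_succ]
        congr 1
        refine Finset.prod_congr rfl fun i _ => ?_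
        have hh : ∀ j : ℕ, F (h * j + i) = F i := by
          intro j
          induction j with
          | zero => simp
          | succ j ih =>
            rw [Nat.mul_succ, show h * j + h + i = (h * j + i) + h by ring, hper, ih]
        rw [hh]
    exact this j
  rw [hcardE, haxs 0, haxs 1, hmain, hγ] at hsum
  have hQ' : ((p ^ (h * j) : ℕ) : C) = q ^ j := by rw [← hcardE, hQ]
  rw [hQ'] at hsum
  unfold Sf
  rw [← hsum]
  exact hchs

end ASur
end

section
/-!
# MP_b685ef_ag, theorem AS, module TTR: Teichmüller lifts and traces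
-/
set_option linter.all false

namespace ASur

open Finset

theorem ttr_thm : StmtTTR := by
  intro p hp C _ _ hpC E _ _ _ ι τ h z
  classical
  set n := Module.finrank (ZMod p) E with hn
  have hcard : Fintype.card E = p ^ n := by
    rw [Module.card_eq_pow_finrank (K := ZMod p) (V := E), ZMod.card]
  refine ⟨?_, ?_⟩
  · rw [← map_pow, ← hcard, FiniteField.pow_card]
  · haveI : CharP (KK C) p := charP_KK hpC
    rw [rd_sum _ (fun i _ => by
      rw [norm_pow]; exact pow_le_one₀ (norm_nonneg _) (h.norm_le z))]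
    have h1 : ∀ i ∈ range n, rd (τ z ^ (p ^ i)) = ι (z ^ (p ^ i)) := by
      intro i _
      rw [← map_pow, h.rd_eq]
    rw [Finset.sum_congr rfl h1, ← map_sum]
    have h2 := FiniteField.algebraMap_trace_eq_sum_pow (ZMod p) E z
    rw [Nat.card_zmod] at h2
    rw [← h2]
    have h3 : (algebraMap (ZMod p) E (Algebra.trace (ZMod p) E z)) =
        (((Algebra.trace (ZMod p) E z).val : ℕ) : E) := by
      conv_lhs => rw [← ZMod.natCast_zmod_val (Algebra.trace (ZMod p) E z)]
      rw [map_natCast]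
    rw [h3, map_natCast]

end ASur
end

section
/-!
# MP_b685ef_ag, theorem AS: module TUN (uniqueness of Teichmüller lifts)

If `t ^ Q = t`, `t' ^ Q = t'` with `Q = p ^ n`, `n ≥ 1`, then `t - t' = (t - t') Σ` with
`Σ = ∑_{i<Q} t ^ i t' ^ (Q-1-i)`, and `Σ` reduces to `Q (rd t)^(Q-1) = 0`.
-/
set_option linter.all false

namespace ASur

open Finset

private theorem TUN_norm_le {p : ℕ} (hp : 2 ≤ p) {C : Type} [NormedField C]
    {n : ℕ} (hn : 1 ≤ n) {t : C} (ht : t ^ (p ^ n) = t) : ‖t‖ ≤ 1 := by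
  by_contra h
  have h : 1 < ‖t‖ := not_le.1 h
  have hQ : 1 < p ^ n := Nat.one_lt_pow (by omega) (by omega)
  have h1 : ‖t‖ ^ (p ^ n) = ‖t‖ := by rw [← norm_pow, ht]
  have h2 : ‖t‖ < ‖t‖ ^ (p ^ n) := by
    calc ‖t‖ = ‖t‖ ^ 1 := (pow_one _).symm
      _ < ‖t‖ ^ (p ^ n) := pow_lt_pow_right₀ h hQ
  linarith

theorem TUN_thm : StmtTUN := by
  intro p _ C _ _ hp n hn t t' ht ht' hr
  have hpp : 2 ≤ p := (Fact.out : p.Prime).two_le
  have h1 : ‖t‖ ≤ 1 := TUN_norm_le hpp hn ht
  have h2 : ‖t'‖ ≤ 1 := TUN_norm_le hpp hn ht'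
  have hpow : ∀ (x : C), ‖x‖ ≤ 1 → ∀ k : ℕ, ‖x ^ k‖ ≤ 1 := by
    intro x hx k
    rw [norm_pow]
    exact pow_le_one₀ (norm_nonneg _) hx
  have hterm : ∀ i ∈ range (p ^ n), ‖t ^ i * t' ^ (p ^ n - 1 - i)‖ ≤ 1 := by
    intro i _
    rw [norm_mul]
    exact mul_le_one₀ (hpow t h1 i) (norm_nonneg _) (hpow t' h2 _)
  have hS : rd (∑ i ∈ range (p ^ n), t ^ i * t' ^ (p ^ n - 1 - i)) = 0 := by
    rw [rd_sum _ hterm]
    have : ∀ i ∈ range (p ^ n), rd (t ^ i * t' ^ (p ^ n - 1 - i)) = rd t ^ (p ^ n - 1) := by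
      intro i hi
      rw [rd_mul (hpow t h1 i) (hpow t' h2 _), rd_pow h1, rd_pow h2, ← hr, ← pow_add]
      congr 1
      have := mem_range.1 hi
      omega
    rw [sum_congr rfl this, sum_const, card_range, nsmul_eq_mul]
    have hp0 : ((p : ℕ) : KK C) = 0 := by rw [← rd_natCast, rd_of_lt hp]
    rw [Nat.cast_pow, hp0, zero_pow (by omega), zero_mul]
  have hlt : ‖∑ i ∈ range (p ^ n), t ^ i * t' ^ (p ^ n - 1 - i)‖ < 1 :=
    (rd_eq_zero_iff (norm_sum_le_one _ hterm)).1 hS
  by_contra hne
  have hd : t - t' ≠ 0 := sub_ne_zero.2 hne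
  have hg : (∑ i ∈ range (p ^ n), t ^ i * t' ^ (p ^ n - 1 - i)) * (t - t') =
      t ^ (p ^ n) - t' ^ (p ^ n) := geom_sum₂_mul t t' (p ^ n)
  rw [ht, ht'] at hg
  have h5 : ∑ i ∈ range (p ^ n), t ^ i * t' ^ (p ^ n - 1 - i) = 1 := by
    apply mul_right_cancel₀ hd
    rw [hg, one_mul]
  rw [h5, norm_one] at hlt
  exact lt_irrefl _ hlt

end ASur
end

section
/-!
# MP_b685ef_ag, theorem AS, module UNIQ

Uniqueness of the solution of `P(Y^p) = P^p G` with `P(0) = 1`.
-/
set_option linter.all false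

namespace ASur

open Finset

private theorem uniq_coeff {C : Type} [Field C] {u v : PowerSeries C} {m : ℕ}
    (h : ∀ i, i < m → PowerSeries.coeff i u = 0) :
    PowerSeries.coeff m (u * v) = PowerSeries.coeff m u * PowerSeries.constantCoeff v := by
  rw [PowerSeries.coeff_mul, Finset.sum_eq_single (m, 0)]
  · rw [PowerSeries.coeff_zero_eq_constantCoeff_apply]
  · rintro ⟨i, j⟩ hij hne
    rw [Finset.HasAntidiagonal.mem_antidiagonal] at hij
    have hi : i < m := by
      rcases Nat.lt_or_ge i m with h1 | h1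
      · exact h1
      · exfalso
        apply hne
        simp only at hij
        have : i = m := by omega
        have : j = 0 := by omega
        simp [*]
    rw [h i hi, zero_mul]
  · intro hne
    exact absurd (by simp) hne

private theorem uniq_low {C : Type} [Field C] {u v : PowerSeries C} {m : ℕ}
    (h : ∀ i, i < m → PowerSeries.coeff i u = 0) :
    ∀ i, i < m → PowerSeries.coeff i (u * v) = 0 := by
  intro i hi
  rw [PowerSeries.coeff_mul]
  refine Finset.sum_eq_zero ?_
  rintro ⟨a, b⟩ hab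
  rw [Finset.HasAntidiagonal.mem_antidiagonal] at hab
  simp only at hab ⊢
  rw [h a (by omega), zero_mul]

theorem UNIQ_thm : StmtUNIQ := by
  intro p hp hp2 C _ _ P P' G hP hP' h1 h2
  have hG : PowerSeries.constantCoeff G = 1 := by
    have h3 := congrArg (PowerSeries.constantCoeff) h1
    rw [map_mul, map_pow, hP, one_pow, one_mul] at h3
    rw [← h3, ← PowerSeries.coeff_zero_eq_constantCoeff_apply, PowerSeries.coeff_expand]
    simp [hP]
  ext n
  induction n using Nat.strong_induction_on with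
  | _ m ih =>
    rcases Nat.eq_zero_or_pos m with rfl | hm
    · rw [PowerSeries.coeff_zero_eq_constantCoeff_apply,
        PowerSeries.coeff_zero_eq_constantCoeff_apply, hP, hP']
    have hlow : ∀ i, i < m → PowerSeries.coeff i (P - P') = 0 := by
      intro i hi
      rw [map_sub, ih i hi, sub_self]
    -- the coefficient of index m of the expansions agree
    have he : PowerSeries.coeff m (PowerSeries.expand p hp P) =
        PowerSeries.coeff m (PowerSeries.expand p hp P') := by
      rw [PowerSeries.coeff_expand, PowerSeries.coeff_expand]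
      split_ifs with hd
      · apply ih
        exact Nat.div_lt_self hm hp2
      · rfl
    have hgeom : P ^ p - P' ^ p = (P - P') * ∑ i ∈ range p, P ^ i * P' ^ (p - 1 - i) :=
      (Commute.all P P').mul_geom_sum₂ p |>.symm
    have hS : PowerSeries.constantCoeff (∑ i ∈ range p, P ^ i * P' ^ (p - 1 - i)) = (p : C) := by
      rw [map_sum]
      simp [hP, hP']
    have hkey : PowerSeries.coeff m ((P ^ p - P' ^ p) * G) = 0 := by
      rw [sub_mul, map_sub, ← h1, ← h2, he, sub_self]
    rw [hgeom, mul_assoc, uniq_coeff hlow, map_mul, hS, hG, mul_one] at hkey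
    rcases mul_eq_zero.1 hkey with h3 | h3
    · rw [map_sub] at h3
      exact sub_eq_zero.1 h3
    · exact absurd h3 (Nat.cast_ne_zero.2 hp)

end ASur
end

section
/-!
# MP_b685ef_ag, theorem AS, module ZETA: norms of `ζ^i - 1`, root of unity step
-/
set_option linter.all false

namespace ASur

open Finset

theorem zeta_norm_nat {p : ℕ} {C : Type} [NormedField C] [IsUltrametricDist C]
    (hp1 : ‖(p : C)‖ < 1) {n : ℕ} (hn : Nat.Coprime n p) : ‖(n : C)‖ = 1 := by
  refine le_antisymm (IsUltrametricDist.norm_natCast_le_one C n) ?_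
  by_contra hlt
  push Not at hlt
  obtain ⟨a, b, hab⟩ := Nat.isCoprime_iff_coprime.2 hn
  have h1 : ((a : C) * n + (b : C) * p) = 1 := by exact_mod_cast congrArg (Int.cast : ℤ → C) hab
  have h2 : ‖(a : C) * n‖ < 1 := by
    rw [norm_mul]
    calc ‖(a : C)‖ * ‖(n : C)‖ ≤ 1 * ‖(n : C)‖ :=
          mul_le_mul_of_nonneg_right (IsUltrametricDist.norm_intCast_le_one C a) (norm_nonneg _)
      _ < 1 := by rw [one_mul]; exact hlt
  have h3 : ‖(b : C) * p‖ < 1 := by
    rw [norm_mul]
    calc ‖(b : C)‖ * ‖(p : C)‖ ≤ 1 * ‖(p : C)‖ :=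
          mul_le_mul_of_nonneg_right (IsUltrametricDist.norm_intCast_le_one C b) (norm_nonneg _)
      _ < 1 := by rw [one_mul]; exact hp1
  have h4 : ‖(1 : C)‖ < 1 := by
    rw [← h1]
    exact (IsUltrametricDist.norm_add_le_max _ _).trans_lt (max_lt h2 h3)
  rw [norm_one] at h4
  exact lt_irrefl _ h4

theorem zeta_norm_sub {p : ℕ} [Fact p.Prime] {C : Type} [NormedField C] [IsUltrametricDist C]
    (hp1 : ‖(p : C)‖ < 1) {a b : ℕ} (ha : a < p) (hb : b < p) (hab : a ≠ b) :
    ‖(a : C) - (b : C)‖ = 1 := by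
  have hpp : p.Prime := Fact.out
  rcases lt_or_gt_of_ne hab with h | h
  · rw [norm_sub_rev, ← Nat.cast_sub h.le]
    apply zeta_norm_nat hp1
    rw [Nat.coprime_comm, Nat.Prime.coprime_iff_not_dvd hpp]
    intro hd
    have := Nat.le_of_dvd (by omega) hd
    omega
  · rw [← Nat.cast_sub h.le]
    apply zeta_norm_nat hp1
    rw [Nat.coprime_comm, Nat.Prime.coprime_iff_not_dvd hpp]
    intro hd
    have := Nat.le_of_dvd (by omega) hd
    omega

theorem zeta_norm_one {p : ℕ} [Fact p.Prime] {C : Type} [NormedField C]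
    {ζ : C} (hζ : IsPrimitiveRoot ζ p) : ‖ζ‖ = 1 := by
  have hpp : p.Prime := Fact.out
  have h := congrArg norm hζ.pow_eq_one
  rw [norm_pow, norm_one] at h
  exact (pow_eq_one_iff_of_nonneg (norm_nonneg _) hpp.ne_zero).1 h

theorem zeta_pow_sub_le {C : Type} [NormedField C] [IsUltrametricDist C]
    {x : C} (hx : ‖x‖ = 1) (i : ℕ) : ‖x ^ i - 1‖ ≤ ‖x - 1‖ := by
  rw [← geom_sum_mul x i, norm_mul]
  have h : ‖∑ j ∈ range i, x ^ j‖ ≤ 1 :=
    norm_sum_le_one (range i) (fun j _ => by rw [norm_pow, hx, one_pow])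
  calc ‖∑ j ∈ range i, x ^ j‖ * ‖x - 1‖ ≤ 1 * ‖x - 1‖ :=
        mul_le_mul_of_nonneg_right h (norm_nonneg _)
    _ = ‖x - 1‖ := one_mul _

theorem zeta_pow_sub {p : ℕ} [Fact p.Prime] {C : Type} [NormedField C] [IsUltrametricDist C]
    {ζ : C} (hζ : IsPrimitiveRoot ζ p) {i : ℕ} (hi : 0 < i) (hip : i < p) :
    ‖ζ ^ i - 1‖ = ‖ζ - 1‖ := by
  have hpp : p.Prime := Fact.out
  have h1 := zeta_norm_one hζ
  refine le_antisymm (zeta_pow_sub_le h1 i) ?_
  have hcop : Nat.Coprime i p := by
    rw [Nat.coprime_comm, Nat.Prime.coprime_iff_not_dvd hpp]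
    intro hd
    have := Nat.le_of_dvd hi hd
    omega
  have hprim : IsPrimitiveRoot (ζ ^ i) p := hζ.pow_of_coprime i hcop
  obtain ⟨j, _, hj⟩ := hprim.eq_pow_of_pow_eq_one hζ.pow_eq_one
  have h2 : ‖ζ ^ i‖ = 1 := by rw [norm_pow, h1, one_pow]
  calc ‖ζ - 1‖ = ‖(ζ ^ i) ^ j - 1‖ := by rw [hj]
    _ ≤ ‖ζ ^ i - 1‖ := zeta_pow_sub_le h2 j

theorem zeta_taylor {C : Type} [NormedField C] [IsUltrametricDist C]
    {x : C} (hx : ‖x‖ = 1) (i : ℕ) : ‖x ^ i - 1 - i * (x - 1)‖ ≤ ‖x - 1‖ ^ 2 := by
  have h : x ^ i - 1 - i * (x - 1) = (∑ j ∈ range i, (x ^ j - 1)) * (x - 1) := by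
    rw [← geom_sum_mul x i, Finset.sum_sub_distrib]
    simp
    ring
  rw [h, norm_mul, pow_two]
  refine mul_le_mul_of_nonneg_right ?_ (norm_nonneg _)
  exact IsUltrametricDist.norm_sum_le_of_forall_le_of_nonneg (norm_nonneg _)
    (fun j _ => zeta_pow_sub_le hx j)

theorem zeta_thm : StmtZETA := by
  intro p _ C _ _ _ hp1 ζ hζ
  have hpp : p.Prime := Fact.out
  have h1 := zeta_norm_one hζ
  have hne : ζ - 1 ≠ 0 := sub_ne_zero.2 (hζ.ne_one hpp.one_lt)
  have hpos : 0 < ‖ζ - 1‖ := norm_pos_iff.2 hne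
  -- product formula
  have hprod : ‖ζ - 1‖ ^ (p - 1) = ‖(p : C)‖ := by
    obtain ⟨n, rfl⟩ : ∃ n, p = n + 1 := ⟨p - 1, by have := hpp.pos; omega⟩
    have h2 := hζ.prod_one_sub_pow_eq_order
    have h3 := congrArg norm h2
    rw [norm_prod] at h3
    have h4 : ∏ k ∈ range n, ‖1 - ζ ^ (k + 1)‖ = ∏ k ∈ range n, ‖ζ - 1‖ := by
      refine Finset.prod_congr rfl fun k hk => ?_
      rw [norm_sub_rev]
      exact zeta_pow_sub hζ (Nat.succ_pos k) (by have := mem_range.1 hk; omega)
    rw [h4, Finset.prod_const, card_range] at h3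
    rw [Nat.add_sub_cancel, h3]
    push_cast
    rfl
  have hlt : ‖ζ - 1‖ < 1 := by
    by_contra hge
    push Not at hge
    have := one_le_pow₀ hge (n := p - 1)
    rw [hprod] at this
    linarith
  refine ⟨hne, hlt, hprod, ?_⟩
  intro z s c0 δ hc0 hs hz hδ
  -- z^p - 1 as a product
  have hfac : z ^ p - 1 = ∏ i ∈ range p, (z - ζ ^ i) := by
    have h2 := congrArg (Polynomial.eval z) (X_pow_sub_C_eq_prod hζ hpp.pos (one_pow p))
    rw [Polynomial.eval_prod] at h2
    simpa using h2
  have hsq : ‖ζ - 1‖ ^ 2 < ‖ζ - 1‖ := by nlinarith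
  have hother : ∀ i ∈ (range p).erase c0, ‖z - ζ ^ i‖ = ‖ζ - 1‖ := by
    intro i hi
    have hic : i ≠ c0 := (Finset.mem_erase.1 hi).1
    have hip : i < p := mem_range.1 (Finset.mem_erase.1 hi).2
    have hci : ‖(c0 : C) - (i : C)‖ = 1 := zeta_norm_sub hp1 hc0 hip (Ne.symm hic)
    have hsi : ‖s - (i : C)‖ = 1 := by
      have e : s - (i : C) = (s - (c0 : C)) + ((c0 : C) - (i : C)) := by ring
      rw [e, IsUltrametricDist.norm_add_eq_max_of_norm_ne_norm (by rw [hci]; exact hs.ne), hci]
      exact max_eq_right hs.le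
    have hmain : ‖(s - (i : C)) * (ζ - 1)‖ = ‖ζ - 1‖ := by rw [norm_mul, hsi, one_mul]
    have herr : ‖(z - (1 + s * (ζ - 1))) - (ζ ^ i - 1 - i * (ζ - 1))‖ ≤ ‖ζ - 1‖ ^ 2 := by
      rw [sub_eq_add_neg]
      refine (IsUltrametricDist.norm_add_le_max _ _).trans (max_le hz ?_)
      rw [norm_neg]
      exact zeta_taylor h1 i
    have e : z - ζ ^ i = (s - (i : C)) * (ζ - 1) +
        ((z - (1 + s * (ζ - 1))) - (ζ ^ i - 1 - i * (ζ - 1))) := by ring
    rw [e, IsUltrametricDist.norm_add_eq_max_of_norm_ne_norm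
      (by rw [hmain]; exact (herr.trans_lt hsq).ne'), hmain]
    exact max_eq_left (herr.trans hsq.le)
  rw [le_div_iff₀ (pow_pos hpos _)]
  have hnorm : ‖z ^ p - 1‖ = ‖z - ζ ^ c0‖ * ‖ζ - 1‖ ^ (p - 1) := by
    rw [hfac, norm_prod, ← Finset.mul_prod_erase (range p) _ (mem_range.2 hc0),
      Finset.prod_congr rfl hother, Finset.prod_const, Finset.card_erase_of_mem
        (mem_range.2 hc0), card_range]
  rw [← hnorm]
  exact hδ

end ASur
end

section
set_option linter.all false

namespace ASur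

universe u v

theorem main_TRF : StmtTRF :=
  trf_thm (TEXT_thm KAC_thm TUN_thm (TEX_thm TUN_thm)) (chs_thm ttr_thm) (sum2_thm tmom_thm)
    path_thm AXI_thm PER_thm

theorem main_PRODF : StmtPRODF := prodf_thm bin_thm UNIQ_thm

theorem main_THETA : StmtTHETA :=
  THETA_thm DWL_thm gser_thm PSI_thm main_PRODF (LOW_thm main_PRODF) EVJ_thm zeta_thm

theorem main_LEAD : StmtLEAD := lead_thm LEADC_thm leadk_thm

theorem main_EDGES : StmtEDGES :=
  EDGES_thm main_THETA main_TRF deg_thm (FIVE_thm nrm_thm nrb_thm ncl_thm) WGT_thm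
    (CHI_thm main_LEAD reidx_thm) main_LEAD reidx_thm (EDGEM_thm CYC1_thm CYC3_thm BLD_thm)
    SMALL_thm AFAC_thm ediv_thm ECL_thm (TEX_thm TUN_thm) (TEMB_thm KAC_thm) zeta_thm AXI_thm
    ext_thm

theorem main_CORE : StmtCORE :=
  core_thm (half_thm main_EDGES roots_thm zeta_thm) COUNT_thm

theorem main_FINAL : StmtFINAL.{u, v} :=
  final_thm main_CORE K2C_thm linalg_thm ext_thm

end ASur
end
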