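import Pool.Agent.Lib.MP_b685ef_ag.AS.Defs

/-!
# MP_b685ef_ag, theorem AS: statements of all modules

Paper: /team-store/b685_AS_paper.txt (refereed line by line by helper3 and helper25).
Module NAME proves `StmtNAME` in the file `Pool/Agent/Lib/MP_b685ef_ag/AS/NAME.lean`, which imports
`Pool.Agent.Lib.MP_b685ef_ag.AS.Spec`, in `namespace ASur`, as
`theorem name_thm (dependencies as hypotheses (h1 : StmtXXX) ...) : StmtNAME`.
Basic lemmas on `rd`, `OO`, `KK` are in `AS/Defs.lean`. Private lemmas: `private` or prefix `name_`.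
-/

set_option linter.all false

namespace ASur

open Finset

/-! ## Part B: the splitting polynomial -/

/-- **DWL** (Dwork's lemma, existence form). Recursion for the coefficients of `F`:
`p F_m = φ(F_{m/p})[p ∣ m] - [F_{<m}^p]_m - ∑_{j≥1} g_j [F_{<m}^p]_{m-j}` with
`F_{<m} = ∑_{j<m} F_j Y^j`; the right side is divisible by `p`, because modulo `p` (in
`(ZMod p)[X]`, `PadicInt.toZMod`, kernel generated by `p`) one has `g_j = 0` (`j ≥ 1`) and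
`F_{<m}^p = (φ F_{<m})(Y^p)` (`ZMod.expand_card`, and `(∑ h_j Y^j)^p = ∑ h_j^p Y^{pj}` in
characteristic `p`). Degrees: `[F_{<m}^p]_i` has `X`-degree `≤ i`, `φ(F_{m/p})` has degree
`≤ p (m/p) = m`. Existence by strong recursion: it is convenient to prove for every `m` the
existence of a polynomial (or series) `F` with the three properties modulo `Y^{m+1}`, extending the
previous one, or to build the sequence with `Nat.strongRec`. -/
def StmtDWL : Prop := ∀ (p : ℕ) [hp : Fact p.Prime] (g : PowerSeries (Polynomial ℤ_[p])),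
  PowerSeries.constantCoeff g = 1 →
  (∀ n, 1 ≤ n → Polynomial.C (p : ℤ_[p]) ∣ PowerSeries.coeff n g) →
  (∀ n, (PowerSeries.coeff n g).natDegree ≤ n) →
  ∃ F : PowerSeries (Polynomial ℤ_[p]), PowerSeries.constantCoeff F = 1 ∧
    (∀ n, (PowerSeries.coeff n F).natDegree ≤ n) ∧
    PowerSeries.expand p hp.out.ne_zero
      (PowerSeries.map (Polynomial.expand ℤ_[p] p).toRingHom F) = F ^ p * g

/-- **GSER.** `(1+Y^p) = (1+Y)^p (1 + pH)` with `H ∈ Y ℤ_p[[Y]]` (as `(1+Y)^p` is invertible and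
`(1+Y)^p = 1 + Y^p mod p`). `g := ∑_k p^k binom(X,k) H^k`, i.e.
`coeff n g = ∑_{k ≤ n} (coeff n H^k) · P_k` with `P_k ∈ ℤ_p[X]`, `k! P_k = p^k X(X-1)...(X-k+1)`
(`descPochhammer`), `p ∣ P_k` for `k ≥ 1` since `v_p(k!) ≤ (k-1)/(p-1)`, so
`p^k/k! ∈ pℤ_p` (`sub_one_mul_padicValNat_factorial`); degree `≤ k ≤ n` as `Y^k ∣ H^k`.
For a natural number `s`: `P_k(s) = p^k binom(s,k)` and `(1+Y^p)^s = (1+Y)^{ps} (1+pH)^s`. -/
def StmtGSER : Prop := ∀ (p : ℕ) [Fact p.Prime], ∃ g : PowerSeries (Polynomial ℤ_[p]),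
  PowerSeries.constantCoeff g = 1 ∧
  (∀ n, 1 ≤ n → Polynomial.C (p : ℤ_[p]) ∣ PowerSeries.coeff n g) ∧
  (∀ n, (PowerSeries.coeff n g).natDegree ≤ n) ∧
  ∀ s : ℕ, ((1 : PowerSeries ℤ_[p]) + PowerSeries.X ^ p) ^ s =
    (1 + PowerSeries.X) ^ (p * s) *
      PowerSeries.map (Polynomial.evalRingHom (s : ℤ_[p])) g

/-- The pair `(g, F)` given by GSER and DWL. -/
structure DSer (p : ℕ) [hp : Fact p.Prime] (g F : PowerSeries (Polynomial ℤ_[p])) : Prop where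
  gnat : ∀ s : ℕ, ((1 : PowerSeries ℤ_[p]) + PowerSeries.X ^ p) ^ s =
    (1 + PowerSeries.X) ^ (p * s) *
      PowerSeries.map (Polynomial.evalRingHom (s : ℤ_[p])) g
  F0 : PowerSeries.constantCoeff F = 1
  Fdeg : ∀ n, (PowerSeries.coeff n F).natDegree ≤ n
  Feq : PowerSeries.expand p hp.out.ne_zero
      (PowerSeries.map (Polynomial.expand ℤ_[p] p).toRingHom F) = F ^ p * g

/-- **BIN.** `b_s(Y^p) = b_s(Y)^p g_s(Y)` for every `s ∈ C`: each coefficient is a polynomial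
identity in `s`, true for natural `s`. (Work over `Polynomial C` with `s = X`, a binomial ring, and
use `Ring.map_choose` for `Polynomial.evalRingHom`, and `Polynomial.eq_of_infinite_eval_eq`.) -/
def StmtBIN : Prop := ∀ (p : ℕ) [hp : Fact p.Prime] (g : PowerSeries (Polynomial ℤ_[p])),
  (∀ s : ℕ, ((1 : PowerSeries ℤ_[p]) + PowerSeries.X ^ p) ^ s =
    (1 + PowerSeries.X) ^ (p * s) *
      PowerSeries.map (Polynomial.evalRingHom (s : ℤ_[p])) g) →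
  ∀ (C : Type) [Field C] [CharZero C] (j : ℤ_[p] →+* C) (s : C),
    PowerSeries.expand p hp.out.ne_zero (PowerSeries.binomialSeries C s) =
      (PowerSeries.binomialSeries C s) ^ p *
        PowerSeries.map (Polynomial.eval₂RingHom j s) g

/-- **PSI.** `b_s^p = b_s((1+Y)^p - 1)`, coefficientwise; polynomial identity in `s`, true for
natural `s`: `(1+Y)^{ps} = (1 + Ψ)^s = ∑_k binom(s,k) Ψ^k`, `Y^k ∣ Ψ^k`. -/
def StmtPSI : Prop := ∀ (C : Type) [Field C] [CharZero C] (p : ℕ) (s : C) (n : ℕ),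
  PowerSeries.coeff n ((PowerSeries.binomialSeries C s) ^ p) =
    ∑ k ∈ range (n + 1), Ring.choose s k *
      PowerSeries.coeff n (((1 + PowerSeries.X : PowerSeries C) ^ p - 1) ^ k)

/-- **UNIQ.** If `P ≠ P'`, let `m ≥ 1` be the first index with `a = P_m - P'_m ≠ 0`. Then
`P^p - P'^p = p a Y^m mod Y^{m+1}`, while `P(Y^p) - P'(Y^p) = 0 mod Y^{pm}` and `G(0) = 1`. -/
def StmtUNIQ : Prop := ∀ (p : ℕ) (hp : p ≠ 0), 2 ≤ p → ∀ (C : Type) [Field C] [CharZero C]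
  (P P' G : PowerSeries C), PowerSeries.constantCoeff P = 1 → PowerSeries.constantCoeff P' = 1 →
  PowerSeries.expand p hp P = P ^ p * G → PowerSeries.expand p hp P' = P' ^ p * G → P = P'

/-- **PRODF** (from BIN, UNIQ). `P = ∏_i F(t^{p^i}, Y)`: (2) at `X = t^{p^i}` reads
`F(t^{p^{i+1}}, Y^p) = F(t^{p^i}, Y)^p g_{t^{p^i}}(Y)`, and the product over the cycle gives
`P(Y^p) = P(Y)^p ∏_i g_{t^{p^i}}`. `∏_i b_{t^{p^i}} = b_s` satisfies the same equation (BIN). -/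
def StmtPRODF : Prop := ∀ (p : ℕ) [Fact p.Prime] (g F : PowerSeries (Polynomial ℤ_[p])),
  DSer p g F → ∀ (C : Type) [Field C] [CharZero C] (j : ℤ_[p] →+* C) (n : ℕ) (t : C),
  t ^ (p ^ n) = t →
  ∏ i ∈ range n, PowerSeries.map (Polynomial.eval₂RingHom j (t ^ (p ^ i))) F =
    PowerSeries.binomialSeries C (∑ i ∈ range n, t ^ (p ^ i))

/-- **LOW** (from PRODF). `n = 1`: `F_m(t) = binom(t, m)` for the `p` roots of `t^p = t`; for
`m < p` both are polynomials in `t` of degree `≤ m < p`, so they are equal and the leading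
coefficient is `1/m!`. `t = 0`, `n = 1`: `F_m(0) = binom(0,m) = 0` for `m ≥ 1`. -/
def StmtLOW : Prop := ∀ (p : ℕ) [Fact p.Prime] (g F : PowerSeries (Polynomial ℤ_[p])),
  DSer p g F → ∀ (C : Type) [Field C] [CharZero C] [IsAlgClosed C] (j : ℤ_[p] →+* C),
  (∀ m, m < p → j ((PowerSeries.coeff m F).coeff m) * (m.factorial : C) = 1) ∧
  (∀ m, 1 ≤ m → j ((PowerSeries.coeff m F).coeff 0) = 0)

/-- Truncated evaluation. -/
noncomputable def ev {C : Type} [Field C] (J : ℕ) (lam : C) (h : PowerSeries C) : C :=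
  ∑ n ∈ range J, PowerSeries.coeff n h * lam ^ n

/-- **EVJ.** The terms of the product of index `≥ J` have norm `≤ ‖λ‖^J`. -/
def StmtEVJ : Prop := ∀ (C : Type) [NormedField C] [IsUltrametricDist C] (J : ℕ) (lam : C),
  ‖lam‖ ≤ 1 → ∀ (ι : Type) (s : Finset ι) (h : ι → PowerSeries C),
  (∀ i ∈ s, ∀ n, ‖PowerSeries.coeff n (h i)‖ ≤ 1) →
  (∀ n, ‖PowerSeries.coeff n (∏ i ∈ s, h i)‖ ≤ 1) ∧
  ‖ev J lam (∏ i ∈ s, h i) - ∏ i ∈ s, ev J lam (h i)‖ ≤ ‖lam‖ ^ J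

/-- **ZETA.** `p = ∏_{0<i<p} (1 - ζ^i)`, all factors of the norm of `λ = ζ - 1`
(`ζ^i - 1 = i λ mod λ²`). `z^p - 1 = ∏_{c<p} (z - ζ^c)` and for `c ≠ c0`
`z - ζ^c = (s - c) λ mod λ²` has norm `‖λ‖`. -/
def StmtZETA : Prop := ∀ (p : ℕ) [Fact p.Prime] (C : Type) [NormedField C]
  [IsUltrametricDist C] [CharZero C], ‖(p : C)‖ < 1 → ∀ ζ : C, IsPrimitiveRoot ζ p →
  ζ - 1 ≠ 0 ∧ ‖ζ - 1‖ < 1 ∧ ‖ζ - 1‖ ^ (p - 1) = ‖(p : C)‖ ∧
  ∀ (z s : C) (c0 : ℕ) (δ : ℝ), c0 < p → ‖s - (c0 : C)‖ < 1 →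
    ‖z - (1 + s * (ζ - 1))‖ ≤ ‖ζ - 1‖ ^ 2 → ‖z ^ p - 1‖ ≤ δ →
    ‖z - ζ ^ c0‖ ≤ δ / ‖ζ - 1‖ ^ (p - 1)

/-- **THETA** (from DWL, GSER, PSI, PRODF, LOW, EVJ, ZETA). `J > p` large,
`Θ = ∑_{j<J} λ^j j(F_j)(T)`. See 2.6 of the paper. -/
def StmtTHETA : Prop := ∀ (p : ℕ) [Fact p.Prime] (C : Type) [NormedField C]
  [IsUltrametricDist C] [CharZero C] [IsAlgClosed C], ‖(p : C)‖ < 1 →
  ∀ j : ℤ_[p] →+* C, (∀ x, ‖j x‖ ≤ 1) → ∀ ζ : C, IsPrimitiveRoot ζ p →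
  ∀ ε : ℝ, 0 < ε → ∃ Θ : Polynomial C, IsSplit p ζ ε Θ

/-! ## Part T: Teichmüller lifts -/

/-- **KAC.** Lift a monic polynomial over `κ` to a monic polynomial over `O` (`Polynomial.lifts`
with degree control), take a root in `C`; it is integral over `O`, so in `O`. -/
def StmtKAC : Prop := ∀ (C : Type) [NormedField C] [IsUltrametricDist C] [IsAlgClosed C],
  IsAlgClosed (KK C)

/-- **TUN.** `t^Q = t` (`Q = p^n ≥ 2`) gives `‖t‖ ∈ {0, 1}`; if `t, t' ≠ 0`, `u = t'/t` satisfies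
`u^{Q-1} = 1`, `‖u - 1‖ < 1`; if `u ≠ 1`, `0 = ∑_{i<Q-1} u^i = Q - 1 = -1 mod 𝔪`. -/
def StmtTUN : Prop := ∀ (p : ℕ) [Fact p.Prime] (C : Type) [NormedField C]
  [IsUltrametricDist C], ‖(p : C)‖ < 1 → ∀ (n : ℕ), 1 ≤ n → ∀ t t' : C,
  t ^ (p ^ n) = t → t' ^ (p ^ n) = t' → rd t = rd t' → t = t'

/-- **TEX** (existence, from TUN). `|E| = Q = p^n`. `T^Q - T` has `Q` distinct roots in `O`
(`C` alg. closed of char `0`); by TUN their reductions are distinct roots of `T^Q - T` in `κ`, so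
all its roots, and `ι(x)` is such a root. `τ(x)` := the root with reduction `ι(x)`;
multiplicative and `τ(0) = 0` by TUN. -/
def StmtTEX : Prop := ∀ (p : ℕ) [Fact p.Prime] (C : Type) [NormedField C]
  [IsUltrametricDist C] [CharZero C] [IsAlgClosed C], ‖(p : C)‖ < 1 →
  ∀ (E : Type) [Field E] [Fintype E] (ι : E →+* KK C), ∃ τ : E →*₀ C, IsTeich ι τ

/-- **TMOM.** `ι` is injective, so `τ` is injective (`τ x = τ y → ι x = ι y`). With a generator `g`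
of `Eˣ`: `∑_{x≠0} τ(x)^m = τ(g)^m ∑_{x≠0} τ(x)^m`, and `τ(g)^m = 1` iff `g^m = 1` iff
`Q - 1 ∣ m`. -/
def StmtTMOM : Prop := ∀ (C : Type) [NormedField C] [IsUltrametricDist C]
  (E : Type) [Field E] [Fintype E] (ι : E →+* KK C) (τ : E →*₀ C), IsTeich ι τ → ∀ m : ℕ,
  ∑ x : E, τ x ^ m = if m = 0 then (Fintype.card E : C) else
    if (Fintype.card E - 1) ∣ m then (Fintype.card E : C) - 1 else 0

/-- **TEMB** (from KAC). A finite field of characteristic `p` embeds in `κ`. -/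
def StmtTEMB : Prop := ∀ (p : ℕ) [Fact p.Prime] (C : Type) [NormedField C]
  [IsUltrametricDist C] [IsAlgClosed C], ‖(p : C)‖ < 1 →
  ∀ (k : Type) [Field k] [Fintype k] [Algebra (ZMod p) k], Nonempty (k →+* KK C)

/-- **TEXT** (from KAC, TUN, TEX). Extend `ι` to `E` (`IsAlgClosed.lift`), take its Teichmüller
lift; `τ_E ∘ algebraMap` and `τ` agree by TUN (both values are fixed by `t ↦ t^{|E|}`). -/
def StmtTEXT : Prop := ∀ (p : ℕ) [Fact p.Prime] (C : Type) [NormedField C]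
  [IsUltrametricDist C] [CharZero C] [IsAlgClosed C], ‖(p : C)‖ < 1 →
  ∀ (k : Type) [Field k] [Fintype k] (ι : k →+* KK C) (τ : k →*₀ C), IsTeich ι τ →
  ∀ (E : Type) [Field E] [Fintype E] [Algebra k E],
  ∃ (ιE : E →+* KK C) (τE : E →*₀ C), IsTeich ιE τE ∧ ∀ x, τE (algebraMap k E x) = τ x

/-- **TTR.** `τ(z)^{p^n} = τ(z^{p^n}) = τ(z)`; the trace to `F_p` is `∑ z^{p^i}`
(`FiniteField.algebraMap_trace_eq_sum_pow`). -/
def StmtTTR : Prop := ∀ (p : ℕ) [Fact p.Prime] (C : Type) [NormedField C]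
  [IsUltrametricDist C], ‖(p : C)‖ < 1 →
  ∀ (E : Type) [Field E] [Fintype E] [Algebra (ZMod p) E] (ι : E →+* KK C) (τ : E →*₀ C),
  IsTeich ι τ → ∀ z : E, τ z ^ (p ^ Module.finrank (ZMod p) E) = τ z ∧
    rd (∑ i ∈ range (Module.finrank (ZMod p) E), τ z ^ (p ^ i)) =
      (((Algebra.trace (ZMod p) E z).val : ℕ) : KK C)

/-! ## Part S: exponential sums as traces -/

/-- **CHS** (from TTR). `G_n(τ x) = ∏_m ∏_{i<n} Θ(t_m^{p^i})`, `t_m = τ(c_m x^m)`,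
`n = [E : F_p]`; by `split` each inner product is `ψ(1)^{c}` up to `ε`, with
`c = Tr(c_m x^m)` in `ZMod p` (both reductions agree and `KK C` has characteristic `p`), and all
factors have norm `≤ 1` (`‖ψ 1‖ = 1`, so `‖ψ 1 - 1‖ ≤ 1`, `‖Θ(t)‖ ≤ 1` for `‖t‖ ≤ 1`). -/
def StmtCHS : Prop := ∀ (p : ℕ) [Fact p.Prime] (C : Type) [NormedField C]
  [IsUltrametricDist C], ‖(p : C)‖ < 1 →
  ∀ (ψ : AddChar (ZMod p) C) (ε : ℝ) (Θ : Polynomial C), 0 < ε → IsSplit p (ψ 1) ε Θ →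
  ∀ (k : Type) [Field k] [Fintype k] (τ : k →*₀ C) (E : Type) [Field E] [Fintype E]
    [Algebra (ZMod p) E] [Algebra k E] (ιE : E →+* KK C) (τE : E →*₀ C), IsTeich ιE τE →
  (∀ x, τE (algebraMap k E x) = τ x) →
  ∀ (σ : Type) [Fintype σ] [DecidableEq σ] (f : MvPolynomial σ k),
  ‖∑ x : σ → E, ψ (Algebra.trace (ZMod p) E (MvPolynomial.aeval x f)) -
    ∑ x : σ → E, MvPolynomial.eval (fun s => τE (x s))
      (Gpol p (Fpol p τ Θ f) (Module.finrank (ZMod p) E))‖ ≤ ε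

/-- **SUM2** (from TMOM). `∑_x G(τ x) = ∑_w coeff_w G · σ(w_0) σ(w_1)` with
`σ(m) = (Q-1)[Q-1 ∣ m] + [m = 0]`; expand. The coefficients of index `(Q-1)u` with `u` outside
`[0, L]^2` vanish by the degree bound. `Q = |E|`. -/
def StmtSUM2 : Prop := ∀ (C : Type) [NormedField C] [IsUltrametricDist C]
  (E : Type) [Field E] [Fintype E] (ι : E →+* KK C) (τ : E →*₀ C), IsTeich ι τ →
  ∀ (L : ℕ) (G : MvPolynomial (Fin 2) C),
  (∀ s, G.degreeOf s ≤ (Fintype.card E - 1) * L) →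
  ∑ x : Fin 2 → E, MvPolynomial.eval (fun s => τ (x s)) G =
    ((Fintype.card E : C) - 1) ^ 2 * Tsum (Fintype.card E - 1) L G +
    (Fintype.card E : C) * ((Fintype.card E : C) - 1) *
      (Tsum (Fintype.card E - 1) L (ax 0 G) + Tsum (Fintype.card E - 1) L (ax 1 G)) +
    (Fintype.card E : C) ^ 2 * G.coeff 0

/-- **PATH.** By induction on `n`: `Pmat_{u,v} = coeff_{p^n u - v} G_n` (`0` if `p^n u - v` is not
`≥ 0`), since `coeff_{p^{n+1}u - v}(G_n · F_n(x^{p^n})) = ∑_w coeff_w(F_n) coeff_{p^n(pu - w) - v}(G_n)`,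
and `u' = pu - w` contributes `0` if some coordinate is `≤ 0` (as `v ≥ 1`) or `> L` (degree of
`G_n` at most `(p^n - 1)L`). -/
def StmtPATH : Prop := ∀ (p : ℕ), 1 ≤ p → ∀ (C : Type) [Field C] (σ : Type) [Fintype σ]
  [DecidableEq σ] (L : ℕ) (F : ℕ → MvPolynomial σ C),
  (∀ i s, (F i).degreeOf s ≤ (p - 1) * L) → ∀ n : ℕ,
  (∀ s, (Gpol p F n).degreeOf s ≤ (p ^ n - 1) * L) ∧
  Matrix.trace (Pmat (fun i => Amat p L (F i)) n) = Tsum (p ^ n - 1) L (Gpol p F n)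

/-- **AXI.** Restriction to the axes; constant coefficients. -/
def StmtAXI : Prop := ∀ (p : ℕ), 1 ≤ p → ∀ (C : Type) [Field C]
  (F : ℕ → MvPolynomial (Fin 2) C) (n : ℕ) (s : Fin 2),
  ax s (Gpol p F n) = Gpol p (fun i => ax s (F i)) n ∧
  (∀ i, (ax s (F i)).degreeOf 0 ≤ (F i).degreeOf s) ∧
  (∀ i, (ax s (F i)).coeff 0 = (F i).coeff 0) ∧
  (Gpol p F n).coeff 0 = ∏ i ∈ range n, (F i).coeff 0 ∧
  (∀ i w, ((ax s (F i)).coeff w = cf (F i) (fun t => if t = s then w 0 else 0)))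

/-- **PER.** `Pmat` of a periodic sequence. -/
def StmtPER : Prop := ∀ (ι C : Type) [Fintype ι] [DecidableEq ι] [CommRing C]
  (A : ℕ → Matrix ι ι C) (h : ℕ), (∀ i, A (i + h) = A i) → ∀ j : ℕ,
  Pmat A (h * j) = Pmat A h ^ j

/-- **TRF** (from TEXT, CHS, SUM2, PATH, AXI, PER): the combined trace formula. -/
def StmtTRF : Prop := ∀ (p : ℕ) [Fact p.Prime] (C : Type) [NormedField C]
  [IsUltrametricDist C] [CharZero C] [IsAlgClosed C], ‖(p : C)‖ < 1 →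
  ∀ (ψ : AddChar (ZMod p) C) (ε : ℝ) (Θ : Polynomial C), 0 < ε → IsSplit p (ψ 1) ε Θ →
  ∀ (k : Type) [Field k] [Fintype k] [Algebra (ZMod p) k] (ι : k →+* KK C) (τ : k →*₀ C),
  IsTeich ι τ → ∀ (f : MvPolynomial (Fin 2) k) (L : ℕ),
  (∀ i s, (Fpol p τ Θ f i).degreeOf s ≤ (p - 1) * L) →
  ∀ (E : Type) [Field E] [Fintype E] [Algebra (ZMod p) E] [Algebra k E],
  let F := Fpol p τ Θ f
  let h := Module.finrank (ZMod p) k
  let j := Module.finrank k E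
  let q : C := (Fintype.card k : C)
  let B := Pmat (fun i => Amat p L (F i)) h
  let B0 := Pmat (fun i => Amat p L (ax 0 (F i))) h
  let B1 := Pmat (fun i => Amat p L (ax 1 (F i))) h
  let γ := ∏ i ∈ range h, (F i).coeff 0
  ‖Sf ψ f E - ((q ^ j - 1) ^ 2 * Matrix.trace (B ^ j) +
    q ^ j * (q ^ j - 1) * (Matrix.trace (B0 ^ j) + Matrix.trace (B1 ^ j)) +
    (q ^ j) ^ 2 * γ ^ j)‖ ≤ ε

/-- **DEG.** Some `L ≥ D` bounds the degrees (`F_{i+h} = F_i`, or directly: the degree of `F_i` is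
at most `∑_m (deg Θ) m_s`). -/
def StmtDEG : Prop := ∀ (p : ℕ), 2 ≤ p → ∀ (C : Type) [Field C] (k : Type) [Field k]
  (τ : k → C) (Θ : Polynomial C) (f : MvPolynomial (Fin 2) k) (L0 : ℕ),
  ∃ L, L0 ≤ L ∧ ∀ i s, (Fpol p τ Θ f i).degreeOf s ≤ (p - 1) * L

/-! ## Part N: Newton's identities -/

/-- **NRM.** Products add the power sums: with `S = ∑_{i≥1} s_i X^i`, `NR s P` is
`X P' = - S P` and `P(0) = 1`. -/
def StmtNRM : Prop := ∀ (C : Type) [Field C] (s s' : ℕ → C) (P P' : PowerSeries C),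
  NR s P → NR s' P' → NR (fun i => s i + s' i) (P * P')

/-- **NRB.** `∏(1 - β X)` has power sums `∑ β^i`; `det(1 - XM)` has power sums `tr M^i`
(over an algebraically closed field, `charpolyRev M = ∏(1 - βX)` over the roots of
`charpoly M`, and `tr M^i = ∑ β^i`). -/
def StmtNRB : Prop := ∀ (C : Type) [Field C] [IsAlgClosed C],
  (∀ β : Multiset C, NR (fun i => (β.map fun x => x ^ i).sum) (revP β : PowerSeries C)) ∧
  (∀ (ι : Type) [Fintype ι] [DecidableEq ι] (M : Matrix ι ι C),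
    NR (fun i => Matrix.trace (M ^ i)) (M.charpolyRev : PowerSeries C))

/-- **NCL** (closeness). -/
def StmtNCL : Prop := ∀ (C : Type) [NormedField C] [IsUltrametricDist C] [CharZero C]
  (s s' : ℕ → C) (P P' : PowerSeries C) (ε : ℝ), 0 ≤ ε → NR s P → NR s' P' →
  (∀ m, ‖PowerSeries.coeff m P'‖ ≤ 1) → (∀ i, 1 ≤ i → ‖s i‖ ≤ 1) →
  (∀ i, 1 ≤ i → ‖s i - s' i‖ ≤ ε) →
  ∀ m, ‖PowerSeries.coeff m P - PowerSeries.coeff m P'‖ ≤ ε / ‖(m.factorial : C)‖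

/-- `D1 = det(1-qXB)^2 det(1-qXB0) det(1-qXB1)`. -/
noncomputable def DD1 {C I J : Type} [Field C] [Fintype I] [DecidableEq I] [Fintype J]
    [DecidableEq J] (q : C) (B : Matrix I I C) (B0 B1 : Matrix J J C) : Polynomial C :=
  (q • B).charpolyRev ^ 2 * (q • B0).charpolyRev * (q • B1).charpolyRev

/-- `D3 = det(1-q²XB) det(1-q²XB0) det(1-q²XB1) (1-q²γX)`. -/
noncomputable def DD3 {C I J : Type} [Field C] [Fintype I] [DecidableEq I] [Fintype J]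
    [DecidableEq J] (q γ : C) (B : Matrix I I C) (B0 B1 : Matrix J J C) : Polynomial C :=
  (q ^ 2 • B).charpolyRev * (q ^ 2 • B0).charpolyRev * (q ^ 2 • B1).charpolyRev *
    (1 - Polynomial.C (q ^ 2 * γ) * Polynomial.X)

/-- **FIVE** (from NRM, NRB, NCL): formula (5). -/
def StmtFIVE : Prop := ∀ (C : Type) [NormedField C] [IsUltrametricDist C] [CharZero C]
  [IsAlgClosed C] (I J : Type) [Fintype I] [DecidableEq I] [Fintype J] [DecidableEq J]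
  (q γ : C) (B : Matrix I I C) (B0 B1 : Matrix J J C) (β : Multiset C) (ε : ℝ), 0 ≤ ε →
  ‖q‖ ≤ 1 → ‖γ‖ ≤ 1 → (∀ u v, ‖B u v‖ ≤ 1) → (∀ u v, ‖B0 u v‖ ≤ 1) → (∀ u v, ‖B1 u v‖ ≤ 1) →
  (∀ j, 1 ≤ j → ‖(β.map fun x => x ^ j).sum‖ ≤ 1) →
  (∀ j, 1 ≤ j → ‖(β.map fun x => x ^ j).sum - ((q ^ j - 1) ^ 2 * Matrix.trace (B ^ j) +
    q ^ j * (q ^ j - 1) * (Matrix.trace (B0 ^ j) + Matrix.trace (B1 ^ j)) +
    (q ^ j) ^ 2 * γ ^ j)‖ ≤ ε) →
  ∀ m, ‖(revP β * DD1 q B B0 B1).coeff m - (B.charpolyRev * DD3 q γ B B0 B1).coeff m‖ ≤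
    ε / ‖(m.factorial : C)‖

/-! ## Part W: weights and leading coefficients -/

/-- **WGT.** Each factor of `F_i`: for `m ≠ 0` the coefficient at `l m` is
`Θ_l τ(c_m)^{p^i l}`, of norm `≤ ‖λ‖^l = ‖ρ‖^{Dl} ≤ ‖ρ‖^{e(lm)}` (`‖ρ‖ ≤ 1`, `e(m) ≤ D`); for
`m = 0` a constant of norm `≤ 1`; the bound is multiplicative in `F`. -/
def StmtWGT : Prop := ∀ (p : ℕ) [Fact p.Prime] (a b : ℕ), 2 ≤ a → 2 ≤ b →
  ∀ (C : Type) [NormedField C] [IsUltrametricDist C] (ζ ρ : C) (ε : ℝ) (Θ : Polynomial C),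
  IsSplit p ζ ε Θ → ρ ^ Nat.lcm a b = ζ - 1 → ρ ≠ 0 → ‖ρ‖ < 1 →
  ∀ (k : Type) [Field k] (ι : k →+* KK C) (τ : k →*₀ C), IsTeich ι τ →
  ∀ f : MvPolynomial (Fin 2) k, (∀ m ∈ f.support, ew a b m ≤ Nat.lcm a b) →
  ∀ (i : ℕ) (w : Fin 2 → ℕ), ‖cf (Fpol p τ Θ f i) w‖ ≤ ‖ρ‖ ^ ew a b w

/-- Reduction of the splitting polynomial: `E(Z) = ∑ red(Θ_l/λ^l) Z^l`. -/
noncomputable def Exr {C : Type} [NormedField C] [IsUltrametricDist C] (ζ : C)
    (Θ : Polynomial C) : Polynomial (KK C) :=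
  ∑ l ∈ range (Θ.natDegree + 1), Polynomial.monomial l (rd (Θ.coeff l / (ζ - 1) ^ l))

/-- The Frobenius twist of the leading form, over `κ`. -/
noncomputable def gk (p a b : ℕ) {C : Type} [NormedField C] [IsUltrametricDist C] {k : Type}
    [Field k] (ι : k →+* KK C) (f : MvPolynomial (Fin 2) k) (i : ℕ) :
    MvPolynomial (Fin 2) (KK C) :=
  ∑ m ∈ (lead a b f).support,
    MvPolynomial.monomial m (ι ((lead a b f).coeff m) ^ (p ^ i))

/-- **LEADC.** Scale: `F(x/ρ^{wa}, y/ρ^{wb})` has coefficients in `O`, reduction is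
multiplicative there (go through `MvPolynomial (Fin 2) (OO C)` and `MvPolynomial.map`); the factor
of `m` reduces to `1` if `e(m) < D` (in particular for `m = 0`: `Θ(t) = 1 mod 𝔪`) and to
`E(ι(c)^{p^i} x^m)` if `e(m) = D`. -/
def StmtLEADC : Prop := ∀ (p : ℕ) [Fact p.Prime] (a b : ℕ), 2 ≤ a → 2 ≤ b →
  ∀ (C : Type) [NormedField C] [IsUltrametricDist C] (ζ ρ : C) (ε : ℝ) (Θ : Polynomial C),
  IsSplit p ζ ε Θ → ρ ^ Nat.lcm a b = ζ - 1 → ρ ≠ 0 → ‖ρ‖ < 1 →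
  ∀ (k : Type) [Field k] (ι : k →+* KK C) (τ : k →*₀ C), IsTeich ι τ →
  ∀ f : MvPolynomial (Fin 2) k, (∀ m ∈ f.support, ew a b m ≤ Nat.lcm a b) →
  ∀ (i : ℕ) (w : Fin 2 → ℕ), rd (cf (Fpol p τ Θ f i) w / ρ ^ ew a b w) =
    cf (∏ m ∈ (gk p a b ι f i).support, Polynomial.aeval
      (MvPolynomial.monomial m ((gk p a b ι f i).coeff m)) (Exr ζ Θ)) w

/-- **LEADK.** Over a field `κ` of characteristic `p`: if `E_l = 1/l!` for `l < p` and all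
monomials of `g` have weight `D`, then `∏_m E(g_m x^m)` is supported on the weights divisible by
`D` and its part of weight `D l`, `l < p`, is `g^l / l!`: the coefficient of `T^l` in
`∏_m E(T y_m)` is `(∑ y_m)^l / l!` for `l < p` (induction over the finset, binomial theorem), and
it is homogeneous of weight `D l`. -/
def StmtLEADK : Prop := ∀ (κ : Type) [Field κ] (p : ℕ) [Fact p.Prime] [CharP κ p]
  (Ex : Polynomial κ), (∀ l, l < p → Ex.coeff l * (l.factorial : κ) = 1) →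
  ∀ (a b : ℕ), 2 ≤ a → 2 ≤ b → ∀ g : MvPolynomial (Fin 2) κ,
  (∀ m ∈ g.support, ew a b m = Nat.lcm a b) → ∀ w : Fin 2 → ℕ,
  (¬ Nat.lcm a b ∣ ew a b w →
    cf (∏ m ∈ g.support, Polynomial.aeval (MvPolynomial.monomial m (g.coeff m)) Ex) w = 0) ∧
  (∀ l, l < p → ew a b w = Nat.lcm a b * l →
    cf (∏ m ∈ g.support, Polynomial.aeval (MvPolynomial.monomial m (g.coeff m)) Ex) w *
      (l.factorial : κ) = cf (g ^ l) w)

/-- **LEAD** (from LEADC, LEADK): formula (7). `p e(u) - e(v) = D c e(u) + e(u) - e(v)`, so for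
`1 ≤ e(u), e(v) ≤ D` it is divisible by `D` only if `e(u) = e(v) = m`, and then it is
`D c m`, `cm ≤ p - 1`. For `e(v) ≤ D` and `u ≥ 1` one has `pu ≥ v` (`v_s ≤ e(v) ≤ D < p`).
`cf (gk^l) w = (ι (cf (lead f ^ l) w))^{p^i}` (Frobenius). `IsSplit.small` gives
`E_l = 1/l!` for `l < p` (`l!` is a unit). -/
def StmtLEAD : Prop := ∀ (p : ℕ) [Fact p.Prime] (a b : ℕ), 2 ≤ a → 2 ≤ b →
  Nat.lcm a b ∣ p - 1 →
  ∀ (C : Type) [NormedField C] [IsUltrametricDist C], ‖(p : C)‖ < 1 →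
  ∀ (ζ ρ : C) (ε : ℝ) (Θ : Polynomial C),
  IsSplit p ζ ε Θ → ρ ^ Nat.lcm a b = ζ - 1 → ρ ≠ 0 → ‖ρ‖ < 1 →
  ∀ (k : Type) [Field k] (ι : k →+* KK C) (τ : k →*₀ C), IsTeich ι τ →
  ∀ f : MvPolynomial (Fin 2) k, (∀ m ∈ f.support, ew a b m ≤ Nat.lcm a b) →
  ∀ (i L : ℕ) (u v : Fin 2 → Fin L), ew a b (pt u) ≤ Nat.lcm a b →
    ew a b (pt v) ≤ Nat.lcm a b →
  (ew a b (pt u) ≠ ew a b (pt v) → rd (Cmat p a b L ρ (Fpol p τ Θ f i) u v) = 0) ∧
  (∀ m, ew a b (pt u) = m → ew a b (pt v) = m →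
    rd (Cmat p a b L ρ (Fpol p τ Θ f i) u v) *
      ((((p - 1) / Nat.lcm a b * m).factorial : ℕ) : KK C) =
    ι (cf (lead a b f ^ ((p - 1) / Nat.lcm a b * m)) (fun s => p * pt u s - pt v s)) ^ (p ^ i))

/-- **REIDX.** For `m ≤ D ≤ L` the index sets and `H_m` do not depend on `L`
(`e(u) ≤ D` forces `u_s ≤ D`). -/
def StmtREIDX : Prop := ∀ (p a b : ℕ), 2 ≤ a → 2 ≤ b → ∀ (L m : ℕ), m ≤ Nat.lcm a b →
  Nat.lcm a b ≤ L →
  Fintype.card {u : Fin 2 → Fin L // ew a b (pt u) < m} =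
    Fintype.card {u : Fin 2 → Fin (Nat.lcm a b) // ew a b (pt u) < m} ∧
  Fintype.card (Um a b L m) = Fintype.card (Um a b (Nat.lcm a b) m) ∧
  ∀ (k : Type) [Field k] (f : MvPolynomial (Fin 2) k) (h : ℕ),
    (Fprod p (Hmat p a b L m f) h).charpoly =
      (Fprod p (Hmat p a b (Nat.lcm a b) m f) h).charpoly

/-- **CHI** (from LEAD, REIDX). `(cm)!^h` is a unit of `κ`; the product of the reduced blocks is
`((cm)!)^{-h} ι(N_m)`, `N_m` invertible with distinct eigenvalues (hypothesis). Over the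
algebraically closed `κ`, or for any field: `charpolyRev` of an invertible matrix with separable
charpoly is separable of full degree; `det H_m ≠ 0` since `det N_m = (det H_m)^{1+p+...}` and
`h ≥ 1`. -/
def StmtCHI : Prop := ∀ (p : ℕ) [Fact p.Prime] (a b : ℕ), 2 ≤ a → 2 ≤ b →
  Nat.lcm a b ∣ p - 1 →
  ∀ (C : Type) [NormedField C] [IsUltrametricDist C] [IsAlgClosed C], ‖(p : C)‖ < 1 →
  ∀ (ζ ρ : C) (ε : ℝ) (Θ : Polynomial C),
  IsSplit p ζ ε Θ → ρ ^ Nat.lcm a b = ζ - 1 → ρ ≠ 0 → ‖ρ‖ < 1 →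
  ∀ (k : Type) [Field k] (ι : k →+* KK C) (τ : k →*₀ C), IsTeich ι τ →
  ∀ f : MvPolynomial (Fin 2) k, (∀ m ∈ f.support, ew a b m ≤ Nat.lcm a b) →
  ∀ h : ℕ, 1 ≤ h → (∀ m, 1 ≤ m → m ≤ Nat.lcm a b → (Polynomial.X *
    (Fprod p (Hmat p a b (Nat.lcm a b) m f) h).charpoly).Separable) →
  ∀ L : ℕ, Nat.lcm a b ≤ L → ∀ m, 1 ≤ m → m ≤ Nat.lcm a b →
  (Pmat (fun i => blk (fun u : Fin 2 → Fin L => ew a b (pt u)) m
    (Cmat p a b L ρ (Fpol p τ Θ f i))) h).charpolyRev.Separable ∧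
  (Pmat (fun i => blk (fun u : Fin 2 → Fin L => ew a b (pt u)) m
    (Cmat p a b L ρ (Fpol p τ Θ f i))) h).charpolyRev.natDegree =
      Fintype.card (Um a b (Nat.lcm a b) m) ∧
  (Pmat (fun i => blk (fun u : Fin 2 → Fin L => ew a b (pt u)) m
    (Cmat p a b L ρ (Fpol p τ Θ f i))) h).charpolyRev.coeff 0 = 1 ∧
  ∀ i, i < h → (blk (fun u : Fin 2 → Fin L => ew a b (pt u)) m
    (Cmat p a b L ρ (Fpol p τ Θ f i))).det ≠ 0

/-! ## Part M: matrices -/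

/-- **CYC1.** `det (cyc 1 E) = det (1 - E_{h-1} ⋯ E_0)`. Multiply `cyc h 1 E` on the right by the
block matrix with first block column `(1, E_0, E_1E_0, ...)` (`Pmat E i`) and the identity
elsewhere (block unitriangular, determinant `1`): the first block column becomes
`(1 - Pmat E h, 0, ..., 0)` and the rest is lower unitriangular. Or (helper25):
`cyc = (1 - N) - K` and `Matrix.det_one_sub_mul_comm`. -/
def StmtCYC1 : Prop := ∀ (ι R : Type) [Fintype ι] [DecidableEq ι] [CommRing R] (h : ℕ), 1 ≤ h →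
  ∀ E : ℕ → Matrix ι ι R, (cyc h 1 E).det = (1 - Pmat E h).det

/-- **CYC3.** `det (cyc 0 E) = ± ∏ det E_i`: permute the block rows. -/
def StmtCYC3 : Prop := ∀ (ι R : Type) [Fintype ι] [DecidableEq ι] [CommRing R] (h : ℕ), 1 ≤ h →
  ∀ E : ℕ → Matrix ι ι R, ∃ ε : R, (ε = 1 ∨ ε = -1) ∧
  (cyc h 0 E).det = ε * ∏ i ∈ range h, (E i).det

/-- **BLD.** The determinant of a matrix over a field whose entries between different levels
`e = m'`, `e = m''` vanish is nonzero if all diagonal blocks have nonzero determinant. -/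
def StmtBLD : Prop := ∀ (ι κ : Type) [Fintype ι] [DecidableEq ι] [Field κ] (e : ι → ℕ)
  (M : Matrix ι ι κ), (∀ u v, e u ≠ e v → M u v = 0) →
  (∀ m, (Matrix.of fun (u v : {u : ι // e u = m}) => M u.1 v.1).det ≠ 0) → M.det ≠ 0

/-- **EDGEM** (from CYC1, CYC3, BLD): section 6, abstract form. `A = WΔC W⁻¹` with
`W = diag(ρ^{e(u)})`, `Δ = diag(ρ^{(p-1)e(u)})`; `π = ρ^{(p-1)m}`, `ϖ = π^h`;
`S = diag(s_u)`, `s_u = ρ^{(p-1)(m-e(u))}` if `e(u) < m`, else `1`; `S Δ C_i/π = Et_i` integral,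
`red Et_i` = rows `e(u) ≤ m` of `red C_i`, other rows `0`.
`det(S)^h det(1 - (X/ϖ) Pmat A h) = det (cyc h S (X Et_0, Et_1, ...))` (CYC1, factor
`diag(S,...,S)`), reduce: rows with `e(u) > m` are unit rows, the rest is block diagonal for
`{e < m}`, `{e = m}`; CYC3 on `{e < m}` (`S = 0` there), CYC1 on `{e = m}` (`S = 1`). The
reduction is `κ X^{M} det(1 - X Pmat(red C_i|_{e = m}))`, `κ ≠ 0`; normalise by a lift of `κ`.
Work with polynomials over `OO C`, or coefficientwise. -/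
def StmtEDGEM : Prop := ∀ (C : Type) [NormedField C] [IsUltrametricDist C]
  (ι : Type) [Fintype ι] [DecidableEq ι] (e : ι → ℕ) (p h m : ℕ) (ρ : C)
  (A Cm : ℕ → Matrix ι ι C), 2 ≤ p → 1 ≤ h → ρ ≠ 0 → ‖ρ‖ < 1 → (∀ u, 1 ≤ e u) →
  (∀ i u v, ‖Cm i u v‖ ≤ 1) →
  (∀ i u v, A i u v * ρ ^ e v = ρ ^ (p * e u) * Cm i u v) →
  (∀ i, i < h → ∀ u v, e u ≤ m → e v ≤ m → e u ≠ e v → rd (Cm i u v) = 0) →
  (∀ i, i < h → ∀ m', m' < m → (blk e m' (Cm i)).det ≠ 0) →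
  ∀ m0 : ℕ, Edge ((Pmat A h).charpolyRev : PowerSeries C) (ρ ^ ((p - 1) * m * h))
    (Fintype.card {u // e u < m}) (Pmat (fun i => blk e m (Cm i)) h).charpolyRev m0

/-- **SMALL.** `det(1 - xX Pmat A h)` with `‖x‖ ≤ ‖ϖ‖`: conjugate by `W`; the conjugated matrix
`∏ Δ C_i` has entries in `𝔪` (`h ≥ 1`, `e ≥ 1`, `p ≥ 2`). -/
def StmtSMALL : Prop := ∀ (C : Type) [NormedField C] [IsUltrametricDist C]
  (ι : Type) [Fintype ι] [DecidableEq ι] (e : ι → ℕ) (p h : ℕ) (ρ x ϖ : C)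
  (A Cm : ℕ → Matrix ι ι C), 2 ≤ p → 1 ≤ h → ρ ≠ 0 → ‖ρ‖ < 1 → (∀ u, 1 ≤ e u) →
  (∀ i u v, ‖Cm i u v‖ ≤ 1) →
  (∀ i u v, A i u v * ρ ^ e v = ρ ^ (p * e u) * Cm i u v) →
  ϖ ≠ 0 → ‖x‖ ≤ ‖ϖ‖ →
  USmall ((x • Pmat A h).charpolyRev : PowerSeries C) ϖ

/-- **AFAC.** The matrices `A(F)` and their axis versions satisfy the hypotheses of EDGEM and
SMALL if `‖coeff_w F‖ ≤ ‖ρ‖^{e(w)}`. -/
def StmtAFAC : Prop := ∀ (C : Type) [NormedField C] [IsUltrametricDist C] (p a b L : ℕ) (ρ : C)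
  (F : MvPolynomial (Fin 2) C), 1 ≤ p → 2 ≤ a → 2 ≤ b → ρ ≠ 0 → ‖ρ‖ < 1 →
  (∀ w, ‖cf F w‖ ≤ ‖ρ‖ ^ ew a b w) →
  ((∀ u v, ‖Cmat p a b L ρ F u v‖ ≤ 1) ∧
   (∀ u v, Amat p L F u v * ρ ^ ew a b (pt v) =
      ρ ^ (p * ew a b (pt u)) * Cmat p a b L ρ F u v) ∧ (∀ u v, ‖Amat p L F u v‖ ≤ 1)) ∧
  ∀ s : Fin 2, (∀ u v, ‖Amat p L (ax s F) u v‖ ≤ 1) ∧
    ∃ Cm : Matrix (Fin 1 → Fin L) (Fin 1 → Fin L) C, (∀ u v, ‖Cm u v‖ ≤ 1) ∧
    ∀ u v, Amat p L (ax s F) u v * ρ ^ ew a b (fun t => if t = s then pt v 0 else 0) =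
      ρ ^ (p * ew a b (fun t => if t = s then pt u 0 else 0)) * Cm u v

/-! ## Part E: edges of `P` -/

/-- **EDIV.** Multiplying by a series of `1 + X𝔪[[X]]` (after scaling) does not change the edge;
products of such series are such. Direction `←` of the first part: induction on the index. -/
def StmtEDIV : Prop := ∀ (C : Type) [NormedField C] [IsUltrametricDist C]
  (P D D' : PowerSeries C) (ϖ : C), ϖ ≠ 0 → USmall D ϖ →
  (∀ (M : ℕ) (χ : Polynomial (KK C)) (m0 : ℕ), Edge (P * D) ϖ M χ m0 ↔ Edge P ϖ M χ m0) ∧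
  (USmall D' ϖ → USmall (D * D') ϖ)

/-- **ECL.** Closeness. -/
def StmtECL : Prop := ∀ (C : Type) [NormedField C] [IsUltrametricDist C]
  (P P' : PowerSeries C) (ϖ : C) (M : ℕ) (χ : Polynomial (KK C)) (m0 : ℕ), ϖ ≠ 0 → ‖ϖ‖ ≤ 1 →
  (∀ n, n ≤ m0 → ‖PowerSeries.coeff n P - PowerSeries.coeff n P'‖ < ‖ϖ‖ ^ m0) →
  Edge P' ϖ M χ m0 → Edge P ϖ M χ m0

/-- **ROOTS**: see section 7, (10). `b_i = β_i/ϖ`, `c' = ∏_{‖b_i‖>1} b_i`,
`P(X/ϖ)/c'` is integral with reduction `(-X)^{#big} ∏_{‖b_i‖=1}(1 - red(b_i)X) ≠ 0`; the other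
scalar multiple `c P(X/ϖ)` is integral with reduction `X^M χ ≠ 0`; so the quotient of the scalars
is a unit; compare orders at `0`, degrees, and separability. -/
def StmtROOTS : Prop := ∀ (C : Type) [NormedField C] [IsUltrametricDist C]
  (β : Multiset C) (ϖ : C) (M : ℕ) (χ : Polynomial (KK C)) (m0 : ℕ), ϖ ≠ 0 →
  χ.Separable → χ.coeff 0 = 1 → Multiset.card β ≤ m0 → M + χ.natDegree ≤ m0 →
  Edge (revP β : PowerSeries C) ϖ M χ m0 →
  Multiset.card (β.filter fun x => ‖ϖ‖ < ‖x‖) = M ∧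
  Multiset.card (β.filter fun x => ‖x‖ = ‖ϖ‖) = χ.natDegree ∧
  (β.filter fun x => ‖x‖ = ‖ϖ‖).Nodup

/-- **EDGES** (from THETA, TRF, DEG, FIVE, WGT, CHI, LEAD, REIDX, EDGEM, SMALL, AFAC, EDIV, ECL,
TEX, TEMB, ZETA, AXI, EXT): formula (9). -/
def StmtEDGES : Prop := ∀ (p : ℕ) [Fact p.Prime] (a b : ℕ), 2 ≤ a → 2 ≤ b →
  Nat.lcm a b ∣ p - 1 →
  ∀ (C : Type) [NormedField C] [IsUltrametricDist C] [CharZero C] [IsAlgClosed C],
  ‖(p : C)‖ < 1 → ∀ j : ℤ_[p] →+* C, (∀ x, ‖j x‖ ≤ 1) →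
  ∀ (k : Type) [Field k] [Fintype k] [Algebra (ZMod p) k] (f : MvPolynomial (Fin 2) k),
  (∀ m ∈ f.support, ew a b m ≤ Nat.lcm a b) →
  (∀ m, 1 ≤ m → m ≤ Nat.lcm a b → (Polynomial.X *
    (Fprod p (Hmat p a b (Nat.lcm a b) m f) (Module.finrank (ZMod p) k)).charpoly).Separable) →
  ∀ (ψ : AddChar (ZMod p) C), ψ ≠ 1 → ∀ β : Multiset C,
  (∀ (E : Type) [Field E] [Fintype E] [Algebra (ZMod p) E] [Algebra k E],
    (β.map fun x => x ^ Module.finrank k E).sum = Sf ψ f E) →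
  ∀ ρ : C, ρ ^ Nat.lcm a b = ψ 1 - 1 → ∀ m, 1 ≤ m → m ≤ Nat.lcm a b → ∀ m0 : ℕ,
  ∃ χ : Polynomial (KK C), χ.Separable ∧ χ.coeff 0 = 1 ∧
    χ.natDegree = Fintype.card (Um a b (Nat.lcm a b) m) ∧
    Edge (revP β : PowerSeries C) (ρ ^ ((p - 1) * m * Module.finrank (ZMod p) k))
      (Fintype.card {u : Fin 2 → Fin (Nat.lcm a b) // ew a b (pt u) < m}) χ m0

/-- **COUNT.** The involution `(u₁,u₂) → (a-u₁,b-u₂)` of `[1,a-1]×[1,b-1]`, `e → 2D - e`; the sets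
`{e < D}`, `{e = D}` lie in this box. -/
def StmtCOUNT : Prop := ∀ (a b : ℕ), 2 ≤ a → 2 ≤ b →
  2 * Fintype.card {u : Fin 2 → Fin (Nat.lcm a b) // ew a b (pt u) < Nat.lcm a b} +
    Fintype.card (Um a b (Nat.lcm a b) (Nat.lcm a b)) = (a - 1) * (b - 1)

/-- **HALF** (from EDGES, ROOTS, ZETA): the `β` of norm `≥ ‖q‖`. `ρ^D = ψ(1) - 1`,
`‖ρ‖^{(p-1)Dh} = ‖p‖^h = ‖q‖`. -/
def StmtHALF : Prop := ∀ (p : ℕ) [Fact p.Prime] (a b : ℕ), 2 ≤ a → 2 ≤ b →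
  Nat.lcm a b ∣ p - 1 →
  ∀ (C : Type) [NormedField C] [IsUltrametricDist C] [CharZero C] [IsAlgClosed C],
  ‖(p : C)‖ < 1 → ∀ j : ℤ_[p] →+* C, (∀ x, ‖j x‖ ≤ 1) →
  ∀ (k : Type) [Field k] [Fintype k] [Algebra (ZMod p) k] (f : MvPolynomial (Fin 2) k),
  (∀ m ∈ f.support, ew a b m ≤ Nat.lcm a b) →
  (∀ m, 1 ≤ m → m ≤ Nat.lcm a b → (Polynomial.X *
    (Fprod p (Hmat p a b (Nat.lcm a b) m f) (Module.finrank (ZMod p) k)).charpoly).Separable) →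
  ∀ (ψ : AddChar (ZMod p) C), ψ ≠ 1 → ∀ β : Multiset C,
  (∀ (E : Type) [Field E] [Fintype E] [Algebra (ZMod p) E] [Algebra k E],
    (β.map fun x => x ^ Module.finrank k E).sum = Sf ψ f E) →
  Multiset.card (β.filter fun x => ‖(Fintype.card k : C)‖ < ‖x‖) =
    Fintype.card {u : Fin 2 → Fin (Nat.lcm a b) // ew a b (pt u) < Nat.lcm a b} ∧
  Multiset.card (β.filter fun x => ‖x‖ = ‖(Fintype.card k : C)‖) =
    Fintype.card (Um a b (Nat.lcm a b) (Nat.lcm a b)) ∧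
  (β.filter fun x => ‖(Fintype.card k : C)‖ ≤ ‖x‖).Nodup

/-- **CORE** (from HALF, COUNT): the theorem over `C`, with duality
(HALF for `ψ⁻¹` and `q²/β`; `‖q²/β‖ > ‖q‖ ↔ ‖β‖ < ‖q‖`). -/
def StmtCORE : Prop := ∀ (p : ℕ) [Fact p.Prime] (a b : ℕ), 2 ≤ a → 2 ≤ b →
  Nat.lcm a b ∣ p - 1 →
  ∀ (C : Type) [NormedField C] [IsUltrametricDist C] [CharZero C] [IsAlgClosed C],
  ‖(p : C)‖ < 1 → ∀ j : ℤ_[p] →+* C, (∀ x, ‖j x‖ ≤ 1) →
  ∀ (k : Type) [Field k] [Fintype k] [Algebra (ZMod p) k] (f : MvPolynomial (Fin 2) k),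
  (∀ m ∈ f.support, ew a b m ≤ Nat.lcm a b) →
  (∀ m, 1 ≤ m → m ≤ Nat.lcm a b → (Polynomial.X *
    (Fprod p (Hmat p a b (Nat.lcm a b) m f) (Module.finrank (ZMod p) k)).charpoly).Separable) →
  ∀ (ψ : AddChar (ZMod p) C), ψ ≠ 1 → ∀ β : Multiset C, (∀ x ∈ β, x ≠ 0) →
  (∀ (E : Type) [Field E] [Fintype E] [Algebra (ZMod p) E] [Algebra k E],
    (β.map fun x => x ^ Module.finrank k E).sum = Sf ψ f E ∧
    ((Fintype.card k : C) ^ Module.finrank k E) ^ 2 *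
      (β.map fun x => (x⁻¹) ^ Module.finrank k E).sum = Sf ψ⁻¹ f E) →
  Multiset.card β = (a - 1) * (b - 1) ∧ β.Nodup

/-! ## Part K: from `K` to `C`, linear algebra -/

/-- **K2C.** Let `A` be the algebraic closure of `ℚ` in `K` (`algebraicClosure ℚ K`, algebraically
closed). The coefficients of `∏(1 - βX)` are given by Newton's recursion from the power sums,
which lie in `A`; so all `β` are in `A`. `A` embeds in `C`. -/
def StmtK2C : Prop := ∀ (K : Type*) [Field K] [IsAlgClosed K] [CharZero K] (C : Type) [Field C]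
  [IsAlgClosed C] [CharZero C] (β : Multiset K),
  (∀ j, 1 ≤ j → IsAlgebraic ℚ (β.map fun x => x ^ j).sum) →
  ∃ (A : Subfield K) (g : A →+* C), (∀ x : K, IsAlgebraic ℚ x → x ∈ A) ∧ ∀ x ∈ β, x ∈ A

/-- **LINALG.** `tr φ^j = ∑ β^j` over the roots of the charpoly, for `φ` and `φ⁻¹`. -/
def StmtLINALG : Prop := ∀ (K : Type*) [Field K] [IsAlgClosed K] (V : Type*) [AddCommGroup V]
  [Module K V] [FiniteDimensional K V] (φ : V ≃ₗ[K] V),
  (∀ x ∈ (LinearMap.charpoly (φ : V →ₗ[K] V)).roots, x ≠ 0) ∧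
  Multiset.card (LinearMap.charpoly (φ : V →ₗ[K] V)).roots = Module.finrank K V ∧
  (∀ j : ℕ, LinearMap.trace K V ((φ : V →ₗ[K] V) ^ j) =
    ((LinearMap.charpoly (φ : V →ₗ[K] V)).roots.map fun x => x ^ j).sum) ∧
  (∀ j : ℕ, LinearMap.trace K V ((φ.symm : V →ₗ[K] V) ^ j) =
    ((LinearMap.charpoly (φ : V →ₗ[K] V)).roots.map fun x => (x⁻¹) ^ j).sum) ∧
  ((LinearMap.charpoly (φ : V →ₗ[K] V)).roots.Nodup →
    (LinearMap.charpoly (φ : V →ₗ[K] V)).Separable)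

/-- **EXT.** Every degree occurs. -/
def StmtEXT : Prop := ∀ (p : ℕ) [Fact p.Prime] (k : Type) [Field k] [Fintype k]
  [Algebra (ZMod p) k] (j : ℕ), 1 ≤ j → ∃ (E : Type) (_ : Field E) (_ : Fintype E)
  (_ : Algebra (ZMod p) E) (_ : Algebra k E), Module.finrank k E = j

/-- **FINAL** (from CORE, K2C, LINALG, EXT): the theorem. -/
def StmtFINAL : Prop := ∀ (p : ℕ) [Fact p.Prime] (a b : ℕ), 2 ≤ a → 2 ≤ b →
  Nat.lcm a b ∣ p - 1 →
  ∀ (k : Type) [Field k] [Fintype k] [Algebra (ZMod p) k] (f : MvPolynomial (Fin 2) k),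
  (∀ m ∈ f.support, ew a b m ≤ Nat.lcm a b) →
  (∀ m, 1 ≤ m → m ≤ Nat.lcm a b → (Polynomial.X *
    (Fprod p (Hmat p a b (Nat.lcm a b) m f) (Module.finrank (ZMod p) k)).charpoly).Separable) →
  ∀ (K : Type*) [Field K] [IsAlgClosed K] [CharZero K] (ψ : AddChar (ZMod p) K), ψ ≠ 1 →
  ∀ (V : Type*) [AddCommGroup V] [Module K V] [FiniteDimensional K V] (φ : V ≃ₗ[K] V),
  (∀ (E : Type) [Field E] [Fintype E] [Algebra (ZMod p) E] [Algebra k E],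
    LinearMap.trace K V ((φ : V →ₗ[K] V) ^ Module.finrank k E) = Sf ψ f E ∧
    (Fintype.card E : K) ^ 2 *
      LinearMap.trace K V ((φ.symm : V →ₗ[K] V) ^ Module.finrank k E) = Sf ψ⁻¹ f E) →
  Module.finrank K V = (a - 1) * (b - 1) ∧ (LinearMap.charpoly (φ : V →ₗ[K] V)).Separable

/-- **COP.** The coprime case: (S) is automatic. `|U_m| ≤ 1`: from
`b u₁ + a u₂ = b v₁ + a v₂` one gets `a ∣ u₁ - v₁`; the only entry of `H_m` is
`binom(cm, (p-1)u₁/a) c_{a0}^{..} c_{0b}^{..} ≠ 0`, because `f₁ = c_{a0} x^a + c_{0b} y^b`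
(the only `(i,j)` with `b i + a j = ab` are `(a,0)`, `(0,b)`) and `cm ≤ p - 1`. -/
def StmtCOP : Prop := ∀ (p : ℕ) [Fact p.Prime] (a b : ℕ), 2 ≤ a → 2 ≤ b →
  Nat.Coprime a b → Nat.lcm a b ∣ p - 1 →
  ∀ (k : Type) [Field k] [Algebra (ZMod p) k] (f : MvPolynomial (Fin 2) k),
  f.coeff (Finsupp.single 0 a) ≠ 0 → f.coeff (Finsupp.single 1 b) ≠ 0 →
  ∀ h : ℕ, ∀ m, 1 ≤ m → m ≤ Nat.lcm a b → (Polynomial.X *
    (Fprod p (Hmat p a b (Nat.lcm a b) m f) h).charpoly).Separable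

end ASur
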