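import Pool.Agent.Lib.MP_b685ef_ag.AS.Spec

/-!
# MP_b685ef_ag, theorem AS: diagonal leading forms `α x^a + β y^b`
-/

set_option linter.all false

namespace ASur

open Finset

/-- The eigenvalue of `N_m` attached to `u ∈ U_m` for the leading form `α x^a + β y^b`:
`binom(cm, (p-1)u₁/a)^h · (α^{(q-1)/a})^{u₁} · (β^{(q-1)/b})^{u₂}`, `q = p^h`. -/
def gdiag (p a b h : ℕ) {k : Type} [Field k] {L : ℕ} (α β : k) (u : Fin 2 → Fin L) : k :=
  ((((p - 1) / Nat.lcm a b * ew a b (pt u)).choose ((p - 1) / a * pt u 0) : ℕ) : k) ^ h *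
    (α ^ ((p ^ h - 1) / a)) ^ pt u 0 * (β ^ ((p ^ h - 1) / b)) ^ pt u 1

/-- **DIAG.** `f₁^n = ∑_j binom(n,j) α^j β^{n-j} x^{aj} y^{b(n-j)}`, `n = cm`. If
`pu - v = (aj, b(n-j))` then `a ∣ p u₁ - v₁`, so `a ∣ u₁ - v₁` (`p = 1 mod a`), and
`1 ≤ u₁, v₁ < a` (as `e(u) ≤ D`, `u₂ ≥ 1`), so `u₁ = v₁` and `u = v` (same weight). So `H_m` is
diagonal with entries `binom(cm, (p-1)u₁/a) α^{(p-1)u₁/a} β^{(p-1)u₂/b}`, nonzero since
`cm ≤ p - 1`. `Fprod` of a diagonal matrix is diagonal with entries `∏_{i<h} d^{p^i}`;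
`∏_{i<h} B^{p^i} = B^h` for `B` in the prime field and
`(p-1)/a · (1 + p + ... + p^{h-1}) = (q-1)/a`. The charpoly of a diagonal matrix is
`∏ (X - d_u)`, so `X · charpoly` is separable iff the `d_u` are distinct and nonzero. -/
def StmtDIAG : Prop := ∀ (p : ℕ) [Fact p.Prime] (a b : ℕ), 2 ≤ a → 2 ≤ b →
  Nat.lcm a b ∣ p - 1 →
  ∀ (k : Type) [Field k] [Algebra (ZMod p) k] (f : MvPolynomial (Fin 2) k) (α β : k),
  α ≠ 0 → β ≠ 0 →
  lead a b f = MvPolynomial.monomial (Finsupp.single 0 a) α +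
    MvPolynomial.monomial (Finsupp.single 1 b) β →
  ∀ h m : ℕ, 1 ≤ m → m ≤ Nat.lcm a b →
  (∀ u v : Um a b (Nat.lcm a b) m, gdiag p a b h α β u.1 = gdiag p a b h α β v.1 → u = v) →
  (Polynomial.X * (Fprod p (Hmat p a b (Nat.lcm a b) m f) h).charpoly).Separable

/-- **DIAG2.** If `p - 1 ∣ h`, `α^{(q-1)/a}` has order `a` and `β^{(q-1)/b} = 1`, the values
`gdiag` are distinct on each `U_m`, `m ≤ D`: `B^h = 1` (Fermat, `B` is a nonzero element of the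
prime field because `cm ≤ p - 1`), and `A^{u₁} = A^{v₁}` with `1 ≤ u₁, v₁ < a` gives `u₁ = v₁`,
then `u = v` as the weights agree. -/
def StmtDIAG2 : Prop := ∀ (p : ℕ) [Fact p.Prime] (a b : ℕ), 2 ≤ a → 2 ≤ b →
  Nat.lcm a b ∣ p - 1 →
  ∀ (k : Type) [Field k] [Algebra (ZMod p) k] (α β : k) (h : ℕ), p - 1 ∣ h →
  orderOf (α ^ ((p ^ h - 1) / a)) = a → β ^ ((p ^ h - 1) / b) = 1 →
  ∀ m, 1 ≤ m → m ≤ Nat.lcm a b → ∀ u v : Um a b (Nat.lcm a b) m,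
  gdiag p a b h α β u.1 = gdiag p a b h α β v.1 → u = v

end ASur
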